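import Pool.Agent.TH996.Urn.Model

/-!
# From a bounded configuration a connected graph becomes monochromatic with positive probability
-/

namespace Pool.Agent.TH996.Urn

set_option linter.unusedSectionVars false

variable {V : Type} [Fintype V] {s : ℕ} (G : SimpleGraph V)

/-- the weights of the transition operator are nonnegative -/
theorem small_w_nonneg (x : Config V s) (v : V) (c : Fin s) :
    (0 : ℝ) ≤ (x v c : ℝ) / (total x : ℝ) := by positivity

theorem small_w_sum (x : Config V s) (h : 0 < total x) :
    ∑ v, ∑ c, (x v c : ℝ) / (total x : ℝ) = 1 := by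
  have h1 : (∑ v, ∑ c, (x v c : ℝ)) = (total x : ℝ) := by
    simp [total]
  have h2 : (0 : ℝ) < (total x : ℝ) := by exact_mod_cast h
  simp_rw [← Finset.sum_div]
  rw [h1, div_self h2.ne']

theorem small_w_sum_le (x : Config V s) :
    ∑ v, ∑ c, (x v c : ℝ) / (total x : ℝ) ≤ 1 := by
  rcases Nat.eq_zero_or_pos (total x) with h | h
  · simp [h]
  · exact (small_w_sum x h).le

theorem small_Pop_le_one (f : Config V s → ℝ) (hf : ∀ x, f x ≤ 1) (x : Config V s) :
    Pop G f x ≤ 1 := by
  refine le_trans ?_ (small_w_sum_le x)
  unfold Pop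
  refine Finset.sum_le_sum fun v _ => Finset.sum_le_sum fun c _ => ?_
  have h := small_w_nonneg x v c
  nlinarith [hf (step G x v c)]

theorem small_nm_le_one (x : Config V s) : nm x ≤ 1 := by
  unfold nm
  split_ifs <;> norm_num

theorem small_iter_le_one (n : ℕ) (x : Config V s) : (Pop G)^[n] nm x ≤ 1 := by
  induction n generalizing x with
  | zero => exact small_nm_le_one x
  | succ n ih =>
    rw [Function.iterate_succ_apply']
    exact small_Pop_le_one G _ ih x

theorem small_step_allMono {x : Config V s} (h : AllMono x) {v : V} {c : Fin s}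
    (hv : 0 < x v c) : AllMono (step G x v c) := by
  have key : ∀ u d, 0 < step G x v c u d → d = c := by
    intro u d hd
    unfold step at hd
    by_contra hne
    have hz : x u d = 0 := by
      by_contra h0
      exact hne (h u v d c (Nat.pos_of_ne_zero h0) hv)
    simp only [hne, if_false, hz] at hd
    split_ifs at hd <;> omega
  intro u w d e hd he
  rw [key u d hd, key w e he]

theorem small_iter_allMono (n : ℕ) {x : Config V s} (h : AllMono x) :
    (Pop G)^[n] nm x = 0 := by
  induction n generalizing x with
  | zero => simp [nm, h]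
  | succ n ih =>
    rw [Function.iterate_succ_apply']
    unfold Pop
    refine Finset.sum_eq_zero fun v _ => Finset.sum_eq_zero fun c _ => ?_
    rcases Nat.eq_zero_or_pos (x v c) with h0 | h0
    · simp [h0]
    · have := ih (small_step_allMono G h h0)
      unfold Pop at this
      rw [this, mul_zero]

theorem small_step_urnsMono {x : Config V s} (h : UrnsMono x) (v : V) (c : Fin s) :
    UrnsMono (step G x v c) := by
  intro u d e hd he
  unfold step at hd he
  by_cases hadj : G.Adj v u
  · simp only [hadj, if_true] at hd he
    by_cases hex : ∃ e, e ≠ c ∧ 0 < x u e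
    · simp only [hex, if_true] at hd he
      refine h u d e ?_ ?_
      · split_ifs at hd <;> omega
      · split_ifs at he <;> omega
    · simp only [hex, if_false] at hd he
      have key : ∀ d, 0 < (if d = c then x u d + 1 else x u d) → d = c := by
        intro d hd
        by_contra hne
        rw [if_neg hne] at hd
        exact hex ⟨d, hne, hd⟩
      rw [key d hd, key e he]
  · simp only [hadj, if_false] at hd he
    exact h u d e hd he

theorem small_step_self (x : Config V s) (v : V) (c d : Fin s) :
    step G x v c v d = x v d := by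
  simp [step]

theorem small_total_step (x : Config V s) (v : V) (c : Fin s) :
    total (step G x v c) ≤ total x + Fintype.card V := by
  have h1 : ∀ u, ∑ d, step G x v c u d ≤ ∑ d, x u d + 1 := by
    intro u
    have h2 : ∀ d, step G x v c u d ≤ x u d + (if d = c then 1 else 0) := by
      intro d
      unfold step
      split_ifs <;> omega
    refine (Finset.sum_le_sum fun d _ => h2 d).trans ?_
    rw [Finset.sum_add_distrib]
    simp
  unfold total
  refine (Finset.sum_le_sum fun u _ => h1 u).trans ?_
  rw [Finset.sum_add_distrib]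
  simp

open Classical in
/-- the potential of the urn at `u` -/
noncomputable def smallPhi (x : Config V s) (c : Fin s) (u : V) : ℕ :=
  (∑ d, if d = c then 0 else x u d) + (if x u c = 0 then 1 else 0)

/-- the potential -/
noncomputable def smallPot (x : Config V s) (c : Fin s) : ℕ := ∑ u, smallPhi x c u

theorem small_pot_le (x : Config V s) (c : Fin s) :
    smallPot x c ≤ total x + Fintype.card V := by
  unfold smallPot total
  have h1 : ∀ u, smallPhi x c u ≤ ∑ d, x u d + 1 := by
    intro u
    unfold smallPhi
    refine Nat.add_le_add (Finset.sum_le_sum fun d _ => ?_) ?_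
    · split_ifs <;> omega
    · split_ifs <;> omega
  refine (Finset.sum_le_sum fun u _ => h1 u).trans ?_
  rw [Finset.sum_add_distrib]
  simp

theorem small_step_ge (x : Config V s) (v u : V) (c : Fin s) :
    x u c ≤ step G x v c u c := by
  unfold step
  simp only [if_true]
  split_ifs <;> omega

theorem small_phi_step_le (x : Config V s) (v u : V) (c : Fin s) :
    smallPhi (step G x v c) c u ≤ smallPhi x c u := by
  unfold smallPhi
  refine Nat.add_le_add (Finset.sum_le_sum fun d _ => ?_) ?_
  · unfold step
    split_ifs <;> omega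
  · have := small_step_ge G x v u c
    split_ifs <;> omega

theorem small_phi_step_lt (x : Config V s) (v u : V) (c : Fin s) (hadj : G.Adj v u)
    (hu : x u c = 0) : smallPhi (step G x v c) c u < smallPhi x c u := by
  unfold smallPhi
  by_cases hex : ∃ e, e ≠ c ∧ 0 < x u e
  · refine Nat.add_lt_add_of_lt_of_le (Finset.sum_lt_sum (fun d _ => ?_) ?_) ?_
    · unfold step
      split_ifs <;> omega
    · obtain ⟨e, he, hpos⟩ := hex
      refine ⟨e, Finset.mem_univ _, ?_⟩
      have hex' : ∃ e, e ≠ c ∧ 0 < x u e := ⟨e, he, hpos⟩
      simp only [step, hadj, hex', he, if_true, if_false]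
      omega
    · have := small_step_ge G x v u c
      split_ifs <;> omega
  · refine Nat.add_lt_add_of_le_of_lt (Finset.sum_le_sum fun d _ => ?_) ?_
    · unfold step
      split_ifs <;> omega
    · have h1 : step G x v c u c = 1 := by
        simp only [step, hadj, hex, if_true, if_false, hu]
      rw [h1, hu]
      simp

theorem small_main (hG : G.Connected) (p : ℕ) : ∀ N : ℕ, ∃ δ : ℝ, 0 < δ ∧ δ ≤ 1 ∧
    ∀ (x : Config V s) (c : Fin s), UrnsMono x → (∃ v, 0 < x v c) → total x ≤ N →
      smallPot x c ≤ p → (Pop G)^[p] nm x ≤ 1 - δ := by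
  have hall : ∀ (x : Config V s) (c : Fin s), UrnsMono x → (∀ u, x u c ≠ 0) → AllMono x := by
    intro x c hx hu u w d e hd he
    rw [hx u d c hd (Nat.pos_of_ne_zero (hu u)), hx w e c he (Nat.pos_of_ne_zero (hu w))]
  induction p with
  | zero =>
    intro N
    refine ⟨1, one_pos, le_rfl, ?_⟩
    intro x c hx hv _ hp
    have h0 : smallPot x c = 0 := Nat.le_zero.mp hp
    have h1 : ∀ u, x u c ≠ 0 := by
      intro u hu
      have h2 : smallPhi x c u = 0 := by
        unfold smallPot at h0
        exact (Finset.sum_eq_zero_iff.mp h0) u (Finset.mem_univ _)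
      unfold smallPhi at h2
      rw [if_pos hu] at h2
      omega
    rw [small_iter_allMono G 0 (hall x c hx h1)]
    norm_num
  | succ p ih =>
    intro N
    obtain ⟨δ, hδ, hδ1, hrec⟩ := ih (N + Fintype.card V)
    have hN : (0 : ℝ) < (N : ℝ) + 1 := by positivity
    refine ⟨δ / (N + 1), by positivity, ?_, ?_⟩
    · rw [div_le_one hN]
      linarith [(Nat.cast_nonneg N : (0 : ℝ) ≤ N)]
    intro x c hx hv hN' hp
    by_cases hmono : AllMono x
    · rw [small_iter_allMono G (p + 1) hmono]
      have : δ / ((N : ℝ) + 1) ≤ 1 := by
        rw [div_le_one hN]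
        linarith [(Nat.cast_nonneg N : (0 : ℝ) ≤ N)]
      linarith
    · have hex : ∃ u, x u c = 0 := by
        by_contra hcon
        push Not at hcon
        exact hmono (hall x c hx hcon)
      obtain ⟨v0, hv0⟩ := hv
      obtain ⟨u0, hu0⟩ := hex
      obtain ⟨w⟩ := hG.preconnected v0 u0
      obtain ⟨d, -, hd1, hd2⟩ := w.exists_boundary_dart {v | 0 < x v c} hv0
        (by simp [hu0])
      have hadj := d.adj
      have hd1' : 0 < x d.fst c := hd1
      have hd2' : x d.snd c = 0 := by
        simpa using hd2
      set f := (Pop G)^[p] nm with hf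
      have hstep : f (step G x d.fst c) ≤ 1 - δ := by
        refine hrec _ c (small_step_urnsMono G hx _ _) ⟨d.fst, ?_⟩ ?_ ?_
        · rw [small_step_self]; exact hd1'
        · exact (small_total_step G x _ _).trans (by omega)
        · have : smallPot (step G x d.fst c) c < smallPot x c :=
            Finset.sum_lt_sum (fun u _ => small_phi_step_le G x _ u c)
              ⟨d.snd, Finset.mem_univ _, small_phi_step_lt G x _ _ c hadj hd2'⟩
          omega
      have htot : 0 < total x := by
        have h1 : x d.fst c ≤ ∑ c', x d.fst c' :=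
          Finset.single_le_sum (f := fun c' => x d.fst c') (fun _ _ => Nat.zero_le _)
            (Finset.mem_univ c)
        have h2 : ∑ c', x d.fst c' ≤ total x :=
          Finset.single_le_sum (f := fun v => ∑ c', x v c') (fun _ _ => Nat.zero_le _)
            (Finset.mem_univ d.fst)
        omega
      rw [Function.iterate_succ_apply']
      have e1 : 1 - Pop G f x = ∑ v, ∑ c', (x v c' : ℝ) / (total x : ℝ) *
          (1 - f (step G x v c')) := by
        rw [← small_w_sum x htot]
        unfold Pop
        rw [← Finset.sum_sub_distrib]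
        refine Finset.sum_congr rfl fun v _ => ?_
        rw [← Finset.sum_sub_distrib]
        refine Finset.sum_congr rfl fun c' _ => ?_
        rw [small_w_sum x htot]
        ring
      have hnn : ∀ v c', 0 ≤ (x v c' : ℝ) / (total x : ℝ) * (1 - f (step G x v c')) := by
        intro v c'
        refine mul_nonneg (small_w_nonneg x v c') ?_
        have := small_iter_le_one G p (step G x v c')
        rw [← hf] at this
        linarith
      have e2 : (x d.fst c : ℝ) / (total x : ℝ) * (1 - f (step G x d.fst c)) ≤
          ∑ v, ∑ c', (x v c' : ℝ) / (total x : ℝ) * (1 - f (step G x v c')) := by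
        refine le_trans ?_ (Finset.single_le_sum
          (f := fun v => ∑ c', (x v c' : ℝ) / (total x : ℝ) * (1 - f (step G x v c')))
          (fun v _ => Finset.sum_nonneg fun c' _ => hnn v c') (Finset.mem_univ d.fst))
        exact Finset.single_le_sum
          (f := fun c' => (x d.fst c' : ℝ) / (total x : ℝ) * (1 - f (step G x d.fst c')))
          (fun c' _ => hnn _ c') (Finset.mem_univ c)
      have e3 : (1 : ℝ) / (N + 1) ≤ (x d.fst c : ℝ) / (total x : ℝ) := by
        have h1 : (0 : ℝ) < (total x : ℝ) := by exact_mod_cast htot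
        have h2 : (1 : ℝ) ≤ (x d.fst c : ℝ) := by exact_mod_cast hd1'
        have h3 : (total x : ℝ) ≤ N := by exact_mod_cast hN'
        rw [div_le_div_iff₀ hN h1]
        nlinarith
      have e4 : δ / (N + 1) ≤ (x d.fst c : ℝ) / (total x : ℝ) *
          (1 - f (step G x d.fst c)) := by
        calc δ / (N + 1) = 1 / ((N : ℝ) + 1) * δ := by ring
          _ ≤ (x d.fst c : ℝ) / (total x : ℝ) * (1 - f (step G x d.fst c)) := by
            refine mul_le_mul e3 (by linarith) hδ.le (small_w_nonneg x _ _)
      linarith

theorem small_N (hG : G.Connected) (N₀ : ℕ) : ∃ δ : ℝ, 0 < δ ∧ δ < 1 ∧ ∃ T : ℕ,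
    ∀ x : Config V s, UrnsMono x → 0 < total x → total x ≤ N₀ →
      (Pop G)^[T] nm x ≤ 1 - δ := by
  obtain ⟨δ, hδ, hδ1, h⟩ := small_main (s := s) G hG (N₀ + Fintype.card V) N₀
  refine ⟨δ / 2, by positivity, by linarith, N₀ + Fintype.card V, ?_⟩
  intro x hx htot hN
  have hex : ∃ v c, 0 < x v c := by
    by_contra hcon
    push Not at hcon
    have : total x = 0 := by
      unfold total
      refine Finset.sum_eq_zero fun v _ => Finset.sum_eq_zero fun c _ => ?_
      have := hcon v c
      omega
    omega
  obtain ⟨v, c, hv⟩ := hex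
  have := h x c hx ⟨v, hv⟩ hN ((small_pot_le x c).trans (by omega))
  linarith

end Pool.Agent.TH996.Urn
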