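import Pool.Agent.TH996.Urn.Model

/-!
# No coexistence from convergence of the operator iterates
-/

set_option autoImplicit false
set_option linter.unusedSectionVars false

open MeasureTheory Filter Topology

namespace Pool.Agent.TH996.Urn

namespace Wrap

section

variable {V : Type} [Fintype V] {s : ℕ} (G : SimpleGraph V)

theorem step_self (x : Config V s) (v : V) (c : Fin s) : step G x v c v c = x v c := by
  unfold step
  rw [if_neg (G.irrefl)]

theorem step_mono {x : Config V s} {v : V} {c : Fin s} (hx : ∀ u d, 0 < x u d → d = c) :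
    ∀ u d, 0 < step G x v c u d → d = c := by
  intro u d h
  unfold step at h
  by_contra hd
  have hx0 : x u d = 0 := by
    by_contra h0
    exact hd (hx u d (Nat.pos_of_ne_zero h0))
  split_ifs at h <;> simp_all

theorem transProb_nonneg (x y : Config V s) : 0 ≤ transProb G x y := by
  unfold transProb
  refine Finset.sum_nonneg fun v _ => Finset.sum_nonneg fun c _ => ?_
  split_ifs
  · positivity
  · exact le_rfl

theorem transProb_zero {x y : Config V s} (h : ¬ ∃ v c, 0 < x v c ∧ y = step G x v c) :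
    transProb G x y = 0 := by
  unfold transProb
  refine Finset.sum_eq_zero fun v _ => Finset.sum_eq_zero fun c _ => ?_
  split_ifs with h1
  · have h2 : x v c = 0 := by
      by_contra h0
      exact h ⟨v, c, Nat.pos_of_ne_zero h0, h1.symm⟩
    rw [h2]
    simp
  · rfl

theorem Pop_nonneg {f : Config V s → ℝ} (hf : ∀ x, 0 ≤ f x) (x : Config V s) :
    0 ≤ Pop G f x := by
  unfold Pop
  refine Finset.sum_nonneg fun v _ => Finset.sum_nonneg fun c _ => ?_
  have := hf (step G x v c)
  positivity

theorem nm_nonneg (x : Config V s) : 0 ≤ nm x := by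
  unfold nm
  split_ifs <;> norm_num

/-- the transition operator as a sum over the next configuration -/
theorem tsum_trans {f : Config V s → ℝ} (hf : ∀ x, 0 ≤ f x) (x : Config V s) :
    ∑' y, ENNReal.ofReal (transProb G x y) * ENNReal.ofReal (f y) =
      ENNReal.ofReal (Pop G f x) := by
  classical
  have h1 : ∀ y, ENNReal.ofReal (transProb G x y) * ENNReal.ofReal (f y) =
      ∑ v, ∑ c, (if step G x v c = y then ENNReal.ofReal ((x v c : ℝ) / (total x : ℝ)) else 0) *
        ENNReal.ofReal (f y) := by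
    intro y
    unfold transProb
    rw [ENNReal.ofReal_sum_of_nonneg, Finset.sum_mul]
    · refine Finset.sum_congr rfl fun v _ => ?_
      rw [ENNReal.ofReal_sum_of_nonneg, Finset.sum_mul]
      · refine Finset.sum_congr rfl fun c _ => ?_
        split_ifs with h
        · rfl
        · rw [ENNReal.ofReal_zero]
      · intro c _
        split_ifs
        · positivity
        · exact le_rfl
    · intro v _
      refine Finset.sum_nonneg fun c _ => ?_
      split_ifs
      · positivity
      · exact le_rfl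
  simp_rw [h1]
  rw [Summable.tsum_finsetSum (fun _ _ => ENNReal.summable)]
  unfold Pop
  rw [ENNReal.ofReal_sum_of_nonneg]
  · refine Finset.sum_congr rfl fun v _ => ?_
    rw [Summable.tsum_finsetSum (fun _ _ => ENNReal.summable), ENNReal.ofReal_sum_of_nonneg]
    · refine Finset.sum_congr rfl fun c _ => ?_
      rw [tsum_eq_single (step G x v c)]
      · rw [if_pos rfl, ← ENNReal.ofReal_mul (by positivity)]
      · intro y hy
        rw [if_neg (Ne.symm hy), zero_mul]
    · intro c _
      have := hf (step G x v c)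
      positivity
  · intro v _
    refine Finset.sum_nonneg fun c _ => ?_
    have := hf (step G x v c)
    positivity

end

section

variable {V : Type} [Fintype V] {s : ℕ} {G : SimpleGraph V} {x₀ : Config V s}
  {Ω : Type} [MeasurableSpace Ω] {P : Measure Ω} [IsProbabilityMeasure P]
  {X : ℕ → Ω → Config V s} (hX : IsUrnProcess G x₀ P X)

include hX

theorem meas_hist (n : ℕ) (a : Fin (n + 1) → Config V s) :
    MeasurableSet {ω | ∀ i : Fin (n + 1), X i ω = a i} := by
  have h : {ω | ∀ i : Fin (n + 1), X i ω = a i} = ⋂ i : Fin (n + 1), {ω | X i ω = a i} := by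
    ext ω
    simp
  rw [h]
  exact MeasurableSet.iInter fun i => hX.meas i (a i)

/-- the law of two consecutive configurations -/
theorem pair (n : ℕ) (x y : Config V s) :
    P {ω | X n ω = x ∧ X (n + 1) ω = y} =
      P {ω | X n ω = x} * ENNReal.ofReal (transProb G x y) := by
  classical
  obtain ⟨S, hS⟩ : ∃ S : Set (Fin (n + 1) → Config V s), S = {a | a (Fin.last n) = x} := ⟨_, rfl⟩
  have hcount : S.Countable := Set.to_countable S
  have e1 : {ω | X n ω = x} = ⋃ a ∈ S, {ω | ∀ i : Fin (n + 1), X i ω = a i} := by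
    ext ω
    simp only [Set.mem_ofPred_eq, Set.mem_iUnion, exists_prop]
    constructor
    · intro h
      refine ⟨fun i => X i ω, ?_, fun i => rfl⟩
      rw [hS]
      exact h
    · rintro ⟨a, ha, h⟩
      rw [hS] at ha
      have h2 := h (Fin.last n)
      rw [Fin.val_last] at h2
      rw [h2]
      exact ha
  have e2 : {ω | X n ω = x ∧ X (n + 1) ω = y} =
      ⋃ a ∈ S, {ω | (∀ i : Fin (n + 1), X i ω = a i) ∧ X (n + 1) ω = y} := by
    ext ω
    simp only [Set.mem_ofPred_eq, Set.mem_iUnion, exists_prop]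
    constructor
    · intro h
      refine ⟨fun i => X i ω, ?_, fun i => rfl, h.2⟩
      rw [hS]
      exact h.1
    · rintro ⟨a, ha, h, hy⟩
      rw [hS] at ha
      have h2 := h (Fin.last n)
      rw [Fin.val_last] at h2
      rw [h2]
      exact ⟨ha, hy⟩
  have hd : ∀ a ∈ S, ∀ b ∈ S, a ≠ b → Disjoint {ω | ∀ i : Fin (n + 1), X i ω = a i}
      {ω | ∀ i : Fin (n + 1), X i ω = b i} := by
    intro a _ b _ hab
    rw [Set.disjoint_left]
    intro ω ha hb
    exact hab (funext fun i => (ha i).symm.trans (hb i))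
  have hSx : ∀ a ∈ S, a (Fin.last n) = x := by
    intro a ha
    rw [hS] at ha
    exact ha
  rw [e1, e2, measure_biUnion hcount, measure_biUnion hcount]
  · rw [← ENNReal.tsum_mul_right]
    congr 1
    funext a
    rw [hX.markov n a.1 y]
    rw [hSx a.1 a.2]
  · intro a ha b hb hab
    exact hd a ha b hb hab
  · intro a _
    exact meas_hist hX n a
  · intro a ha b hb hab
    refine (hd a ha b hb hab).mono ?_ ?_
    · intro ω h; exact h.1
    · intro ω h; exact h.1
  · intro a _
    have h : {ω | (∀ i : Fin (n + 1), X i ω = a i) ∧ X (n + 1) ω = y} =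
      {ω | ∀ i : Fin (n + 1), X i ω = a i} ∩ {ω | X (n + 1) ω = y} := rfl
    rw [h]
    exact (meas_hist hX n a).inter (hX.meas _ _)

/-- the law of the next configuration -/
theorem law_succ (n : ℕ) (y : Config V s) :
    P {ω | X (n + 1) ω = y} = ∑' x, P {ω | X n ω = x} * ENNReal.ofReal (transProb G x y) := by
  have e : {ω | X (n + 1) ω = y} = ⋃ x, {ω | X n ω = x ∧ X (n + 1) ω = y} := by
    ext ω
    simp
  rw [e, measure_iUnion]
  · exact tsum_congr fun x => pair hX n x y
  · intro a b hab
    rw [Function.onFun, Set.disjoint_left]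
    intro ω ha hb
    exact hab (ha.1.symm.trans hb.1)
  · intro x
    exact (hX.meas n x).inter (hX.meas (n + 1) y)

/-- expectations -/
theorem exp_succ (n : ℕ) {f : Config V s → ℝ} (hf : ∀ x, 0 ≤ f x) :
    ∑' y, P {ω | X (n + 1) ω = y} * ENNReal.ofReal (f y) =
      ∑' x, P {ω | X n ω = x} * ENNReal.ofReal (Pop G f x) := by
  have h1 : ∀ y, P {ω | X (n + 1) ω = y} * ENNReal.ofReal (f y) =
      ∑' x, P {ω | X n ω = x} *
        (ENNReal.ofReal (transProb G x y) * ENNReal.ofReal (f y)) := by
    intro y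
    rw [law_succ hX, ← ENNReal.tsum_mul_right]
    exact tsum_congr fun x => mul_assoc _ _ _
  simp_rw [h1]
  rw [ENNReal.tsum_comm]
  refine tsum_congr fun x => ?_
  rw [ENNReal.tsum_mul_left, tsum_trans G hf]

theorem law_zero (x : Config V s) (hx : x ≠ x₀) : P {ω | X 0 ω = x} = 0 := by
  have h1 := hX.init
  have h2 : P {ω | X 0 ω = x₀}ᶜ = 0 := by
    rw [prob_compl_eq_zero_iff (hX.meas 0 x₀)]
    exact h1
  refine measure_mono_null ?_ h2
  intro ω h h3
  exact hx (h.symm.trans h3)

theorem exp_iter (t : ℕ) : ∀ {f : Config V s → ℝ}, (∀ x, 0 ≤ f x) →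
    ∑' y, P {ω | X t ω = y} * ENNReal.ofReal (f y) =
      ENNReal.ofReal ((Pop G)^[t] f x₀) := by
  induction t with
  | zero =>
    intro f hf
    rw [tsum_eq_single x₀, hX.init, one_mul]
    · rfl
    · intro y hy
      rw [law_zero hX y hy, zero_mul]
  | succ t ih =>
    intro f hf
    rw [exp_succ hX t hf, ih (fun x => Pop_nonneg G hf x), Function.iterate_succ_apply]

/-- the probability that two colours are present -/
theorem prob_nm (t : ℕ) : P {ω | ¬ AllMono (X t ω)} = ENNReal.ofReal ((Pop G)^[t] nm x₀) := by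
  classical
  rw [← exp_iter hX t (fun x => nm_nonneg x)]
  have e : {ω | ¬ AllMono (X t ω)} = ⋃ x, {ω | X t ω = x ∧ ¬ AllMono x} := by
    ext ω
    simp
  rw [e, measure_iUnion]
  · refine tsum_congr fun x => ?_
    unfold nm
    by_cases h : AllMono x
    · rw [if_pos h, ENNReal.ofReal_zero, mul_zero]
      have : {ω | X t ω = x ∧ ¬ AllMono x} = ∅ := by
        ext ω
        simp [h]
      rw [this, measure_empty]
    · rw [if_neg h, ENNReal.ofReal_one, mul_one]
      have : {ω | X t ω = x ∧ ¬ AllMono x} = {ω | X t ω = x} := by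
        ext ω
        simp [h]
      rw [this]
  · intro a b hab
    rw [Function.onFun, Set.disjoint_left]
    intro ω ha hb
    exact hab (ha.1.symm.trans hb.1)
  · intro x
    by_cases h : AllMono x
    · have : {ω | X t ω = x ∧ ¬ AllMono x} = ∅ := by
        ext ω
        simp [h]
      rw [this]
      exact MeasurableSet.empty
    · have : {ω | X t ω = x ∧ ¬ AllMono x} = {ω | X t ω = x} := by
        ext ω
        simp [h]
      rw [this]
      exact hX.meas t x

/-- almost surely every transition is a step -/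
theorem ae_step : ∀ᵐ ω ∂P, ∀ n, ∃ v c, 0 < X n ω v c ∧ X (n + 1) ω = step G (X n ω) v c := by
  rw [ae_all_iff]
  intro n
  rw [ae_iff]
  have e : {ω | ¬ ∃ v c, 0 < X n ω v c ∧ X (n + 1) ω = step G (X n ω) v c} ⊆
      ⋃ x, ⋃ y, {ω | (X n ω = x ∧ X (n + 1) ω = y) ∧
        ¬ ∃ v c, 0 < x v c ∧ y = step G x v c} := by
    intro ω h
    simp only [Set.mem_iUnion]
    exact ⟨X n ω, X (n + 1) ω, ⟨rfl, rfl⟩, h⟩
  refine measure_mono_null e ?_
  rw [measure_iUnion_null_iff]
  intro x
  rw [measure_iUnion_null_iff]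
  intro y
  by_cases h : ∃ v c, 0 < x v c ∧ y = step G x v c
  · have : {ω | (X n ω = x ∧ X (n + 1) ω = y) ∧ ¬ ∃ v c, 0 < x v c ∧ y = step G x v c} = ∅ := by
      ext ω
      simp only [Set.mem_ofPred_eq, Set.mem_empty_iff_false, iff_false]
      intro h2
      exact h2.2 h
    rw [this, measure_empty]
  · refine measure_mono_null (t := {ω | X n ω = x ∧ X (n + 1) ω = y}) (fun ω h => h.1) ?_
    rw [pair hX, transProb_zero G h, ENNReal.ofReal_zero, mul_zero]

end

end Wrap

variable {V : Type} [Fintype V] {s : ℕ} (G : SimpleGraph V)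

theorem wrap (x₀ : Config V s) (hx₀ : UrnsMono x₀) (h0 : 0 < total x₀)
    (H : Tendsto (fun t => (Pop G)^[t] nm x₀) atTop (𝓝 0))
    {Ω : Type} [MeasurableSpace Ω] (P : Measure Ω) [IsProbabilityMeasure P]
    (X : ℕ → Ω → Config V s) (hX : IsUrnProcess G x₀ P X) :
    ∀ᵐ ω ∂P, ∃! c, Survives X ω c := by
  have h1 : ∀ᵐ ω ∂P, ∃ t, AllMono (X t ω) := by
    rw [ae_iff]
    have h2 : ∀ t, P {ω | ¬ ∃ t, AllMono (X t ω)} ≤ ENNReal.ofReal ((Pop G)^[t] nm x₀) := by
      intro t
      rw [← Wrap.prob_nm hX t]
      apply measure_mono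
      intro ω h h3
      exact h ⟨t, h3⟩
    have h3 : Tendsto (fun t => ENNReal.ofReal ((Pop G)^[t] nm x₀)) atTop (𝓝 0) := by
      have := ENNReal.tendsto_ofReal H
      rwa [ENNReal.ofReal_zero] at this
    exact le_antisymm (ge_of_tendsto' h3 h2) bot_le
  filter_upwards [h1, Wrap.ae_step hX] with ω ht hs
  obtain ⟨t, ht⟩ := ht
  obtain ⟨v, c, hvc, -⟩ := hs t
  have key : ∀ m, t ≤ m → ∀ u d, 0 < X m ω u d → d = c := by
    intro m hm
    induction m, hm using Nat.le_induction with
    | base =>
      intro u d h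
      exact ht u v d c h hvc
    | succ m hm ih =>
      obtain ⟨v', c', hvc', hst⟩ := hs m
      have hc : c' = c := ih v' c' hvc'
      subst hc
      rw [hst]
      exact Wrap.step_mono G ih
  refine ⟨c, ?_, ?_⟩
  · intro n
    refine ⟨max n t, le_max_left _ _, ?_⟩
    obtain ⟨v', c', hvc', -⟩ := hs (max n t)
    have hc : c' = c := key _ (le_max_right _ _) v' c' hvc'
    subst hc
    exact ⟨v', hvc'⟩
  · intro d hd
    obtain ⟨m, hm, u, hu⟩ := hd t
    exact key m hm u d hu

end Pool.Agent.TH996.Urn
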