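import Pool.Agent.TH996.Urn.Basic
import Pool.Agent.TH996.Urn.Small
import Pool.Agent.TH996.Urn.Wrap

/-!
# A Lyapunov criterion for no coexistence
-/

open Finset Filter Topology

namespace Pool.Agent.TH996.Urn

variable {V : Type} [Fintype V] {s : ℕ}

/-- `∑_{i < t} c / (N + D i)` -/
noncomputable def critS (c : ℝ) (D t N : ℕ) : ℝ := ∑ i ∈ range t, c / ((N : ℝ) + D * i)

theorem critS_nonneg {c : ℝ} (hc : 0 ≤ c) (D t N : ℕ) : 0 ≤ critS c D t N :=
  Finset.sum_nonneg (fun i _ => by positivity)

theorem critS_anti {c : ℝ} (hc : 0 ≤ c) (D t : ℕ) {N N' : ℕ} (h : N ≤ N') (hN : 0 < N) :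
    critS c D t N' ≤ critS c D t N := by
  refine Finset.sum_le_sum (fun i _ => ?_)
  have h1 : (N : ℝ) ≤ N' := by exact_mod_cast h
  have h2 : (0 : ℝ) < N := by exact_mod_cast hN
  gcongr

theorem critS_succ (c : ℝ) (D t N : ℕ) :
    critS c D (t + 1) N = c / (N : ℝ) + critS c D t (N + D) := by
  unfold critS
  rw [Finset.sum_range_succ', add_comm]
  congr 1
  · simp
  · refine Finset.sum_congr rfl (fun i _ => ?_)
    push_cast
    congr 1
    ring

theorem critS_tendsto {c : ℝ} (hc : 0 < c) (D : ℕ) {N : ℕ} (hN : 0 < N) :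
    Tendsto (fun t => critS c D t N) atTop atTop := by
  have h1 : Tendsto (fun t : ℕ => ∑ i ∈ range t, (1 : ℝ) / ((i : ℝ) + 1)) atTop atTop :=
    Real.tendsto_sum_range_one_div_nat_succ_atTop
  have h3 : (0 : ℝ) < N := by exact_mod_cast hN
  have h2 : Tendsto (fun t : ℕ => c / (N + D) * ∑ i ∈ range t, (1 : ℝ) / ((i : ℝ) + 1))
      atTop atTop := h1.const_mul_atTop (by positivity)
  refine tendsto_atTop_mono (fun t => ?_) h2
  unfold critS
  rw [Finset.mul_sum]
  refine Finset.sum_le_sum (fun i _ => ?_)
  rw [div_mul_div_comm, mul_one]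
  apply div_le_div_of_nonneg_left hc.le (by positivity)
  have h4 : (0 : ℝ) ≤ i := by positivity
  have h5 : (0 : ℝ) ≤ D := by positivity
  nlinarith [mul_nonneg h3.le h4]

theorem crit_hlim_mono (G : SimpleGraph V) {x : Config V s} (ha : AllMono x) : hlim G x = 0 := by
  have h1 := hlim_le_nm G x
  unfold nm at h1
  rw [if_pos ha] at h1
  exact le_antisymm h1 (hlim_nonneg _ x)

/-- one round of the iteration -/
theorem crit_round (G : SimpleGraph V) (hG : G.Connected) (f : Config V s → ℝ)
    (hf : ∀ x, 0 ≤ f x) (c : ℝ) (hc : 0 < c) (N₀ : ℕ)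
    (h : ∀ x : Config V s, Good x → ¬ AllMono x → N₀ ≤ total x →
      Pop G f x ≤ f x - c / (total x : ℝ)) :
    ∃ δ : ℝ, 0 < δ ∧ δ < 1 ∧ ∀ M : ℝ, 0 ≤ M →
      (∀ x : Config V s, Good x → hlim G x ≤ M) →
      ∀ x : Config V s, Good x → hlim G x ≤ (1 - δ) * M := by
  classical
  obtain ⟨δ, hδ, hδ1, T, hT⟩ := small_N (s := s) G hG N₀
  refine ⟨δ, hδ, hδ1, fun M hM0 hM x hx => ?_⟩
  have hδM : 0 ≤ (1 - δ) * M := mul_nonneg (by linarith) hM0
  have hM' : ∀ x : Config V s, Good x → True → hlim G x ≤ M * nm x := by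
    intro x hx _
    by_cases ha : AllMono x
    · rw [crit_hlim_mono G ha]
      exact mul_nonneg hM0 (nm_nonneg x)
    · unfold nm
      rw [if_neg ha, mul_one]
      exact hM x hx
  have hsmall : ∀ x : Config V s, Good x → total x ≤ N₀ → hlim G x ≤ (1 - δ) * M := by
    intro x hx hN
    have h1 := hlim_le_iter G (fun _ => True) (fun x _ _ v c hv => trivial) hM' T x hx trivial
    have h2 := hT x hx.1 hx.2 hN
    nlinarith
  have main : ∀ t : ℕ, ∀ x : Config V s, Good x →
      (hlim G x - (1 - δ) * M) * critS c (Fintype.card V) t (total x) ≤ M * f x := by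
    intro t
    induction t with
    | zero =>
      intro x _
      have : critS c (Fintype.card V) 0 (total x) = 0 := by simp [critS]
      rw [this, mul_zero]
      exact mul_nonneg hM0 (hf _)
    | succ t ih =>
      intro x hx
      have hrhs : 0 ≤ M * f x := mul_nonneg hM0 (hf _)
      have hSn := critS_nonneg hc.le (Fintype.card V) (t + 1) (total x)
      by_cases ha : AllMono x
      · rw [crit_hlim_mono G ha]
        nlinarith
      rcases Nat.lt_or_ge N₀ (total x) with hN | hN
      swap
      · have := hsmall x hx hN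
        nlinarith
      have hNpos : 0 < total x := hx.2
      rw [critS_succ]
      set w : Config V s → ℝ := fun y => hlim G y - (1 - δ) * M with hw
      have hw1 : w x ≤ M := by
        have h1 := hM x hx
        simp only [hw]; linarith
      have hwP : Pop G w x = w x := by
        have h1 := hlim_harmonic G hx
        have h2 := Pop_const G ((1 - δ) * M) hx.2
        unfold Pop at h1 h2 ⊢
        simp only [hw, mul_sub, Finset.sum_sub_distrib]
        rw [h1, h2]
      have hdr := h x hx ha hN.le
      have hterm : Pop G (fun y => w y * critS c (Fintype.card V) t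
          (total x + Fintype.card V)) x ≤ Pop G (fun y => M * f y) x := by
        refine Pop_le G (fun v c' h0 => ?_)
        have hgood := step_good G hx h0
        have h6 := ih _ hgood
        have hr : 0 ≤ M * f (step G x v c') := mul_nonneg hM0 (hf _)
        have hSn' := critS_nonneg hc.le (Fintype.card V) t (total x + Fintype.card V)
        rcases le_or_gt (w (step G x v c')) 0 with hwn | hwp
        · nlinarith
        · refine le_trans ?_ h6
          apply mul_le_mul_of_nonneg_left _ hwp.le
          exact critS_anti hc.le _ t (small_total_step G x v c') hgood.2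
      have hcomm : Pop G (fun y => w y * critS c (Fintype.card V) t
          (total x + Fintype.card V)) x = w x * critS c (Fintype.card V) t
          (total x + Fintype.card V) := by
        have h7 := Pop_mul G (critS c (Fintype.card V) t (total x + Fintype.card V)) w x
        rw [hwP, mul_comm] at h7
        rw [← h7]
        congr 1
        funext y
        ring
      rw [hcomm, Pop_mul] at hterm
      have hNr : (0 : ℝ) < total x := by exact_mod_cast hNpos
      have hcN : 0 < c / (total x : ℝ) := by positivity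
      have e1 : w x * (c / (total x : ℝ)) ≤ M * (c / (total x : ℝ)) :=
        mul_le_mul_of_nonneg_right hw1 hcN.le
      have e2 : M * Pop G f x ≤ M * (f x - c / (total x : ℝ)) :=
        mul_le_mul_of_nonneg_left hdr hM0
      show w x * (c / (total x : ℝ) + critS c (Fintype.card V) t
        (total x + Fintype.card V)) ≤ _
      nlinarith
  -- conclusion
  by_contra hcon
  push Not at hcon
  have hpos : 0 < hlim G x - (1 - δ) * M := by linarith
  have ht := (critS_tendsto hc (Fintype.card V) hx.2).const_mul_atTop hpos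
  have hev := (tendsto_atTop.1 ht) (M * f x + 1)
  obtain ⟨t, hev⟩ := hev.exists
  have := main t x hx
  linarith

theorem criterion (G : SimpleGraph V) (hG : G.Connected) (f : Config V s → ℝ) (hf : ∀ x, 0 ≤ f x)
    (c : ℝ) (hc : 0 < c) (N₀ : ℕ)
    (h : ∀ x : Config V s, Good x → ¬ AllMono x → N₀ ≤ total x →
      Pop G f x ≤ f x - c / (total x : ℝ)) : InClass G s := by
  obtain ⟨δ, hδ, hδ1, hround⟩ := crit_round G hG f hf c hc N₀ h
  have key : ∀ j : ℕ, ∀ x : Config V s, Good x → hlim G x ≤ (1 - δ) ^ j := by
    intro j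
    induction j with
    | zero =>
      intro x _
      rw [pow_zero]
      exact (hlim_le_nm _ x).trans (nm_le_one x)
    | succ j ihj =>
      intro x hx
      rw [pow_succ, mul_comm]
      exact hround ((1 - δ) ^ j) (pow_nonneg (by linarith) j) ihj x hx
  intro x₀ hx₀ h0 Ω _ P _ X hX
  have h1 : Tendsto (fun j : ℕ => (1 - δ) ^ j) atTop (𝓝 0) :=
    tendsto_pow_atTop_nhds_zero_of_lt_one (by linarith) (by linarith)
  have h3 : hlim G x₀ = 0 :=
    le_antisymm (ge_of_tendsto' h1 (fun j => key j x₀ ⟨hx₀, h0⟩)) (hlim_nonneg _ x₀)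
  have h2 := hlim_tendsto G (x := x₀) ⟨hx₀, h0⟩
  rw [h3] at h2
  exact wrap _ x₀ hx₀ h0 h2 P X hX

end Pool.Agent.TH996.Urn
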