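import Pool.Agent.TH996.Urn.Model

/-!
# Basic facts on the multi-type urn process
-/

open Finset Filter Topology

namespace Pool.Agent.TH996.Urn

variable {V : Type} [Fintype V] {s : ℕ} (G : SimpleGraph V)

/-- configurations which can occur: monochromatic urns, at least one ball -/
def Good (x : Config V s) : Prop := UrnsMono x ∧ 0 < total x

theorem step_of_not_adj {x : Config V s} {v u : V} {c d : Fin s} (h : ¬ G.Adj v u) :
    step G x v c u d = x u d := by
  unfold step; simp [h]

theorem step_self (x : Config V s) (v : V) (c d : Fin s) : step G x v c v d = x v d :=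
  step_of_not_adj G (G.loopless.irrefl v)

theorem le_total (x : Config V s) (v : V) (c : Fin s) : x v c ≤ total x := by
  unfold total
  calc x v c ≤ ∑ c, x v c := Finset.single_le_sum (f := fun c => x v c) (fun _ _ => Nat.zero_le _) (Finset.mem_univ c)
    _ ≤ _ := Finset.single_le_sum (f := fun v => ∑ c, x v c) (fun _ _ => Nat.zero_le _) (Finset.mem_univ v)

theorem total_pos_iff (x : Config V s) : 0 < total x ↔ ∃ v c, 0 < x v c := by
  constructor
  · intro h
    by_contra hc
    push Not at hc
    have : total x = 0 := by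
      unfold total
      exact Finset.sum_eq_zero (fun v _ => Finset.sum_eq_zero (fun c _ => by have := hc v c; omega))
    omega
  · rintro ⟨v, c, h⟩
    exact lt_of_lt_of_le h (le_total x v c)

theorem step_urnsMono {x : Config V s} (hx : UrnsMono x) (v : V) (c : Fin s) :
    UrnsMono (step G x v c) := by
  classical
  intro u d e hd he
  unfold step at hd he
  by_cases ha : G.Adj v u
  · simp only [ha, if_true] at hd he
    by_cases hex : ∃ e, e ≠ c ∧ 0 < x u e
    · simp only [hex, if_true] at hd he
      apply hx u d e
      · split_ifs at hd <;> omega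
      · split_ifs at he <;> omega
    · simp only [hex, if_false] at hd he
      push Not at hex
      have h1 : ∀ f, f ≠ c → x u f = 0 := fun f hf => by have := hex f hf; omega
      have hdc : d = c := by
        by_contra hne
        rw [if_neg hne, h1 d hne] at hd
        omega
      have hec : e = c := by
        by_contra hne
        rw [if_neg hne, h1 e hne] at he
        omega
      rw [hdc, hec]
  · simp only [ha, if_false] at hd he
    exact hx u d e hd he

theorem step_good {x : Config V s} (hx : Good x) {v : V} {c : Fin s} (hv : 0 < x v c) :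
    Good (step G x v c) :=
  ⟨step_urnsMono G hx.1 v c, (total_pos_iff _).2 ⟨v, c, by rw [step_self]; exact hv⟩⟩

theorem step_allMono {x : Config V s} (hx : AllMono x) {v : V} {c : Fin s} (hv : 0 < x v c) :
    AllMono (step G x v c) := by
  classical
  have key : ∀ u d, 0 < step G x v c u d → d = c := by
    intro u d hd
    unfold step at hd
    by_cases ha : G.Adj v u
    · simp only [ha, if_true] at hd
      by_cases hex : ∃ e, e ≠ c ∧ 0 < x u e
      · obtain ⟨e, he, he'⟩ := hex
        exact absurd (hx u v e c he' hv) he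
      · simp only [hex, if_false] at hd
        by_contra hne
        rw [if_neg hne] at hd
        exact hex ⟨d, hne, hd⟩
    · simp only [ha, if_false] at hd
      exact hx u v d c hd hv
  intro u w d e hd he
  rw [key u d hd, key w e he]

theorem Pop_weight_nonneg (x : Config V s) (v : V) (c : Fin s) :
    0 ≤ (x v c : ℝ) / (total x : ℝ) := by positivity

theorem Pop_le {f g : Config V s → ℝ} {x : Config V s}
    (h : ∀ v c, 0 < x v c → f (step G x v c) ≤ g (step G x v c)) :
    Pop G f x ≤ Pop G g x := by
  unfold Pop
  refine Finset.sum_le_sum (fun v _ => Finset.sum_le_sum (fun c _ => ?_))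
  rcases Nat.eq_zero_or_pos (x v c) with h0 | h0
  · simp [h0]
  · exact mul_le_mul_of_nonneg_left (h v c h0) (Pop_weight_nonneg x v c)

theorem Pop_congr {f g : Config V s → ℝ} {x : Config V s}
    (h : ∀ v c, 0 < x v c → f (step G x v c) = g (step G x v c)) :
    Pop G f x = Pop G g x :=
  le_antisymm (Pop_le G (fun v c hv => (h v c hv).le)) (Pop_le G (fun v c hv => (h v c hv).ge))

theorem Pop_const (a : ℝ) {x : Config V s} (hx : 0 < total x) : Pop G (fun _ => a) x = a := by
  unfold Pop
  have : ∑ v, ∑ c, (x v c : ℝ) / (total x : ℝ) * a = (∑ v, ∑ c, (x v c : ℝ)) / (total x : ℝ) * a := by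
    rw [Finset.sum_div, Finset.sum_mul]
    refine Finset.sum_congr rfl (fun v _ => ?_)
    rw [Finset.sum_div, Finset.sum_mul]
  rw [this]
  have h2 : (∑ v, ∑ c, (x v c : ℝ)) = (total x : ℝ) := by
    unfold total; push_cast; rfl
  rw [h2, div_self (by positivity), one_mul]

theorem Pop_mul (a : ℝ) (f : Config V s → ℝ) (x : Config V s) :
    Pop G (fun y => a * f y) x = a * Pop G f x := by
  unfold Pop
  rw [Finset.mul_sum]
  refine Finset.sum_congr rfl (fun v _ => ?_)
  rw [Finset.mul_sum]
  exact Finset.sum_congr rfl (fun c _ => by ring)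

theorem nm_nonneg (x : Config V s) : 0 ≤ nm x := by
  unfold nm; split_ifs <;> norm_num

theorem nm_le_one (x : Config V s) : nm x ≤ 1 := by
  unfold nm; split_ifs <;> norm_num

theorem iter_nonneg (t : ℕ) (x : Config V s) : 0 ≤ (Pop G)^[t] nm x := by
  induction t generalizing x with
  | zero => exact nm_nonneg x
  | succ t ih =>
    rw [Function.iterate_succ_apply']
    unfold Pop
    exact Finset.sum_nonneg (fun v _ => Finset.sum_nonneg (fun c _ =>
      mul_nonneg (Pop_weight_nonneg x v c) (ih _)))

theorem iter_succ_le (t : ℕ) {x : Config V s} (hx : Good x) :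
    (Pop G)^[t + 1] nm x ≤ (Pop G)^[t] nm x := by
  classical
  induction t generalizing x with
  | zero =>
    simp only [zero_add, Function.iterate_one, Function.iterate_zero, id_eq]
    by_cases hm : AllMono x
    · have : Pop G nm x = Pop G (fun _ => (0:ℝ)) x := by
        apply Pop_congr
        intro v c hv
        unfold nm
        rw [if_pos (step_allMono G hm hv)]
      rw [this, Pop_const G 0 hx.2]
      exact nm_nonneg x
    · have : Pop G nm x ≤ Pop G (fun _ => (1:ℝ)) x := Pop_le G (fun v c _ => nm_le_one _)
      rw [Pop_const G 1 hx.2] at this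
      unfold nm
      rw [if_neg hm]
      exact this
  | succ t ih =>
    have e1 : (Pop G)^[t + 1 + 1] nm x = Pop G ((Pop G)^[t + 1] nm) x :=
      Function.iterate_succ_apply' (Pop G) (t + 1) nm ▸ rfl
    have e2 : (Pop G)^[t + 1] nm x = Pop G ((Pop G)^[t] nm) x :=
      Function.iterate_succ_apply' (Pop G) t nm ▸ rfl
    rw [e1, e2]
    exact Pop_le G (fun v c hv => ih (step_good G hx hv))

theorem iter_le_of_le {t t' : ℕ} (h : t ≤ t') {x : Config V s} (hx : Good x) :
    (Pop G)^[t'] nm x ≤ (Pop G)^[t] nm x := by
  induction t', h using Nat.le_induction with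
  | base => exact le_rfl
  | succ n _ ih => exact (iter_succ_le G n hx).trans ih

/-- the limit of the probabilities of not being monochromatic -/
noncomputable def hlim (x : Config V s) : ℝ := ⨅ t : ℕ, (Pop G)^[t] nm x

theorem hlim_tendsto {x : Config V s} (hx : Good x) :
    Tendsto (fun t => (Pop G)^[t] nm x) atTop (𝓝 (hlim G x)) := by
  apply tendsto_atTop_ciInf
  · exact antitone_nat_of_succ_le (fun t => iter_succ_le G t hx)
  · exact ⟨0, by rintro _ ⟨t, rfl⟩; exact iter_nonneg G t x⟩

theorem hlim_nonneg (x : Config V s) : 0 ≤ hlim G x :=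
  Real.iInf_nonneg (fun t => iter_nonneg G t x)

theorem hlim_le (t : ℕ) (x : Config V s) : hlim G x ≤ (Pop G)^[t] nm x :=
  ciInf_le ⟨0, by rintro _ ⟨t, rfl⟩; exact iter_nonneg G t x⟩ t

theorem hlim_le_nm (x : Config V s) : hlim G x ≤ nm x := hlim_le G 0 x

theorem hlim_harmonic {x : Config V s} (hx : Good x) : Pop G (hlim G) x = hlim G x := by
  have h1 : Tendsto (fun t => (Pop G)^[t+1] nm x) atTop (𝓝 (hlim G x)) :=
    (hlim_tendsto G hx).comp (tendsto_add_atTop_nat 1)
  have h2 : Tendsto (fun t => (Pop G)^[t+1] nm x) atTop (𝓝 (Pop G (hlim G) x)) := by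
    have : (fun t => (Pop G)^[t+1] nm x) = fun t => ∑ v, ∑ c, (x v c : ℝ) / (total x : ℝ) * (Pop G)^[t] nm (step G x v c) := by
      funext t
      rw [Function.iterate_succ_apply']
      rfl
    rw [this]
    unfold Pop
    refine tendsto_finsetSum _ (fun v _ => tendsto_finsetSum _ (fun c _ => ?_))
    rcases Nat.eq_zero_or_pos (x v c) with h0 | h0
    · simp [h0]
    · exact (hlim_tendsto G (step_good G hx h0)).const_mul _
  exact tendsto_nhds_unique h2 h1

/-- If `h ≤ M * nm` on a set of good configurations closed under the dynamics, then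
`h ≤ M * P^T nm` there. -/
theorem hlim_le_iter (K : Config V s → Prop)
    (hK : ∀ x, Good x → K x → ∀ v c, 0 < x v c → K (step G x v c)) {M : ℝ}
    (hM : ∀ x, Good x → K x → hlim G x ≤ M * nm x) (T : ℕ) :
    ∀ x, Good x → K x → hlim G x ≤ M * (Pop G)^[T] nm x := by
  induction T with
  | zero => exact hM
  | succ T ih =>
    intro x hx hKx
    rw [← hlim_harmonic G hx, Function.iterate_succ_apply', ← Pop_mul]
    exact Pop_le G (fun v c hv => ih _ (step_good G hx hv) (hK x hx hKx v c hv))

end Pool.Agent.TH996.Urn
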