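import Pool.Agent.TH996.Urn.CycDefs

/-!
# Edge signs and unit weights for a colouring of the cycle
-/

open Finset
namespace Pool.Agent.TH996.Urn
variable {n s : ℕ}

/-- the sign of an edge -/
noncomputable def gaugeT (C : Fin (n + 3) → Fin s) (k : ℕ) : ℂ :=
  if h : k < n + 3 then (if C ⟨k, h⟩ = C (⟨k, h⟩ + 1) then 1 else -1) else 1

theorem gaugeT_sq (C : Fin (n + 3) → Fin s) (k : ℕ) : gaugeT C k * gaugeT C k = 1 := by
  rw [gaugeT]
  split_ifs <;> norm_num

theorem gaugeT_prod_sq (C : Fin (n + 3) → Fin s) (k : ℕ) :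
    (∏ i ∈ range k, gaugeT C i) * (∏ i ∈ range k, gaugeT C i) = 1 := by
  rw [← Finset.prod_mul_distrib]
  exact Finset.prod_eq_one fun i _ => gaugeT_sq C i

theorem gaugeT_norm (C : Fin (n + 3) → Fin s) (k : ℕ) : ‖gaugeT C k‖ = 1 := by
  rw [gaugeT]
  split_ifs <;> simp

theorem gaugeT_total (C : Fin (n + 3) → Fin s) :
    ∏ i ∈ range (n + 3), gaugeT C i = (-1) ^ (chg C) := by
  rw [← Fin.prod_univ_eq_prod_range]
  have h1 : ∀ j : Fin (n + 3), gaugeT C j.val = if C j ≠ C (j + 1) then -1 else 1 := by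
    intro j
    rw [gaugeT, dif_pos j.2]
    by_cases h : C j = C (j + 1)
    · simp [h]
    · simp [h]
  rw [Finset.prod_congr rfl fun j _ => h1 j, Finset.prod_ite, Finset.prod_const_one, mul_one,
    Finset.prod_const, chg]

theorem gauge (C : Fin (n + 3) → Fin s) :
    ∃ (τ : Fin (n + 3) → ℤ) (η : Fin (n + 3) → ℂ), (∀ j, τ j = 1 ∨ τ j = -1) ∧
      Sgn τ C (fun _ => 1) ∧ (∀ j, ‖η j‖ = 1) ∧
      ∀ j, (τ j : ℂ) * η (j + 1) =
        (if Even (chg C) then 1 else Complex.exp (Real.pi / (n + 3) * Complex.I)) * η j := by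
  set om : ℂ := if Even (chg C) then 1 else Complex.exp (Real.pi / (n + 3) * Complex.I) with hom
  have hn3 : ((n : ℂ) + 3) ≠ 0 := by
    have : ((n + 3 : ℕ) : ℂ) ≠ 0 := Nat.cast_ne_zero.mpr (by omega)
    push_cast at this
    exact this
  have hnorm : ‖om‖ = 1 := by
    rw [hom]
    split_ifs
    · simp
    · have : (Real.pi / (n + 3) * Complex.I : ℂ) = ((Real.pi / (n + 3) : ℝ) : ℂ) * Complex.I := by
        push_cast; ring
      rw [this, Complex.norm_exp_ofReal_mul_I]
  have hpow : om ^ (n + 3) = (-1) ^ (chg C) := by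
    rw [hom]
    split_ifs with h
    · rw [one_pow, h.neg_one_pow]
    · rw [← Complex.exp_nat_mul, (Nat.not_even_iff_odd.mp h).neg_one_pow]
      have : ((n + 3 : ℕ) : ℂ) * (Real.pi / (n + 3) * Complex.I) = Real.pi * Complex.I := by
        push_cast
        field_simp
      rw [this, Complex.exp_pi_mul_I]
  let τ : Fin (n + 3) → ℤ := fun j => if C j = C (j + 1) then 1 else -1
  have hτ : ∀ j, τ j = 1 ∨ τ j = -1 := by
    intro j
    simp only [τ]
    split_ifs
    · exact Or.inl rfl
    · exact Or.inr rfl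
  have hτT : ∀ j : Fin (n + 3), (τ j : ℂ) = gaugeT C j.val := by
    intro j
    rw [gaugeT, dif_pos j.2]
    simp only [τ, Fin.eta]
    split_ifs <;> simp
  refine ⟨τ, fun j => om ^ j.val * ∏ i ∈ range j.val, gaugeT C i, hτ, ⟨fun _ => Or.inl rfl, ?_⟩,
    ?_, ?_⟩
  · intro j
    simp only [τ, one_mul]
  · intro j
    rw [norm_mul, norm_pow, hnorm, one_pow, one_mul, norm_prod]
    exact Finset.prod_eq_one fun i _ => gaugeT_norm C i
  · intro j
    rw [hτT]
    by_cases hj : j = Fin.last (n + 2)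
    · subst hj
      have h0 : (Fin.last (n + 2) + 1 : Fin (n + 3)) = 0 := Fin.last_add_one _
      simp only [h0, Fin.val_zero, pow_zero, Finset.range_zero, Finset.prod_empty, mul_one,
        Fin.val_last]
      have h1 := gaugeT_total C
      rw [Finset.prod_range_succ, ← hpow] at h1
      have h2 := gaugeT_prod_sq C (n + 2)
      calc gaugeT C (n + 2) = ((∏ i ∈ range (n + 2), gaugeT C i) *
            (∏ i ∈ range (n + 2), gaugeT C i)) * gaugeT C (n + 2) := by rw [h2, one_mul]
        _ = (∏ i ∈ range (n + 2), gaugeT C i) *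
            ((∏ i ∈ range (n + 2), gaugeT C i) * gaugeT C (n + 2)) := by ring
        _ = (∏ i ∈ range (n + 2), gaugeT C i) * om ^ (n + 3) := by rw [h1]
        _ = om * (om ^ (n + 2) * ∏ i ∈ range (n + 2), gaugeT C i) := by ring
    · have hlt : j < Fin.last (n + 2) := lt_of_le_of_ne (Fin.le_last j) hj
      have h1 : (j + 1).val = j.val + 1 := Fin.val_add_one_of_lt hlt
      simp only [h1]
      rw [Finset.prod_range_succ, pow_succ]
      have h2 := gaugeT_sq C j.val
      calc gaugeT C j.val * (om ^ j.val * om * ((∏ i ∈ range j.val, gaugeT C i) *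
            gaugeT C j.val)) = (gaugeT C j.val * gaugeT C j.val) *
            (om * (om ^ j.val * ∏ i ∈ range j.val, gaugeT C i)) := by ring
        _ = _ := by rw [h2, one_mul]

end Pool.Agent.TH996.Urn
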