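import Mathlib

/-!
# The analytic drift inequality for the Lyapunov function
-/

set_option autoImplicit false

namespace Pool.Agent.TH996.Urn

theorem drift_div {B y z : ℝ} (hB : 0 ≤ B) (hy : 0 < y) (hz : y / 2 ≤ z) :
    B / (y * z) ≤ 2 * B / y ^ 2 := by
  have h1 : y * (y / 2) ≤ y * z := mul_le_mul_of_nonneg_left hz hy.le
  have h2 : B / (y * z) ≤ B / (y * (y / 2)) :=
    div_le_div_of_nonneg_left hB (by positivity) h1
  have h3 : B / (y * (y / 2)) = 2 * B / y ^ 2 := by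
    field_simp
  rw [← h3]
  exact h2

/-- the pointwise bound -/
theorem drift_pt (lam C C₂ b N s d : ℝ) (hl : 1 < lam) (hC : 1 ≤ C) (hC2 : 0 ≤ C₂) (hb : 0 ≤ b)
    (hN : 0 < N) (hNC : 10 * lam ^ 2 + 4 * C ≤ C * N) (hs : |s| ≤ √b) (hd : |d| ≤ 2) :
    - Real.log (b + 2 * lam * s + lam ^ 2 + C * (N + d)) +
            C₂ * (N + d) / (b + 2 * lam * s + lam ^ 2 + C * (N + d)) ≤
      (- Real.log (b + C * N) + C₂ * N / (b + C * N)) +
        (-(2 * lam * s + lam ^ 2 + C * d) +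
          C₂ * (b * d - N * (2 * lam * s + lam ^ 2)) / (b + C * N)) / (b + C * N) +
        2 * ((8 * lam ^ 2 * b + 2 * (lam ^ 2 + 2 * C) ^ 2) * (1 + 2 * C₂ / C) + C₂ * C) /
          (b + C * N) ^ 2 := by
  set y := b + C * N with hy
  have hC0 : 0 < C := by linarith
  have hCN : 0 < C * N := mul_pos hC0 hN
  have hy0 : 0 < y := by linarith
  set δ := 2 * lam * s + lam ^ 2 + C * d with hδ
  have e1 : b + 2 * lam * s + lam ^ 2 + C * (N + d) = y + δ := by
    rw [hy, hδ]; ring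
  rw [e1]
  set r := √b with hr
  have hr0 : 0 ≤ r := Real.sqrt_nonneg b
  have hr2 : r ^ 2 = b := Real.sq_sqrt hb
  set R := 2 * lam * r + lam ^ 2 + 2 * C with hR
  have hR0 : 0 < R := by
    have := mul_nonneg (mul_nonneg (by norm_num : (0 : ℝ) ≤ 2) (by linarith : (0 : ℝ) ≤ lam)) hr0
    have := sq_nonneg lam
    linarith
  have hs1 := abs_le.1 hs
  have hd1 := abs_le.1 hd
  have hdb : |2 * lam * s + lam ^ 2| ≤ 2 * lam * r + lam ^ 2 := by
    rw [abs_le]
    constructor <;> nlinarith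
  have hδR : |δ| ≤ R := by
    have h1 : |δ| ≤ |2 * lam * s + lam ^ 2| + |C * d| := abs_add_le _ _
    have h2 : |C * d| ≤ 2 * C := by
      rw [abs_mul, abs_of_pos hC0]
      nlinarith
    linarith
  have hRy : R ≤ y / 2 := by
    have h1 : 0 ≤ (r / 2 - 2 * lam) ^ 2 := sq_nonneg _
    have h2 : (r / 2 - 2 * lam) ^ 2 = b / 4 - 2 * lam * r + 4 * lam ^ 2 := by
      rw [← hr2]; ring
    rw [h2] at h1
    linarith
  have hδ1 := abs_le.1 hδR
  have hy' : y / 2 ≤ y + δ := by linarith [hδ1.1]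
  have hy'0 : 0 < y + δ := by linarith
  set X := -δ + C₂ * (b * d - N * (2 * lam * s + lam ^ 2)) / y with hX
  have hXb : |X| ≤ R + C₂ * (2 + R / C) := by
    have h1 : |b * d - N * (2 * lam * s + lam ^ 2)| ≤ (2 + R / C) * y := by
      have h2 : |b * d - N * (2 * lam * s + lam ^ 2)| ≤
          |b * d| + |N * (2 * lam * s + lam ^ 2)| := abs_sub _ _
      have h3 : |b * d| ≤ b * 2 := by
        rw [abs_mul, abs_of_nonneg hb]
        exact mul_le_mul_of_nonneg_left hd hb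
      have h4 : |N * (2 * lam * s + lam ^ 2)| ≤ N * R := by
        rw [abs_mul, abs_of_pos hN]
        exact mul_le_mul_of_nonneg_left (by linarith) hN.le
      have h5 : (2 + R / C) * y = 2 * b + 2 * (C * N) + R / C * b + R * N := by
        rw [hy]
        field_simp
        ring
      have h6 : 0 ≤ R / C * b := mul_nonneg (div_nonneg hR0.le hC0.le) hb
      rw [h5]
      linarith
    have h7 : |C₂ * (b * d - N * (2 * lam * s + lam ^ 2)) / y| ≤ C₂ * (2 + R / C) := by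
      rw [abs_div, abs_mul, abs_of_nonneg hC2, abs_of_pos hy0, div_le_iff₀ hy0,
        mul_assoc C₂ (2 + R / C) y]
      exact mul_le_mul_of_nonneg_left h1 hC2
    calc |X| ≤ |-δ| + |C₂ * (b * d - N * (2 * lam * s + lam ^ 2)) / y| := abs_add_le _ _
      _ ≤ _ := by rw [abs_neg]; exact add_le_add hδR h7
  set B := (8 * lam ^ 2 * b + 2 * (lam ^ 2 + 2 * C) ^ 2) * (1 + 2 * C₂ / C) + C₂ * C with hB
  have hXδ : |X * δ| ≤ B := by
    have h1 : |X * δ| ≤ (R + C₂ * (2 + R / C)) * R := by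
      rw [abs_mul]
      exact mul_le_mul hXb hδR (abs_nonneg _) ((abs_nonneg _).trans hXb)
    have h2 : (R + C₂ * (2 + R / C)) * R = R ^ 2 + C₂ * (2 * R) + C₂ * (R ^ 2 / C) := by
      field_simp
      ring
    have h3 : 2 * R ≤ R ^ 2 / C + C := by
      have h4 : 0 ≤ (R - C) ^ 2 / C := div_nonneg (sq_nonneg _) hC0.le
      have h5 : (R - C) ^ 2 / C = R ^ 2 / C - 2 * R + C := by
        field_simp
        ring
      rw [h5] at h4
      linarith
    have h4 : C₂ * (2 * R) ≤ C₂ * (R ^ 2 / C + C) := mul_le_mul_of_nonneg_left h3 hC2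
    have h5 : R ^ 2 ≤ 8 * lam ^ 2 * b + 2 * (lam ^ 2 + 2 * C) ^ 2 := by
      have h6 : 0 ≤ (2 * lam * r - (lam ^ 2 + 2 * C)) ^ 2 := sq_nonneg _
      have h7 : 8 * lam ^ 2 * b + 2 * (lam ^ 2 + 2 * C) ^ 2 - R ^ 2 =
          (2 * lam * r - (lam ^ 2 + 2 * C)) ^ 2 := by
        rw [← hr2, hR]
        ring
      linarith
    have h6 : R ^ 2 * (1 + 2 * C₂ / C) ≤
        (8 * lam ^ 2 * b + 2 * (lam ^ 2 + 2 * C) ^ 2) * (1 + 2 * C₂ / C) := by
      apply mul_le_mul_of_nonneg_right h5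
      positivity
    have h7 : R ^ 2 * (1 + 2 * C₂ / C) = R ^ 2 + C₂ * (R ^ 2 / C) + C₂ * (R ^ 2 / C) := by
      field_simp
      ring
    calc |X * δ| ≤ R ^ 2 + C₂ * (2 * R) + C₂ * (R ^ 2 / C) := by rw [← h2]; exact h1
      _ ≤ R ^ 2 * (1 + 2 * C₂ / C) + C₂ * C := by rw [h7]; linarith
      _ ≤ B := by rw [hB]; linarith
  have hlog : - Real.log (y + δ) ≤ - Real.log y - δ / (y + δ) := by
    have h1 := Real.log_le_sub_one_of_pos (div_pos hy0 hy'0)
    rw [Real.log_div hy0.ne' hy'0.ne'] at h1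
    have h2 : y / (y + δ) - 1 = -(δ / (y + δ)) := by
      field_simp
      ring
    rw [h2] at h1
    linarith
  have hid : - (δ / (y + δ)) + C₂ * (N + d) / (y + δ) = C₂ * N / y + X / (y + δ) := by
    have h1 : d * y - N * δ = b * d - N * (2 * lam * s + lam ^ 2) := by
      rw [hy, hδ]; ring
    rw [hX, ← h1]
    field_simp
    ring
  have hXy : X / (y + δ) = X / y - X * δ / (y * (y + δ)) := by
    field_simp
    ring
  have hlast : - (X * δ / (y * (y + δ))) ≤ 2 * B / y ^ 2 := by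
    have hB0 : 0 ≤ B := (abs_nonneg _).trans hXδ
    have h1 : - (X * δ / (y * (y + δ))) ≤ B / (y * (y + δ)) := by
      rw [← neg_div]
      apply div_le_div_of_nonneg_right _ (mul_pos hy0 hy'0).le
      exact (neg_le_abs _).trans hXδ
    exact h1.trans (drift_div hB0 hy0 hy')
  linarith

/-- the averaged inequality -/
theorem drift_avg (lam C C₂ b N g B K : ℝ) (hC : 1 ≤ C) (hC2 : 0 ≤ C₂)
    (hb : 0 ≤ b) (hN : 0 < N) (hg : |g| ≤ 2)
    (hB : 2 * B = 16 * lam ^ 2 * b + C₂ * (lam - 1) * b + K)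
    (hK : K ≤ C * N) (hL1 : (2 * C + 2 * lam * C + 1) + 16 * lam ^ 2 ≤ C₂ * (lam - 1))
    (hL2 : (2 * C + 2 * lam * C + 1) * C ≤ C₂ * lam ^ 2) :
    (-(2 * lam * (b / N) + lam ^ 2 + C * g) +
      C₂ * (b * g - N * (2 * lam * (b / N) + lam ^ 2)) / (b + C * N)) / (b + C * N) +
        2 * B / (b + C * N) ^ 2 ≤ - (2 * lam / N) := by
  have hC0 : 0 < C := by linarith
  have hCN : 0 < C * N := mul_pos hC0 hN
  obtain ⟨t, ht⟩ : ∃ t, t = b / N := ⟨_, rfl⟩
  have htN : b = t * N := by rw [ht]; field_simp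
  rw [← ht]
  obtain ⟨y, hy⟩ : ∃ y, y = b + C * N := ⟨_, rfl⟩
  rw [← hy]
  have hy0 : 0 < y := by linarith
  have hyN : y = N * (t + C) := by rw [hy, htN]; ring
  have hg1 := abs_le.1 hg
  have hQ : -(lam ^ 2 + C * g) * y + C₂ * (b * g - 2 * lam * b - N * lam ^ 2) +
      2 * B + 2 * lam * C * y ≤ 0 := by
    have e1 : -(C * g) * y ≤ 2 * C * y := by
      have : 0 ≤ (C * y) * (2 + g) := mul_nonneg (mul_pos hC0 hy0).le (by linarith)
      nlinarith
    have e2 : C₂ * (b * g) ≤ C₂ * (b * 2) :=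
      mul_le_mul_of_nonneg_left (mul_le_mul_of_nonneg_left hg1.2 hb) hC2
    have e3 : ((2 * C + 2 * lam * C + 1) + 16 * lam ^ 2) * b ≤ C₂ * (lam - 1) * b :=
      mul_le_mul_of_nonneg_right hL1 hb
    have e4 : (2 * C + 2 * lam * C + 1) * C * N ≤ C₂ * lam ^ 2 * N :=
      mul_le_mul_of_nonneg_right hL2 hN.le
    have e5 : 0 ≤ lam ^ 2 * y := by positivity
    have e6 : (2 * C + 2 * lam * C + 1) * y =
        (2 * C + 2 * lam * C + 1) * b + (2 * C + 2 * lam * C + 1) * C * N := by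
      rw [hy]; ring
    have e7 : K ≤ y := by rw [hy]; linarith
    nlinarith
  have hrew : (-(2 * lam * t + lam ^ 2 + C * g) +
      C₂ * (b * g - N * (2 * lam * t + lam ^ 2)) / y) / y + 2 * B / y ^ 2 + 2 * lam / N =
      (-(lam ^ 2 + C * g) * y + C₂ * (b * g - 2 * lam * b - N * lam ^ 2) +
      2 * B + 2 * lam * C * y) / y ^ 2 := by
    have e8 : 2 * lam / N = 2 * lam * (t + C) / y := by
      have htC : 0 < t + C := by
        by_contra h
        push Not at h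
        have : y ≤ 0 := by
          rw [hyN]
          exact mul_nonpos_of_nonneg_of_nonpos hN.le h
        linarith
      rw [hyN]
      field_simp
    rw [e8]
    have e9 : N * (2 * lam * t + lam ^ 2) = 2 * lam * b + N * lam ^ 2 := by
      rw [htN]; ring
    rw [e9]
    field_simp
    ring
  have hfin : (-(lam ^ 2 + C * g) * y + C₂ * (b * g - 2 * lam * b - N * lam ^ 2) +
      2 * B + 2 * lam * C * y) / y ^ 2 ≤ 0 :=
    div_nonpos_of_nonpos_of_nonneg hQ (sq_nonneg _)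
  linarith

theorem drift_core (lam : ℝ) (h1 : 1 < lam) (h2 : lam ≤ 2) :
    ∃ C C₂ N₀ : ℝ, 1 ≤ C ∧ 0 ≤ C₂ ∧ 4 ≤ N₀ ∧
      ∀ (ι : Type) [Fintype ι] (p s d : ι → ℝ) (b N : ℝ), N₀ ≤ N → 0 ≤ b →
        (∀ i, 0 ≤ p i) → ∑ i, p i = 1 → (∀ i, |s i| ≤ √b) → ∑ i, p i * s i = b / N →
        (∀ i, |d i| ≤ 2) →
        ∑ i, p i * (- Real.log (b + 2 * lam * s i + lam ^ 2 + C * (N + d i)) +
            C₂ * (N + d i) / (b + 2 * lam * s i + lam ^ 2 + C * (N + d i))) ≤
          - Real.log (b + C * N) + C₂ * N / (b + C * N) - 2 * lam / N := by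
  have hl1 : 0 < lam - 1 := by linarith
  have hl0 : 0 < lam := by linarith
  obtain ⟨C, hCdef⟩ : ∃ C, C = 32 * lam ^ 2 / (lam - 1) := ⟨_, rfl⟩
  have hC : 1 ≤ C := by
    rw [hCdef, le_div_iff₀ hl1]
    nlinarith
  have hC0 : 0 < C := by linarith
  have hCl : C * (lam - 1) = 32 * lam ^ 2 := by
    rw [hCdef]
    field_simp
  obtain ⟨Lc, hLc⟩ : ∃ Lc, Lc = 2 * C + 2 * lam * C + 1 := ⟨_, rfl⟩
  have hL0 : 0 < Lc := by rw [hLc]; positivity
  obtain ⟨C₂, hC2def⟩ : ∃ C₂, C₂ = (Lc + 16 * lam ^ 2) / (lam - 1) + Lc * C / lam ^ 2 := ⟨_, rfl⟩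
  have t1 : 0 ≤ (Lc + 16 * lam ^ 2) / (lam - 1) := by positivity
  have t2 : 0 ≤ Lc * C / lam ^ 2 := by positivity
  have hC2 : 0 ≤ C₂ := by rw [hC2def]; linarith
  have hL1 : Lc + 16 * lam ^ 2 ≤ C₂ * (lam - 1) := by
    have e : (Lc + 16 * lam ^ 2) / (lam - 1) * (lam - 1) = Lc + 16 * lam ^ 2 := by field_simp
    rw [hC2def, add_mul, e]
    have := mul_nonneg t2 hl1.le
    linarith
  have hL2 : Lc * C ≤ C₂ * lam ^ 2 := by
    have e : Lc * C / lam ^ 2 * lam ^ 2 = Lc * C := by field_simp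
    rw [hC2def, add_mul, e]
    have := mul_nonneg t1 (sq_nonneg lam)
    linarith
  obtain ⟨K, hK⟩ : ∃ K, K = 2 * (2 * (lam ^ 2 + 2 * C) ^ 2 * (1 + 2 * C₂ / C) + C₂ * C) := ⟨_, rfl⟩
  have hK0 : 0 ≤ K := by rw [hK]; positivity
  refine ⟨C, C₂, 4 + (10 * lam ^ 2 + 4 * C) / C + K / C, hC, hC2, ?_, ?_⟩
  · have : 0 ≤ (10 * lam ^ 2 + 4 * C) / C := by positivity
    have : 0 ≤ K / C := by positivity
    linarith
  intro ι _ p s d b N hN hb hp hsum hs hps hd
  have u1 : 0 ≤ (10 * lam ^ 2 + 4 * C) / C := by positivity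
  have u2 : 0 ≤ K / C := by positivity
  have hN0 : 0 < N := by linarith
  have hNC : 10 * lam ^ 2 + 4 * C ≤ C * N := by
    have e : C * ((10 * lam ^ 2 + 4 * C) / C) = 10 * lam ^ 2 + 4 * C := by field_simp
    have := mul_le_mul_of_nonneg_left (show (10 * lam ^ 2 + 4 * C) / C ≤ N by linarith) hC0.le
    linarith
  have hKC : K ≤ C * N := by
    have e : C * (K / C) = K := by field_simp
    have := mul_le_mul_of_nonneg_left (show K / C ≤ N by linarith) hC0.le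
    linarith
  obtain ⟨B, hB⟩ : ∃ B, B = (8 * lam ^ 2 * b + 2 * (lam ^ 2 + 2 * C) ^ 2) * (1 + 2 * C₂ / C) +
    C₂ * C := ⟨_, rfl⟩
  have hB2 : 2 * B = 16 * lam ^ 2 * b + C₂ * (lam - 1) * b + K := by
    have e : C₂ * (lam - 1) * b = 32 * lam ^ 2 * b * (C₂ / C) := by
      rw [← hCl]
      field_simp
    rw [e, hB, hK]
    ring
  obtain ⟨g, hg⟩ : ∃ g, g = ∑ i, p i * d i := ⟨_, rfl⟩
  have hg2 : |g| ≤ 2 := by
    rw [hg]
    calc |∑ i, p i * d i| ≤ ∑ i, |p i * d i| := Finset.abs_sum_le_sum_abs _ _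
      _ ≤ ∑ i, p i * 2 := by
        apply Finset.sum_le_sum
        intro i _
        rw [abs_mul, abs_of_nonneg (hp i)]
        exact mul_le_mul_of_nonneg_left (hd i) (hp i)
      _ = 2 := by rw [← Finset.sum_mul, hsum, one_mul]
  have hav := drift_avg lam C C₂ b N g B K hC hC2 hb hN0 hg2 hB2 hKC (by rw [← hLc]; exact hL1)
    (by rw [← hLc]; exact hL2)
  obtain ⟨y, hy⟩ : ∃ y, y = b + C * N := ⟨_, rfl⟩
  have hy0 : 0 < y := by
    have := mul_pos hC0 hN0
    linarith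
  have hpt : ∀ i, p i * (- Real.log (b + 2 * lam * s i + lam ^ 2 + C * (N + d i)) +
            C₂ * (N + d i) / (b + 2 * lam * s i + lam ^ 2 + C * (N + d i))) ≤
      p i * (- Real.log y + C₂ * N / y + 2 * B / y ^ 2 - lam ^ 2 / y
          - C₂ * (N * lam ^ 2) / y / y) +
        (p i * s i) * (-(2 * lam) / y - C₂ * (N * (2 * lam)) / y / y) +
        (p i * d i) * (- C / y + C₂ * b / y / y) := by
    intro i
    have h3 := mul_le_mul_of_nonneg_left
      (drift_pt lam C C₂ b N (s i) (d i) h1 hC hC2 hb hN0 hNC (hs i) (hd i)) (hp i)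
    refine h3.trans (le_of_eq ?_)
    rw [← hB, ← hy]
    field_simp
    ring
  refine (Finset.sum_le_sum fun i _ => hpt i).trans ?_
  rw [Finset.sum_add_distrib, Finset.sum_add_distrib, ← Finset.sum_mul, ← Finset.sum_mul,
    ← Finset.sum_mul, hsum, hps, ← hg, ← hy]
  rw [← hy] at hav
  have hfin : (1 : ℝ) * (- Real.log y + C₂ * N / y + 2 * B / y ^ 2 - lam ^ 2 / y
          - C₂ * (N * lam ^ 2) / y / y) +
        (b / N) * (-(2 * lam) / y - C₂ * (N * (2 * lam)) / y / y) +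
        g * (- C / y + C₂ * b / y / y) = (- Real.log y + C₂ * N / y) +
        ((-(2 * lam * (b / N) + lam ^ 2 + C * g) +
      C₂ * (b * g - N * (2 * lam * (b / N) + lam ^ 2)) / y) / y +
        2 * B / y ^ 2) := by
    field_simp
    ring
  rw [hfin]
  linarith

end Pool.Agent.TH996.Urn
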