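import Mathlib

/-!
# Rayleigh bound on a cycle with removed edges
-/

namespace Pool.Agent.TH996.Urn

/-- the residue class of a natural number -/
def Ray_c (n : ℕ) (i : ℕ) : Fin (n + 3) := ⟨i % (n + 3), Nat.mod_lt _ (by omega)⟩

lemma Ray_c_val {n i : ℕ} (h : i < n + 3) : (Ray_c n i).val = i := Nat.mod_eq_of_lt h

lemma Ray_c_self (n : ℕ) : Ray_c n (n + 3) = 0 := Fin.ext (by simp [Ray_c])

lemma Ray_c_fin {n : ℕ} (x : Fin (n + 3)) : Ray_c n x.val = x :=
  Fin.ext (Ray_c_val x.isLt)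

lemma Ray_c_succ (n i : ℕ) : Ray_c n (i + 1) = Ray_c n i + 1 := by
  apply Fin.ext
  rw [Fin.val_add]
  simp only [Ray_c]
  have h1 : ((1 : Fin (n + 3)) : ℕ) = 1 := rfl
  rw [h1, Nat.mod_add_mod]

lemma Ray_c_one (n : ℕ) : Ray_c n 1 = 1 := Fin.ext (Ray_c_val (by omega))

lemma Ray_exists {n : ℕ} (E : Finset (Fin (n + 3))) (hE : E.Nonempty) (j : Fin (n + 3)) :
    ∃ i : ℕ, (1 ≤ i ∧ j - Ray_c n i ∈ E) ∧ i ≤ n + 3 := by
  obtain ⟨e, he⟩ := hE
  by_cases h : j = e
  · refine ⟨n + 3, ⟨by omega, ?_⟩, le_rfl⟩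
    rw [Ray_c_self, sub_zero, h]
    exact he
  · have h2 : (j - e : Fin (n + 3)).val ≠ 0 := by
      intro h3
      have h4 : j - e = 0 := Fin.ext h3
      exact h (sub_eq_zero.1 h4)
    refine ⟨(j - e : Fin (n + 3)).val, ⟨by omega, ?_⟩, (j - e : Fin (n + 3)).isLt.le⟩
    rw [Ray_c_fin, sub_sub_cancel]
    exact he

/-- distance to the previous removed edge -/
lemma Ray_p {n : ℕ} (m : ℕ) (hm : 1 ≤ m) (hmk : m ≤ n + 3) (E : Finset (Fin (n + 3)))
    (hE : m ≤ E.card) : ∃ p : Fin (n + 3) → ℕ, (∀ j, 1 ≤ p j) ∧ (∀ j, p j ≤ n + 4 - m) ∧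
      ∀ j, j ∉ E → p (j + 1) = p j + 1 := by
  classical
  have hne : E.Nonempty := Finset.card_pos.1 (by omega)
  have hex : ∀ j : Fin (n + 3), ∃ i : ℕ, 1 ≤ i ∧ j - Ray_c n i ∈ E := fun j => by
    obtain ⟨i, hi, -⟩ := Ray_exists E hne j
    exact ⟨i, hi⟩
  have hle : ∀ j, Nat.find (hex j) ≤ n + 3 := fun j => by
    obtain ⟨i, hi, hi'⟩ := Ray_exists E hne j
    exact (Nat.find_min' (hex j) hi).trans hi'
  refine ⟨fun j => Nat.find (hex j), fun j => (Nat.find_spec (hex j)).1, fun j => ?_,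
    fun j hj => ?_⟩
  · change Nat.find (hex j) ≤ n + 4 - m
    have h1 : (Finset.Icc 1 (Nat.find (hex j) - 1)).card ≤ (Finset.univ \ E).card := by
      refine Finset.card_le_card_of_injOn (fun i : ℕ => j - Ray_c n i) ?_ ?_
      · intro i hi
        have hi' := Finset.mem_Icc.1 (Finset.mem_coe.1 hi)
        have h2 := Nat.find_min (hex j) (m := i) (by omega)
        refine Finset.mem_coe.2 (Finset.mem_sdiff.2 ⟨Finset.mem_univ _, fun h3 => h2 ⟨hi'.1, h3⟩⟩)
      · intro i hi i' hi' hii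
        have h1 := Finset.mem_Icc.1 (Finset.mem_coe.1 hi)
        have h2 := Finset.mem_Icc.1 (Finset.mem_coe.1 hi')
        have h3 := hle j
        have h4 : Ray_c n i = Ray_c n i' := sub_right_injective hii
        have h5 := congrArg Fin.val h4
        rw [Ray_c_val (by omega), Ray_c_val (by omega)] at h5
        exact h5
    rw [Nat.card_Icc, Finset.card_univ_sdiff, Fintype.card_fin] at h1
    have h6 := (Nat.find_spec (hex j)).1
    omega
  · change Nat.find (hex (j + 1)) = Nat.find (hex j) + 1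
    have hs := Nat.find_spec (hex j)
    apply le_antisymm
    · refine Nat.find_min' (hex (j + 1)) ⟨by omega, ?_⟩
      rw [Ray_c_succ, add_sub_add_right_eq_sub]
      exact hs.2
    · have hs1 := Nat.find_spec (hex (j + 1))
      have h2 : Nat.find (hex (j + 1)) ≠ 1 := by
        intro h3
        rw [h3, Ray_c_one, add_sub_cancel_right] at hs1
        exact hj hs1.2
      obtain ⟨i, hi⟩ : ∃ i, Nat.find (hex (j + 1)) = i + 1 :=
        ⟨Nat.find (hex (j + 1)) - 1, by have := hs1.1; omega⟩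
      rw [hi]
      rw [hi, Ray_c_succ, add_sub_add_right_eq_sub] at hs1
      have h4 : Nat.find (hex j) ≤ i := Nat.find_min' (hex j) ⟨by omega, hs1.2⟩
      omega

theorem rayleigh {n : ℕ} (m : ℕ) (hm : 1 ≤ m) (hmk : m ≤ n + 3) (E : Finset (Fin (n + 3)))
    (hE : m ≤ E.card) (w : Fin (n + 3) → ℝ) :
    2 * ∑ j ∈ Finset.univ \ E, w j * w (j + 1) ≤
      2 * Real.cos (Real.pi / ((n : ℝ) + 5 - m)) * ∑ j, w j ^ 2 := by
  obtain ⟨p, hp1, hp2, hp3⟩ := Ray_p m hm hmk E hE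
  set θ : ℝ := Real.pi / ((n : ℝ) + 5 - m) with hθ
  have hmk' : (m : ℝ) ≤ (n : ℝ) + 3 := by exact_mod_cast hmk
  have hden : (0 : ℝ) < (n : ℝ) + 5 - m := by linarith
  have hθ0 : 0 < θ := div_pos Real.pi_pos hden
  have hθπ : ((n : ℝ) + 5 - m) * θ = Real.pi := by
    rw [hθ]
    field_simp
  have hpr : ∀ j, (1 : ℝ) ≤ p j ∧ (p j : ℝ) + 1 ≤ (n : ℝ) + 5 - m := by
    intro j
    have h1 := hp1 j
    have h2 := hp2 j
    have h3 : p j + m ≤ n + 4 := by omega
    have h4 : (p j : ℝ) + m ≤ n + 4 := by exact_mod_cast h3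
    exact ⟨by exact_mod_cast h1, by linarith⟩
  have hpos : ∀ j, 0 < Real.sin (p j * θ) := by
    intro j
    obtain ⟨h1, h2⟩ := hpr j
    refine Real.sin_pos_of_pos_of_lt_pi (by positivity) ?_
    rw [← hθπ]
    nlinarith
  have ha : ∀ j, 0 ≤ Real.sin ((p j + 1) * θ) := by
    intro j
    obtain ⟨h1, h2⟩ := hpr j
    refine Real.sin_nonneg_of_nonneg_of_le_pi (by positivity) ?_
    rw [← hθπ]
    exact mul_le_mul_of_nonneg_right h2 hθ0.le
  have hb : ∀ j, 0 ≤ Real.sin ((p j - 1) * θ) := by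
    intro j
    obtain ⟨h1, h2⟩ := hpr j
    refine Real.sin_nonneg_of_nonneg_of_le_pi (mul_nonneg (by linarith) hθ0.le) ?_
    rw [← hθπ]
    exact mul_le_mul_of_nonneg_right (by linarith) hθ0.le
  have hsum : ∀ j, Real.sin ((p j + 1) * θ) / Real.sin (p j * θ) * w j ^ 2 +
      Real.sin ((p j - 1) * θ) / Real.sin (p j * θ) * w j ^ 2 = 2 * Real.cos θ * w j ^ 2 := by
    intro j
    have h1 : Real.sin ((p j + 1) * θ) + Real.sin ((p j - 1) * θ) =
        2 * Real.cos θ * Real.sin (p j * θ) := by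
      rw [add_mul, sub_mul, one_mul, Real.sin_add, Real.sin_sub]
      ring
    have h2 := (hpos j).ne'
    rw [← add_mul, ← add_div, h1, mul_div_cancel_right₀ _ h2]
  have hterm : ∀ j, j ∉ E → 2 * (w j * w (j + 1)) ≤
      Real.sin ((p j + 1) * θ) / Real.sin (p j * θ) * w j ^ 2 +
      Real.sin ((p (j + 1) - 1) * θ) / Real.sin (p (j + 1) * θ) * w (j + 1) ^ 2 := by
    intro j hj
    have h1 : (p (j + 1) : ℝ) = p j + 1 := by
      rw [hp3 j hj]
      push_cast
      ring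
    have h2 := hpos j
    have h3 := hpos (j + 1)
    rw [h1] at h3 ⊢
    rw [add_sub_cancel_right]
    set A := Real.sin (p j * θ)
    set B := Real.sin ((p j + 1) * θ)
    have h4 : B / A * w j ^ 2 + A / B * w (j + 1) ^ 2 - 2 * (w j * w (j + 1)) =
        (B * w j - A * w (j + 1)) ^ 2 / (A * B) := by
      field_simp
      ring
    have h5 : 0 ≤ (B * w j - A * w (j + 1)) ^ 2 / (A * B) := by positivity
    linarith
  have h1 : 2 * ∑ j ∈ Finset.univ \ E, w j * w (j + 1) ≤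
      ∑ j ∈ Finset.univ \ E, (Real.sin ((p j + 1) * θ) / Real.sin (p j * θ) * w j ^ 2 +
      Real.sin ((p (j + 1) - 1) * θ) / Real.sin (p (j + 1) * θ) * w (j + 1) ^ 2) := by
    rw [Finset.mul_sum]
    exact Finset.sum_le_sum fun j hj => hterm j (Finset.mem_sdiff.1 hj).2
  have h2 : ∑ j ∈ Finset.univ \ E, (Real.sin ((p j + 1) * θ) / Real.sin (p j * θ) * w j ^ 2 +
      Real.sin ((p (j + 1) - 1) * θ) / Real.sin (p (j + 1) * θ) * w (j + 1) ^ 2) ≤
      ∑ j, (Real.sin ((p j + 1) * θ) / Real.sin (p j * θ) * w j ^ 2 +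
      Real.sin ((p (j + 1) - 1) * θ) / Real.sin (p (j + 1) * θ) * w (j + 1) ^ 2) := by
    refine Finset.sum_le_sum_of_subset_of_nonneg Finset.sdiff_subset fun j _ _ => ?_
    have h3 := div_nonneg (ha j) (hpos j).le
    have h4 := div_nonneg (hb (j + 1)) (hpos (j + 1)).le
    positivity
  refine h1.trans (h2.trans (le_of_eq ?_))
  have h3 := Fintype.sum_equiv (Equiv.addRight (1 : Fin (n + 3)))
    (fun j => Real.sin ((p (j + 1) - 1) * θ) / Real.sin (p (j + 1) * θ) * w (j + 1) ^ 2)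
    (fun j => Real.sin ((p j - 1) * θ) / Real.sin (p j * θ) * w j ^ 2) (fun j => rfl)
  rw [Finset.sum_add_distrib, h3, ← Finset.sum_add_distrib, Finset.mul_sum]
  exact Finset.sum_congr rfl fun j _ => hsum j

end Pool.Agent.TH996.Urn
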