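import Pool.Agent.TH996.Urn.CycDefs
import Pool.Agent.TH996.Urn.Ray
import Pool.Agent.TH996.Urn.Drift

/-!
# Lyapunov function of the signed linear urn on the cycle
-/

set_option autoImplicit false

open Finset

namespace Pool.Agent.TH996.Urn

section basic
variable {n : ℕ}

lemma Lyap_two_ne : (1 + 1 : Fin (n + 3)) ≠ 0 := by
  intro h
  have h1 := congrArg Fin.val h
  rw [Fin.val_add, Fin.val_one, Nat.mod_eq_of_lt (by omega)] at h1
  simp at h1

lemma Lyap_ne1 (v : Fin (n + 3)) : v ≠ v + 1 + 1 := by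
  intro h
  rw [add_assoc, left_eq_add] at h
  exact Lyap_two_ne h

lemma Lyap_ne2 (v : Fin (n + 3)) : v - 1 ≠ v + 1 := by
  intro h
  rw [sub_eq_iff_eq_add] at h
  exact Lyap_ne1 v h

lemma Lyap_ne0 (v : Fin (n + 3)) : v ≠ v + 1 := by
  intro h
  rw [left_eq_add] at h
  have h1 := congrArg Fin.val h
  rw [Fin.val_one] at h1
  simp at h1

lemma Lyap_sumA {R : Type} [CommRing R] (τ : Fin (n + 3) → ℤ) (v : Fin (n + 3))
    (g : Fin (n + 3) → R) :
    ∑ u, ((Amat τ v u : ℤ) : R) * g u = τ v * g (v + 1) + τ (v - 1) * g (v - 1) := by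
  unfold Amat
  have h : ∀ u : Fin (n + 3), (v = u + 1) ↔ (u = v - 1) := fun u => by
    rw [eq_sub_iff_add_eq]; exact eq_comm
  simp only [h, Int.cast_add, add_mul, sum_add_distrib]
  congr 1
  · rw [Finset.sum_eq_single (v + 1)]
    · simp
    · intro u _ hu; simp [hu]
    · simp
  · rw [Finset.sum_eq_single (v - 1)]
    · simp
    · intro u _ hu; simp [hu]
    · simp

lemma Lyap_A1 (τ : Fin (n + 3) → ℤ) (v : Fin (n + 3)) : Amat τ v (v + 1) = τ v := by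
  unfold Amat
  rw [if_pos rfl, if_neg (Lyap_ne1 v), add_zero]

lemma Lyap_A2 (τ : Fin (n + 3) → ℤ) (v : Fin (n + 3)) : Amat τ v (v - 1) = τ (v - 1) := by
  unfold Amat
  rw [if_neg (Lyap_ne2 v), if_pos (by rw [sub_add_cancel]), zero_add]

lemma Lyap_A0 (τ : Fin (n + 3) → ℤ) (v : Fin (n + 3)) : Amat τ v v = 0 := by
  unfold Amat
  rw [if_neg (Lyap_ne0 v), add_zero]

lemma Lyap_sq {τ : Fin (n + 3) → ℤ} (hτ : ∀ j, τ j = 1 ∨ τ j = -1) (j : Fin (n + 3)) :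
    τ j * τ j = 1 := by
  rcases hτ j with h | h <;> rw [h] <;> norm_num

lemma Lyap_sqR {τ : Fin (n + 3) → ℤ} (hτ : ∀ j, τ j = 1 ∨ τ j = -1) (j : Fin (n + 3)) :
    (τ j : ℝ) * τ j = 1 := by exact_mod_cast Lyap_sq hτ j

lemma Lyap_sumsq {τ : Fin (n + 3) → ℤ} (hτ : ∀ j, τ j = 1 ∨ τ j = -1) (v : Fin (n + 3)) :
    ∑ u, (Amat τ v u : ℝ) * (Amat τ v u : ℝ) = 2 := by
  rw [Lyap_sumA τ v (fun u => (Amat τ v u : ℝ)), Lyap_A1, Lyap_A2, Lyap_sqR hτ, Lyap_sqR hτ]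
  norm_num

lemma Lyap_absA (τ : Fin (n + 3) → ℤ) (v u : Fin (n + 3)) :
    |(Amat τ v u : ℝ)| ≤ (Amat τ v u : ℝ) * (Amat τ v u : ℝ) := by
  have h : |Amat τ v u| ≤ Amat τ v u * Amat τ v u := by
    rw [← abs_mul_abs_self]
    rcases eq_or_ne (Amat τ v u) 0 with h0 | h0
    · rw [h0]; simp
    · have := Int.one_le_abs h0
      nlinarith
  exact_mod_cast h

/-- Cauchy-Schwarz -/
lemma Lyap_cs (g : Fin (n + 3) → ℝ) : (∑ v, g v) ^ 2 ≤ ((n : ℝ) + 3) * ∑ v, g v ^ 2 := by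
  have h := sq_sum_le_card_mul_sum_sq (s := (univ : Finset (Fin (n + 3)))) (f := g)
  rw [card_univ, Fintype.card_fin] at h
  push_cast at h
  exact h

end basic

section main
variable {n : ℕ}

/-- the complex linear form -/
noncomputable def Lyap_W (η : Fin (n + 3) → ℂ) (z : Fin (n + 3) → ℤ) : ℂ := ∑ v, (z v : ℂ) * η v

/-- the sum of squares -/
noncomputable def Lyap_Z (z : Fin (n + 3) → ℤ) : ℝ := ∑ v, (z v : ℝ) ^ 2

lemma Lyap_zN (z : Fin (n + 3) → ℤ) : (zN z : ℝ) = ∑ v, |(z v : ℝ)| := by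
  unfold zN
  push_cast
  refine sum_congr rfl fun v _ => ?_
  rw [Nat.cast_natAbs, Int.cast_abs]

lemma Lyap_Z_nonneg (z : Fin (n + 3) → ℤ) : 0 ≤ Lyap_Z z := sum_nonneg fun _ _ => sq_nonneg _

lemma Lyap_Z_pos {z : Fin (n + 3) → ℤ} {v : Fin (n + 3)} (h : z v ≠ 0) : 0 < Lyap_Z z := by
  refine sum_pos' (fun _ _ => sq_nonneg _) ⟨v, mem_univ _, ?_⟩
  have : (z v : ℝ) ≠ 0 := by exact_mod_cast h
  positivity

lemma Lyap_N_le_Z (z : Fin (n + 3) → ℤ) : (zN z : ℝ) ≤ Lyap_Z z := by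
  rw [Lyap_zN]
  refine sum_le_sum fun v _ => ?_
  have h : |z v| ≤ (z v) ^ 2 := by
    rw [← sq_abs]
    rcases eq_or_ne (z v) 0 with h0 | h0
    · rw [h0]; simp
    · have := Int.one_le_abs h0
      nlinarith
  exact_mod_cast h

lemma Lyap_N_sq (z : Fin (n + 3) → ℤ) : (zN z : ℝ) ^ 2 ≤ ((n : ℝ) + 3) * Lyap_Z z := by
  rw [Lyap_zN]
  have h := Lyap_cs (fun v => |(z v : ℝ)|)
  simp only [sq_abs] at h
  exact h

lemma Lyap_b_le {η : Fin (n + 3) → ℂ} (hη : ∀ j, ‖η j‖ = 1) (z : Fin (n + 3) → ℤ) :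
    Complex.normSq (Lyap_W η z) ≤ ((n : ℝ) + 3) * Lyap_Z z := by
  rw [Complex.normSq_eq_norm_sq]
  have h : ‖Lyap_W η z‖ ≤ ∑ v, |(z v : ℝ)| := by
    refine (norm_sum_le _ _).trans (sum_le_sum fun v _ => ?_)
    rw [norm_mul, hη, mul_one, Complex.norm_intCast]
  calc ‖Lyap_W η z‖ ^ 2 ≤ (∑ v, |(z v : ℝ)|) ^ 2 := pow_le_pow_left₀ (norm_nonneg _) h 2
    _ ≤ _ := by
      have h := Lyap_cs (fun v => |(z v : ℝ)|)
      simp only [sq_abs] at h
      exact h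

/-- the Lyapunov function -/
noncomputable def Lyap_f (C C₂ : ℝ) (η : Fin (n + 3) → ℂ) (z : Fin (n + 3) → ℤ) : ℝ :=
  Real.log (Lyap_Z z) +
    (- Real.log (Complex.normSq (Lyap_W η z) + C * zN z) +
      C₂ * zN z / (Complex.normSq (Lyap_W η z) + C * zN z)) +
    Real.log (((n : ℝ) + 3) * (1 + C))

lemma Lyap_f_nonneg {C C₂ : ℝ} (hC : 1 ≤ C) (hC₂ : 0 ≤ C₂) {η : Fin (n + 3) → ℂ}
    (hη : ∀ j, ‖η j‖ = 1) (z : Fin (n + 3) → ℤ) : 0 ≤ Lyap_f C C₂ η z := by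
  have hn : (0 : ℝ) ≤ n := Nat.cast_nonneg n
  have hb0 := Complex.normSq_nonneg (Lyap_W η z)
  have hN0 : (0 : ℝ) ≤ zN z := Nat.cast_nonneg _
  have hL : 1 ≤ ((n : ℝ) + 3) * (1 + C) := by nlinarith
  unfold Lyap_f
  have hfrac : 0 ≤ C₂ * zN z / (Complex.normSq (Lyap_W η z) + C * zN z) := by
    refine div_nonneg (mul_nonneg hC₂ hN0) ?_
    have : 0 ≤ C * (zN z : ℝ) := mul_nonneg (by linarith) hN0
    linarith
  rcases (Lyap_Z_nonneg z).eq_or_lt with h0 | h0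
  · have hNz : (zN z : ℝ) = 0 := le_antisymm (by rw [h0]; exact Lyap_N_le_Z z) hN0
    have hbz : Complex.normSq (Lyap_W η z) = 0 := by
      refine le_antisymm ?_ hb0
      have := Lyap_b_le hη z
      rw [← h0, mul_zero] at this
      exact this
    rw [← h0, hNz, hbz]
    simp only [Real.log_zero, mul_zero, add_zero, neg_zero, zero_div, zero_add]
    exact Real.log_nonneg hL
  · have hN1 : (0 : ℝ) < zN z := by
      rcases hN0.eq_or_lt with h1 | h1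
      · exfalso
        have h2 := Lyap_zN z
        rw [← h1] at h2
        have h3 := (sum_eq_zero_iff_of_nonneg (fun v _ => abs_nonneg (z v : ℝ))).1 h2.symm
        have h4 : Lyap_Z z = 0 := by
          unfold Lyap_Z
          refine sum_eq_zero fun v hv => ?_
          rw [abs_eq_zero.1 (h3 v hv)]
          norm_num
        linarith
      · exact h1
    have hq : 0 < Complex.normSq (Lyap_W η z) + C * zN z := by
      have : 0 < C * (zN z : ℝ) := mul_pos (by linarith) hN1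
      linarith
    have hle : Complex.normSq (Lyap_W η z) + C * zN z ≤
        Lyap_Z z * (((n : ℝ) + 3) * (1 + C)) := by
      have h1 := Lyap_b_le hη z
      have h2 := Lyap_N_le_Z z
      have h3 : C * (zN z : ℝ) ≤ C * (((n : ℝ) + 3) * Lyap_Z z) := by
        refine mul_le_mul_of_nonneg_left ?_ (by linarith)
        nlinarith
      nlinarith
    have h5 := Real.log_le_log hq hle
    rw [Real.log_mul h0.ne' (by linarith)] at h5
    linarith

lemma Lyap_W_step {τ : Fin (n + 3) → ℤ} {η : Fin (n + 3) → ℂ} {ω : ℂ} {lam : ℝ}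
    (hω : ω * (starRingEnd ℂ) ω = 1) (hlam : ω + (starRingEnd ℂ) ω = lam)
    (hτ : ∀ j, τ j = 1 ∨ τ j = -1) (h : ∀ j, (τ j : ℂ) * η (j + 1) = ω * η j)
    (z : Fin (n + 3) → ℤ) (v : Fin (n + 3)) :
    Lyap_W η (zstep τ z v) = Lyap_W η z + ((z v).sign : ℂ) * lam * η v := by
  have h1 : ∑ u, ((Amat τ v u : ℤ) : ℂ) * η u = lam * η v := by
    rw [Lyap_sumA τ v η, h v]
    have h2 := h (v - 1)
    rw [sub_add_cancel] at h2
    have h3 : (τ (v - 1) : ℂ) * τ (v - 1) = 1 := by exact_mod_cast Lyap_sq hτ (v - 1)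
    have h4 : (starRingEnd ℂ) ω * η v = τ (v - 1) * η (v - 1) := by
      calc (starRingEnd ℂ) ω * η v = (starRingEnd ℂ) ω * (((τ (v - 1) : ℂ) * τ (v - 1)) * η v) := by
            rw [h3, one_mul]
        _ = (starRingEnd ℂ) ω * (τ (v - 1) * (τ (v - 1) * η v)) := by ring
        _ = (ω * (starRingEnd ℂ) ω) * (τ (v - 1) * η (v - 1)) := by rw [h2]; ring
        _ = _ := by rw [hω, one_mul]
    rw [← h4, ← hlam]
    ring
  unfold Lyap_W zstep
  have h5 : ∀ u, (((z u + (z v).sign * Amat τ v u : ℤ)) : ℂ) * η u =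
      (z u : ℂ) * η u + ((z v).sign : ℂ) * (((Amat τ v u : ℤ) : ℂ) * η u) := by
    intro u
    push_cast
    ring
  rw [sum_congr rfl fun u _ => h5 u, sum_add_distrib, ← mul_sum, h1]
  ring

lemma Lyap_sign_sq {a : ℤ} (h : a ≠ 0) : (a.sign : ℝ) * a.sign = 1 := by
  rcases lt_or_gt_of_ne h with h1 | h1
  · rw [Int.sign_eq_neg_one_of_neg h1]; norm_num
  · rw [Int.sign_eq_one_of_pos h1]; norm_num

lemma Lyap_sign_abs (a : ℤ) : |(a.sign : ℝ)| ≤ 1 := by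
  rcases lt_trichotomy a 0 with h1 | h1 | h1
  · rw [Int.sign_eq_neg_one_of_neg h1]; norm_num
  · rw [h1]; norm_num
  · rw [Int.sign_eq_one_of_pos h1]; norm_num

lemma Lyap_abs_sign (a : ℤ) : (a.natAbs : ℝ) * a.sign = a := by
  have h := Int.sign_mul_natAbs a
  have h1 : ((a.sign * (a.natAbs : ℤ) : ℤ) : ℝ) = a := by rw [h]
  rw [Int.cast_mul, Int.cast_natCast] at h1
  rw [mul_comm]
  exact h1

lemma Lyap_b_step {τ : Fin (n + 3) → ℤ} {η : Fin (n + 3) → ℂ} {ω : ℂ} {lam : ℝ}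
    (hω : ω * (starRingEnd ℂ) ω = 1) (hlam : ω + (starRingEnd ℂ) ω = lam)
    (hη : ∀ j, ‖η j‖ = 1)
    (hτ : ∀ j, τ j = 1 ∨ τ j = -1) (h : ∀ j, (τ j : ℂ) * η (j + 1) = ω * η j)
    (z : Fin (n + 3) → ℤ) (v : Fin (n + 3)) (hv : z v ≠ 0) :
    Complex.normSq (Lyap_W η (zstep τ z v)) = Complex.normSq (Lyap_W η z) +
      2 * lam * (((z v).sign : ℝ) * (Lyap_W η z * (starRingEnd ℂ) (η v)).re) + lam ^ 2 := by
  rw [Lyap_W_step hω hlam hτ h, Complex.normSq_add]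
  have h1 : Complex.normSq (((z v).sign : ℂ) * lam * η v) = lam ^ 2 := by
    have h2 : (((z v).sign : ℤ) : ℂ) = (((z v).sign : ℝ) : ℂ) := by push_cast; rfl
    rw [map_mul, map_mul, h2, Complex.normSq_ofReal, Complex.normSq_ofReal, Lyap_sign_sq hv,
      Complex.normSq_eq_norm_sq, hη]
    ring
  have h3 : (Lyap_W η z * (starRingEnd ℂ) (((z v).sign : ℂ) * lam * η v)).re =
      lam * (((z v).sign : ℝ) * (Lyap_W η z * (starRingEnd ℂ) (η v)).re) := by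
    have h2 : (((z v).sign : ℤ) : ℂ) = (((z v).sign : ℝ) : ℂ) := by push_cast; rfl
    rw [map_mul, map_mul, h2, Complex.conj_ofReal, Complex.conj_ofReal]
    have e : Lyap_W η z * ((((z v).sign : ℝ) : ℂ) * (lam : ℂ) * (starRingEnd ℂ) (η v)) =
        ((lam * ((z v).sign : ℝ) : ℝ) : ℂ) * (Lyap_W η z * (starRingEnd ℂ) (η v)) := by
      push_cast; ring
    rw [e, Complex.re_ofReal_mul]
    ring
  rw [h1, h3]
  ring

lemma Lyap_Z_step {τ : Fin (n + 3) → ℤ} (hτ : ∀ j, τ j = 1 ∨ τ j = -1)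
    (z : Fin (n + 3) → ℤ) (v : Fin (n + 3)) (hv : z v ≠ 0) :
    Lyap_Z (zstep τ z v) = Lyap_Z z + 2 * (((z v).sign : ℝ) *
      ((τ v : ℝ) * z (v + 1) + τ (v - 1) * z (v - 1))) + 2 := by
  rw [← Lyap_sumA τ v (fun u => (z u : ℝ))]
  unfold Lyap_Z zstep
  have h5 : ∀ u, (((z u + (z v).sign * Amat τ v u : ℤ)) : ℝ) ^ 2 =
      (z u : ℝ) ^ 2 + 2 * (((z v).sign : ℝ) * (((Amat τ v u : ℤ) : ℝ) * z u)) +
        (((z v).sign : ℝ) * (z v).sign) * ((Amat τ v u : ℝ) * (Amat τ v u : ℝ)) := by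
    intro u
    push_cast
    ring
  rw [sum_congr rfl fun u _ => h5 u, sum_add_distrib, sum_add_distrib, ← mul_sum, ← mul_sum,
    ← mul_sum, Lyap_sumsq hτ, Lyap_sign_sq hv]
  ring

lemma Lyap_N_step {τ : Fin (n + 3) → ℤ} (hτ : ∀ j, τ j = 1 ∨ τ j = -1)
    (z : Fin (n + 3) → ℤ) (v : Fin (n + 3)) :
    |(zN (zstep τ z v) : ℝ) - zN z| ≤ 2 := by
  rw [Lyap_zN, Lyap_zN, ← sum_sub_distrib, ← Lyap_sumsq hτ v]
  refine (abs_sum_le_sum_abs _ _).trans (sum_le_sum fun u _ => ?_)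
  refine (abs_abs_sub_abs_le_abs_sub _ _).trans ?_
  unfold zstep
  push_cast
  rw [add_sub_cancel_left, abs_mul]
  calc |((z v).sign : ℝ)| * |(Amat τ v u : ℝ)| ≤ 1 * |(Amat τ v u : ℝ)| :=
        mul_le_mul_of_nonneg_right (Lyap_sign_abs _) (abs_nonneg _)
    _ ≤ _ := by rw [one_mul]; exact Lyap_absA τ v u

/-- the quadratic form -/
lemma Lyap_quad {τ : Fin (n + 3) → ℤ} (hτ : ∀ j, τ j = 1 ∨ τ j = -1) (m₀ : ℕ) (hm : 1 ≤ m₀)
    (hmk : m₀ ≤ n + 3) (z : Fin (n + 3) → ℤ) (hz : m₀ ≤ zneg τ z) :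
    ∑ v, (z v : ℝ) * ((τ v : ℝ) * z (v + 1) + τ (v - 1) * z (v - 1)) ≤
      2 * Real.cos (Real.pi / ((n : ℝ) + 5 - m₀)) * Lyap_Z z := by
  have h1 : ∑ v, (z v : ℝ) * ((τ v : ℝ) * z (v + 1) + τ (v - 1) * z (v - 1)) =
      2 * ∑ v, (τ v : ℝ) * (z v * z (v + 1)) := by
    have e1 : ∑ v, (z v : ℝ) * ((τ v : ℝ) * z (v + 1) + τ (v - 1) * z (v - 1)) =
        ∑ v, (τ v : ℝ) * (z v * z (v + 1)) + ∑ v, (τ (v - 1) : ℝ) * (z (v - 1) * z v) := by
      rw [← sum_add_distrib]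
      exact sum_congr rfl fun v _ => by ring
    have e2 : ∑ v, (τ (v - 1) : ℝ) * (z (v - 1) * z v) = ∑ v, (τ v : ℝ) * (z v * z (v + 1)) := by
      rw [← (Equiv.subRight (1 : Fin (n + 3))).sum_comp (fun v => (τ v : ℝ) * (z v * z (v + 1)))]
      refine sum_congr rfl fun v _ => ?_
      simp only [Equiv.subRight_apply, sub_add_cancel]
    rw [e1, e2, two_mul]
  rw [h1]
  obtain ⟨E, hE⟩ : ∃ E : Finset (Fin (n + 3)),
      E = univ.filter (fun j => τ j * (z j * z (j + 1)) ≤ 0) := ⟨_, rfl⟩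
  have hr := rayleigh m₀ hm hmk E (by rw [hE]; exact hz) (fun j => |(z j : ℝ)|)
  simp only [sq_abs] at hr
  refine le_trans ?_ hr
  refine mul_le_mul_of_nonneg_left ?_ (by norm_num)
  rw [← sum_sdiff (subset_univ E)]
  have h2 : ∑ j ∈ E, (τ j : ℝ) * (z j * z (j + 1)) ≤ 0 := by
    refine sum_nonpos fun j hj => ?_
    rw [hE, mem_filter] at hj
    exact_mod_cast hj.2
  have h3 : ∑ j ∈ univ \ E, (τ j : ℝ) * (z j * z (j + 1)) ≤
      ∑ j ∈ univ \ E, |(z j : ℝ)| * |(z (j + 1) : ℝ)| := by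
    refine sum_le_sum fun j _ => ?_
    rw [← abs_mul]
    refine (le_abs_self _).trans ?_
    rw [abs_mul]
    have : |(τ j : ℝ)| = 1 := by
      rcases hτ j with h | h <;> rw [h] <;> norm_num
    rw [this, one_mul]
  linarith

theorem Lyap_core (n : ℕ) (ω : ℂ) (m₀ : ℕ) (lam : ℝ)
    (hω : ω * (starRingEnd ℂ) ω = 1) (hlam : ω + (starRingEnd ℂ) ω = lam)
    (hl1 : 1 < lam) (hl2 : lam ≤ 2) (hm : 1 ≤ m₀) (hmk : m₀ ≤ n + 3)
    (hll : 2 * Real.cos (Real.pi / ((n : ℝ) + 5 - m₀)) < lam) :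
    ∃ c : ℝ, 0 < c ∧ ∃ N₀ : ℕ, ∀ (τ : Fin (n + 3) → ℤ) (η : Fin (n + 3) → ℂ),
      (∀ j, τ j = 1 ∨ τ j = -1) → (∀ j, ‖η j‖ = 1) →
      (∀ j, (τ j : ℂ) * η (j + 1) = ω * η j) →
      ∃ f : (Fin (n + 3) → ℤ) → ℝ, (∀ z, 0 ≤ f z) ∧
        ∀ z, m₀ ≤ zneg τ z → N₀ ≤ zN z →
          ∑ v, ((z v).natAbs : ℝ) / (zN z : ℝ) * f (zstep τ z v) ≤ f z - c / (zN z : ℝ) := by
  obtain ⟨C, C₂, N₀, hC, hC₂, hN₀, hdrift⟩ := drift_core lam hl1 hl2
  obtain ⟨lam', hlam'⟩ : ∃ l, l = 2 * Real.cos (Real.pi / ((n : ℝ) + 5 - m₀)) := ⟨_, rfl⟩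
  rw [← hlam'] at hll
  have hc : 0 < lam - lam' := by linarith
  refine ⟨lam - lam', hc, max ⌈N₀⌉₊ ⌈2 * ((n : ℝ) + 3) / (lam - lam')⌉₊, ?_⟩
  intro τ η hτ hη h
  refine ⟨Lyap_f C C₂ η, Lyap_f_nonneg hC hC₂ hη, ?_⟩
  intro z hz hNz
  obtain ⟨N, hN⟩ : ∃ N : ℝ, N = zN z := ⟨_, rfl⟩
  have hNN₀ : N₀ ≤ N := by
    rw [hN]
    exact (Nat.le_ceil _).trans (by exact_mod_cast (le_max_left _ _).trans hNz)
  have hNl : 2 * ((n : ℝ) + 3) / (lam - lam') ≤ N := by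
    rw [hN]
    exact (Nat.le_ceil _).trans (by exact_mod_cast (le_max_right _ _).trans hNz)
  have hN0 : 0 < N := by linarith
  obtain ⟨Z, hZ⟩ : ∃ Z, Z = Lyap_Z z := ⟨_, rfl⟩
  have hNZ : N ≤ Z := by rw [hN, hZ]; exact Lyap_N_le_Z z
  have hZ0 : 0 < Z := by linarith
  obtain ⟨b, hb⟩ : ∃ b, b = Complex.normSq (Lyap_W η z) := ⟨_, rfl⟩
  have hb0 : 0 ≤ b := by rw [hb]; exact Complex.normSq_nonneg _
  obtain ⟨p, hp⟩ : ∃ p : Fin (n + 3) → ℝ, p = fun v => ((z v).natAbs : ℝ) / N := ⟨_, rfl⟩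
  have hp0 : ∀ v, 0 ≤ p v := fun v => by rw [hp]; positivity
  have hp1 : ∑ v, p v = 1 := by
    rw [hp, ← sum_div, hN, div_eq_one_iff_eq (by rw [← hN]; exact hN0.ne')]
    unfold zN
    push_cast
    rfl
  obtain ⟨s, hs⟩ : ∃ s : Fin (n + 3) → ℝ, s = fun v =>
    ((z v).sign : ℝ) * (Lyap_W η z * (starRingEnd ℂ) (η v)).re := ⟨_, rfl⟩
  have hs1 : ∀ v, |s v| ≤ √b := by
    intro v
    rw [hs, hb, abs_mul, Complex.normSq_eq_norm_sq, Real.sqrt_sq (norm_nonneg _)]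
    have h1 : |(Lyap_W η z * (starRingEnd ℂ) (η v)).re| ≤ ‖Lyap_W η z‖ := by
      refine (Complex.abs_re_le_norm _).trans ?_
      rw [norm_mul, Complex.norm_conj, hη, mul_one]
    calc _ ≤ 1 * ‖Lyap_W η z‖ := mul_le_mul (Lyap_sign_abs _) h1 (abs_nonneg _) zero_le_one
      _ = _ := one_mul _
  have hps : ∑ v, p v * s v = b / N := by
    have e1 : ∀ v, p v * s v = ((z v : ℝ) * (Lyap_W η z * (starRingEnd ℂ) (η v)).re) / N := by
      intro v
      rw [hp, hs]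
      have := Lyap_abs_sign (z v)
      calc _ = (((z v).natAbs : ℝ) * (z v).sign) * (Lyap_W η z * (starRingEnd ℂ) (η v)).re / N := by
            ring
        _ = _ := by rw [this]
    rw [sum_congr rfl fun v _ => e1 v, ← sum_div]
    congr 1
    have e2 : ∀ v, (z v : ℝ) * (Lyap_W η z * (starRingEnd ℂ) (η v)).re =
        (Lyap_W η z * (starRingEnd ℂ) ((z v : ℂ) * η v)).re := by
      intro v
      have h2 : ((z v : ℤ) : ℂ) = (((z v : ℤ) : ℝ) : ℂ) := by push_cast; rfl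
      rw [map_mul, h2, Complex.conj_ofReal, ← Complex.re_ofReal_mul]
      congr 1
      ring
    rw [sum_congr rfl fun v _ => e2 v, ← Complex.re_sum, ← mul_sum, ← map_sum]
    have e3 : ∑ v, (z v : ℂ) * η v = Lyap_W η z := rfl
    rw [e3, Complex.mul_conj, Complex.ofReal_re, hb]
  obtain ⟨d, hd⟩ : ∃ d : Fin (n + 3) → ℝ, d = fun v => (zN (zstep τ z v) : ℝ) - zN z := ⟨_, rfl⟩
  have hd2 : ∀ v, |d v| ≤ 2 := fun v => by rw [hd]; exact Lyap_N_step hτ z v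
  have hD := hdrift (Fin (n + 3)) p s d b N hNN₀ hb0 hp0 hp1 hs1 hps hd2
  -- the logarithms of the sums of squares
  have hlog : ∑ v, p v * Real.log (Lyap_Z (zstep τ z v)) ≤
      Real.log Z + 2 * lam' / N + 2 / Z := by
    have h1 : ∀ v, p v * Real.log (Lyap_Z (zstep τ z v)) ≤
        p v * Real.log Z + (2 * (((z v : ℝ) *
          ((τ v : ℝ) * z (v + 1) + τ (v - 1) * z (v - 1))) / N) + 2 * p v) / Z := by
      intro v
      rcases eq_or_ne (z v) 0 with h0 | h0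
      · have hpv : p v = 0 := by rw [hp]; simp [h0]
        rw [hpv, h0]
        simp
      · have hZ' : 0 < Lyap_Z (zstep τ z v) := by
          refine Lyap_Z_pos (v := v) ?_
          unfold zstep
          rw [Lyap_A0, mul_zero, add_zero]
          exact h0
        have h2 : Real.log (Lyap_Z (zstep τ z v)) ≤ Real.log Z +
            (Lyap_Z (zstep τ z v) - Z) / Z := by
          have h3 := Real.log_le_sub_one_of_pos (div_pos hZ' hZ0)
          rw [Real.log_div hZ'.ne' hZ0.ne'] at h3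
          have h4 : (Lyap_Z (zstep τ z v) - Z) / Z = Lyap_Z (zstep τ z v) / Z - 1 := by
            rw [sub_div, div_self hZ0.ne']
          rw [h4]
          linarith
        have h5 := mul_le_mul_of_nonneg_left h2 (hp0 v)
        refine h5.trans (le_of_eq ?_)
        rw [Lyap_Z_step hτ z v h0, ← hZ]
        have h6 := Lyap_abs_sign (z v)
        have h7 : p v * (((z v).sign : ℝ) *
            ((τ v : ℝ) * z (v + 1) + τ (v - 1) * z (v - 1))) = ((z v : ℝ) *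
          ((τ v : ℝ) * z (v + 1) + τ (v - 1) * z (v - 1))) / N := by
          rw [hp]
          calc _ = (((z v).natAbs : ℝ) * (z v).sign) *
                ((τ v : ℝ) * z (v + 1) + τ (v - 1) * z (v - 1)) / N := by ring
            _ = _ := by rw [h6]
        rw [← h7]
        ring
    refine (sum_le_sum fun v _ => h1 v).trans ?_
    rw [sum_add_distrib, ← sum_mul, hp1, one_mul, ← sum_div, sum_add_distrib, ← mul_sum, ← mul_sum,
      ← sum_div, hp1]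
    have hq := Lyap_quad hτ m₀ hm hmk z hz
    rw [← hlam', ← hZ] at hq
    have h8 : (2 * ((∑ v, (z v : ℝ) * ((τ v : ℝ) * z (v + 1) + τ (v - 1) * z (v - 1))) / N) +
        2 * 1) / Z ≤ (2 * ((lam' * Z) / N) + 2 * 1) / Z := by
      gcongr
    have h9 : (2 * ((lam' * Z) / N) + 2 * 1) / Z = 2 * lam' / N + 2 / Z := by
      field_simp
    linarith
  -- rewriting the left hand side
  have hLHS : ∑ v, ((z v).natAbs : ℝ) / (zN z : ℝ) * Lyap_f C C₂ η (zstep τ z v) =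
      ∑ v, p v * Real.log (Lyap_Z (zstep τ z v)) +
      ∑ v, p v * (- Real.log (b + 2 * lam * s v + lam ^ 2 + C * (N + d v)) +
            C₂ * (N + d v) / (b + 2 * lam * s v + lam ^ 2 + C * (N + d v))) +
      Real.log (((n : ℝ) + 3) * (1 + C)) := by
    have e1 : ∀ v, ((z v).natAbs : ℝ) / (zN z : ℝ) * Lyap_f C C₂ η (zstep τ z v) =
        p v * Real.log (Lyap_Z (zstep τ z v)) +
        p v * (- Real.log (b + 2 * lam * s v + lam ^ 2 + C * (N + d v)) +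
            C₂ * (N + d v) / (b + 2 * lam * s v + lam ^ 2 + C * (N + d v))) +
        p v * Real.log (((n : ℝ) + 3) * (1 + C)) := by
      intro v
      have hpv : ((z v).natAbs : ℝ) / (zN z : ℝ) = p v := by rw [hp, hN]
      rw [hpv]
      rcases eq_or_ne (z v) 0 with h0 | h0
      · have hpv : p v = 0 := by rw [hp]; simp [h0]
        rw [hpv]
        ring
      · have hNd : N + d v = zN (zstep τ z v) := by rw [hd, hN]; ring
        unfold Lyap_f
        rw [Lyap_b_step hω hlam hη hτ h z v h0, ← hb, hNd, hs]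
        ring
    rw [sum_congr rfl fun v _ => e1 v, sum_add_distrib, sum_add_distrib, ← sum_mul, hp1, one_mul]
  rw [hLHS]
  have hf : Lyap_f C C₂ η z = Real.log Z + (- Real.log (b + C * N) + C₂ * N / (b + C * N)) +
      Real.log (((n : ℝ) + 3) * (1 + C)) := by
    unfold Lyap_f
    rw [hZ, hb, hN]
  rw [hf, ← hN]
  -- the error term
  have herr : 2 / Z ≤ (lam - lam') / N := by
    have h1 : N ^ 2 ≤ ((n : ℝ) + 3) * Z := by rw [hN, hZ]; exact Lyap_N_sq z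
    rw [div_le_iff₀ hc] at hNl
    rw [div_le_div_iff₀ hZ0 hN0]
    have h2 : 0 < (n : ℝ) + 3 := by positivity
    have h3 : 2 * ((n : ℝ) + 3) * N ≤ ((lam - lam') * Z) * ((n : ℝ) + 3) := by
      calc 2 * ((n : ℝ) + 3) * N ≤ (N * (lam - lam')) * N := by
            exact mul_le_mul_of_nonneg_right hNl hN0.le
        _ = (lam - lam') * N ^ 2 := by ring
        _ ≤ (lam - lam') * (((n : ℝ) + 3) * Z) := mul_le_mul_of_nonneg_left h1 hc.le
        _ = _ := by ring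
    have h4 : (2 * N) * ((n : ℝ) + 3) ≤ ((lam - lam') * Z) * ((n : ℝ) + 3) := by linarith
    exact le_of_mul_le_mul_right h4 h2
  have hfin : (lam - lam') / N = lam / N - lam' / N := sub_div _ _ _
  have e2 : 2 * lam / N = 2 * (lam / N) := by ring
  have e3 : 2 * lam' / N = 2 * (lam' / N) := by ring
  rw [e3] at hlog
  rw [e2] at hD
  linarith

end main

theorem lyap (n : ℕ) (ω : ℂ) (m₀ : ℕ)
    (h : (ω = 1 ∧ m₀ = 2) ∨
      (ω = Complex.exp (Real.pi / (n + 3) * Complex.I) ∧ m₀ = 3 ∧ 1 ≤ n)) :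
    ∃ c : ℝ, 0 < c ∧ ∃ N₀ : ℕ, ∀ (τ : Fin (n + 3) → ℤ) (η : Fin (n + 3) → ℂ),
      (∀ j, τ j = 1 ∨ τ j = -1) → (∀ j, ‖η j‖ = 1) →
      (∀ j, (τ j : ℂ) * η (j + 1) = ω * η j) →
      ∃ f : (Fin (n + 3) → ℤ) → ℝ, (∀ z, 0 ≤ f z) ∧
        ∀ z, m₀ ≤ zneg τ z → N₀ ≤ zN z →
          ∑ v, ((z v).natAbs : ℝ) / (zN z : ℝ) * f (zstep τ z v) ≤ f z - c / (zN z : ℝ) := by
  have hn : (0 : ℝ) ≤ n := Nat.cast_nonneg n
  have hπ := Real.pi_pos
  rcases h with ⟨rfl, rfl⟩ | ⟨rfl, rfl, hn1⟩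
  · refine Lyap_core n 1 2 2 (by simp) ?_ (by norm_num) le_rfl (by norm_num) (by omega) ?_
    · rw [map_one]; push_cast; norm_num
    · have h1 : Real.cos (Real.pi / ((n : ℝ) + 5 - (2 : ℕ))) < Real.cos 0 := by
        have h3 : (0 : ℝ) < (n : ℝ) + 5 - (2 : ℕ) := by push_cast; linarith
        refine Real.cos_lt_cos_of_nonneg_of_le_pi le_rfl ?_ (by positivity)
        rw [div_le_iff₀ h3]
        push_cast
        nlinarith
      rw [Real.cos_zero] at h1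
      linarith
  · have hn1' : (1 : ℝ) ≤ n := by exact_mod_cast hn1
    have hθ : (Real.pi / (n + 3) * Complex.I : ℂ) = ((Real.pi / ((n : ℝ) + 3) : ℝ) : ℂ) * Complex.I := by
      push_cast; ring
    rw [hθ]
    obtain ⟨θ, hθ'⟩ : ∃ θ : ℝ, θ = Real.pi / ((n : ℝ) + 3) := ⟨_, rfl⟩
    rw [← hθ']
    have hθ0 : 0 < θ := by rw [hθ']; positivity
    have hre : (Complex.exp ((θ : ℂ) * Complex.I)).re = Real.cos θ := Complex.exp_ofReal_mul_I_re θ
    have hnorm : ‖Complex.exp ((θ : ℂ) * Complex.I)‖ = 1 := Complex.norm_exp_ofReal_mul_I θ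
    refine Lyap_core n _ 3 (2 * Real.cos θ) ?_ ?_ ?_ ?_ (by norm_num) (by omega) ?_
    · rw [Complex.mul_conj, Complex.normSq_eq_norm_sq, hnorm]; norm_num
    · rw [Complex.add_conj, hre]
    · have h1 : Real.cos (Real.pi / 3) < Real.cos θ := by
        refine Real.cos_lt_cos_of_nonneg_of_le_pi hθ0.le (by linarith) ?_
        rw [hθ']
        exact div_lt_div_of_pos_left hπ (by norm_num) (by linarith)
      rw [Real.cos_pi_div_three] at h1
      linarith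
    · have := Real.cos_le_one θ
      linarith
    · have h1 : Real.cos (Real.pi / ((n : ℝ) + 5 - (3 : ℕ))) < Real.cos θ := by
        have h3 : (0 : ℝ) < (n : ℝ) + 5 - (3 : ℕ) := by push_cast; linarith
        refine Real.cos_lt_cos_of_nonneg_of_le_pi hθ0.le ?_ ?_
        · rw [div_le_iff₀ h3]
          push_cast
          nlinarith
        · rw [hθ']
          refine div_lt_div_of_pos_left hπ h3 ?_
          push_cast
          linarith
      linarith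

end Pool.Agent.TH996.Urn
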