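import Pool.Agent.TH996.Urn.CycDefs

/-!
# One step of the urn process on the cycle in terms of colourings and signs (helper81)
-/

open Finset

namespace Pool.Agent.TH996.Urn

variable {n s : ℕ}

namespace Rel

theorem two_ne (a : Fin (n + 3)) : a + 1 + 1 ≠ a := by
  intro h
  rw [add_assoc, add_eq_left] at h
  have h1 := congrArg Fin.val h
  rw [Fin.val_add, Fin.val_one, Fin.val_zero, Nat.mod_eq_of_lt (by omega)] at h1
  omega

theorem one_ne (a : Fin (n + 3)) : a + 1 ≠ a := by
  intro h
  rw [add_eq_left] at h
  exact one_ne_zero h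

theorem adj_iff {v u : Fin (n + 3)} :
    (SimpleGraph.cycleGraph (n + 3)).Adj v u ↔ u = v + 1 ∨ v = u + 1 := by
  rw [SimpleGraph.cycleGraph_adj, sub_eq_iff_eq_add, sub_eq_iff_eq_add, add_comm 1 u, add_comm 1 v]
  exact or_comm

theorem chg_update (C : Fin (n + 3) → Fin s) (u : Fin (n + 3)) (c : Fin s) :
    chg (Function.update C u c) +
      ((if C u ≠ C (u + 1) then 1 else 0) + (if C (u - 1) ≠ C u then 1 else 0)) =
    chg C + ((if c ≠ C (u + 1) then 1 else 0) + (if C (u - 1) ≠ c then 1 else 0)) := by
  have hne : u - 1 ≠ u := by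
    intro h
    exact one_ne u (by rw [sub_eq_iff_eq_add] at h; exact h.symm)
  have hsplit : ∀ D : Fin (n + 3) → Fin s, chg D = (if D u ≠ D (u + 1) then 1 else 0) +
      ((if D (u - 1) ≠ D (u - 1 + 1) then 1 else 0) +
        ∑ j ∈ (univ.erase u).erase (u - 1), if D j ≠ D (j + 1) then 1 else 0) := by
    intro D
    unfold chg
    rw [card_filter, ← add_sum_erase univ _ (mem_univ u),
      ← add_sum_erase (univ.erase u) _ (mem_erase.2 ⟨hne, mem_univ (u - 1)⟩)]
  rw [hsplit C, hsplit (Function.update C u c)]
  have h1 : Function.update C u c (u + 1) = C (u + 1) := Function.update_of_ne (one_ne u) _ _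
  have h2 : Function.update C u c (u - 1) = C (u - 1) := Function.update_of_ne hne _ _
  have h3 : ∑ j ∈ (univ.erase u).erase (u - 1),
      (if Function.update C u c j ≠ Function.update C u c (j + 1) then 1 else 0) =
      ∑ j ∈ (univ.erase u).erase (u - 1), if C j ≠ C (j + 1) then 1 else 0 := by
    refine sum_congr rfl fun j hj => ?_
    rw [mem_erase, mem_erase] at hj
    rw [Function.update_of_ne hj.2.1, Function.update_of_ne]
    intro h
    exact hj.1 (by rw [← h, add_sub_cancel_right])
  rw [h3, sub_add_cancel, h1, h2, Function.update_self]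
  ring

/-- the sign relations at the two edges of a recoloured vertex -/
theorem comb {s : ℕ} (a b c d : Fin s) (hc : c = a ∨ c = d)
    (h : (if b ≠ d then 1 else 0) + (if a ≠ b then 1 else 0) =
      (if c ≠ d then 1 else 0) + (if a ≠ c then 1 else 0)) :
    (if b = c then (1 : ℤ) else -1) * (if b = d then 1 else -1) = (if c = d then 1 else -1) ∧
    (if b = c then (1 : ℤ) else -1) * (if a = b then 1 else -1) = (if a = c then 1 else -1) := by
  rcases hc with rfl | rfl
  · by_cases h1 : b = c
    · subst h1; simp
    · by_cases h2 : b = d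
      · subst h2
        have h3 : c ≠ b := fun h => h1 h.symm
        simp [h1, h3]
      · exfalso
        have h3 : c ≠ b := fun h => h1 h.symm
        simp [h2, h3] at h
        split_ifs at h <;> omega
  · by_cases h1 : b = c
    · subst h1; simp
    · by_cases h2 : a = b
      · subst h2
        simp [h1]
      · exfalso
        simp [h2, h1] at h
        split_ifs at h <;> omega

/-- change of the colour of one vertex to the colour of a neighbour -/
theorem upd {u v : Fin (n + 3)} (h : u = v + 1 ∨ v = u + 1) (C : Fin (n + 3) → Fin s) :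
    chg (Function.update C u (C v)) ≤ chg C ∧
    ∀ τ σ : Fin (n + 3) → ℤ, Sgn τ C σ → chg (Function.update C u (C v)) = chg C →
      Sgn τ (Function.update C u (C v))
        (Function.update σ u (σ u * (if C u = C v then 1 else -1))) := by
  have hkey := chg_update C u (C v)
  have hc : C v = C (u - 1) ∨ C v = C (u + 1) := by
    rcases h with h | h
    · left; rw [h, add_sub_cancel_right]
    · right; rw [h]
  have hne : u - 1 ≠ u := by
    intro h
    exact one_ne u (by rw [sub_eq_iff_eq_add] at h; exact h.symm)
  generalize C v = c at hkey hc ⊢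
  constructor
  · by_cases h1 : C (u - 1) = C u <;> by_cases h2 : C u = C (u + 1) <;>
      rcases hc with h3 | h3 <;> subst h3 <;> simp_all <;> split_ifs at hkey <;> omega
  · intro τ σ hσ heq
    rw [heq] at hkey
    have hkey' := Nat.add_left_cancel hkey
    refine ⟨fun w => ?_, fun j => ?_⟩
    · by_cases hw : w = u
      · subst hw
        rw [Function.update_self]
        rcases hσ.1 w with h1 | h1 <;> rw [h1] <;> split_ifs <;> simp
      · rw [Function.update_of_ne hw]
        exact hσ.1 w
    · by_cases hj : j = u
      · subst hj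
        have h1 := hσ.2 j
        rw [Function.update_self, Function.update_self, Function.update_of_ne (one_ne j),
          Function.update_of_ne (one_ne j)]
        have e : σ j * (if C j = c then 1 else -1) * σ (j + 1) * τ j =
            (if C j = c then 1 else -1) * (σ j * σ (j + 1) * τ j) := by ring
        rw [e, h1]
        exact (comb (C (j - 1)) (C j) c (C (j + 1)) hc hkey').1
      · by_cases hj2 : j + 1 = u
        · subst hj2
          have h1 := hσ.2 j
          rw [Function.update_self, Function.update_self, Function.update_of_ne hj,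
            Function.update_of_ne hj]
          have e : σ j * (σ (j + 1) * (if C (j + 1) = c then 1 else -1)) * τ j =
              (if C (j + 1) = c then 1 else -1) * (σ j * σ (j + 1) * τ j) := by ring
          rw [e, h1]
          rw [add_sub_cancel_right] at hkey' hc
          exact (comb (C j) (C (j + 1)) c (C (j + 1 + 1)) hc hkey').2
        · rw [Function.update_of_ne hj, Function.update_of_ne hj, Function.update_of_ne hj2,
            Function.update_of_ne hj2]
          exact hσ.2 j

/-- the same with a condition -/
theorem updB {u v : Fin (n + 3)} (h : u = v + 1 ∨ v = u + 1) (C : Fin (n + 3) → Fin s)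
    (b : Prop) [Decidable b] :
    chg (if b then Function.update C u (C v) else C) ≤ chg C ∧
    ∀ τ σ : Fin (n + 3) → ℤ, Sgn τ C σ →
      chg (if b then Function.update C u (C v) else C) = chg C →
      Sgn τ (if b then Function.update C u (C v) else C)
        (if b then Function.update σ u (σ u * (if C u = C v then 1 else -1)) else σ) := by
  by_cases hb : b
  · simp only [if_pos hb]
    exact upd h C
  · simp only [if_neg hb]
    exact ⟨le_rfl, fun τ σ hσ _ => hσ⟩

/-- the recolouring of all the empty neighbours -/
theorem both (v : Fin (n + 3)) (C : Fin (n + 3) → Fin s) (E : Fin (n + 3) → Prop)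
    [DecidablePred E] :
    chg (fun u => if (u = v + 1 ∨ v = u + 1) ∧ E u then C v else C u) ≤ chg C ∧
    ∀ τ σ : Fin (n + 3) → ℤ, Sgn τ C σ →
      chg (fun u => if (u = v + 1 ∨ v = u + 1) ∧ E u then C v else C u) = chg C →
      Sgn τ (fun u => if (u = v + 1 ∨ v = u + 1) ∧ E u then C v else C u)
        (fun u => if (u = v + 1 ∨ v = u + 1) ∧ E u then
          σ u * (if C u = C v then 1 else -1) else σ u) := by
  have n1 : v ≠ v + 1 := fun h => one_ne v h.symm
  have n2 : v ≠ v - 1 := fun h => one_ne v (by rw [eq_sub_iff_add_eq] at h; exact h)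
  have n3 : v - 1 ≠ v + 1 := by
    intro h
    rw [sub_eq_iff_eq_add] at h
    exact two_ne v h.symm
  set C1 : Fin (n + 3) → Fin s := if E (v + 1) then Function.update C (v + 1) (C v) else C with hC1
  have c1v : C1 v = C v := by
    rw [hC1]; split_ifs
    · rw [Function.update_of_ne n1]
    · rfl
  have c1u : C1 (v - 1) = C (v - 1) := by
    rw [hC1]; split_ifs
    · rw [Function.update_of_ne n3]
    · rfl
  have hA := updB (u := v + 1) (v := v) (Or.inl rfl) C (E (v + 1))
  have hB := updB (u := v - 1) (v := v) (Or.inr (by rw [sub_add_cancel])) C1 (E (v - 1))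
  rw [← hC1] at hA
  have hC2 : (fun u => if (u = v + 1 ∨ v = u + 1) ∧ E u then C v else C u) =
      (if E (v - 1) then Function.update C1 (v - 1) (C1 v) else C1) := by
    funext u
    by_cases hu1 : u = v + 1
    · subst hu1
      by_cases he : E (v + 1)
      · rw [if_pos ⟨Or.inl rfl, he⟩]
        have : C1 (v + 1) = C v := by rw [hC1, if_pos he, Function.update_self]
        split_ifs
        · rw [Function.update_of_ne n3.symm, this]
        · rw [this]
      · rw [if_neg (fun h => he h.2)]
        have : C1 (v + 1) = C (v + 1) := by rw [hC1, if_neg he]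
        split_ifs
        · rw [Function.update_of_ne n3.symm, this]
        · rw [this]
    · have hcu : C1 u = C u := by
        rw [hC1]; split_ifs
        · rw [Function.update_of_ne hu1]
        · rfl
      by_cases hu2 : u = v - 1
      · subst hu2
        by_cases he : E (v - 1)
        · rw [if_pos ⟨Or.inr (by rw [sub_add_cancel]), he⟩, if_pos he, Function.update_self, c1v]
        · rw [if_neg (fun h => he h.2), if_neg he, c1u]
      · have hn : ¬ (u = v + 1 ∨ v = u + 1) := by
          rintro (h | h)
          · exact hu1 h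
          · exact hu2 (by rw [h, add_sub_cancel_right])
        rw [if_neg (fun h => hn h.1)]
        split_ifs
        · rw [Function.update_of_ne hu2, hcu]
        · rw [hcu]
  rw [hC2]
  refine ⟨hB.1.trans hA.1, fun τ σ hσ heq => ?_⟩
  have h1 : chg C1 = chg C := le_antisymm hA.1 (by rw [← heq]; exact hB.1)
  have hs1 := hA.2 τ σ hσ h1
  set σ1 : Fin (n + 3) → ℤ := if E (v + 1) then Function.update σ (v + 1)
    (σ (v + 1) * (if C (v + 1) = C v then 1 else -1)) else σ with hσ1
  have hs2 := hB.2 τ σ1 hs1 (by rw [heq, h1])
  have s1u : σ1 (v - 1) = σ (v - 1) := by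
    rw [hσ1]; split_ifs
    · rw [Function.update_of_ne n3]
    · rw [Function.update_of_ne n3]
    · rfl
  have hS2 : (fun u => if (u = v + 1 ∨ v = u + 1) ∧ E u then
          σ u * (if C u = C v then 1 else -1) else σ u) =
      (if E (v - 1) then Function.update σ1 (v - 1)
        (σ1 (v - 1) * (if C1 (v - 1) = C1 v then 1 else -1)) else σ1) := by
    rw [c1u, c1v, s1u]
    funext u
    by_cases hu1 : u = v + 1
    · subst hu1
      by_cases he : E (v + 1)
      · rw [if_pos ⟨Or.inl rfl, he⟩]
        have : σ1 (v + 1) = σ (v + 1) * (if C (v + 1) = C v then 1 else -1) := by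
          rw [hσ1, if_pos he, Function.update_self]
        by_cases he' : E (v - 1)
        · rw [if_pos he', Function.update_of_ne n3.symm, this]
        · rw [if_neg he', this]
      · rw [if_neg (fun h => he h.2)]
        have : σ1 (v + 1) = σ (v + 1) := by rw [hσ1, if_neg he]
        by_cases he' : E (v - 1)
        · rw [if_pos he', Function.update_of_ne n3.symm, this]
        · rw [if_neg he', this]
    · have hcu : σ1 u = σ u := by
        rw [hσ1]
        by_cases he : E (v + 1)
        · rw [if_pos he, Function.update_of_ne hu1]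
        · rw [if_neg he]
      by_cases hu2 : u = v - 1
      · subst hu2
        by_cases he : E (v - 1)
        · rw [if_pos ⟨Or.inr (by rw [sub_add_cancel]), he⟩, if_pos he, Function.update_self]
        · rw [if_neg (fun h => he h.2), if_neg he, s1u]
      · have hn : ¬ (u = v + 1 ∨ v = u + 1) := by
          rintro (h | h)
          · exact hu1 h
          · exact hu2 (by rw [h, add_sub_cancel_right])
        rw [if_neg (fun h => hn h.1)]
        by_cases he' : E (v - 1)
        · rw [if_pos he', Function.update_of_ne hu2, hcu]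
        · rw [if_neg he', hcu]
  rw [hS2]
  exact hs2

/-- the step at a neighbour, three cases -/
theorem step_empty {x : Config (Fin (n + 3)) s} {C : Fin (n + 3) → Fin s} (hx : Supp x C)
    {v u : Fin (n + 3)} (ha : u = v + 1 ∨ v = u + 1) (h0 : x u (C u) = 0) (d : Fin s) :
    step (SimpleGraph.cycleGraph (n + 3)) x v (C v) u d = if d = C v then 1 else 0 := by
  have hz : ∀ e, x u e = 0 := by
    intro e
    by_cases he : e = C u
    · rw [he, h0]
    · exact hx u e he
  unfold step
  rw [if_pos (adj_iff.2 ha), if_neg, hz d]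
  rintro ⟨e, -, he⟩
  rw [hz e] at he
  exact lt_irrefl _ he

theorem step_same {x : Config (Fin (n + 3)) s} {C : Fin (n + 3) → Fin s} (hx : Supp x C)
    {v u : Fin (n + 3)} (ha : u = v + 1 ∨ v = u + 1) (hc : C u = C v) (d : Fin s) :
    step (SimpleGraph.cycleGraph (n + 3)) x v (C v) u d = if d = C v then x u d + 1 else x u d := by
  unfold step
  rw [if_pos (adj_iff.2 ha), if_neg]
  rintro ⟨e, he1, he⟩
  rw [hx u e (by rw [hc]; exact he1)] at he
  exact lt_irrefl _ he

theorem step_diff {x : Config (Fin (n + 3)) s} {C : Fin (n + 3) → Fin s}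
    {v u : Fin (n + 3)} (ha : u = v + 1 ∨ v = u + 1) (h0 : 0 < x u (C u)) (hc : C u ≠ C v)
    (d : Fin s) :
    step (SimpleGraph.cycleGraph (n + 3)) x v (C v) u d = if d = C v then x u d else x u d - 1 := by
  unfold step
  rw [if_pos (adj_iff.2 ha), if_pos ⟨C u, hc, h0⟩]

/-- the sign relation in terms of the twisted adjacency matrix -/
theorem amat {τ : Fin (n + 3) → ℤ} (hτ : ∀ j, τ j = 1 ∨ τ j = -1)
    {C : Fin (n + 3) → Fin s} {σ : Fin (n + 3) → ℤ} (hσ : Sgn τ C σ) {v u : Fin (n + 3)}
    (ha : u = v + 1 ∨ v = u + 1) :
    σ v * Amat τ v u = σ u * (if C u = C v then 1 else -1) := by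
  rcases ha with h | h
  · subst h
    have h1 : ¬ v = v + 1 + 1 := fun h => two_ne v h.symm
    unfold Amat
    rw [if_pos rfl, if_neg h1, add_zero]
    have h2 := hσ.2 v
    have h3 : (if C (v + 1) = C v then (1 : ℤ) else -1) = if C v = C (v + 1) then 1 else -1 := by
      simp only [eq_comm]
    rw [h3, ← h2]
    rcases hσ.1 (v + 1) with h4 | h4 <;> rw [h4] <;> ring
  · subst h
    have h1 : ¬ u = u + 1 + 1 := fun h => two_ne u h.symm
    unfold Amat
    rw [if_pos rfl, if_neg h1, zero_add]
    rw [← hσ.2 u]
    rcases hσ.1 u with h4 | h4 <;> rw [h4] <;> ring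

end Rel

theorem rel_step {τ : Fin (n + 3) → ℤ} (hτ : ∀ j, τ j = 1 ∨ τ j = -1)
    {x : Config (Fin (n + 3)) s} {C : Fin (n + 3) → Fin s} {σ : Fin (n + 3) → ℤ}
    (hx : Supp x C) (hσ : Sgn τ C σ) {v : Fin (n + 3)} (hv : 0 < x v (C v)) :
    ∃ (C' : Fin (n + 3) → Fin s) (σ' : Fin (n + 3) → ℤ),
      Supp (step (SimpleGraph.cycleGraph (n + 3)) x v (C v)) C' ∧ chg C' ≤ chg C ∧
      (chg C' = chg C → Sgn τ C' σ' ∧
        zvec (step (SimpleGraph.cycleGraph (n + 3)) x v (C v)) C' σ' =
          zstep τ (zvec x C σ) v) := by
  have hb := Rel.both v C (fun u => x u (C u) = 0)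
  refine ⟨_, fun u => if (u = v + 1 ∨ v = u + 1) ∧ x u (C u) = 0 then
          σ u * (if C u = C v then 1 else -1) else σ u, ?_, hb.1, fun heq => ⟨hb.2 τ σ hσ heq, ?_⟩⟩
  · intro u c hc
    beta_reduce at hc
    by_cases ha : u = v + 1 ∨ v = u + 1
    · by_cases h0 : x u (C u) = 0
      · rw [if_pos ⟨ha, h0⟩] at hc
        rw [Rel.step_empty hx ha h0, if_neg hc]
      · rw [if_neg (fun h => h0 h.2)] at hc
        by_cases hcc : C u = C v
        · rw [Rel.step_same hx ha hcc, if_neg (by rw [← hcc]; exact hc), hx u c hc]
        · rw [Rel.step_diff ha (Nat.pos_of_ne_zero h0) hcc, hx u c hc]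
          simp
    · rw [if_neg (fun h => ha h.1)] at hc
      rw [step_of_not_adj _ (fun h => ha (Rel.adj_iff.1 h))]
      exact hx u c hc
  · have hsgn : (zvec x C σ v).sign = σ v := by
      unfold zvec
      have hpos : (0 : ℤ) < (x v (C v) : ℤ) := by exact_mod_cast hv
      rw [Int.sign_mul, Int.sign_eq_one_of_pos hpos, mul_one]
      rcases hσ.1 v with h | h <;> rw [h] <;> rfl
    funext u
    unfold zstep
    rw [hsgn]
    unfold zvec
    by_cases ha : u = v + 1 ∨ v = u + 1
    · rw [Rel.amat hτ hσ ha]
      by_cases h0 : x u (C u) = 0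
      · simp only [ha, h0, and_self, if_true]
        rw [Rel.step_empty hx ha h0, if_pos rfl]
        simp
      · simp only [h0, and_false, if_false]
        by_cases hcc : C u = C v
        · rw [Rel.step_same hx ha hcc, if_pos hcc, if_pos hcc]
          push_cast
          ring
        · have hp := Nat.pos_of_ne_zero h0
          rw [Rel.step_diff ha hp hcc, if_neg hcc, if_neg hcc, Nat.cast_sub hp]
          push_cast
          ring
    · simp only [ha, false_and, if_false]
      rw [step_of_not_adj _ (fun h => ha (Rel.adj_iff.1 h))]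
      have : Amat τ v u = 0 := by
        unfold Amat
        rw [if_neg (fun h => ha (Or.inl h)), if_neg (fun h => ha (Or.inr h)), add_zero]
      rw [this, mul_zero, add_zero]

theorem total_step_le {x : Config (Fin (n + 3)) s} {C : Fin (n + 3) → Fin s} (hx : Supp x C)
    {v : Fin (n + 3)} (hv : 0 < x v (C v)) :
    total (step (SimpleGraph.cycleGraph (n + 3)) x v (C v)) ≤ total x + 2 := by
  have key : ∀ u, ∑ c, step (SimpleGraph.cycleGraph (n + 3)) x v (C v) u c ≤
      ∑ c, x u c + ((if u = v + 1 then 1 else 0) + (if u = v - 1 then 1 else 0)) := by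
    intro u
    by_cases ha : u = v + 1 ∨ v = u + 1
    · have h1 : 1 ≤ (if u = v + 1 then 1 else 0) + (if u = v - 1 then 1 else 0) := by
        rcases ha with h | h
        · rw [if_pos h]; omega
        · have : u = v - 1 := by rw [h, add_sub_cancel_right]
          rw [if_pos this]; omega
      refine le_trans ?_ (Nat.add_le_add_left h1 _)
      have h2 : ∀ c, step (SimpleGraph.cycleGraph (n + 3)) x v (C v) u c ≤
          x u c + (if c = C v then 1 else 0) := by
        intro c
        unfold step
        split_ifs <;> omega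
      refine (sum_le_sum fun c _ => h2 c).trans ?_
      rw [sum_add_distrib]
      simp
    · rw [sum_congr rfl (fun c _ => step_of_not_adj _ (fun h => ha (Rel.adj_iff.1 h)))]
      omega
  unfold total
  refine (sum_le_sum fun u _ => key u).trans ?_
  rw [sum_add_distrib, sum_add_distrib]
  simp

end Pool.Agent.TH996.Urn
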