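import Pool.Agent.TH996.Urn.CycDefs
import Pool.Agent.TH996.Urn.Rel
import Pool.Agent.TH996.Urn.Gauge
import Pool.Agent.TH996.Urn.Lyap
import Pool.Agent.TH996.Urn.Small
import Pool.Agent.TH996.Urn.Wrap

/-!
# Assembly of the cycle theorem
-/

open Finset Filter Topology

namespace Pool.Agent.TH996.Urn

variable {n s : ℕ}

/-! ### elementary facts -/

theorem total_supp {x : Config (Fin (n + 3)) s} {C : Fin (n + 3) → Fin s} (hx : Supp x C) :
    total x = ∑ v, x v (C v) := by
  unfold total
  refine Finset.sum_congr rfl (fun v _ => ?_)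
  exact Finset.sum_eq_single (C v) (fun c _ hc => hx v c hc) (fun h => absurd (mem_univ _) h)

theorem Pop_supp (G : SimpleGraph (Fin (n + 3))) {x : Config (Fin (n + 3)) s}
    {C : Fin (n + 3) → Fin s} (hx : Supp x C) (f : Config (Fin (n + 3)) s → ℝ) :
    Pop G f x = ∑ v, (x v (C v) : ℝ) / (total x : ℝ) * f (step G x v (C v)) := by
  unfold Pop
  refine Finset.sum_congr rfl (fun v _ => ?_)
  refine Finset.sum_eq_single (C v) (fun c _ hc => ?_) (fun h => absurd (mem_univ _) h)
  rw [hx v c hc]; simp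

theorem supp_urnsMono {x : Config (Fin (n + 3)) s} {C : Fin (n + 3) → Fin s} (hx : Supp x C) :
    UrnsMono x := by
  intro v c d hc hd
  by_contra hne
  rcases eq_or_ne c (C v) with h | h
  · rcases eq_or_ne d (C v) with h' | h'
    · exact hne (h.trans h'.symm)
    · rw [hx v d h'] at hd; omega
  · rw [hx v c h] at hc; omega

theorem exists_supp (hs : 0 < s) {x : Config (Fin (n + 3)) s} (hx : UrnsMono x) :
    ∃ C : Fin (n + 3) → Fin s, Supp x C := by
  classical
  refine ⟨fun v => if h : ∃ c, 0 < x v c then h.choose else ⟨0, hs⟩, ?_⟩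
  intro v c hc
  by_contra hne
  have hpos : 0 < x v c := Nat.pos_of_ne_zero hne
  have h : ∃ c, 0 < x v c := ⟨c, hpos⟩
  apply hc
  simp only [h, dif_pos]
  exact hx v c _ hpos h.choose_spec

theorem chg_zero {x : Config (Fin (n + 3)) s} {C : Fin (n + 3) → Fin s} (hx : Supp x C)
    (h : chg C = 0) : AllMono x := by
  have h1 : ∀ j, C j = C (j + 1) := by
    intro j
    by_contra hne
    have : j ∈ (univ.filter (fun j => C j ≠ C (j + 1))) := by simp [hne]
    unfold chg at h
    rw [Finset.card_eq_zero] at h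
    rw [h] at this
    exact absurd this (Finset.notMem_empty _)
  have h2 : ∀ i : ℕ, ∀ hi : i < n + 3, C ⟨i, hi⟩ = C 0 := by
    intro i
    induction i with
    | zero => intro _; rfl
    | succ i ih =>
      intro hi
      have hi' : i < n + 3 := by omega
      rw [← ih hi', h1 ⟨i, hi'⟩]
      congr 1
      apply Fin.ext
      simp only [Fin.val_add, Fin.val_one]
      exact (Nat.mod_eq_of_lt hi).symm
  have h3 : ∀ v c, 0 < x v c → c = C 0 := by
    intro v c hc
    by_contra hne
    have : c ≠ C v := by rw [h2 v.1 v.2]; exact hne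
    rw [hx v c this] at hc
    omega
  intro u v c d hc hd
  rw [h3 u c hc, h3 v d hd]

theorem chg_ne_one (C : Fin (n + 3) → Fin s) : chg C ≠ 1 := by
  intro h
  unfold chg at h
  rw [Finset.card_eq_one] at h
  obtain ⟨a, ha⟩ := h
  have h1 : ∀ j, j ≠ a → C j = C (j + 1) := by
    intro j hj
    by_contra hne
    have : j ∈ (univ.filter (fun j => C j ≠ C (j + 1))) := by simp [hne]
    rw [ha] at this
    exact hj (Finset.mem_singleton.1 this)
  have ha' : C a ≠ C (a + 1) := by
    have : a ∈ (univ.filter (fun j => C j ≠ C (j + 1))) := by rw [ha]; exact Finset.mem_singleton_self _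
    exact (Finset.mem_filter.1 this).2
  -- going around
  have h2 : ∀ i : ℕ, i < n + 3 → C (a + 1 + (Fin.ofNat (n + 3) i)) = C (a + 1) := by
    intro i
    induction i with
    | zero => intro _; congr 1; simp [Fin.ofNat]
    | succ i ih =>
      intro hi
      have hi' : i < n + 3 := by omega
      rw [← ih hi']
      have e : a + 1 + Fin.ofNat (n + 3) (i + 1) = a + 1 + Fin.ofNat (n + 3) i + 1 := by
        apply Fin.ext
        simp only [Fin.val_add, Fin.ofNat, Fin.val_one]
        rw [Nat.mod_eq_of_lt hi, Nat.mod_eq_of_lt hi', Nat.mod_add_mod, Nat.mod_add_mod,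
          add_assoc ((a.1 + 1) % (n + 3)) i 1, Nat.mod_add_mod]
      rw [e]
      refine (h1 _ ?_).symm
      intro he
      have hv : (1 + Fin.ofNat (n + 3) i : Fin (n + 3)) = 0 := by
        have : a + (1 + Fin.ofNat (n + 3) i) = a + 0 := by rw [← add_assoc, he, add_zero]
        exact add_left_cancel this
      have hv' := congrArg Fin.val hv
      simp only [Fin.val_add, Fin.ofNat, Fin.val_one, Fin.val_zero] at hv'
      rw [Nat.mod_eq_of_lt hi', Nat.mod_eq_of_lt (by omega)] at hv'
      omega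
  apply ha'
  rw [← h2 (n + 2) (by omega)]
  congr 1
  have : (1 + Fin.ofNat (n + 3) (n + 2) : Fin (n + 3)) = 0 := by
    apply Fin.ext
    simp only [Fin.val_add, Fin.ofNat, Fin.val_one, Fin.val_zero]
    rw [Nat.mod_eq_of_lt (show n + 2 < n + 3 by omega)]
    have : 1 + (n + 2) = n + 3 := by omega
    rw [this, Nat.mod_self]
  rw [add_assoc, this, add_zero]

theorem zN_zvec {τ : Fin (n + 3) → ℤ} {x : Config (Fin (n + 3)) s} {C : Fin (n + 3) → Fin s}
    {σ : Fin (n + 3) → ℤ} (hx : Supp x C) (hσ : Sgn τ C σ) : zN (zvec x C σ) = total x := by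
  rw [total_supp hx]
  unfold zN zvec
  refine Finset.sum_congr rfl (fun v _ => ?_)
  rw [Int.natAbs_mul]
  rcases hσ.1 v with h | h <;> simp [h]

theorem chg_le_zneg {τ : Fin (n + 3) → ℤ}
    {x : Config (Fin (n + 3)) s} {C : Fin (n + 3) → Fin s} {σ : Fin (n + 3) → ℤ}
    (hσ : Sgn τ C σ) : chg C ≤ zneg τ (zvec x C σ) := by
  unfold chg zneg
  apply Finset.card_le_card
  intro j hj
  rw [Finset.mem_filter] at hj ⊢
  refine ⟨mem_univ _, ?_⟩
  have h1 := hσ.2 j
  rw [if_neg hj.2] at h1
  unfold zvec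
  have : τ j * (σ j * (x j (C j) : ℤ) * (σ (j + 1) * (x (j + 1) (C (j + 1)) : ℤ))) =
      (σ j * σ (j + 1) * τ j) * ((x j (C j) : ℤ) * (x (j + 1) (C (j + 1)) : ℤ)) := by ring
  rw [this, h1]
  have : (0 : ℤ) ≤ (x j (C j) : ℤ) * (x (j + 1) (C (j + 1)) : ℤ) := by positivity
  linarith

/-! ### the induction -/

/-- the class of configurations with a compatible colouring with at most `m` changes -/
def Cl (n s m : ℕ) (x : Config (Fin (n + 3)) s) : Prop :=
  ∃ C : Fin (n + 3) → Fin s, Supp x C ∧ chg C ≤ m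

theorem Cl_step {m : ℕ} {x : Config (Fin (n + 3)) s} (hx : Cl n s m x) {v : Fin (n + 3)}
    {c : Fin s} (hv : 0 < x v c) : Cl n s m (step (SimpleGraph.cycleGraph (n + 3)) x v c) := by
  obtain ⟨C, hC, hm⟩ := hx
  have hc : c = C v := by
    by_contra hne
    rw [hC v c hne] at hv
    omega
  subst hc
  obtain ⟨τ, η, hτ, hS, -, -⟩ := gauge C
  obtain ⟨C', σ', h1, h2, -⟩ := rel_step hτ hC hS hv
  exact ⟨C', h1, h2.trans hm⟩

/-- `S t N = ∑_{i < t} c / (N + 2 i)` -/
noncomputable def Ssum (c : ℝ) (t : ℕ) (N : ℕ) : ℝ := ∑ i ∈ range t, c / ((N : ℝ) + 2 * i)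

theorem Ssum_nonneg {c : ℝ} (hc : 0 ≤ c) (t N : ℕ) : 0 ≤ Ssum c t N :=
  Finset.sum_nonneg (fun i _ => by positivity)

theorem Ssum_anti {c : ℝ} (hc : 0 ≤ c) (t : ℕ) {N N' : ℕ} (h : N ≤ N') (hN : 0 < N) :
    Ssum c t N' ≤ Ssum c t N := by
  refine Finset.sum_le_sum (fun i _ => ?_)
  have h1 : (N : ℝ) ≤ N' := by exact_mod_cast h
  have h2 : (0 : ℝ) < N := by exact_mod_cast hN
  gcongr

theorem Ssum_succ (c : ℝ) (t N : ℕ) : Ssum c (t + 1) N = c / (N : ℝ) + Ssum c t (N + 2) := by
  unfold Ssum
  rw [Finset.sum_range_succ', add_comm]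
  congr 1
  · simp
  · refine Finset.sum_congr rfl (fun i _ => ?_)
    push_cast
    congr 1
    ring

theorem Ssum_tendsto {c : ℝ} (hc : 0 < c) {N : ℕ} (hN : 0 < N) :
    Tendsto (fun t => Ssum c t N) atTop atTop := by
  have h1 : Tendsto (fun t : ℕ => ∑ i ∈ range t, (1 : ℝ) / ((i : ℝ) + 1)) atTop atTop :=
    Real.tendsto_sum_range_one_div_nat_succ_atTop
  have h2 : Tendsto (fun t : ℕ => c / (N + 2) * ∑ i ∈ range t, (1 : ℝ) / ((i : ℝ) + 1)) atTop atTop :=
    h1.const_mul_atTop (by positivity)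
  refine tendsto_atTop_mono (fun t => ?_) h2
  unfold Ssum
  rw [Finset.mul_sum]
  refine Finset.sum_le_sum (fun i _ => ?_)
  have h3 : (0 : ℝ) < N := by exact_mod_cast hN
  rw [div_mul_div_comm, mul_one]
  apply div_le_div_of_nonneg_left hc.le (by positivity)
  have : (0 : ℝ) ≤ i := by positivity
  nlinarith

/-- one round of the iteration -/
theorem round (s n m : ℕ) (hm : 2 ≤ m) (hn : m = 2 ∨ Even m ∨ 1 ≤ n) :
    ∃ δ : ℝ, 0 < δ ∧ δ < 1 ∧ ∀ M : ℝ, 0 ≤ M →
      (∀ x : Config (Fin (n + 3)) s, Good x → Cl n s (m - 1) x →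
        hlim (SimpleGraph.cycleGraph (n + 3)) x = 0) →
      (∀ x : Config (Fin (n + 3)) s, Good x → Cl n s m x →
        hlim (SimpleGraph.cycleGraph (n + 3)) x ≤ M) →
      ∀ x : Config (Fin (n + 3)) s, Good x → Cl n s m x →
        hlim (SimpleGraph.cycleGraph (n + 3)) x ≤ (1 - δ) * M := by
  classical
  set G := SimpleGraph.cycleGraph (n + 3) with hG
  -- constants of the Lyapunov function
  set ω : ℂ := if Even m then 1 else Complex.exp (Real.pi / (n + 3) * Complex.I) with hω
  set m₀ : ℕ := if Even m then 2 else 3 with hm₀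
  have hm₀m : m₀ ≤ m := by
    rw [hm₀]; split_ifs with h
    · exact hm
    · have : m ≠ 2 := by rintro rfl; exact h (by decide)
      omega
  have hcase : (ω = 1 ∧ m₀ = 2) ∨
      (ω = Complex.exp (Real.pi / (n + 3) * Complex.I) ∧ m₀ = 3 ∧ 1 ≤ n) := by
    by_cases h : Even m
    · left; simp [hω, hm₀, h]
    · right
      refine ⟨by simp [hω, h], by simp [hm₀, h], ?_⟩
      rcases hn with h' | h' | h'
      · subst h'; exact absurd (by decide) h
      · exact absurd h' h
      · exact h'
  obtain ⟨c, hc, N₀, hlyap⟩ := lyap n ω m₀ hcase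
  obtain ⟨δ, hδ, hδ1, T, hT⟩ := small_N (s := s) G SimpleGraph.cycleGraph_connected N₀
  refine ⟨δ, hδ, hδ1, fun M hM0 hlow hM x hx hCl => ?_⟩
  have hM' : ∀ x : Config (Fin (n + 3)) s, Good x → Cl n s m x → hlim G x ≤ M * nm x := by
    intro x hx hK
    by_cases ha : AllMono x
    · have := hlim_le_nm G x
      unfold nm at this ⊢
      rw [if_pos ha] at this ⊢
      simpa using this
    · unfold nm
      rw [if_neg ha, mul_one]
      exact hM x hx hK
  have hsmall : ∀ x : Config (Fin (n + 3)) s, Good x → Cl n s m x → total x ≤ N₀ →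
      hlim G x ≤ (1 - δ) * M := by
    intro x hx hK hN
    have h1 := hlim_le_iter G (Cl n s m) (fun x _ hKx v c hv => Cl_step hKx hv) hM' T x hx hK
    have h2 := hT x hx.1 hx.2 hN
    nlinarith
  -- main induction
  obtain ⟨C, hC, hCm⟩ := hCl
  rcases Nat.lt_or_ge (chg C) m with hlt | hge
  · rw [hlow x hx ⟨C, hC, by omega⟩]
    have : 0 ≤ 1 - δ := by linarith
    positivity
  have hCm' : chg C = m := le_antisymm hCm hge
  obtain ⟨τ, η, hτ, hS, hη1, hη2⟩ := gauge C
  rw [hCm'] at hη2
  obtain ⟨f, hf0, hf⟩ := hlyap τ η hτ hη1 hη2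
  have main : ∀ t : ℕ, ∀ (x : Config (Fin (n + 3)) s) (C : Fin (n + 3) → Fin s)
      (σ : Fin (n + 3) → ℤ), Good x → Supp x C → Sgn τ C σ → chg C = m →
      (hlim G x - (1 - δ) * M) * Ssum c t (total x) ≤ M * f (zvec x C σ) := by
    intro t
    induction t with
    | zero =>
      intro x C σ _ _ _ _
      have : Ssum c 0 (total x) = 0 := by simp [Ssum]
      rw [this, mul_zero]
      exact mul_nonneg hM0 (hf0 _)
    | succ t ih =>
      intro x C σ hx hC hσ hCm
      have hrhs : 0 ≤ M * f (zvec x C σ) := mul_nonneg hM0 (hf0 _)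
      have hSn := Ssum_nonneg hc.le (t + 1) (total x)
      rcases Nat.lt_or_ge N₀ (total x) with hN | hN
      swap
      · have := hsmall x hx ⟨C, hC, hCm.le⟩ hN
        nlinarith
      have hNpos : 0 < total x := hx.2
      rw [Ssum_succ]
      set w : Config (Fin (n + 3)) s → ℝ := fun y => hlim G y - (1 - δ) * M with hw
      have hw1 : w x ≤ M := by
        have h1 := hM x hx ⟨C, hC, hCm.le⟩
        have : 0 ≤ (1 - δ) * M := mul_nonneg (by linarith) hM0
        simp only [hw]; linarith
      have hwP : w x = ∑ v, (x v (C v) : ℝ) / (total x : ℝ) * w (step G x v (C v)) := by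
        have h1 := hlim_harmonic G hx
        have h2 := Pop_const G ((1 - δ) * M) hx.2
        rw [Pop_supp G hC] at h1 h2
        simp only [hw, mul_sub, Finset.sum_sub_distrib]
        rw [h1, h2]
      have hzN : zN (zvec x C σ) = total x := zN_zvec hC hσ
      have hdr := hf (zvec x C σ)
        (hm₀m.trans (hCm.symm.le.trans (chg_le_zneg hσ))) (by rw [hzN]; exact hN.le)
      have hterm : ∀ v, (x v (C v) : ℝ) / (total x : ℝ) * w (step G x v (C v)) *
          Ssum c t (total x + 2) ≤
          (x v (C v) : ℝ) / (total x : ℝ) * (M * f (zstep τ (zvec x C σ) v)) := by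
        intro v
        rcases Nat.eq_zero_or_pos (x v (C v)) with h0 | h0
        · simp [h0]
        rw [mul_assoc]
        apply mul_le_mul_of_nonneg_left _ (by positivity)
        obtain ⟨C', σ', h1, h2, h3⟩ := rel_step hτ hC hσ h0
        have hgood := step_good G hx h0
        have hr : 0 ≤ M * f (zstep τ (zvec x C σ) v) := mul_nonneg hM0 (hf0 _)
        have hSn' := Ssum_nonneg hc.le t (total x + 2)
        rcases Nat.lt_or_ge (chg C') m with hlt | hge
        · have := hlow _ hgood ⟨C', h1, by omega⟩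
          have hwn : w (step G x v (C v)) ≤ 0 := by
            simp only [hw]
            rw [this]
            have : 0 ≤ (1 - δ) * M := mul_nonneg (by linarith) hM0
            linarith
          nlinarith
        · obtain ⟨h4, h5⟩ := h3 (by omega)
          have h6 := ih _ C' σ' hgood h1 h4 (by omega)
          rw [h5] at h6
          rcases le_or_gt (w (step G x v (C v))) 0 with hwn | hwp
          · nlinarith
          · refine le_trans ?_ h6
            apply mul_le_mul_of_nonneg_left _ hwp.le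
            exact Ssum_anti hc.le t (total_step_le hC h0) hgood.2
      have hsum : w x * Ssum c t (total x + 2) ≤
          M * ∑ v, (x v (C v) : ℝ) / (total x : ℝ) * f (zstep τ (zvec x C σ) v) := by
        rw [hwP, Finset.sum_mul, Finset.mul_sum]
        refine Finset.sum_le_sum (fun v _ => (hterm v).trans (le_of_eq ?_))
        ring
      have hconv : ∑ v, (x v (C v) : ℝ) / (total x : ℝ) * f (zstep τ (zvec x C σ) v) =
          ∑ v, ((zvec x C σ v).natAbs : ℝ) / (zN (zvec x C σ) : ℝ) *
            f (zstep τ (zvec x C σ) v) := by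
        rw [hzN]
        refine Finset.sum_congr rfl (fun v _ => ?_)
        congr 3
        unfold zvec
        rw [Int.natAbs_mul]
        rcases hσ.1 v with h | h <;> simp [h]
      rw [← hconv, hzN] at hdr
      have hNr : (0 : ℝ) < total x := by exact_mod_cast hNpos
      have hcN : 0 < c / (total x : ℝ) := by positivity
      have e1 : w x * (c / (total x : ℝ)) ≤ M * (c / (total x : ℝ)) :=
        mul_le_mul_of_nonneg_right hw1 hcN.le
      have e2 : M * ∑ v, (x v (C v) : ℝ) / (total x : ℝ) * f (zstep τ (zvec x C σ) v) ≤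
          M * (f (zvec x C σ) - c / (total x : ℝ)) := mul_le_mul_of_nonneg_left hdr hM0
      show w x * (c / (total x : ℝ) + Ssum c t (total x + 2)) ≤ _
      nlinarith
  -- conclusion
  by_contra hcon
  push Not at hcon
  have hpos : 0 < hlim G x - (1 - δ) * M := by linarith
  have ht := (Ssum_tendsto hc hx.2).const_mul_atTop hpos
  have hev := (tendsto_atTop.1 ht) (M * f (zvec x C (fun _ => 1)) + 1)
  obtain ⟨t, hev⟩ := hev.exists
  have := main t x C (fun _ => 1) hx hC hS hCm'
  linarith

end Pool.Agent.TH996.Urn
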