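import Pool.Agent.TH996.Urn.Basic

/-!
# Colourings of the cycle, signs, and the signed vector of a configuration
-/

open Finset

namespace Pool.Agent.TH996.Urn

variable {n s : ℕ}

/-- number of cyclic colour changes of a total colouring of the cycle -/
def chg (C : Fin (n + 3) → Fin s) : ℕ := (univ.filter (fun j => C j ≠ C (j + 1))).card

/-- The configuration `x` only has balls of colour `C v` at `v`. -/
def Supp (x : Config (Fin (n + 3)) s) (C : Fin (n + 3) → Fin s) : Prop :=
  ∀ v c, c ≠ C v → x v c = 0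

/-- signs `σ` compatible with the colouring `C`, twisted by `τ` -/
def Sgn (τ : Fin (n + 3) → ℤ) (C : Fin (n + 3) → Fin s) (σ : Fin (n + 3) → ℤ) : Prop :=
  (∀ v, σ v = 1 ∨ σ v = -1) ∧ ∀ j, σ j * σ (j + 1) * τ j = if C j = C (j + 1) then 1 else -1

/-- the signed vector -/
def zvec (x : Config (Fin (n + 3)) s) (C : Fin (n + 3) → Fin s) (σ : Fin (n + 3) → ℤ) :
    Fin (n + 3) → ℤ := fun v => σ v * (x v (C v) : ℤ)

/-- the twisted adjacency matrix of the cycle: entry `(v, u)` -/
def Amat (τ : Fin (n + 3) → ℤ) (v u : Fin (n + 3)) : ℤ :=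
  (if u = v + 1 then τ v else 0) + (if v = u + 1 then τ u else 0)

/-- the signed linear step -/
def zstep (τ : Fin (n + 3) → ℤ) (z : Fin (n + 3) → ℤ) (v : Fin (n + 3)) : Fin (n + 3) → ℤ :=
  fun u => z u + (z v).sign * Amat τ v u

/-- sum of absolute values -/
def zN (z : Fin (n + 3) → ℤ) : ℕ := ∑ v, (z v).natAbs

/-- number of edges with nonpositive twisted product -/
def zneg (τ : Fin (n + 3) → ℤ) (z : Fin (n + 3) → ℤ) : ℕ :=
  (univ.filter (fun j => τ j * (z j * z (j + 1)) ≤ 0)).card

end Pool.Agent.TH996.Urn
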