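import Pool.Agent.TH996.Urn.CycAsm

/-!
# Cycles have no coexistence: conclusion
-/

open Finset Filter Topology

namespace Pool.Agent.TH996.Urn

/-- the triangle with three different colours -/
theorem triangle_case (s : ℕ)
    (hlow : ∀ x : Config (Fin (0 + 3)) s, Good x → Cl 0 s 2 x →
        hlim (SimpleGraph.cycleGraph (0 + 3)) x = 0) :
    ∀ N : ℕ, ∀ (x : Config (Fin (0 + 3)) s) (C : Fin (0 + 3) → Fin s), Good x → Supp x C →
      chg C = 3 → total x ≤ N → hlim (SimpleGraph.cycleGraph (0 + 3)) x = 0 := by
  have hall : ∀ C : Fin (0 + 3) → Fin s, chg C = 3 → ∀ j, C j ≠ C (j + 1) := by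
    intro C hC j
    unfold chg at hC
    have h1 : (univ.filter (fun j => C j ≠ C (j + 1))) = univ :=
      Finset.eq_univ_of_card _ (by rw [hC]; rfl)
    have : j ∈ (univ.filter (fun j => C j ≠ C (j + 1))) := by rw [h1]; exact mem_univ j
    exact (Finset.mem_filter.1 this).2
  intro N
  induction N with
  | zero => intro x C hx _ _ hN; exact absurd hx.2 (by omega)
  | succ N ih =>
    intro x C hx hC hchg hN
    rw [← hlim_harmonic _ hx, Pop_supp _ hC]
    refine Finset.sum_eq_zero (fun v _ => ?_)
    rcases Nat.eq_zero_or_pos (x v (C v)) with h0 | h0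
    · simp [h0]
    have hgood := step_good (SimpleGraph.cycleGraph (0 + 3)) hx h0
    suffices h : hlim (SimpleGraph.cycleGraph (0 + 3))
        (step (SimpleGraph.cycleGraph (0 + 3)) x v (C v)) = 0 by rw [h, mul_zero]
    obtain ⟨τ, η, hτ, hS, -, -⟩ := gauge C
    obtain ⟨C', σ', h1, h2, h3⟩ := rel_step hτ hC hS h0
    rcases Nat.lt_or_ge (chg C') 3 with hlt | hge
    · exact hlow _ hgood ⟨C', h1, by omega⟩
    have hC'3 : chg C' = 3 := le_antisymm (h2.trans hchg.le) hge
    obtain ⟨hS', hz⟩ := h3 (by rw [hC'3, hchg])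
    refine ih _ C' hgood h1 hC'3 ?_
    have hτ' : ∀ j, τ j = -1 := by
      intro j
      have := hS.2 j
      rw [if_neg (hall C hchg j)] at this
      simpa using this
    have hσeq : ∀ j, σ' j = σ' (j + 1) := by
      intro j
      have h4 := hS'.2 j
      rw [if_neg (hall C' hC'3 j), hτ' j] at h4
      rcases hS'.1 j with h5 | h5 <;> rcases hS'.1 (j + 1) with h6 | h6 <;> rw [h5, h6] at h4 ⊢ <;>
        norm_num at h4
    have hσc : ∀ j, σ' j = σ' 0 := by
      intro j
      have e0 := hσeq 0
      have e1 := hσeq 1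
      fin_cases j
      · rfl
      · exact e0.symm
      · exact (e0.trans e1).symm
    have hzv : zvec (step (SimpleGraph.cycleGraph (0 + 3)) x v (C v)) C' σ' v =
        (x v (C v) : ℤ) := by
      rw [hz]
      unfold zstep Amat zvec
      have e1 : ¬ (v = v + 1) := by fin_cases v <;> decide
      rw [if_neg e1]
      simp
    have hσ1 : σ' 0 = 1 := by
      rcases hS'.1 0 with h5 | h5
      · exact h5
      · exfalso
        unfold zvec at hzv
        rw [hσc v, h5] at hzv
        have : (0 : ℤ) ≤ (step (SimpleGraph.cycleGraph (0 + 3)) x v (C v) v (C' v) : ℤ) := by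
          positivity
        have h6 : (0 : ℤ) < (x v (C v) : ℤ) := by exact_mod_cast h0
        linarith
    have hznn : ∀ u, 0 ≤ zstep τ (zvec x C (fun _ => 1)) v u := by
      intro u
      rw [← hz]
      unfold zvec
      rw [hσc u, hσ1, one_mul]
      positivity
    have htot : (total (step (SimpleGraph.cycleGraph (0 + 3)) x v (C v)) : ℤ) = total x - 2 := by
      rw [← zN_zvec h1 hS', hz]
      unfold zN
      push_cast
      have e1 : ∑ u, |zstep τ (zvec x C (fun _ => 1)) v u| =
          ∑ u, zstep τ (zvec x C (fun _ => 1)) v u :=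
        Finset.sum_congr rfl (fun u _ => abs_of_nonneg (hznn u))
      rw [e1]
      have e2 : (total x : ℤ) = ∑ u, zvec x C (fun _ => 1) u := by
        rw [total_supp hC]
        push_cast
        exact Finset.sum_congr rfl (fun u _ => by simp [zvec])
      rw [e2]
      unfold zstep
      rw [Finset.sum_add_distrib]
      have hsg : (zvec x C (fun _ => 1) v).sign = 1 := by
        apply Int.sign_eq_one_of_pos
        simp only [zvec, one_mul]
        exact_mod_cast h0
      rw [hsg]
      simp only [one_mul]
      have e3 : ∑ u, Amat τ v u = -2 := by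
        unfold Amat
        simp only [hτ']
        fin_cases v <;> decide
      rw [e3]
      ring
    omega

theorem hlim_zero (n s : ℕ) : ∀ m : ℕ, ∀ x : Config (Fin (n + 3)) s, Good x → Cl n s m x →
    hlim (SimpleGraph.cycleGraph (n + 3)) x = 0 := by
  intro m
  induction m with
  | zero =>
    intro x hx hCl
    obtain ⟨C, hC, h0⟩ := hCl
    have := chg_zero hC (by omega)
    have h1 := hlim_le_nm (SimpleGraph.cycleGraph (n + 3)) x
    unfold nm at h1
    rw [if_pos this] at h1
    exact le_antisymm h1 (hlim_nonneg _ x)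
  | succ m ih =>
    intro x hx hCl
    by_cases hm1 : m = 0
    · obtain ⟨C, hC, h0⟩ := hCl
      have := chg_ne_one C
      exact ih x hx ⟨C, hC, by omega⟩
    by_cases hn : m + 1 = 2 ∨ Even (m + 1) ∨ 1 ≤ n
    · obtain ⟨δ, hδ, hδ1, hround⟩ := round s n (m + 1) (by omega) hn
      have key : ∀ j : ℕ, ∀ x : Config (Fin (n + 3)) s, Good x → Cl n s (m + 1) x →
          hlim (SimpleGraph.cycleGraph (n + 3)) x ≤ (1 - δ) ^ j := by
        intro j
        induction j with
        | zero =>
          intro x _ _
          rw [pow_zero]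
          exact (hlim_le_nm _ x).trans (nm_le_one x)
        | succ j ihj =>
          intro x hx hK
          rw [pow_succ, mul_comm]
          exact hround ((1 - δ) ^ j) (pow_nonneg (by linarith) j) ih ihj x hx hK
      have h1 : Tendsto (fun j : ℕ => (1 - δ) ^ j) atTop (𝓝 0) :=
        tendsto_pow_atTop_nhds_zero_of_lt_one (by linarith) (by linarith)
      exact le_antisymm (ge_of_tendsto' h1 (fun j => key j x hx hCl)) (hlim_nonneg _ x)
    · push Not at hn
      have hn0 : n = 0 := by omega
      subst hn0
      obtain ⟨C, hC, h0⟩ := hCl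
      have hle3 : chg C ≤ 3 := by
        unfold chg
        exact (Finset.card_le_univ _).trans (by simp)
      rcases Nat.lt_or_ge (chg C) (m + 1) with hlt | hge
      · exact ih x hx ⟨C, hC, by omega⟩
      · have hm2 : m = 2 := by
          have h2 : ¬ (m + 1 = 2) := hn.1
          omega
        subst hm2
        exact triangle_case s ih (total x) x C hx hC (by omega) le_rfl

/-- **Cycles have no coexistence.** -/
theorem cycle_inClass (n s : ℕ) : InClass (SimpleGraph.cycleGraph (n + 3)) s := by
  intro x₀ hx₀ h0 Ω _ P _ X hX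
  have hs : 0 < s := by
    obtain ⟨v, c, h⟩ := (total_pos_iff x₀).1 h0
    exact lt_of_le_of_lt (Nat.zero_le _) c.2
  obtain ⟨C, hC⟩ := exists_supp hs hx₀
  have h1 := hlim_zero n s (chg C) x₀ ⟨hx₀, h0⟩ ⟨C, hC, le_rfl⟩
  have h2 := hlim_tendsto (SimpleGraph.cycleGraph (n + 3)) (x := x₀) ⟨hx₀, h0⟩
  rw [h1] at h2
  exact wrap _ x₀ hx₀ h0 h2 P X hX

end Pool.Agent.TH996.Urn
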