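import Pool.Agent.TH996.Urn.Basic
import Pool.Agent.TH996.Urn.Wrap

/-!
# Existence of the urn process (job J996-EXIST, helper416 for helper996)
-/

set_option autoImplicit false

open MeasureTheory

namespace Pool.Agent.TH996.Urn

namespace Exist

open Finset ProbabilityTheory Preorder
open scoped ENNReal

/-- Markov chains on a countable type -/
theorem chain {S : Type} [Countable S] (p : S → S → ℝ≥0∞) (hp : ∀ x, ∑' y, p x y = 1) (o : S) :
    ∃ (Ω : Type) (_ : MeasurableSpace Ω) (P : Measure Ω) (X : ℕ → Ω → S),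
      IsProbabilityMeasure P ∧ (∀ n y, MeasurableSet {ω | X n ω = y}) ∧
      P {ω | X 0 ω = o} = 1 ∧
      ∀ (t : ℕ) (x : ℕ → S) (y : S), P {ω | (∀ i ≤ t, X i ω = x i) ∧ X (t + 1) ω = y} =
        P {ω | ∀ i ≤ t, X i ω = x i} * p (x t) y := by
  classical
  let mV : MeasurableSpace S := ⊤
  haveI : DiscreteMeasurableSpace S := ⟨fun _ => trivial⟩
  let κf : (n : ℕ) → ((i : Finset.Iic n) → S) → Measure S := fun n z =>
    Measure.sum (fun y => p (z ⟨n, Finset.mem_Iic.mpr le_rfl⟩) y • Measure.dirac y)
  have κf_single : ∀ n z y, κf n z {y} = p (z ⟨n, Finset.mem_Iic.mpr le_rfl⟩) y := by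
    intro n z y
    simp only [κf]
    rw [Measure.sum_apply _ (MeasurableSet.singleton y)]
    rw [tsum_eq_single y]
    · simp
    · intro b hb
      simp [hb]
  have κf_prob : ∀ n z, IsProbabilityMeasure (κf n z) := by
    intro n z
    refine ⟨?_⟩
    simp only [κf]
    rw [Measure.sum_apply _ MeasurableSet.univ]
    simp only [Measure.smul_apply, measure_univ, smul_eq_mul, mul_one]
    exact hp _
  let κ : (n : ℕ) → Kernel ((i : Finset.Iic n) → S) S := fun n =>
    { toFun := κf n
      measurable' := measurable_of_countable _ }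
  haveI : ∀ n, IsMarkovKernel (κ n) := fun n => ⟨fun z => κf_prob n z⟩
  let P : Measure ((n : ℕ) → S) := Kernel.trajMeasure (X := fun _ => S) (Measure.dirac o) κ
  haveI : IsProbabilityMeasure P := by
    show IsProbabilityMeasure (Kernel.trajMeasure (X := fun _ => S) (Measure.dirac o) κ)
    infer_instance
  refine ⟨ℕ → S, inferInstance, P, fun n ω => ω n, inferInstance, ?_, ?_, ?_⟩
  · intro t v
    exact (measurable_pi_apply (X := fun _ : ℕ => S) t) (MeasurableSet.singleton v)
  · have hmap : P.map (fun ω => ω 0) = Measure.dirac o := by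
      have h1 : P.map (frestrictLe 0) = (Measure.dirac o).map (MeasurableEquiv.piUnique
          ((fun i : Finset.Iic 0 ↦ S))).symm := by
        show (Kernel.trajMeasure (X := fun _ => S) (Measure.dirac o) κ).map (frestrictLe 0) = _
        rw [Kernel.trajMeasure, Measure.map_comp _ _ (by fun_prop), Kernel.traj_map_frestrictLe,
          Kernel.partialTraj_self, Measure.id_comp]
      have h2 : (fun ω : ℕ → S => ω 0) = (fun z : (i : Finset.Iic 0) → S =>
          z ⟨0, Finset.mem_Iic.mpr le_rfl⟩) ∘ (frestrictLe 0) := rfl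
      rw [h2, ← Measure.map_map (by fun_prop) (by fun_prop), h1, Measure.map_map (by fun_prop)
        (by fun_prop)]
      convert Measure.map_id using 2
      funext v
      rfl
    have : {ω : ℕ → S | ω 0 = o} = (fun ω => ω 0) ⁻¹' {o} := by ext; simp
    rw [this, ← Measure.map_apply (by fun_prop) (MeasurableSet.singleton o), hmap]
    simp
  · intro t x y
    have hk := Kernel.map_frestrictLe_trajMeasure_compProd_eq_map_trajMeasure
      (X := fun _ => S) (μ₀ := Measure.dirac o) (κ := κ) (a := t)
    have e1 : {ω : ℕ → S | (∀ s ≤ t, ω s = x s) ∧ ω (t + 1) = y} =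
        (fun ω : ℕ → S => (frestrictLe (π := fun _ => S) t ω, ω (t + 1))) ⁻¹'
          ({frestrictLe (π := fun _ => S) t x} ×ˢ {y}) := by
      ext ω
      simp only [Set.mem_ofPred_eq, Set.mem_preimage, Set.mem_prod, Set.mem_singleton_iff]
      constructor
      · rintro ⟨h1, h2⟩
        refine ⟨?_, h2⟩
        funext i
        exact h1 i (Finset.mem_Iic.mp i.2)
      · rintro ⟨h1, h2⟩
        refine ⟨fun s hs => ?_, h2⟩
        exact congrFun h1 ⟨s, Finset.mem_Iic.mpr hs⟩
    have e2 : {ω : ℕ → S | ∀ s ≤ t, ω s = x s} =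
        (frestrictLe (π := fun _ => S) t) ⁻¹' {frestrictLe (π := fun _ => S) t x} := by
      ext ω
      simp only [Set.mem_ofPred_eq, Set.mem_preimage, Set.mem_singleton_iff]
      constructor
      · intro h1
        funext i
        exact h1 i (Finset.mem_Iic.mp i.2)
      · intro h1 s hs
        exact congrFun h1 ⟨s, Finset.mem_Iic.mpr hs⟩
    have hm1 : MeasurableSet ({frestrictLe (π := fun _ => S) t x} :
      Set ((i : Finset.Iic t) → S)) := MeasurableSet.singleton _
    rw [e1, ← Measure.map_apply (by fun_prop) (hm1.prod (MeasurableSet.singleton y))]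
    show (Measure.map _ (Kernel.trajMeasure (X := fun _ => S) (Measure.dirac o) κ)) _ = _
    rw [← hk, Measure.compProd_apply_prod hm1 (MeasurableSet.singleton y)]
    rw [e2, ← Measure.map_apply (by fun_prop) hm1]
    rw [lintegral_singleton]
    have : (κ t) (frestrictLe (π := fun _ => S) t x) {y} = p (x t) y := by
      show κf t _ {y} = _
      rw [κf_single]
      rfl
    rw [this, mul_comm]

variable {V : Type} [Fintype V] {s : ℕ} (G : SimpleGraph V)

/-- the transition probabilities sum to one -/
theorem sum_one {x : Config V s} (hx : 0 < total x) :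
    ∑' y, ENNReal.ofReal (transProb G x y) = 1 := by
  have h := Wrap.tsum_trans G (f := fun _ => (1 : ℝ)) (fun _ => zero_le_one) x
  rw [Pop_const G 1 hx, ENNReal.ofReal_one] at h
  rw [← h]
  refine tsum_congr fun y => ?_
  rw [mul_one]

open Classical in
/-- the transition probabilities, corrected at the empty configuration -/
noncomputable def pp (x y : Config V s) : ℝ≥0∞ :=
  if 0 < total x then ENNReal.ofReal (transProb G x y) else (if y = x then 1 else 0)

theorem pp_sum (x : Config V s) : ∑' y, pp G x y = 1 := by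
  classical
  unfold pp
  by_cases h : 0 < total x
  · simp only [if_pos h]
    exact sum_one G h
  · simp only [if_neg h]
    rw [tsum_eq_single x]
    · simp
    · intro b hb
      simp [hb]

end Exist

open Exist

theorem exists_process {V : Type} [Fintype V] {s : ℕ} (G : SimpleGraph V) (x₀ : Config V s)
    (h0 : Good x₀) : ∃ (Ω : Type) (_ : MeasurableSpace Ω) (P : Measure Ω) (X : ℕ → Ω → Config V s),
      IsProbabilityMeasure P ∧ IsUrnProcess G x₀ P X := by
  classical
  obtain ⟨Ω, mΩ, P, X, hP, hmeas, hinit, hmk⟩ := chain (pp G) (pp_sum G) x₀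
  refine ⟨Ω, mΩ, P, X, hP, hmeas, hinit, ?_⟩
  -- histories ending in the empty configuration
  have hzero : ∀ (t : ℕ) (x : ℕ → Config V s), ¬ 0 < total (x t) →
      P {ω | ∀ i ≤ t, X i ω = x i} = 0 := by
    intro t
    induction t with
    | zero =>
      intro x hx
      have h1 : x 0 ≠ x₀ := by
        intro h
        rw [h] at hx
        exact hx h0.2
      have h2 : {ω | ∀ i ≤ 0, X i ω = x i} ⊆ {ω | X 0 ω = x₀}ᶜ := by
        intro ω hω h3
        have h4 : X 0 ω = x 0 := hω 0 le_rfl
        exact h1 (h4.symm.trans h3)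
      refine measure_mono_null h2 ?_
      rw [prob_compl_eq_zero_iff (hmeas 0 x₀)]
      exact hinit
    | succ t ih =>
      intro x hx
      have e : {ω | ∀ i ≤ t + 1, X i ω = x i} =
          {ω | (∀ i ≤ t, X i ω = x i) ∧ X (t + 1) ω = x (t + 1)} := by
        ext ω
        simp only [Set.mem_ofPred_eq]
        constructor
        · intro h
          exact ⟨fun i hi => h i (by omega), h (t + 1) le_rfl⟩
        · rintro ⟨h1, h2⟩ i hi
          rcases Nat.lt_or_ge i (t + 1) with h3 | h3
          · exact h1 i (by omega)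
          · have : i = t + 1 := by omega
            rw [this]
            exact h2
      rw [e, hmk]
      by_cases hxt : 0 < total (x t)
      · have h3 : pp G (x t) (x (t + 1)) = 0 := by
          unfold pp
          rw [if_pos hxt, Wrap.transProb_zero, ENNReal.ofReal_zero]
          rintro ⟨v, c, hv, hy⟩
          apply hx
          rw [hy, total_pos_iff]
          exact ⟨v, c, by rw [step_self]; exact hv⟩
        rw [h3, mul_zero]
      · rw [ih x hxt, zero_mul]
  intro n a y
  obtain ⟨x, hx⟩ : ∃ x : ℕ → Config V s, x = fun i => if h : i < n + 1 then a ⟨i, h⟩ else x₀ :=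
    ⟨_, rfl⟩
  have hxa : ∀ i : Fin (n + 1), x i = a i := by
    intro i
    rw [hx]
    simp only
    rw [dif_pos i.2]
  have hlast : x n = a (Fin.last n) := hxa (Fin.last n)
  have e1 : {ω | ∀ i : Fin (n + 1), X i ω = a i} = {ω | ∀ i ≤ n, X i ω = x i} := by
    ext ω
    simp only [Set.mem_ofPred_eq]
    constructor
    · intro h i hi
      have := h ⟨i, by omega⟩
      rw [← hxa] at this
      exact this
    · intro h i
      rw [← hxa]
      exact h i (by omega)
  have e2 : {ω | (∀ i : Fin (n + 1), X i ω = a i) ∧ X (n + 1) ω = y} =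
      {ω | (∀ i ≤ n, X i ω = x i) ∧ X (n + 1) ω = y} := by
    ext ω
    have := Set.ext_iff.1 e1 ω
    simp only [Set.mem_ofPred_eq] at this ⊢
    rw [this]
  rw [e1, e2, hmk, ← hlast]
  by_cases hpos : 0 < total (x n)
  · unfold pp
    rw [if_pos hpos]
  · rw [hzero n x hpos, zero_mul, zero_mul]

namespace Exist

section

variable {V : Type} [Fintype V] {s : ℕ} {G : SimpleGraph V} {x₀ : Config V s}
  {Ω : Type} [MeasurableSpace Ω] {P : Measure Ω} {X : ℕ → Ω → Config V s}

theorem mk (hX : IsUrnProcess G x₀ P X) (n : ℕ) (b : ℕ → Config V s) (y : Config V s) :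
    P {ω | (∀ i ≤ n, X i ω = b i) ∧ X (n + 1) ω = y} =
      P {ω | ∀ i ≤ n, X i ω = b i} * ENNReal.ofReal (transProb G (b n) y) := by
  have h := hX.markov n (fun i => b i) y
  have e1 : {ω | ∀ i : Fin (n + 1), X i ω = b i} = {ω | ∀ i ≤ n, X i ω = b i} := by
    ext ω
    simp only [Set.mem_ofPred_eq]
    constructor
    · intro h i hi
      exact h ⟨i, by omega⟩
    · intro h i
      exact h i (by omega)
  have e2 : {ω | (∀ i : Fin (n + 1), X i ω = b i) ∧ X (n + 1) ω = y} =
      {ω | (∀ i ≤ n, X i ω = b i) ∧ X (n + 1) ω = y} := by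
    ext ω
    have := Set.ext_iff.1 e1 ω
    simp only [Set.mem_ofPred_eq] at this ⊢
    rw [this]
  rw [e1, e2] at h
  exact h

theorem meas_R (hX : IsUrnProcess G x₀ P X) (R : Set (Config V s)) (n : ℕ) :
    MeasurableSet {ω | X n ω ∈ R} := by
  have e : {ω | X n ω ∈ R} = ⋃ y ∈ R, {ω | X n ω = y} := by
    ext ω
    simp
  rw [e]
  exact MeasurableSet.biUnion (Set.to_countable R) fun y _ => hX.meas n y

theorem meas_all (hX : IsUrnProcess G x₀ P X) (R : Set (Config V s)) (b : ℕ → Config V s)
    (n t : ℕ) : MeasurableSet {ω | (∀ i ≤ n, X i ω = b i) ∧ ∀ i ≤ t, X (n + i) ω ∈ R} := by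
  have e : {ω | (∀ i ≤ n, X i ω = b i) ∧ ∀ i ≤ t, X (n + i) ω ∈ R} =
      (⋂ i ∈ Finset.range (n + 1), {ω | X i ω = b i}) ∩
        ⋂ i ∈ Finset.range (t + 1), {ω | X (n + i) ω ∈ R} := by
    ext ω
    simp
  rw [e]
  exact (Finset.measurableSet_biInter _ fun i _ => hX.meas i (b i)).inter
    (Finset.measurableSet_biInter _ fun i _ => meas_R hX R (n + i))

theorem a_nonneg {R : Set (Config V s)} {a : ℕ → Config V s → ℝ}
    (ha0 : ∀ x ∈ R, a 0 x = 1) (ha0' : ∀ x, x ∉ R → a 0 x = 0)
    (ha : ∀ t, ∀ x ∈ R, a (t + 1) x = Pop G (a t) x) (ha' : ∀ t, ∀ x, x ∉ R → a (t + 1) x = 0) :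
    ∀ t x, 0 ≤ a t x := by
  intro t
  induction t with
  | zero =>
    intro x
    by_cases hx : x ∈ R
    · rw [ha0 x hx]; exact zero_le_one
    · rw [ha0' x hx]
  | succ t ih =>
    intro x
    by_cases hx : x ∈ R
    · rw [ha t x hx]
      exact Wrap.Pop_nonneg G ih x
    · rw [ha' t x hx]

theorem hist (hX : IsUrnProcess G x₀ P X) {R : Set (Config V s)} {a : ℕ → Config V s → ℝ}
    (ha0 : ∀ x ∈ R, a 0 x = 1) (ha0' : ∀ x, x ∉ R → a 0 x = 0)
    (ha : ∀ t, ∀ x ∈ R, a (t + 1) x = Pop G (a t) x) (ha' : ∀ t, ∀ x, x ∉ R → a (t + 1) x = 0) :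
    ∀ (t n : ℕ) (b : ℕ → Config V s),
      P {ω | (∀ i ≤ n, X i ω = b i) ∧ ∀ i ≤ t, X (n + i) ω ∈ R} =
        P {ω | ∀ i ≤ n, X i ω = b i} * ENNReal.ofReal (a t (b n)) := by
  classical
  intro t
  induction t with
  | zero =>
    intro n b
    by_cases hb : b n ∈ R
    · rw [ha0 _ hb, ENNReal.ofReal_one, mul_one]
      congr 1
      ext ω
      simp only [Set.mem_ofPred_eq]
      constructor
      · exact fun h => h.1
      · intro h
        refine ⟨h, fun i hi => ?_⟩
        have : i = 0 := by omega
        rw [this, add_zero, h n le_rfl]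
        exact hb
    · rw [ha0' _ hb, ENNReal.ofReal_zero, mul_zero]
      have : {ω | (∀ i ≤ n, X i ω = b i) ∧ ∀ i ≤ 0, X (n + i) ω ∈ R} = ∅ := by
        ext ω
        simp only [Set.mem_ofPred_eq, Set.mem_empty_iff_false, iff_false]
        rintro ⟨h1, h2⟩
        have h3 := h2 0 le_rfl
        rw [add_zero, h1 n le_rfl] at h3
        exact hb h3
      rw [this, measure_empty]
  | succ t ih =>
    intro n b
    by_cases hb : b n ∈ R
    · rw [ha t _ hb, ← Wrap.tsum_trans G (a_nonneg ha0 ha0' ha ha' t), ← ENNReal.tsum_mul_left]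
      have e1 : {ω | (∀ i ≤ n, X i ω = b i) ∧ ∀ i ≤ t + 1, X (n + i) ω ∈ R} =
          ⋃ y : Config V s, {ω | (∀ i ≤ n + 1, X i ω = Function.update b (n + 1) y i) ∧
            ∀ i ≤ t, X (n + 1 + i) ω ∈ R} := by
        ext ω
        simp only [Set.mem_ofPred_eq, Set.mem_iUnion]
        constructor
        · rintro ⟨h1, h2⟩
          refine ⟨X (n + 1) ω, fun i hi => ?_, fun i hi => ?_⟩
          · rcases Nat.lt_or_ge i (n + 1) with h3 | h3
            · rw [Function.update_of_ne (by omega)]
              exact h1 i (by omega)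
            · have h4 : i = n + 1 := by omega
              rw [h4, Function.update_self]
          · have := h2 (i + 1) (by omega)
            rwa [show n + (i + 1) = n + 1 + i by omega] at this
        · rintro ⟨y, h1, h2⟩
          have h3 : ∀ i ≤ n, X i ω = b i := by
            intro i hi
            have := h1 i (by omega)
            rwa [Function.update_of_ne (by omega)] at this
          refine ⟨h3, fun i hi => ?_⟩
          rcases Nat.eq_zero_or_pos i with h4 | h4
          · rw [h4, add_zero, h3 n le_rfl]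
            exact hb
          · have := h2 (i - 1) (by omega)
            rwa [show n + 1 + (i - 1) = n + i by omega] at this
      rw [e1, measure_iUnion]
      · refine tsum_congr fun y => ?_
        rw [ih (n + 1) (Function.update b (n + 1) y), Function.update_self]
        have e2 : {ω | ∀ i ≤ n + 1, X i ω = Function.update b (n + 1) y i} =
            {ω | (∀ i ≤ n, X i ω = b i) ∧ X (n + 1) ω = y} := by
          ext ω
          simp only [Set.mem_ofPred_eq]
          constructor
          · intro h1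
            refine ⟨fun i hi => ?_, ?_⟩
            · have := h1 i (by omega)
              rwa [Function.update_of_ne (by omega)] at this
            · have := h1 (n + 1) le_rfl
              rwa [Function.update_self] at this
          · rintro ⟨h1, h2⟩ i hi
            rcases Nat.lt_or_ge i (n + 1) with h3 | h3
            · rw [Function.update_of_ne (by omega)]
              exact h1 i (by omega)
            · have h4 : i = n + 1 := by omega
              rw [h4, Function.update_self]
              exact h2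
        rw [e2, mk hX, mul_assoc]
      · intro y y' hy
        rw [Function.onFun, Set.disjoint_left]
        rintro ω ⟨h1, -⟩ ⟨h2, -⟩
        have h3 := h1 (n + 1) le_rfl
        have h4 := h2 (n + 1) le_rfl
        rw [Function.update_self] at h3 h4
        exact hy (h3.symm.trans h4)
      · intro y
        exact meas_all hX R _ (n + 1) t
    · rw [ha' t _ hb, ENNReal.ofReal_zero, mul_zero]
      have : {ω | (∀ i ≤ n, X i ω = b i) ∧ ∀ i ≤ t + 1, X (n + i) ω ∈ R} = ∅ := by
        ext ω
        simp only [Set.mem_ofPred_eq, Set.mem_empty_iff_false, iff_false]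
        rintro ⟨h1, h2⟩
        have h3 := h2 0 (by omega)
        rw [add_zero, h1 n le_rfl] at h3
        exact hb h3
      rw [this, measure_empty]

end

end Exist

/-- expectations along the process: the operator iterates -/
theorem integral_iter {V : Type} [Fintype V] {s : ℕ} (G : SimpleGraph V) {x₀ : Config V s}
    {Ω : Type} [MeasurableSpace Ω] (P : Measure Ω) [IsProbabilityMeasure P]
    {X : ℕ → Ω → Config V s} (h0 : Good x₀) (hX : IsUrnProcess G x₀ P X) (R : Set (Config V s))
    (a : ℕ → Config V s → ℝ) (ha0 : ∀ x ∈ R, a 0 x = 1) (ha0' : ∀ x, x ∉ R → a 0 x = 0)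
    (ha : ∀ t, ∀ x ∈ R, a (t + 1) x = Pop G (a t) x) (ha' : ∀ t, ∀ x, x ∉ R → a (t + 1) x = 0)
    (t : ℕ) : P.real {ω | ∀ i, i ≤ t → X i ω ∈ R} = a t x₀ := by
  have h1 := Exist.hist hX ha0 ha0' ha ha' t 0 (fun _ => x₀)
  have e1 : {ω | ∀ i ≤ 0, X i ω = x₀} = {ω | X 0 ω = x₀} := by
    ext ω
    simp only [Set.mem_ofPred_eq]
    constructor
    · intro h; exact h 0 le_rfl
    · intro h i hi
      have : i = 0 := by omega
      rw [this]; exact h
  have e2 : {ω | (∀ i ≤ 0, X i ω = x₀) ∧ ∀ i ≤ t, X (0 + i) ω ∈ R} =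
      {ω | ∀ i, i ≤ t → X i ω ∈ R} ∩ {ω | X 0 ω = x₀} := by
    ext ω
    simp only [Set.mem_ofPred_eq, Set.mem_inter_iff]
    constructor
    · rintro ⟨h, h'⟩
      refine ⟨fun i hi => ?_, h 0 le_rfl⟩
      have := h' i hi
      rwa [zero_add] at this
    · rintro ⟨h, h'⟩
      refine ⟨fun i hi => ?_, fun i hi => ?_⟩
      · have : i = 0 := by omega
        rw [this]; exact h'
      · rw [zero_add]; exact h i hi
  have h2 : P {ω | X 0 ω = x₀}ᶜ = 0 := by
    rw [prob_compl_eq_zero_iff (hX.meas 0 x₀)]
    exact hX.init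
  have h3 : P ({ω | ∀ i, i ≤ t → X i ω ∈ R} ∩ {ω | X 0 ω = x₀}) =
      P {ω | ∀ i, i ≤ t → X i ω ∈ R} := measure_inter_conull h2
  beta_reduce at h1
  rw [e1, e2, h3, hX.init, one_mul] at h1
  rw [measureReal_def, h1, ENNReal.toReal_ofReal (Exist.a_nonneg ha0 ha0' ha ha' t x₀)]

end Pool.Agent.TH996.Urn
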