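import Pool.Agent.TH996.Urn.Basic

/-!
# A Lyapunov function for the multi-type urn process on the complete graph (helper81)
-/

open Finset

namespace Pool.Agent.TH996.Urn

namespace Kn

variable {n s : ℕ}

/-- signed number of balls at `u` with respect to the colour `d` -/
def sg (x : Config (Fin n) s) (u : Fin n) (d : Fin s) : ℤ := 2 * (x u d : ℤ) - ∑ e, (x u e : ℤ)

/-- signed number of balls with respect to the colour `d` -/
def SS (x : Config (Fin n) s) (d : Fin s) : ℤ := ∑ u, sg x u d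

/-- sum of squares -/
def ZZ (x : Config (Fin n) s) : ℤ := ∑ u, ∑ d, (x u d : ℤ) ^ 2

/-- the majority -/
def PP (x : Config (Fin n) s) : ℕ := univ.sup (fun d => (SS x d).toNat)

theorem form {x : Config (Fin n) s} (hx : UrnsMono x) (u : Fin n) (c : Fin s) :
    (∃ m : ℕ, ∀ d, x u d = if d = c then m else 0) ∨
    ∃ c0, c0 ≠ c ∧ ∃ m : ℕ, 0 < m ∧ ∀ d, x u d = if d = c0 then m else 0 := by
  by_cases h : ∃ e, e ≠ c ∧ 0 < x u e
  · obtain ⟨e, he, hpos⟩ := h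
    refine Or.inr ⟨e, he, x u e, hpos, fun d => ?_⟩
    by_cases hd : d = e
    · rw [hd, if_pos rfl]
    · rw [if_neg hd]
      by_contra h0
      exact hd (hx u d e (Nat.pos_of_ne_zero h0) hpos)
  · push Not at h
    refine Or.inl ⟨x u c, fun d => ?_⟩
    by_cases hd : d = c
    · rw [hd, if_pos rfl]
    · rw [if_neg hd]
      have := h d hd
      omega

theorem step_form1 {x : Config (Fin n) s} {v u : Fin n} (huv : u ≠ v) {c : Fin s} {m : ℕ}
    (h : ∀ d, x u d = if d = c then m else 0) (d : Fin s) :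
    step (⊤ : SimpleGraph (Fin n)) x v c u d = if d = c then m + 1 else 0 := by
  have ha : (⊤ : SimpleGraph (Fin n)).Adj v u := by
    rw [SimpleGraph.top_adj]
    exact huv.symm
  unfold step
  rw [if_pos ha, if_neg]
  · rw [h d]
    split_ifs <;> rfl
  · rintro ⟨e, he, h0⟩
    rw [h e, if_neg he] at h0
    exact lt_irrefl _ h0

theorem step_form2 {x : Config (Fin n) s} {v u : Fin n} (huv : u ≠ v) {c c0 : Fin s} {m : ℕ}
    (hc : c0 ≠ c) (hm : 0 < m) (h : ∀ d, x u d = if d = c0 then m else 0) (d : Fin s) :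
    step (⊤ : SimpleGraph (Fin n)) x v c u d = if d = c0 then m - 1 else 0 := by
  have ha : (⊤ : SimpleGraph (Fin n)).Adj v u := by
    rw [SimpleGraph.top_adj]
    exact huv.symm
  unfold step
  rw [if_pos ha, if_pos ⟨c0, hc, by rw [h c0, if_pos rfl]; exact hm⟩, h d]
  by_cases h1 : d = c
  · have h2 : ¬ d = c0 := fun h => hc (by rw [← h, h1])
    rw [if_pos h1, if_neg h2, if_neg h2]
  · rw [if_neg h1]
    split_ifs <;> rfl

theorem sum_form {x : Fin s → ℕ} {c : Fin s} {m : ℕ} (h : ∀ d, x d = if d = c then m else 0) :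
    ∑ e, (x e : ℤ) = m := by
  rw [sum_congr rfl fun e _ => by rw [h e]]
  simp

theorem sum_form_sq {x : Fin s → ℕ} {c : Fin s} {m : ℕ} (h : ∀ d, x d = if d = c then m else 0) :
    ∑ e, (x e : ℤ) ^ 2 = (m : ℤ) ^ 2 := by
  rw [sum_congr rfl fun e _ => by rw [h e]]
  simp [ite_pow]

/-- one urn -/
theorem urn {x : Config (Fin n) s} (hx : UrnsMono x) {v u : Fin n} (huv : u ≠ v) (c : Fin s) :
    sg (step (⊤ : SimpleGraph (Fin n)) x v c) u c = sg x u c + 1 ∧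
    (∀ d, |sg (step (⊤ : SimpleGraph (Fin n)) x v c) u d - sg x u d| ≤ 1) ∧
    ∑ d, (step (⊤ : SimpleGraph (Fin n)) x v c u d : ℤ) ^ 2 =
      ∑ d, (x u d : ℤ) ^ 2 + (2 * sg x u c + 1) := by
  rcases form hx u c with ⟨m, h⟩ | ⟨c0, hc, m, hm, h⟩
  · have h' := step_form1 (x := x) huv h
    unfold sg
    rw [sum_form h', sum_form h, sum_form_sq h', sum_form_sq h]
    refine ⟨?_, fun d => ?_, ?_⟩
    · rw [h' c, h c, if_pos rfl, if_pos rfl]
      push_cast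
      ring
    · rw [h' d, h d, abs_le]
      split_ifs
      · push_cast
        constructor <;> omega
      · push_cast
        constructor <;> omega
    · rw [h c, if_pos rfl]
      push_cast
      ring
  · have h' := step_form2 (x := x) huv hc hm h
    unfold sg
    rw [sum_form h', sum_form h, sum_form_sq h', sum_form_sq h]
    have e1 : ((m - 1 : ℕ) : ℤ) = m - 1 := by omega
    refine ⟨?_, fun d => ?_, ?_⟩
    · rw [h' c, h c, if_neg hc.symm, if_neg hc.symm, e1]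
      push_cast
      ring
    · rw [h' d, h d, abs_le]
      split_ifs
      · rw [e1]
        constructor <;> omega
      · rw [e1]
        push_cast
        constructor <;> omega
    · rw [h c, if_neg hc.symm, e1]
      push_cast
      ring

theorem sg_self (x : Config (Fin n) s) (v : Fin n) (c d : Fin s) :
    sg (step (⊤ : SimpleGraph (Fin n)) x v c) v d = sg x v d := by
  unfold sg
  simp only [step_self]

theorem sum_ite_ne (v : Fin n) (g : Fin n → ℤ) :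
    ∑ u, (if u = v then 0 else g u) = ∑ u, g u - g v := by
  rw [← add_sum_erase univ g (mem_univ v), ← add_sum_erase univ _ (mem_univ v), if_pos rfl]
  rw [sum_congr rfl fun u hu => if_neg (ne_of_mem_erase hu)]
  ring

theorem SS_step_self {x : Config (Fin n) s} (hx : UrnsMono x) (v : Fin n) (c : Fin s) :
    SS (step (⊤ : SimpleGraph (Fin n)) x v c) c = SS x c + ((n : ℤ) - 1) := by
  have h : ∀ u, sg (step (⊤ : SimpleGraph (Fin n)) x v c) u c =
      sg x u c + (if u = v then 0 else 1) := by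
    intro u
    by_cases hu : u = v
    · rw [hu, sg_self, if_pos rfl, add_zero]
    · rw [if_neg hu]
      exact (urn hx hu c).1
  unfold SS
  rw [sum_congr rfl fun u _ => h u, sum_add_distrib, sum_ite_ne v (fun _ => 1)]
  simp

theorem SS_step_le {x : Config (Fin n) s} (hx : UrnsMono x) (v : Fin n) (c d : Fin s) :
    SS (step (⊤ : SimpleGraph (Fin n)) x v c) d ≤ SS x d + ((n : ℤ) - 1) ∧
    SS x d ≤ SS (step (⊤ : SimpleGraph (Fin n)) x v c) d + ((n : ℤ) - 1) := by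
  have e : ∑ u : Fin n, (if u = v then (0 : ℤ) else 1) = (n : ℤ) - 1 := by
    rw [sum_ite_ne v (fun _ => 1)]
    simp
  have h : ∀ u, sg (step (⊤ : SimpleGraph (Fin n)) x v c) u d ≤
      sg x u d + (if u = v then 0 else 1) ∧
      sg x u d ≤ sg (step (⊤ : SimpleGraph (Fin n)) x v c) u d + (if u = v then 0 else 1) := by
    intro u
    by_cases hu : u = v
    · rw [hu, sg_self, if_pos rfl, add_zero]
      exact ⟨le_rfl, le_rfl⟩
    · rw [if_neg hu]
      have h1 := (urn hx hu c).2.1 d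
      rw [abs_le] at h1
      constructor <;> omega
  unfold SS
  rw [← e, ← sum_add_distrib, ← sum_add_distrib]
  exact ⟨sum_le_sum fun u _ => (h u).1, sum_le_sum fun u _ => (h u).2⟩

theorem ZZ_step {x : Config (Fin n) s} (hx : UrnsMono x) {v : Fin n} {c : Fin s}
    (hv : 0 < x v c) :
    ZZ (step (⊤ : SimpleGraph (Fin n)) x v c) =
      ZZ x + (2 * (SS x c - (x v c : ℤ)) + ((n : ℤ) - 1)) := by
  have h : ∀ u, ∑ d, (step (⊤ : SimpleGraph (Fin n)) x v c u d : ℤ) ^ 2 =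
      ∑ d, (x u d : ℤ) ^ 2 + (if u = v then 0 else 2 * sg x u c + 1) := by
    intro u
    by_cases hu : u = v
    · rw [hu, if_pos rfl, add_zero]
      simp only [step_self]
    · rw [if_neg hu]
      exact (urn hx hu c).2.2
  have h2 : sg x v c = x v c := by
    rcases form hx v c with ⟨m, h⟩ | ⟨c0, hc, m, hm, h⟩
    · unfold sg
      rw [sum_form h, h c, if_pos rfl]
      ring
    · rw [h c, if_neg hc.symm] at hv
      exact absurd hv (lt_irrefl _)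
  unfold ZZ
  rw [sum_congr rfl fun u _ => h u, sum_add_distrib, sum_ite_ne v (fun u => 2 * sg x u c + 1),
    sum_add_distrib, ← mul_sum, h2]
  unfold SS
  simp
  ring

theorem SS_eq (x : Config (Fin n) s) (d : Fin s) :
    SS x d = 2 * ∑ u, (x u d : ℤ) - total x := by
  unfold SS sg total
  rw [sum_sub_distrib, ← mul_sum]
  push_cast
  rfl

theorem le_PP (x : Config (Fin n) s) (d : Fin s) : SS x d ≤ PP x := by
  have h : (SS x d).toNat ≤ PP x := le_sup (f := fun d => (SS x d).toNat) (mem_univ d)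
  have := Int.self_le_toNat (SS x d)
  omega

theorem PP_le {x : Config (Fin n) s} {M : ℕ} (h : ∀ d, SS x d ≤ M) : PP x ≤ M := by
  refine Finset.sup_le fun d _ => ?_
  have := h d
  omega

theorem PP_eq (x : Config (Fin n) s) (d0 : Fin s) :
    ∃ d, (PP x : ℤ) = 0 ∨ (PP x : ℤ) = SS x d := by
  obtain ⟨d, -, h⟩ := exists_mem_eq_sup univ ⟨d0, mem_univ d0⟩ (fun d => (SS x d).toNat)
  refine ⟨d, ?_⟩
  have h' : PP x = (SS x d).toNat := h
  omega

theorem PP_step {x : Config (Fin n) s} (hx : UrnsMono x) (v : Fin n) (c : Fin s) :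
    (PP (step (⊤ : SimpleGraph (Fin n)) x v c) : ℤ) ≤ PP x + ((n : ℤ) - 1) ∧
    (PP x : ℤ) ≤ PP (step (⊤ : SimpleGraph (Fin n)) x v c) + ((n : ℤ) - 1) := by
  have hn : 0 < n := v.pos
  constructor
  · have h : PP (step (⊤ : SimpleGraph (Fin n)) x v c) ≤ PP x + (n - 1) := by
      refine PP_le fun d => ?_
      have h1 := (SS_step_le hx v c d).1
      have h2 := le_PP x d
      push_cast [Nat.cast_sub hn]
      omega
    omega
  · have h : PP x ≤ PP (step (⊤ : SimpleGraph (Fin n)) x v c) + (n - 1) := by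
      refine PP_le fun d => ?_
      have h1 := (SS_step_le hx v c d).2
      have h2 := le_PP (step (⊤ : SimpleGraph (Fin n)) x v c) d
      push_cast [Nat.cast_sub hn]
      omega
    omega

theorem sum_col (x : Config (Fin n) s) : ∑ c, ∑ u, (x u c : ℤ) = total x := by
  rw [sum_comm]
  unfold total
  push_cast
  rfl

theorem sumS_le (x : Config (Fin n) s) :
    ∑ c, (∑ u, (x u c : ℤ)) * SS x c ≤ (PP x : ℤ) ^ 2 := by
  have ha : ∀ c, 0 ≤ ∑ u, (x u c : ℤ) := fun c => sum_nonneg fun _ _ => Nat.cast_nonneg _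
  rcases isEmpty_or_nonempty (Fin s) with hE | ⟨⟨c0⟩⟩
  · rw [univ_eq_empty, sum_empty]
    positivity
  obtain ⟨d, h | h⟩ := PP_eq x c0
  · rw [h]
    have : ∀ c ∈ (univ : Finset (Fin s)), (∑ u, (x u c : ℤ)) * SS x c ≤ 0 := by
      intro c _
      have h1 := le_PP x c
      rw [h] at h1
      exact mul_nonpos_of_nonneg_of_nonpos (ha c) h1
    have h2 := sum_nonpos this
    simpa using h2
  · have hP : 0 ≤ (PP x : ℤ) := Nat.cast_nonneg _
    have key : ∀ c, (∑ u, (x u c : ℤ)) * SS x c ≤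
        -(PP x : ℤ) * (∑ u, (x u c : ℤ)) +
          (if c = d then 2 * (PP x : ℤ) * (∑ u, (x u c : ℤ)) else 0) := by
      intro c
      by_cases hc : c = d
      · rw [if_pos hc, h, hc]
        apply le_of_eq
        ring
      · rw [if_neg hc, add_zero]
        have h1 : (∑ u, (x u c : ℤ)) + (∑ u, (x u d : ℤ)) ≤ total x := by
          rw [← sum_col x, ← sum_pair (f := fun c => ∑ u, (x u c : ℤ)) hc]
          exact sum_le_sum_of_subset_of_nonneg (subset_univ _) fun c _ _ => ha c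
        have h2 : SS x c ≤ -(PP x : ℤ) := by
          rw [h, SS_eq, SS_eq]
          linarith
        have h3 := mul_le_mul_of_nonneg_left h2 (ha c)
        linarith
    refine (sum_le_sum fun c _ => key c).trans (le_of_eq ?_)
    rw [sum_add_distrib, ← mul_sum, sum_col, sum_ite_eq' univ d, if_pos (mem_univ d)]
    have h4 := SS_eq x d
    rw [← h] at h4
    rw [sq]
    have h5 : 2 * (∑ u, (x u d : ℤ)) = PP x + total x := by linarith
    have h6 : 2 * (PP x : ℤ) * (∑ u, (x u d : ℤ)) = PP x * (2 * (∑ u, (x u d : ℤ))) := by ring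
    rw [h6, h5]
    ring

theorem sg_sq {x : Config (Fin n) s} (hx : UrnsMono x) (u : Fin n) (d : Fin s) :
    sg x u d ^ 2 = ∑ e, (x u e : ℤ) ^ 2 := by
  rcases form hx u d with ⟨m, h⟩ | ⟨c0, hc, m, hm, h⟩
  · unfold sg
    rw [sum_form h, sum_form_sq h, h d, if_pos rfl]
    ring
  · unfold sg
    rw [sum_form h, sum_form_sq h, h d, if_neg hc.symm]
    push_cast
    ring

theorem nu_sq {x : Config (Fin n) s} (hx : UrnsMono x) (u : Fin n) (d : Fin s) :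
    (∑ e, (x u e : ℤ)) ^ 2 = ∑ e, (x u e : ℤ) ^ 2 := by
  rcases form hx u d with ⟨m, h⟩ | ⟨c0, hc, m, hm, h⟩
  · rw [sum_form h, sum_form_sq h]
  · rw [sum_form h, sum_form_sq h]

theorem ZZ_nonneg (x : Config (Fin n) s) : 0 ≤ ZZ x :=
  sum_nonneg fun _ _ => sum_nonneg fun _ _ => sq_nonneg _

theorem total_sq_le {x : Config (Fin n) s} (hx : UrnsMono x) :
    (total x : ℤ) ^ 2 ≤ n * ZZ x := by
  rcases isEmpty_or_nonempty (Fin s) with hE | ⟨⟨c0⟩⟩
  · have : total x = 0 := by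
      unfold total
      refine sum_eq_zero fun v _ => ?_
      rw [univ_eq_empty, sum_empty]
    rw [this]
    have := ZZ_nonneg x
    push_cast
    positivity
  have h := sq_sum_le_card_mul_sum_sq (s := (univ : Finset (Fin n)))
    (f := fun u => ∑ e, (x u e : ℤ))
  rw [card_univ, Fintype.card_fin] at h
  have e1 : (total x : ℤ) = ∑ u, ∑ e, (x u e : ℤ) := by
    unfold total
    push_cast
    rfl
  rw [e1]
  refine h.trans (le_of_eq ?_)
  unfold ZZ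
  congr 1
  exact sum_congr rfl fun u _ => nu_sq hx u c0

theorem PP_sq_le {x : Config (Fin n) s} (hx : UrnsMono x) (hm : ¬ AllMono x) (hn : 1 ≤ n) :
    (PP x : ℤ) ^ 2 ≤ ((n : ℤ) - 1) * ZZ x := by
  have hn' : (0 : ℤ) ≤ (n : ℤ) - 1 := by omega
  have hZ := ZZ_nonneg x
  unfold AllMono at hm
  push Not at hm
  obtain ⟨u1, u2, c1, c2, h1, h2, h12⟩ := hm
  obtain ⟨d, h | h⟩ := PP_eq x c1
  · rw [h]
    have := mul_nonneg hn' hZ
    simpa using this
  · have hex : ∃ u0, sg x u0 d ≤ 0 := by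
      have key : ∀ (u : Fin n) (e : Fin s), 0 < x u e → e ≠ d → sg x u d ≤ 0 := by
        intro u e he hed
        have h0 : x u d = 0 := by
          by_contra h0
          exact hed (hx u e d he (Nat.pos_of_ne_zero h0))
        unfold sg
        rw [h0]
        have : 0 ≤ ∑ e, (x u e : ℤ) := sum_nonneg fun _ _ => Nat.cast_nonneg _
        push_cast
        linarith
      by_cases hc : c1 = d
      · exact ⟨u2, key u2 c2 h2 (fun h => h12 (by rw [hc, h]))⟩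
      · exact ⟨u1, key u1 c1 h1 hc⟩
    obtain ⟨u0, hu0⟩ := hex
    have h3 : (PP x : ℤ) ≤ ∑ u ∈ univ.erase u0, sg x u d := by
      rw [h]
      unfold SS
      rw [← add_sum_erase univ _ (mem_univ u0)]
      linarith
    have hP : 0 ≤ (PP x : ℤ) := Nat.cast_nonneg _
    have h4 := sq_sum_le_card_mul_sum_sq (s := (univ : Finset (Fin n)).erase u0)
      (f := fun u => sg x u d)
    rw [card_erase_of_mem (mem_univ u0), card_univ, Fintype.card_fin, Nat.cast_sub hn,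
      Nat.cast_one] at h4
    calc (PP x : ℤ) ^ 2 ≤ (∑ u ∈ univ.erase u0, sg x u d) ^ 2 := pow_le_pow_left₀ hP h3 2
      _ ≤ ((n : ℤ) - 1) * ∑ u ∈ univ.erase u0, sg x u d ^ 2 := h4
      _ ≤ ((n : ℤ) - 1) * ZZ x := by
        refine mul_le_mul_of_nonneg_left ?_ hn'
        unfold ZZ
        rw [sum_congr rfl fun u _ => sg_sq hx u d]
        exact sum_le_sum_of_subset_of_nonneg (erase_subset _ _)
          fun u _ _ => sum_nonneg fun _ _ => sq_nonneg _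

theorem SS_abs_le (x : Config (Fin n) s) (d : Fin s) : |SS x d| ≤ total x := by
  have h1 : 0 ≤ ∑ u, (x u d : ℤ) := sum_nonneg fun _ _ => Nat.cast_nonneg _
  have h2 : ∑ u, (x u d : ℤ) ≤ total x := by
    rw [← sum_col x]
    exact single_le_sum (f := fun c => ∑ u, (x u c : ℤ))
      (fun c _ => sum_nonneg fun _ _ => Nat.cast_nonneg _) (mem_univ d)
  rw [SS_eq, abs_le]
  constructor <;> linarith

/-! ### inequalities for real numbers -/

theorem ratio {Z W Z' W' : ℝ} (hZ : 0 < Z) (hW : 0 < W) (hW' : W / 2 ≤ W') :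
    Z' ^ 2 / W' ≤ Z ^ 2 / W * (1 + 2 * ((Z' - Z) / Z) - (W' - W) / W +
      (4 * ((Z' - Z) / Z) ^ 2 + 4 * ((W' - W) / W) ^ 2)) := by
  obtain ⟨a, ha⟩ : ∃ a, a = (Z' - Z) / Z := ⟨_, rfl⟩
  obtain ⟨b, hb⟩ : ∃ b, b = (W' - W) / W := ⟨_, rfl⟩
  rw [← ha, ← hb]
  have e1 : Z' = Z * (1 + a) := by
    rw [ha]; field_simp; ring
  have e2 : W' = W * (1 + b) := by
    rw [hb]; field_simp; ring
  have hb' : 1 / 2 ≤ 1 + b := by
    rw [e2] at hW'
    by_contra hc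
    push Not at hc
    nlinarith
  have hb0 : 0 < 1 + b := by linarith
  have e3 : Z' ^ 2 / W' = Z ^ 2 / W * ((1 + a) ^ 2 / (1 + b)) := by
    rw [e1, e2]
    field_simp
  rw [e3]
  refine mul_le_mul_of_nonneg_left ?_ (by positivity)
  rw [div_le_iff₀ hb0]
  nlinarith [sq_nonneg (a + b), mul_nonneg (by linarith : (0 : ℝ) ≤ 1 / 2 + b)
    (by positivity : (0 : ℝ) ≤ a ^ 2 + b ^ 2)]

theorem main_ineq {n Z E P g W : ℝ} (hZ : 0 < Z) (hg : 0 < g) (hg3 : g ≤ 3 * Z)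
    (hW : W = P ^ 4 + g * Z) (hE : E ≤ P ^ 2 - Z) (hP : P ^ 2 ≤ (n - 1) * Z) :
    4 * E / Z - (4 * (n - 1) * P ^ 4 + 2 * g * E) / W ≤ -1 := by
  have hW0 : 0 < W := by rw [hW]; positivity
  have h1 : 4 * E / Z - (4 * (n - 1) * P ^ 4 + 2 * g * E) / W =
      (4 * E * W - Z * (4 * (n - 1) * P ^ 4 + 2 * g * E)) / (Z * W) := by
    field_simp
  rw [h1, div_le_iff₀ (by positivity), hW]
  obtain ⟨b, hb⟩ : ∃ b, b = P ^ 2 := ⟨_, rfl⟩
  have e4 : P ^ 4 = b ^ 2 := by rw [hb]; ring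
  have hb0 : 0 ≤ b := by rw [hb]; positivity
  rw [e4]
  rw [← hb] at hE hP
  have a1 : E * (4 * b ^ 2 + 2 * g * Z) ≤ (b - Z) * (4 * b ^ 2 + 2 * g * Z) :=
    mul_le_mul_of_nonneg_right hE (by positivity)
  have a2 : 4 * b ^ 2 * b ≤ 4 * b ^ 2 * ((n - 1) * Z) :=
    mul_le_mul_of_nonneg_left hP (by positivity)
  have a3 : 0 ≤ Z * (3 * b ^ 2 - 2 * g * b + g * Z) := by
    refine mul_nonneg hZ.le ?_
    nlinarith [sq_nonneg (3 * b - g), mul_le_mul_of_nonneg_left hg3 hg.le]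
  nlinarith [a1, a2, a3]

theorem quart {n P Q : ℝ} (hP : 0 ≤ P) (hQ : 0 ≤ Q) (h1 : Q ≤ P + n) (h2 : P ≤ Q + n)
    (hn : 0 ≤ n) : |Q ^ 4 - P ^ 4| ≤ 16 * n * P ^ 3 + 16 * n ^ 4 := by
  have h3 : |Q - P| ≤ n := by
    rw [abs_le]
    constructor <;> linarith
  have h4 : Q ^ 4 - P ^ 4 = (Q - P) * ((Q + P) * (Q ^ 2 + P ^ 2)) := by ring
  have h5 : 0 ≤ (Q + P) * (Q ^ 2 + P ^ 2) := by positivity
  rw [h4, abs_mul, abs_of_nonneg h5]
  have h6 : Q ^ 2 ≤ (P + n) ^ 2 := pow_le_pow_left₀ hQ h1 2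
  have h7 : (Q + P) * (Q ^ 2 + P ^ 2) ≤ (2 * P + n) * ((P + n) ^ 2 + P ^ 2) :=
    mul_le_mul (by linarith) (by linarith) (by positivity) (by positivity)
  have h8 : (2 * P + n) * ((P + n) ^ 2 + P ^ 2) ≤ 16 * P ^ 3 + 16 * n ^ 3 := by
    nlinarith [mul_nonneg (add_nonneg hP hn) (sq_nonneg (P - n)), mul_nonneg hP (sq_nonneg n),
      mul_nonneg hn (sq_nonneg P), pow_nonneg hP 3, pow_nonneg hn 3]
  calc |Q - P| * ((Q + P) * (Q ^ 2 + P ^ 2)) ≤ n * (16 * P ^ 3 + 16 * n ^ 3) :=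
        mul_le_mul h3 (h7.trans h8) h5 hn
    _ = _ := by ring

theorem err {n N Z P Q D C W W' : ℝ} (hn : 2 ≤ n) (hN : 100000 * n ^ 10 ≤ N)
    (hC : C = 16384 * n ^ 3) (hZ : N ^ 2 ≤ n * Z) (hP : 0 ≤ P) (hQ : 0 ≤ Q) (h1 : Q ≤ P + n)
    (h2 : P ≤ Q + n) (hD : |D| ≤ 5 * n * N) (hW : W = P ^ 4 + C ^ 2 * Z)
    (hW' : W' - W = Q ^ 4 - P ^ 4 + C ^ 2 * D) :
    4 * (D / Z) ^ 2 + 4 * ((W' - W) / W) ^ 2 ≤ 1 / (4 * N) := by
  have hn0 : 0 < n := by linarith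
  have hn1 : 1 ≤ n := by linarith
  have hN0 : 0 < N := lt_of_lt_of_le (by positivity) hN
  have hZ0 : 0 < Z := by
    by_contra hc
    push Not at hc
    have : n * Z ≤ 0 := mul_nonpos_of_nonneg_of_nonpos hn0.le hc
    have : 0 < N ^ 2 := by positivity
    linarith
  have hC1 : 1 ≤ C := by
    rw [hC]
    have : (1 : ℝ) ≤ n ^ 3 := one_le_pow₀ hn1
    linarith
  have hC0 : 0 < C := by linarith
  have hW0 : 0 < W := by rw [hW]; positivity
  have hCC : 1 ≤ C ^ 2 := one_le_pow₀ hC1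
  have w1 : C ^ 2 * Z ≤ W := by rw [hW]; linarith [pow_nonneg hP 4]
  have w2 : Z ≤ W := le_trans (by nlinarith) w1
  have w3 : P ^ 4 ≤ W := by rw [hW]; linarith [mul_pos (by positivity : 0 < C ^ 2) hZ0]
  have w4 : 2 * P ^ 2 * C * N ≤ n * W := by
    have e1 : (C * N) ^ 2 ≤ n ^ 2 * (C ^ 2 * Z) := by
      calc (C * N) ^ 2 = C ^ 2 * N ^ 2 := by ring
        _ ≤ C ^ 2 * (n * Z) := mul_le_mul_of_nonneg_left hZ (by positivity)
        _ = n * (C ^ 2 * Z) := by ring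
        _ ≤ n ^ 2 * (C ^ 2 * Z) := by
          refine mul_le_mul_of_nonneg_right ?_ (by positivity)
          nlinarith
    have e2 : n * (2 * P ^ 2 * C * N) ≤ n * (n * W) := by
      have := sq_nonneg (n * P ^ 2 - C * N)
      rw [hW]
      nlinarith
    exact le_of_mul_le_mul_left e2 hn0
  -- the square of the increment
  have q := quart hP hQ h1 h2 hn0.le
  have q2 : (Q ^ 4 - P ^ 4) ^ 2 ≤ 512 * n ^ 2 * P ^ 6 + 512 * n ^ 8 := by
    rw [← sq_abs]
    refine (pow_le_pow_left₀ (abs_nonneg _) q 2).trans ?_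
    nlinarith [sq_nonneg (16 * n * P ^ 3 - 16 * n ^ 4)]
  have q3 : (W' - W) ^ 2 ≤ 1024 * n ^ 2 * P ^ 6 + 1024 * n ^ 8 + 2 * C ^ 4 * D ^ 2 := by
    rw [hW']
    nlinarith [sq_nonneg (Q ^ 4 - P ^ 4 - C ^ 2 * D)]
  have D2 : D ^ 2 ≤ 25 * n ^ 2 * N ^ 2 := by
    rw [← sq_abs]
    refine (pow_le_pow_left₀ (abs_nonneg _) hD 2).trans (le_of_eq ?_)
    ring
  have r1 : P ^ 6 / W ^ 2 ≤ n / (2 * C * N) := by
    rw [div_le_div_iff₀ (by positivity) (by positivity)]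
    calc P ^ 6 * (2 * C * N) = P ^ 4 * (2 * P ^ 2 * C * N) := by ring
      _ ≤ W * (n * W) := mul_le_mul w3 w4 (by positivity) hW0.le
      _ = n * W ^ 2 := by ring
  have z1 : 1 / Z ≤ n / N ^ 2 := by
    rw [div_le_div_iff₀ hZ0 (by positivity)]
    linarith
  have z2 : 1 / Z ^ 2 ≤ n ^ 2 / N ^ 4 := by
    have := pow_le_pow_left₀ (by positivity) z1 2
    calc 1 / Z ^ 2 = (1 / Z) ^ 2 := by ring
      _ ≤ (n / N ^ 2) ^ 2 := this
      _ = n ^ 2 / N ^ 4 := by ring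
  have r2 : n ^ 8 / W ^ 2 ≤ n ^ 10 / N ^ 4 := by
    calc n ^ 8 / W ^ 2 ≤ n ^ 8 / Z ^ 2 :=
          div_le_div_of_nonneg_left (by positivity) (by positivity)
            (pow_le_pow_left₀ hZ0.le w2 2)
      _ = n ^ 8 * (1 / Z ^ 2) := by ring
      _ ≤ n ^ 8 * (n ^ 2 / N ^ 4) := mul_le_mul_of_nonneg_left z2 (by positivity)
      _ = n ^ 10 / N ^ 4 := by ring
  have r3 : D ^ 2 / Z ^ 2 ≤ 25 * n ^ 4 / N ^ 2 := by
    calc D ^ 2 / Z ^ 2 = D ^ 2 * (1 / Z ^ 2) := by ring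
      _ ≤ (25 * n ^ 2 * N ^ 2) * (n ^ 2 / N ^ 4) :=
          mul_le_mul D2 z2 (by positivity) (by positivity)
      _ = 25 * n ^ 4 / N ^ 2 := by
          field_simp
  have r4 : C ^ 4 * D ^ 2 / W ^ 2 ≤ 25 * n ^ 4 / N ^ 2 := by
    refine le_trans ?_ r3
    rw [div_le_div_iff₀ (by positivity) (by positivity)]
    have : C ^ 4 * Z ^ 2 ≤ W ^ 2 := by
      calc C ^ 4 * Z ^ 2 = (C ^ 2 * Z) ^ 2 := by ring
        _ ≤ W ^ 2 := pow_le_pow_left₀ (by positivity) w1 2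
    calc C ^ 4 * D ^ 2 * Z ^ 2 = D ^ 2 * (C ^ 4 * Z ^ 2) := by ring
      _ ≤ D ^ 2 * W ^ 2 := mul_le_mul_of_nonneg_left this (sq_nonneg _)
  have t1 : 4 * (D / Z) ^ 2 + 4 * ((W' - W) / W) ^ 2 ≤
      4096 * n ^ 2 * (n / (2 * C * N)) + 4096 * (n ^ 10 / N ^ 4) + 300 * n ^ 4 / N ^ 2 := by
    have e1 : (D / Z) ^ 2 = D ^ 2 / Z ^ 2 := by rw [div_pow]
    have e2 : ((W' - W) / W) ^ 2 ≤ 1024 * n ^ 2 * (P ^ 6 / W ^ 2) + 1024 * (n ^ 8 / W ^ 2) +
        2 * (C ^ 4 * D ^ 2 / W ^ 2) := by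
      rw [div_pow]
      calc (W' - W) ^ 2 / W ^ 2 ≤
          (1024 * n ^ 2 * P ^ 6 + 1024 * n ^ 8 + 2 * C ^ 4 * D ^ 2) / W ^ 2 :=
            div_le_div_of_nonneg_right q3 (by positivity)
        _ = _ := by ring
    have e3 : 1024 * n ^ 2 * (P ^ 6 / W ^ 2) ≤ 1024 * n ^ 2 * (n / (2 * C * N)) :=
      mul_le_mul_of_nonneg_left r1 (by positivity)
    have e4 : 300 * n ^ 4 / N ^ 2 = 12 * (25 * n ^ 4 / N ^ 2) := by ring
    rw [e1, e4]
    linarith
  refine t1.trans ?_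
  have t2 : 4096 * n ^ 2 * (n / (2 * C * N)) = 1 / (8 * N) := by
    rw [hC]
    field_simp
    norm_num
  have t3 : 4096 * (n ^ 10 / N ^ 4) ≤ 1 / (16 * N) := by
    have hN1 : 1 ≤ N := by
      have : (1 : ℝ) ≤ n ^ 10 := one_le_pow₀ hn1
      linarith
    rw [← mul_div_assoc, div_le_div_iff₀ (by positivity) (by positivity)]
    have a1 : n ^ 10 ≤ N / 100000 := by linarith
    have a2 : N ^ 2 ≤ N ^ 4 := pow_le_pow_right₀ hN1 (by norm_num)
    calc 4096 * n ^ 10 * (16 * N) ≤ 4096 * (N / 100000) * (16 * N) := by gcongr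
      _ = (65536 / 100000) * N ^ 2 := by ring
      _ ≤ 1 * N ^ 4 := by
        refine mul_le_mul (by norm_num) a2 (by positivity) (by norm_num)
  have t4 : 300 * n ^ 4 / N ^ 2 ≤ 1 / (16 * N) := by
    rw [div_le_div_iff₀ (by positivity) (by positivity)]
    have a0 : n ^ 4 ≤ n ^ 10 := pow_le_pow_right₀ hn1 (by norm_num)
    have a1 : n ^ 4 ≤ N / 100000 := by linarith
    calc 300 * n ^ 4 * (16 * N) ≤ 300 * (N / 100000) * (16 * N) := by gcongr
      _ = (4800 / 100000) * N ^ 2 := by ring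
      _ ≤ 1 * N ^ 2 := mul_le_mul_of_nonneg_right (by norm_num) (by positivity)
  rw [t2]
  have t5 : 1 / (4 * N) = 1 / (8 * N) + 1 / (16 * N) + 1 / (16 * N) := by
    field_simp
    norm_num
  rw [t5]
  linarith

/-- the Lyapunov function -/
noncomputable def ff (C : ℝ) (x : Config (Fin n) s) : ℝ :=
  (ZZ x : ℝ) ^ 2 / ((PP x : ℝ) ^ 4 + C ^ 2 * (ZZ x : ℝ))

theorem ff_nonneg (C : ℝ) (x : Config (Fin n) s) : 0 ≤ ff C x := by
  have h : (0 : ℝ) ≤ (ZZ x : ℝ) := by exact_mod_cast ZZ_nonneg x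
  unfold ff
  positivity

/-- the sign of a colour -/
def eps (d0 c : Fin s) : ℝ := if c = d0 then 1 else -1

theorem quart_ge {P Q : ℝ} (hP : 0 ≤ P) (hQ : 0 ≤ Q) : 4 * P ^ 3 * (Q - P) ≤ Q ^ 4 - P ^ 4 := by
  have h : 0 ≤ (Q - P) ^ 2 * (Q ^ 2 + 2 * P * Q + 3 * P ^ 2) := by positivity
  nlinarith [h]

/-- one step -/
theorem one_step {x : Config (Fin n) s} (hx : UrnsMono x) (hn : 2 ≤ n)
    (hN : 100000 * n ^ 10 ≤ total x) {C : ℝ} (hC : C = 16384 * (n : ℝ) ^ 3) {d0 : Fin s}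
    (hd0 : (PP x : ℤ) = 0 ∨ (PP x : ℤ) = SS x d0) {v : Fin n} {c : Fin s} (hv : 0 < x v c) :
    ff C (step (⊤ : SimpleGraph (Fin n)) x v c) ≤ ff C x *
      (1 + 2 * ((2 * ((SS x c : ℝ) - (x v c : ℝ)) + ((n : ℝ) - 1)) / ZZ x) -
        (4 * (PP x : ℝ) ^ 3 * (((n : ℝ) - 1) * eps d0 c) +
          C ^ 2 * (2 * ((SS x c : ℝ) - (x v c : ℝ)) + ((n : ℝ) - 1))) /
            ((PP x : ℝ) ^ 4 + C ^ 2 * (ZZ x : ℝ)) + 1 / (4 * (total x : ℝ))) := by
  set y := step (⊤ : SimpleGraph (Fin n)) x v c with hy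
  obtain ⟨D, hD⟩ : ∃ D : ℝ, D = 2 * ((SS x c : ℝ) - (x v c : ℝ)) + ((n : ℝ) - 1) := ⟨_, rfl⟩
  rw [← hD]
  obtain ⟨Z, hZ⟩ : ∃ Z : ℝ, Z = (ZZ x : ℝ) := ⟨_, rfl⟩
  obtain ⟨P, hP⟩ : ∃ P : ℝ, P = (PP x : ℝ) := ⟨_, rfl⟩
  obtain ⟨Q, hQ⟩ : ∃ Q : ℝ, Q = (PP y : ℝ) := ⟨_, rfl⟩
  obtain ⟨N, hNe⟩ : ∃ N : ℝ, N = (total x : ℝ) := ⟨_, rfl⟩
  have hZ' : (ZZ y : ℝ) = Z + D := by
    have h := ZZ_step hx hv
    rw [hy, h, hZ, hD]
    push_cast
    ring
  unfold ff
  rw [hZ', ← hZ, ← hP, ← hQ, ← hNe]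
  have hn2 : (2 : ℝ) ≤ n := by exact_mod_cast hn
  have hN' : 100000 * (n : ℝ) ^ 10 ≤ N := by rw [hNe]; exact_mod_cast hN
  have hNZ : N ^ 2 ≤ n * Z := by
    rw [hNe, hZ]
    have := total_sq_le hx
    exact_mod_cast this
  have hn0 : (0 : ℝ) < n := by linarith
  have hn10 : (1 : ℝ) ≤ (n : ℝ) ^ 10 := one_le_pow₀ (by linarith)
  have hN0 : 0 < N := by linarith
  have hN1 : 1 ≤ N := by linarith
  have hZ0 : 0 < Z := by
    by_contra hc
    push Not at hc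
    have h1 : (n : ℝ) * Z ≤ 0 := mul_nonpos_of_nonneg_of_nonpos hn0.le hc
    have : 0 < N ^ 2 := by positivity
    linarith
  have hP0 : 0 ≤ P := by rw [hP]; positivity
  have hQ0 : 0 ≤ Q := by rw [hQ]; positivity
  have hPQ := PP_step hx v c
  rw [← hy] at hPQ
  have h1 : Q ≤ P + n := by
    have h : (PP y : ℤ) ≤ PP x + n := by omega
    rw [hQ, hP]
    exact_mod_cast h
  have h2 : P ≤ Q + n := by
    have h : (PP x : ℤ) ≤ PP y + n := by omega
    rw [hQ, hP]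
    exact_mod_cast h
  have hDa : |D| ≤ 5 * n * N := by
    have a1 : |(SS x c : ℝ)| ≤ N := by
      rw [hNe]
      have := SS_abs_le x c
      exact_mod_cast this
    have a2 : (x v c : ℝ) ≤ N := by
      rw [hNe]
      exact_mod_cast le_total x v c
    have a3 : (0 : ℝ) ≤ (x v c : ℝ) := Nat.cast_nonneg _
    rw [abs_le] at a1
    have a4 : (n : ℝ) ≤ n * N := by nlinarith
    have a5 : 2 * N ≤ n * N := by nlinarith
    rw [hD, abs_le]
    constructor <;> nlinarith [a1.1, a1.2]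
  obtain ⟨W, hW⟩ : ∃ W : ℝ, W = P ^ 4 + C ^ 2 * Z := ⟨_, rfl⟩
  obtain ⟨W', hW'⟩ : ∃ W' : ℝ, W' = Q ^ 4 + C ^ 2 * (Z + D) := ⟨_, rfl⟩
  rw [← hW, ← hW']
  have hdW : W' - W = Q ^ 4 - P ^ 4 + C ^ 2 * D := by
    rw [hW, hW']
    ring
  have he := err hn2 hN' hC hNZ hP0 hQ0 h1 h2 hDa hW hdW
  have hC0 : 0 < C := by rw [hC]; positivity
  have hW0 : 0 < W := by rw [hW]; positivity
  have hW2 : W / 2 ≤ W' := by
    have b1 : 1 / (4 * N) ≤ 1 / 4 := by
      rw [div_le_div_iff₀ (by positivity) (by norm_num)]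
      linarith
    have b2 : ((W' - W) / W) ^ 2 ≤ (1 / 2) ^ 2 := by
      have : 0 ≤ 4 * (D / Z) ^ 2 := by positivity
      have : 0 ≤ ((W' - W) / W) ^ 2 := sq_nonneg _
      linarith
    have b3 := abs_le_of_sq_le_sq b2 (by norm_num)
    have b4 : -(1 / 2) ≤ (W' - W) / W := (abs_le.1 b3).1
    rw [le_div_iff₀ hW0] at b4
    linarith
  have hr := ratio (Z' := Z + D) hZ0 hW0 hW2
  refine hr.trans (mul_le_mul_of_nonneg_left ?_ (by positivity))
  have e1 : (Z + D - Z) / Z = D / Z := by ring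
  rw [e1]
  have e2 : (4 * P ^ 3 * (((n : ℝ) - 1) * eps d0 c) + C ^ 2 * D) / W ≤ (W' - W) / W := by
    refine div_le_div_of_nonneg_right ?_ hW0.le
    rw [hdW]
    have c1 := quart_ge hP0 hQ0
    have c2 : 4 * P ^ 3 * (((n : ℝ) - 1) * eps d0 c) ≤ 4 * P ^ 3 * (Q - P) := by
      rcases hd0 with h | h
      · have : P = 0 := by rw [hP]; exact_mod_cast h
        rw [this]
        simp
      · refine mul_le_mul_of_nonneg_left ?_ (by positivity)
        have hPS : P = (SS x d0 : ℝ) := by rw [hP]; exact_mod_cast h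
        have hQS : (SS y d0 : ℝ) ≤ Q := by
          rw [hQ]
          have := le_PP y d0
          exact_mod_cast this
        unfold eps
        split_ifs with hc
        · have h3 := SS_step_self hx v c
          rw [← hy, hc] at h3
          have h4 : (SS y d0 : ℝ) = SS x d0 + ((n : ℝ) - 1) := by exact_mod_cast h3
          linarith
        · have h3 := (SS_step_le hx v c d0).2
          rw [← hy] at h3
          have h4 : (SS x d0 : ℝ) ≤ SS y d0 + ((n : ℝ) - 1) := by exact_mod_cast h3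
          linarith
    linarith
  linarith

theorem sum_weights {x : Config (Fin n) s} (hx : 0 < total x) :
    ∑ v, ∑ c, (x v c : ℝ) / (total x : ℝ) = 1 := by
  simp only [← sum_div]
  have h2 : (∑ v, ∑ c, (x v c : ℝ)) = (total x : ℝ) := by
    unfold total; push_cast; rfl
  rw [h2]
  have : (total x : ℝ) ≠ 0 := by
    have : (0 : ℝ) < total x := by exact_mod_cast hx
    exact this.ne'
  exact div_self this

theorem sum_eps (x : Config (Fin n) s) (d0 : Fin s) :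
    ∑ v, ∑ c, (x v c : ℝ) / (total x : ℝ) * eps d0 c = (SS x d0 : ℝ) / total x := by
  have h : ∀ v c, (x v c : ℝ) / (total x : ℝ) * eps d0 c =
      (2 * (if c = d0 then (x v c : ℝ) else 0) - (x v c : ℝ)) / total x := by
    intro v c
    unfold eps
    split_ifs <;> ring
  simp only [h, ← sum_div]
  congr 1
  simp only [sum_sub_distrib, ← mul_sum, sum_ite_eq', mem_univ, if_true]
  rw [SS_eq]
  unfold total
  push_cast
  ring

theorem sum_delta {x : Config (Fin n) s} (hx : 0 < total x) :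
    ∑ v, ∑ c, (x v c : ℝ) / (total x : ℝ) * (2 * ((SS x c : ℝ) - (x v c : ℝ)) + ((n : ℝ) - 1)) =
      2 * (((∑ c, (∑ u, (x u c : ℤ)) * SS x c : ℤ) : ℝ) - ZZ x) / total x + ((n : ℝ) - 1) := by
  have h : ∀ v c, (x v c : ℝ) / (total x : ℝ) *
      (2 * ((SS x c : ℝ) - (x v c : ℝ)) + ((n : ℝ) - 1)) =
      2 * ((x v c : ℝ) * SS x c / total x - (x v c : ℝ) ^ 2 / total x) +
        ((n : ℝ) - 1) * ((x v c : ℝ) / total x) := by
    intro v c
    ring
  simp only [h, sum_add_distrib, ← mul_sum, sum_sub_distrib]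
  rw [sum_weights hx, mul_one]
  have e1 : ∑ v, ∑ c, (x v c : ℝ) * SS x c / total x =
      ((∑ c, (∑ u, (x u c : ℤ)) * SS x c : ℤ) : ℝ) / total x := by
    rw [sum_comm]
    push_cast
    rw [sum_div]
    refine sum_congr rfl fun c _ => ?_
    rw [sum_mul, sum_div]
  have e2 : ∑ v, ∑ c, (x v c : ℝ) ^ 2 / total x = (ZZ x : ℝ) / total x := by
    unfold ZZ
    push_cast
    simp only [sum_div]
  rw [e1, e2]
  ring

end Kn

theorem complete_drift (n s : ℕ) (hn : 2 ≤ n) :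
    ∃ f : Config (Fin n) s → ℝ, (∀ x, 0 ≤ f x) ∧ ∃ c : ℝ, 0 < c ∧ ∃ N₀ : ℕ,
      ∀ x : Config (Fin n) s, Good x → ¬ AllMono x → N₀ ≤ total x →
        Pop (⊤ : SimpleGraph (Fin n)) f x ≤ f x - c / (total x : ℝ) := by
  obtain ⟨C, hC⟩ : ∃ C : ℝ, C = 16384 * (n : ℝ) ^ 3 := ⟨_, rfl⟩
  have hn2 : (2 : ℝ) ≤ n := by exact_mod_cast hn
  have hn0 : (0 : ℝ) < n := by linarith
  have hn1 : (1 : ℝ) ≤ n := by linarith
  have hC0 : 0 < C := by rw [hC]; positivity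
  refine ⟨Kn.ff C, Kn.ff_nonneg C, 1 / (2 * ((n : ℝ) ^ 2 + C ^ 2)), by positivity,
    100000 * n ^ 10, fun x hx hm hN => ?_⟩
  obtain ⟨d0', hd0'⟩ := (total_pos_iff x).1 hx.2
  obtain ⟨c0, -⟩ := hd0'
  obtain ⟨d0, hd0⟩ := Kn.PP_eq x c0
  obtain ⟨Z, hZ⟩ : ∃ Z : ℝ, Z = (Kn.ZZ x : ℝ) := ⟨_, rfl⟩
  obtain ⟨P, hP⟩ : ∃ P : ℝ, P = (Kn.PP x : ℝ) := ⟨_, rfl⟩
  obtain ⟨N, hNe⟩ : ∃ N : ℝ, N = (total x : ℝ) := ⟨_, rfl⟩
  obtain ⟨W, hW⟩ : ∃ W : ℝ, W = P ^ 4 + C ^ 2 * Z := ⟨_, rfl⟩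
  have hN' : 100000 * (n : ℝ) ^ 10 ≤ N := by rw [hNe]; exact_mod_cast hN
  have hNZ : N ^ 2 ≤ n * Z := by
    rw [hNe, hZ]
    have := Kn.total_sq_le hx.1
    exact_mod_cast this
  have hn10 : (1 : ℝ) ≤ (n : ℝ) ^ 10 := one_le_pow₀ (by linarith)
  have hN0 : 0 < N := by linarith
  have hN1 : 1 ≤ N := by linarith
  have hZ0 : 0 < Z := by
    by_contra hc
    push Not at hc
    have h1 : (n : ℝ) * Z ≤ 0 := mul_nonpos_of_nonneg_of_nonpos hn0.le hc
    have : 0 < N ^ 2 := by positivity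
    linarith
  have hZ1 : 1 ≤ Z := by
    rw [hZ] at hZ0 ⊢
    have : (0 : ℤ) < Kn.ZZ x := by exact_mod_cast hZ0
    exact_mod_cast this
  have hP0 : 0 ≤ P := by rw [hP]; positivity
  have hPZ : P ^ 2 ≤ ((n : ℝ) - 1) * Z := by
    rw [hP, hZ]
    have := Kn.PP_sq_le hx.1 hm (by omega)
    exact_mod_cast this
  have hW0 : 0 < W := by rw [hW]; positivity
  obtain ⟨E, hE⟩ : ∃ E : ℝ, E = ((∑ c, (∑ u, (x u c : ℤ)) * Kn.SS x c : ℤ) : ℝ) - Z := ⟨_, rfl⟩
  have hEP : E ≤ P ^ 2 - Z := by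
    rw [hE, hP]
    have : ((∑ c, (∑ u, (x u c : ℤ)) * Kn.SS x c : ℤ) : ℝ) ≤ ((Kn.PP x : ℤ) ^ 2 : ℤ) := by
      exact_mod_cast Kn.sumS_le x
    push_cast at this ⊢
    linarith
  have hF : Kn.ff C x = Z ^ 2 / W := by
    unfold Kn.ff
    rw [hW, hZ, hP]
  -- the sum
  have hA := Kn.sum_delta hx.2
  rw [← hZ, ← hE, ← hNe] at hA
  have hB := Kn.sum_eps x d0
  rw [← hNe] at hB
  have hO := Kn.sum_weights hx.2
  rw [← hNe] at hO
  have hstep : Pop (⊤ : SimpleGraph (Fin n)) (Kn.ff C) x ≤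
      ∑ v, ∑ c, (x v c : ℝ) / N * (Z ^ 2 / W *
        (1 + 2 * ((2 * ((Kn.SS x c : ℝ) - (x v c : ℝ)) + ((n : ℝ) - 1)) / Z) -
        (4 * P ^ 3 * (((n : ℝ) - 1) * Kn.eps d0 c) +
          C ^ 2 * (2 * ((Kn.SS x c : ℝ) - (x v c : ℝ)) + ((n : ℝ) - 1))) / W +
            1 / (4 * N))) := by
    unfold Pop
    refine sum_le_sum fun v _ => sum_le_sum fun c _ => ?_
    rw [← hNe]
    rcases Nat.eq_zero_or_pos (x v c) with h0 | h0
    · rw [h0]
      simp
    · refine mul_le_mul_of_nonneg_left ?_ (by positivity)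
      have h1 := Kn.one_step hx.1 hn hN hC hd0 h0
      rw [hF, ← hZ, ← hP, ← hW, ← hNe] at h1
      exact h1
  have hsum : ∑ v, ∑ c, (x v c : ℝ) / N * (Z ^ 2 / W *
        (1 + 2 * ((2 * ((Kn.SS x c : ℝ) - (x v c : ℝ)) + ((n : ℝ) - 1)) / Z) -
        (4 * P ^ 3 * (((n : ℝ) - 1) * Kn.eps d0 c) +
          C ^ 2 * (2 * ((Kn.SS x c : ℝ) - (x v c : ℝ)) + ((n : ℝ) - 1))) / W +
            1 / (4 * N))) =
      Z ^ 2 / W * ((1 + 1 / (4 * N)) * 1 + (2 / Z - C ^ 2 / W) * (2 * E / N + ((n : ℝ) - 1)) -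
        4 * P ^ 3 * ((n : ℝ) - 1) / W * ((Kn.SS x d0 : ℝ) / N)) := by
    rw [← hA, ← hB, ← hO, mul_sum, mul_sum, mul_sum, ← sum_add_distrib, ← sum_sub_distrib, mul_sum]
    refine sum_congr rfl fun v _ => ?_
    rw [mul_sum, mul_sum, mul_sum, ← sum_add_distrib, ← sum_sub_distrib, mul_sum]
    refine sum_congr rfl fun c _ => ?_
    ring
  have hPS : P ^ 3 * (Kn.SS x d0 : ℝ) = P ^ 4 := by
    rcases hd0 with h | h
    · have : P = 0 := by rw [hP]; exact_mod_cast h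
      rw [this]
      simp
    · have : (Kn.SS x d0 : ℝ) = P := by rw [hP]; exact_mod_cast h.symm
      rw [this]
      ring
  -- the bracket
  have hg3 : C ^ 2 ≤ 3 * Z := by
    have a1 : (16384 * (n : ℝ) ^ 3) ^ 2 * n ≤ 3 * N ^ 2 := by
      have a2 : (n : ℝ) ^ 7 ≤ (n : ℝ) ^ 20 := pow_le_pow_right₀ hn1 (by norm_num)
      have a3 : (100000 * (n : ℝ) ^ 10) ^ 2 ≤ N ^ 2 := pow_le_pow_left₀ (by positivity) hN' 2
      have a4 : (0 : ℝ) ≤ (n : ℝ) ^ 20 := by positivity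
      calc (16384 * (n : ℝ) ^ 3) ^ 2 * n = 268435456 * (n : ℝ) ^ 7 := by ring
        _ ≤ 268435456 * (n : ℝ) ^ 20 := by linarith
        _ ≤ 3 * (100000 * (n : ℝ) ^ 10) ^ 2 := by
          have : (100000 * (n : ℝ) ^ 10) ^ 2 = 10000000000 * (n : ℝ) ^ 20 := by ring
          rw [this]
          linarith
        _ ≤ 3 * N ^ 2 := by linarith
    rw [hC]
    have a5 : (16384 * (n : ℝ) ^ 3) ^ 2 * n ≤ (3 * Z) * n := by
      refine a1.trans ?_
      linarith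
    exact le_of_mul_le_mul_right a5 hn0
  have hmain := Kn.main_ineq hZ0 (by positivity : 0 < C ^ 2) hg3 hW hEP hPZ
  have herr : 2 * N * ((n : ℝ) - 1) / Z ≤ 1 / 4 := by
    rw [div_le_iff₀ hZ0]
    have a1 : 8 * N * ((n : ℝ) - 1) * n ≤ n * Z := by
      refine le_trans ?_ hNZ
      have a2 : 8 * ((n : ℝ) - 1) * n ≤ N := by
        have a3 : (n : ℝ) ^ 2 ≤ (n : ℝ) ^ 10 := pow_le_pow_right₀ hn1 (by norm_num)
        nlinarith
      calc 8 * N * ((n : ℝ) - 1) * n = (8 * ((n : ℝ) - 1) * n) * N := by ring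
        _ ≤ N * N := mul_le_mul_of_nonneg_right a2 hN0.le
        _ = N ^ 2 := by ring
    have a2 : 8 * N * ((n : ℝ) - 1) ≤ Z := by
      have : (8 * N * ((n : ℝ) - 1)) * n ≤ Z * n := by linarith
      exact le_of_mul_le_mul_right this hn0
    linarith
  have hbr : (1 + 1 / (4 * N)) * 1 + (2 / Z - C ^ 2 / W) * (2 * E / N + ((n : ℝ) - 1)) -
        4 * P ^ 3 * ((n : ℝ) - 1) / W * ((Kn.SS x d0 : ℝ) / N) ≤ 1 - 1 / (2 * N) := by
    have e1 : (1 + 1 / (4 * N)) * 1 + (2 / Z - C ^ 2 / W) * (2 * E / N + ((n : ℝ) - 1)) -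
        4 * P ^ 3 * ((n : ℝ) - 1) / W * ((Kn.SS x d0 : ℝ) / N) =
        1 + 1 / (4 * N) + (4 * E / Z - (4 * ((n : ℝ) - 1) * (P ^ 3 * (Kn.SS x d0 : ℝ)) +
          2 * C ^ 2 * E) / W) / N + (2 * N * ((n : ℝ) - 1) / Z) / N -
          C ^ 2 * ((n : ℝ) - 1) / W := by
      field_simp
      ring
    rw [e1, hPS]
    have e2 : (4 * E / Z - (4 * ((n : ℝ) - 1) * P ^ 4 + 2 * C ^ 2 * E) / W) / N ≤ -1 / N :=
      div_le_div_of_nonneg_right hmain hN0.le
    have e3 : (2 * N * ((n : ℝ) - 1) / Z) / N ≤ (1 / 4) / N :=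
      div_le_div_of_nonneg_right herr hN0.le
    have e4 : 0 ≤ C ^ 2 * ((n : ℝ) - 1) / W := by
      have : 0 ≤ (n : ℝ) - 1 := by linarith
      positivity
    have e5 : 1 / (4 * N) + -1 / N + (1 / 4) / N = - (1 / (2 * N)) := by
      field_simp
      norm_num
    linarith
  have hFlow : 1 / ((n : ℝ) ^ 2 + C ^ 2) ≤ Z ^ 2 / W := by
    rw [div_le_div_iff₀ (by positivity) hW0, one_mul, hW]
    have b1 : P ^ 4 ≤ (n : ℝ) ^ 2 * Z ^ 2 := by
      have b2 : P ^ 2 ≤ n * Z := by nlinarith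
      calc P ^ 4 = (P ^ 2) ^ 2 := by ring
        _ ≤ (n * Z) ^ 2 := pow_le_pow_left₀ (by positivity) b2 2
        _ = (n : ℝ) ^ 2 * Z ^ 2 := by ring
    have b3 : C ^ 2 * Z ≤ C ^ 2 * Z ^ 2 := by
      refine mul_le_mul_of_nonneg_left ?_ (by positivity)
      nlinarith
    linarith
  rw [← hNe, hF]
  rw [hsum] at hstep
  calc Pop (⊤ : SimpleGraph (Fin n)) (Kn.ff C) x ≤ _ := hstep
    _ ≤ Z ^ 2 / W * (1 - 1 / (2 * N)) := mul_le_mul_of_nonneg_left hbr (by positivity)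
    _ = Z ^ 2 / W - (Z ^ 2 / W) * (1 / (2 * N)) := by ring
    _ ≤ Z ^ 2 / W - (1 / ((n : ℝ) ^ 2 + C ^ 2)) * (1 / (2 * N)) := by
      have := mul_le_mul_of_nonneg_right hFlow (by positivity : 0 ≤ 1 / (2 * N))
      linarith
    _ = Z ^ 2 / W - 1 / (2 * ((n : ℝ) ^ 2 + C ^ 2)) / N := by
      field_simp

end Pool.Agent.TH996.Urn
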