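import Mathlib

/-!
# The multi-type urn process on a finite graph (MP_747d65_pr): definitions
-/

open MeasureTheory

namespace Pool.Agent.TH996.Urn

/-- A configuration: `x v c` is the number of balls of colour `c` in the urn at `v`. -/
abbrev Config (V : Type) (s : ℕ) := V → Fin s → ℕ

section
variable {V : Type} {s : ℕ}

/-- Every urn is monochromatic. -/
def UrnsMono (x : Config V s) : Prop := ∀ v c d, 0 < x v c → 0 < x v d → c = d

/-- All balls present have the same colour. -/
def AllMono (x : Config V s) : Prop := ∀ u v c d, 0 < x u c → 0 < x v d → c = d

variable [Fintype V]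

/-- The total number of balls. -/
def total (x : Config V s) : ℕ := ∑ v, ∑ c, x v c

open Classical in
/-- The configuration after a ball of colour `c` at `v` has been selected: every neighbour `u` of
`v` receives one ball of colour `c`; if the urn at `u` holds a ball of another colour, the new ball
and one ball of that urn annihilate (all balls of that urn have the same colour, so subtracting one
from the number of balls of every colour other than `c`, with `0 - 1 = 0`, removes one ball),
otherwise the new ball is added. -/
noncomputable def step (G : SimpleGraph V) (x : Config V s) (v : V) (c : Fin s) : Config V s :=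
  fun u d =>
    if G.Adj v u then
      if ∃ e, e ≠ c ∧ 0 < x u e then (if d = c then x u d else x u d - 1)
      else (if d = c then x u d + 1 else x u d)
    else x u d

open Classical in
/-- The transition probability: a ball is selected uniformly at random. -/
noncomputable def transProb (G : SimpleGraph V) (x y : Config V s) : ℝ :=
  ∑ v, ∑ c, if step G x v c = y then (x v c : ℝ) / (total x : ℝ) else 0

/-- `X` is the urn process on `G` started from `x₀`: a Markov chain with the transition
probabilities `transProb G`. -/
structure IsUrnProcess (G : SimpleGraph V) (x₀ : Config V s) {Ω : Type} [MeasurableSpace Ω]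
    (P : Measure Ω) (X : ℕ → Ω → Config V s) : Prop where
  meas : ∀ n y, MeasurableSet {ω | X n ω = y}
  init : P {ω | X 0 ω = x₀} = 1
  markov : ∀ (n : ℕ) (a : Fin (n + 1) → Config V s) (y : Config V s),
    P {ω | (∀ i : Fin (n + 1), X i ω = a i) ∧ X (n + 1) ω = y} =
      P {ω | ∀ i : Fin (n + 1), X i ω = a i} * ENNReal.ofReal (transProb G (a (Fin.last n)) y)

/-- Colour `c` survives: balls of colour `c` are present at arbitrarily large times. -/
def Survives {Ω : Type} (X : ℕ → Ω → Config V s) (ω : Ω) (c : Fin s) : Prop :=
  ∀ n, ∃ m, n ≤ m ∧ ∃ v, 0 < X m ω v c

/-- The class `𝒢_s`: for every finite initial configuration the urn process almost surely has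
exactly one surviving colour. -/
def InClass (G : SimpleGraph V) (s : ℕ) : Prop :=
  ∀ x₀ : Config V s, UrnsMono x₀ → 0 < total x₀ →
    ∀ (Ω : Type) [MeasurableSpace Ω] (P : Measure Ω) [IsProbabilityMeasure P]
      (X : ℕ → Ω → Config V s), IsUrnProcess G x₀ P X →
        ∀ᵐ ω ∂P, ∃! c, Survives X ω c

/-- The transition operator. -/
noncomputable def Pop (G : SimpleGraph V) (f : Config V s → ℝ) (x : Config V s) : ℝ :=
  ∑ v, ∑ c, (x v c : ℝ) / (total x : ℝ) * f (step G x v c)

open Classical in
/-- Indicator of the event that not all balls have the same colour. -/
noncomputable def nm (x : Config V s) : ℝ := if AllMono x then 0 else 1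

end

end Pool.Agent.TH996.Urn
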