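import Pool.Agent.TH996.Urn.Basic

/-!
# Strictly balanced configurations
-/

open Finset

namespace Pool.Agent.TH996.Urn

variable {V : Type} [Fintype V] {s : ℕ}

open Classical in
/-- `(K, χ, φ, μ)` is a strictly balanced configuration on `G`: `K` is a set of vertices coloured
by `χ`, at least two colours are used, adjacent vertices of `K` have the same colour, `φ` is a
positive function on `K` (zero outside) which is an eigenvector, with eigenvalue `μ > 0`, of the
adjacency matrix of the graph induced on `K`; at every vertex outside `K` with a neighbour in `K`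
every colour contributes less than half of the `φ`-mass of the neighbours; and `μ` is at least the
largest eigenvalue of the graph induced on the set of vertices neither in `K` nor adjacent to `K`
(expressed by a positive supersolution `ψ`). -/
structure IsSBC (G : SimpleGraph V) (K : Finset V) (χ : V → Fin s) (φ : V → ℝ) (μ : ℝ) :
    Prop where
  μ_pos : 0 < μ
  φ_pos : ∀ v ∈ K, 0 < φ v
  φ_out : ∀ v, v ∉ K → φ v = 0
  eig : ∀ v ∈ K, (∑ u, if G.Adj v u then φ u else 0) = μ * φ v
  same : ∀ u ∈ K, ∀ v ∈ K, G.Adj u v → χ u = χ v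
  two : ∃ u ∈ K, ∃ v ∈ K, χ u ≠ χ v
  bal : ∀ z, z ∉ K → (∃ u ∈ K, G.Adj z u) → ∀ c,
    2 * (∑ u, if G.Adj z u ∧ χ u = c then φ u else 0) < ∑ u, if G.Adj z u then φ u else 0
  out : ∃ ψ : V → ℝ, ∀ u, u ∉ K → (∀ v ∈ K, ¬ G.Adj u v) → 0 < ψ u ∧
    (∑ w, if G.Adj u w ∧ w ∉ K ∧ (∀ v ∈ K, ¬ G.Adj w v) then ψ w else 0) ≤ μ * ψ u

/-- number of balls in an urn -/
noncomputable def nn (x : Config V s) (v : V) : ℝ := ∑ c, (x v c : ℝ)

/-- signed number of balls at `v`, relative to the colour `χ v` -/
noncomputable def xi (χ : V → Fin s) (x : Config V s) (v : V) : ℝ := 2 * (x v (χ v) : ℝ) - nn x v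

open Classical in
/-- touched vertices -/
noncomputable def touched (G : SimpleGraph V) (K : Finset V) : Finset V :=
  univ.filter (fun z => z ∉ K ∧ ∃ u ∈ K, G.Adj z u)

open Classical in
/-- untouched vertices -/
noncomputable def untouched (G : SimpleGraph V) (K : Finset V) : Finset V :=
  univ.filter (fun z => z ∉ K ∧ ∀ u ∈ K, ¬ G.Adj z u)

noncomputable def SS (χ : V → Fin s) (φ : V → ℝ) (x : Config V s) : ℝ := ∑ v, φ v * xi χ x v

noncomputable def ZZ (K : Finset V) (χ : V → Fin s) (x : Config V s) : ℝ := ∑ v ∈ K, xi χ x v ^ 2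

noncomputable def qq (G : SimpleGraph V) (K : Finset V) (x : Config V s) : ℝ :=
  ∑ z ∈ touched G K, nn x z

noncomputable def YY (G : SimpleGraph V) (K : Finset V) (x : Config V s) : ℝ :=
  ∑ z ∈ touched G K, nn x z ^ 2

noncomputable def LL (G : SimpleGraph V) (K : Finset V) (ψ : V → ℝ) (x : Config V s) : ℝ :=
  ∑ u ∈ untouched G K, ψ u * nn x u

/-- the region around the balanced configuration -/
structure InR (G : SimpleGraph V) (K : Finset V) (χ : V → Fin s) (φ ψ : V → ℝ) (ε : ℝ)
    (x : Config V s) : Prop where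
  good : Good x
  S_pos : 0 < SS χ φ x
  S_large : 1 ≤ ε * SS χ φ x
  Z_le : ZZ K χ x ≤ (1 + ε) * SS χ φ x ^ 2
  T_le : ∀ z ∈ touched G K, nn x z ≤ ε * SS χ φ x
  L_le : LL G K ψ x ≤ ε * SS χ φ x

end Pool.Agent.TH996.Urn
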