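import Pool.Agent.TH996.Urn.SbcDefs

/-!
# The drift of `Z / S ^ 2` near a strictly balanced configuration (SM1)
-/

open Finset

namespace Pool.Agent.TH996.Urn

variable {V : Type} [Fintype V] {s : ℕ} {G : SimpleGraph V} {K : Finset V} {χ : V → Fin s}
  {φ ψ : V → ℝ} {μ : ℝ}

theorem Sm1_phi_nonneg (h : IsSBC G K χ φ μ) (v : V) : 0 ≤ φ v := by
  by_cases hv : v ∈ K
  · exact (h.φ_pos v hv).le
  · rw [h.φ_out v hv]

theorem Sm1_phi_le_one (hφ : ∑ v, φ v ^ 2 = 1) (v : V) : φ v ≤ 1 := by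
  have h1 : φ v ^ 2 ≤ ∑ v, φ v ^ 2 :=
    Finset.single_le_sum (f := fun v => φ v ^ 2) (fun _ _ => sq_nonneg _) (mem_univ v)
  rw [hφ] at h1
  by_contra hc
  push Not at hc
  nlinarith

theorem Sm1_sumK (h : IsSBC G K χ φ μ) (g : V → ℝ) :
    ∑ v ∈ K, φ v * g v = ∑ v, φ v * g v :=
  Finset.sum_subset (subset_univ K) (fun v _ hv => by rw [h.φ_out v hv, zero_mul])

theorem Sm1_dev (h : IsSBC G K χ φ μ) (hφ : ∑ v, φ v ^ 2 = 1) (x : Config V s) :
    ∑ v ∈ K, (xi χ x v - SS χ φ x * φ v) ^ 2 = ZZ K χ x - SS χ φ x ^ 2 := by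
  have e1 : ∑ v ∈ K, φ v * xi χ x v = SS χ φ x := Sm1_sumK h _
  have e2 : ∑ v ∈ K, φ v * φ v = 1 := by
    rw [Sm1_sumK h φ, ← hφ]
    exact Finset.sum_congr rfl (fun v _ => by ring)
  have e3 : ∑ v ∈ K, (xi χ x v - SS χ φ x * φ v) ^ 2 =
      ∑ v ∈ K, xi χ x v ^ 2 - 2 * SS χ φ x * ∑ v ∈ K, φ v * xi χ x v +
        SS χ φ x ^ 2 * ∑ v ∈ K, φ v * φ v := by
    rw [Finset.mul_sum, Finset.mul_sum, ← Finset.sum_sub_distrib, ← Finset.sum_add_distrib]
    exact Finset.sum_congr rfl (fun v _ => by ring)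
  rw [e3, e1, e2]
  unfold ZZ
  ring

omit [Fintype V] in
theorem Sm1_nn_nonneg (x : Config V s) (v : V) : 0 ≤ nn x v :=
  Finset.sum_nonneg (fun _ _ => Nat.cast_nonneg _)

omit [Fintype V] in
theorem Sm1_zero_of_pos {x : Config V s} (hx : UrnsMono x) {v : V} (hv : 0 < xi χ x v) :
    (∀ d, d ≠ χ v → x v d = 0) ∧ 0 < x v (χ v) := by
  have h1 : 0 < x v (χ v) := by
    rcases Nat.eq_zero_or_pos (x v (χ v)) with h0 | h0
    · have := Sm1_nn_nonneg x v
      unfold xi at hv
      rw [h0] at hv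
      push_cast at hv
      linarith
    · exact h0
  refine ⟨fun d hd => ?_, h1⟩
  by_contra hc
  exact hd (hx v d (χ v) (Nat.pos_of_ne_zero hc) h1)

omit [Fintype V] in
theorem Sm1_nn_eq {x : Config V s} {v : V} (hz : ∀ d, d ≠ χ v → x v d = 0) :
    nn x v = (x v (χ v) : ℝ) := by
  unfold nn
  rw [Finset.sum_eq_single (χ v)]
  · intro d _ hd
    rw [hz d hd]; simp
  · intro hd
    exact absurd (mem_univ _) hd

omit [Fintype V] in
theorem Sm1_xi_eq {x : Config V s} {v : V} (hz : ∀ d, d ≠ χ v → x v d = 0) :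
    xi χ x v = (x v (χ v) : ℝ) := by
  unfold xi
  rw [Sm1_nn_eq hz]
  ring

open Classical in
theorem Sm1_step {x : Config V s} {v : V} (hz : ∀ d, d ≠ χ v → x v d = 0)
    (hp : 0 < x v (χ v)) (w : V) (c : Fin s) :
    xi χ (step G x w c) v =
      xi χ x v + (if G.Adj w v then (if c = χ v then 1 else -1) else 0) := by
  rw [Sm1_xi_eq hz]
  by_cases ha : G.Adj w v
  · by_cases hc : c = χ v
    · have hex : ¬ ∃ e, e ≠ c ∧ 0 < x v e := by
        rintro ⟨e, he, he'⟩
        rw [hc] at he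
        rw [hz e he] at he'
        exact lt_irrefl _ he'
      have hz' : ∀ d, d ≠ χ v → step G x w c v d = 0 := by
        intro d hd
        unfold step
        rw [if_pos ha, if_neg hex, if_neg (by rw [hc]; exact hd), hz d hd]
      rw [Sm1_xi_eq hz', if_pos ha, if_pos hc]
      unfold step
      rw [if_pos ha, if_neg hex, if_pos hc.symm]
      push_cast
      ring
    · have hex : ∃ e, e ≠ c ∧ 0 < x v e := ⟨χ v, fun h => hc h.symm, hp⟩
      have hz' : ∀ d, d ≠ χ v → step G x w c v d = 0 := by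
        intro d hd
        unfold step
        rw [if_pos ha, if_pos hex]
        split_ifs
        · exact hz d hd
        · rw [hz d hd]
      rw [Sm1_xi_eq hz', if_pos ha, if_neg hc]
      unfold step
      rw [if_pos ha, if_pos hex, if_neg (fun h => hc h.symm)]
      rw [Nat.cast_sub hp]
      push_cast
      ring
  · have hz' : ∀ d, d ≠ χ v → step G x w c v d = 0 := by
      intro d hd
      rw [step_of_not_adj G ha, hz d hd]
    rw [Sm1_xi_eq hz', if_neg ha, step_of_not_adj G ha, add_zero]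

open Classical in
/-- the quadratic form is at most `μ` times the squared norm -/
theorem Sm1_quad (h : IsSBC G K χ φ μ) (g : V → ℝ) :
    ∑ w ∈ K, g w * ∑ v ∈ K, (if G.Adj w v then g v else 0) ≤ μ * ∑ w ∈ K, g w ^ 2 := by
  have key : ∀ w ∈ K, ∀ v ∈ K, g w * (if G.Adj w v then g v else 0) ≤
      (if G.Adj w v then φ v / φ w * g w ^ 2 else 0) / 2 +
      (if G.Adj w v then φ w / φ v * g v ^ 2 else 0) / 2 := by
    intro w hw v hv
    split_ifs with ha
    · have h1 := h.φ_pos w hw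
      have h2 := h.φ_pos v hv
      have h3 : 0 ≤ (φ v * g w - φ w * g v) ^ 2 / (φ v * φ w) := by positivity
      have h4 : (φ v * g w - φ w * g v) ^ 2 / (φ v * φ w) =
          φ v / φ w * g w ^ 2 + φ w / φ v * g v ^ 2 - 2 * (g w * g v) := by
        field_simp
        ring
      rw [h4] at h3
      linarith
    · simp
  have e1 : ∀ w ∈ K, ∑ v ∈ K, (if G.Adj w v then φ v / φ w * g w ^ 2 else 0) = μ * g w ^ 2 := by
    intro w hw
    have h1 := h.φ_pos w hw
    have h2 : ∑ v ∈ K, (if G.Adj w v then φ v / φ w * g w ^ 2 else 0) =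
        (∑ v, if G.Adj w v then φ v else 0) * (g w ^ 2 / φ w) := by
      rw [Finset.sum_mul]
      have h3 : ∑ v ∈ K, (if G.Adj w v then φ v else 0) * (g w ^ 2 / φ w) =
          ∑ v, (if G.Adj w v then φ v else 0) * (g w ^ 2 / φ w) := by
        refine Finset.sum_subset (subset_univ K) (fun v _ hv => ?_)
        rw [h.φ_out v hv]
        simp
      rw [← h3]
      refine Finset.sum_congr rfl (fun v _ => ?_)
      split_ifs
      · ring
      · ring
    rw [h2, h.eig w hw]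
    field_simp
  calc ∑ w ∈ K, g w * ∑ v ∈ K, (if G.Adj w v then g v else 0)
      = ∑ w ∈ K, ∑ v ∈ K, g w * (if G.Adj w v then g v else 0) := by
        refine Finset.sum_congr rfl (fun w _ => ?_)
        rw [Finset.mul_sum]
    _ ≤ ∑ w ∈ K, ∑ v ∈ K, ((if G.Adj w v then φ v / φ w * g w ^ 2 else 0) / 2 +
      (if G.Adj w v then φ w / φ v * g v ^ 2 else 0) / 2) :=
        Finset.sum_le_sum (fun w hw => Finset.sum_le_sum (fun v hv => key w hw v hv))
    _ = (∑ w ∈ K, ∑ v ∈ K, (if G.Adj w v then φ v / φ w * g w ^ 2 else 0)) / 2 +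
        (∑ w ∈ K, ∑ v ∈ K, (if G.Adj w v then φ w / φ v * g v ^ 2 else 0)) / 2 := by
        rw [Finset.sum_div, Finset.sum_div, ← Finset.sum_add_distrib]
        refine Finset.sum_congr rfl (fun w _ => ?_)
        rw [Finset.sum_div, Finset.sum_div, ← Finset.sum_add_distrib]
    _ = (∑ w ∈ K, ∑ v ∈ K, (if G.Adj w v then φ v / φ w * g w ^ 2 else 0)) / 2 +
        (∑ w ∈ K, ∑ v ∈ K, (if G.Adj w v then φ v / φ w * g w ^ 2 else 0)) / 2 := by
        congr 2
        rw [Finset.sum_comm]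
        refine Finset.sum_congr rfl (fun w _ => Finset.sum_congr rfl (fun v _ => ?_))
        simp only [G.adj_comm v w]
    _ = ∑ w ∈ K, ∑ v ∈ K, (if G.Adj w v then φ v / φ w * g w ^ 2 else 0) := by ring
    _ = ∑ w ∈ K, μ * g w ^ 2 := Finset.sum_congr rfl e1
    _ = μ * ∑ w ∈ K, g w ^ 2 := by rw [Finset.mul_sum]

theorem Sm1_num1 {Z S δ σ : ℝ} (hS : 0 < S) (hσ : 0 ≤ σ) (hδ : 0 ≤ δ) (hZ0 : 0 ≤ Z)
    (hZ : Z ≤ 2 * S ^ 2) :
    (Z + δ) / (S + σ) ^ 2 ≤ Z / S ^ 2 + (δ - 2 * σ * Z / S + 6 * σ ^ 2) / S ^ 2 := by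
  have h1 : δ / (S + σ) ^ 2 ≤ δ / S ^ 2 := by
    apply div_le_div_of_nonneg_left hδ (by positivity)
    nlinarith
  have h2 : 1 / (S + σ) ^ 2 ≤ 1 / S ^ 2 - 2 * σ / S ^ 3 + 3 * σ ^ 2 / S ^ 4 := by
    rw [div_le_iff₀ (by positivity)]
    have e : (1 / S ^ 2 - 2 * σ / S ^ 3 + 3 * σ ^ 2 / S ^ 4) * (S + σ) ^ 2 =
        1 + (4 * σ ^ 3 * S + 3 * σ ^ 4) / S ^ 4 := by
      field_simp
      ring
    rw [e]
    have : 0 ≤ (4 * σ ^ 3 * S + 3 * σ ^ 4) / S ^ 4 := by positivity
    linarith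
  have h3 := mul_le_mul_of_nonneg_left h2 hZ0
  have h4 : Z * (3 * σ ^ 2 / S ^ 4) ≤ 6 * σ ^ 2 / S ^ 2 := by
    have h5 : Z * (3 * σ ^ 2 / S ^ 4) ≤ 2 * S ^ 2 * (3 * σ ^ 2 / S ^ 4) :=
      mul_le_mul_of_nonneg_right hZ (by positivity)
    refine h5.trans (le_of_eq ?_)
    field_simp
    ring
  have e1 : (Z + δ) / (S + σ) ^ 2 = Z * (1 / (S + σ) ^ 2) + δ / (S + σ) ^ 2 := by ring
  have e2 : Z / S ^ 2 + (δ - 2 * σ * Z / S + 6 * σ ^ 2) / S ^ 2 =
      Z * (1 / S ^ 2 - 2 * σ / S ^ 3) + δ / S ^ 2 + 6 * σ ^ 2 / S ^ 2 := by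
    field_simp
    ring
  rw [e1, e2]
  have e3 : Z * (1 / S ^ 2 - 2 * σ / S ^ 3 + 3 * σ ^ 2 / S ^ 4) =
      Z * (1 / S ^ 2 - 2 * σ / S ^ 3) + Z * (3 * σ ^ 2 / S ^ 4) := by ring
  rw [e3] at h3
  linarith

theorem Sm1_num2 {Z S Z' S' n : ℝ} (hn : 1 ≤ n) (hS : 2 * n ≤ S) (hZ0 : 0 ≤ Z)
    (hZ : Z ≤ 2 * S ^ 2) (h1 : |S' - S| ≤ n) (h2 : Z' ≤ Z + 5 * n * S) :
    Z' / S' ^ 2 ≤ Z / S ^ 2 + 44 * n / S := by
  have hSp : 0 < S := by linarith
  rw [abs_le] at h1
  have hS' : S / 2 ≤ S' := by linarith [h1.1]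
  have hS'p : 0 < S' := by linarith
  have h3 : S ^ 2 / 4 ≤ S' ^ 2 := by nlinarith
  have h4 : Z' / S' ^ 2 ≤ (Z + 5 * n * S) / S' ^ 2 :=
    div_le_div_of_nonneg_right h2 (by positivity)
  have h5 : 5 * n * S / S' ^ 2 ≤ 20 * n / S := by
    rw [div_le_div_iff₀ (by positivity) hSp]
    have : 5 * n * (S ^ 2 / 4) * 4 ≤ 5 * n * S' ^ 2 * 4 := by
      have := mul_le_mul_of_nonneg_left h3 (by positivity : 0 ≤ 5 * n * 4)
      nlinarith
    nlinarith
  have h6 : Z / S' ^ 2 ≤ Z / S ^ 2 + 24 * n / S := by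
    have h7 : 1 / S' ^ 2 ≤ 1 / S ^ 2 + 12 * n / S ^ 3 := by
      rw [div_le_iff₀ (by positivity)]
      have e : (1 / S ^ 2 + 12 * n / S ^ 3) * S' ^ 2 = (S + 12 * n) * S' ^ 2 / S ^ 3 := by
        field_simp
      rw [e, le_div_iff₀ (by positivity), one_mul]
      have h8 : (S - n) ^ 2 ≤ S' ^ 2 := by
        have : 0 ≤ S - n := by linarith
        nlinarith [h1.1]
      have h9 : (S + 12 * n) * (S - n) ^ 2 ≤ (S + 12 * n) * S' ^ 2 :=
        mul_le_mul_of_nonneg_left h8 (by positivity)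
      refine le_trans ?_ h9
      have e2 : (S + 12 * n) * (S - n) ^ 2 - S ^ 3 = n * (10 * S ^ 2 - 23 * n * S + 12 * n ^ 2) := by
        ring
      have h10 : 0 ≤ 10 * S ^ 2 - 23 * n * S + 12 * n ^ 2 := by nlinarith
      nlinarith [mul_nonneg (by linarith : 0 ≤ n) h10]
    have h11 := mul_le_mul_of_nonneg_left h7 hZ0
    have h12 : Z * (12 * n / S ^ 3) ≤ 24 * n / S := by
      have : Z * (12 * n / S ^ 3) ≤ 2 * S ^ 2 * (12 * n / S ^ 3) :=
        mul_le_mul_of_nonneg_right hZ (by positivity)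
      refine this.trans (le_of_eq ?_)
      field_simp
      ring
    have e1 : Z / S' ^ 2 = Z * (1 / S' ^ 2) := by ring
    have e2 : Z * (1 / S ^ 2 + 12 * n / S ^ 3) = Z / S ^ 2 + Z * (12 * n / S ^ 3) := by ring
    rw [e2] at h11
    rw [e1]
    linarith
  have e3 : (Z + 5 * n * S) / S' ^ 2 = Z / S' ^ 2 + 5 * n * S / S' ^ 2 := by ring
  have e4 : 44 * n / S = 24 * n / S + 20 * n / S := by ring
  rw [e3] at h4
  rw [e4]
  linarith

open Classical in
/-- the bound for the increment after the selection of a ball at `w` -/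
noncomputable def Sm1_B (G : SimpleGraph V) (K : Finset V) (χ : V → Fin s) (φ : V → ℝ) (μ : ℝ)
    (x : Config V s) (w : V) : ℝ :=
  if w ∈ K then ((∑ v ∈ K, if G.Adj w v then 2 * xi χ x v + 1 else 0) -
      2 * (μ * φ w) * ZZ K χ x / SS χ φ x + 6 * μ ^ 2) / SS χ φ x ^ 2
  else if w ∈ touched G K then 44 * (Fintype.card V : ℝ) / SS χ φ x else 0

theorem Sm1_total (x : Config V s) : (total x : ℝ) = ∑ v, nn x v := by
  unfold total nn
  push_cast
  rfl

theorem Sm1_Pop_bound {F : Config V s → ℝ} {x : Config V s} (hx : 0 < total x) {B : V → ℝ}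
    (hB : ∀ w c, 0 < x w c → F (step G x w c) ≤ F x + B w) :
    Pop G F x ≤ F x + (∑ w, nn x w * B w) / (total x : ℝ) := by
  have hN : (0 : ℝ) < total x := by exact_mod_cast hx
  have h1 : Pop G F x ≤ ∑ w, ∑ c, (x w c : ℝ) / (total x : ℝ) * (F x + B w) := by
    unfold Pop
    refine Finset.sum_le_sum (fun w _ => Finset.sum_le_sum (fun c _ => ?_))
    rcases Nat.eq_zero_or_pos (x w c) with h0 | h0
    · simp [h0]
    · exact mul_le_mul_of_nonneg_left (hB w c h0) (by positivity)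
  refine h1.trans (le_of_eq ?_)
  have h2 : ∀ w, ∑ c, (x w c : ℝ) / (total x : ℝ) * (F x + B w) =
      (nn x w * F x + nn x w * B w) / (total x : ℝ) := by
    intro w
    unfold nn
    rw [← Finset.sum_mul, ← Finset.sum_div]
    ring
  simp_rw [h2]
  rw [← Finset.sum_div, Finset.sum_add_distrib, ← Finset.sum_mul, ← Sm1_total]
  field_simp

theorem sm1 (h : IsSBC G K χ φ μ) (hφ : ∑ v, φ v ^ 2 = 1) (hψ : ∀ u, u ∉ K → (∀ v ∈ K, ¬ G.Adj u v) → 0 < ψ u ∧
      (∑ w, open Classical in if G.Adj u w ∧ w ∉ K ∧ (∀ v ∈ K, ¬ G.Adj w v) then ψ w else 0) ≤ μ * ψ u) :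
    ∃ C ε : ℝ, 0 < C ∧ 0 < ε ∧ ε ≤ 1 ∧ ∀ x : Config V s, InR G K χ φ ψ ε x →
      Pop G (fun y => ZZ K χ y / SS χ φ y ^ 2) x ≤
        ZZ K χ x / SS χ φ x ^ 2 + C * (1 + qq G K x) / SS χ φ x ^ 2 := by
  classical
  clear hψ
  obtain ⟨u₀, hu₀, -⟩ := h.two
  obtain ⟨v₀, hv₀, hmin⟩ := K.exists_min_image φ ⟨u₀, hu₀⟩
  set a : ℝ := φ v₀ with ha
  have ha0 : 0 < a := h.φ_pos v₀ hv₀
  have ha1 : a ≤ 1 := Sm1_phi_le_one hφ v₀
  set n : ℝ := (Fintype.card V : ℝ) with hn
  have hn1 : 1 ≤ n := by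
    rw [hn]
    exact_mod_cast Fintype.card_pos_iff.2 ⟨u₀⟩
  have hμ := h.μ_pos
  refine ⟨45 * n + 6 * μ ^ 2, min (a ^ 2 / 4) (1 / (2 * n)), by positivity, by positivity, ?_, ?_⟩
  · refine (min_le_left _ _).trans ?_
    nlinarith
  intro x hx
  set ε : ℝ := min (a ^ 2 / 4) (1 / (2 * n)) with hε
  have hε0 : 0 < ε := by positivity
  have hε1 : ε ≤ a ^ 2 / 4 := min_le_left _ _
  have hε2 : ε ≤ 1 / (2 * n) := min_le_right _ _
  obtain ⟨⟨hmono, htot⟩, hS, hSl, hZ, -, -⟩ := hx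
  set S : ℝ := SS χ φ x with hSdef
  set Z : ℝ := ZZ K χ x with hZdef
  have hZ0 : 0 ≤ Z := Finset.sum_nonneg (fun _ _ => sq_nonneg _)
  have hS2n : 2 * n ≤ S := by
    have h1 : ε * S ≤ 1 / (2 * n) * S := mul_le_mul_of_nonneg_right hε2 hS.le
    have h2 : 1 ≤ 1 / (2 * n) * S := hSl.trans h1
    rw [div_mul_eq_mul_div, one_mul, le_div_iff₀ (by positivity)] at h2
    linarith
  have hZ2 : Z ≤ 2 * S ^ 2 := by
    have : ε ≤ 1 := by nlinarith
    nlinarith [sq_nonneg S]
  have hdev := Sm1_dev h hφ x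
  -- deviation
  have hd : ∀ v ∈ K, |xi χ x v - S * φ v| ≤ a * S / 2 := by
    intro v hv
    apply abs_le_of_sq_le_sq _ (by positivity)
    have h1 : (xi χ x v - S * φ v) ^ 2 ≤ ∑ v ∈ K, (xi χ x v - S * φ v) ^ 2 :=
      Finset.single_le_sum (f := fun v => (xi χ x v - S * φ v) ^ 2) (fun _ _ => sq_nonneg _) hv
    rw [hdev] at h1
    nlinarith [sq_nonneg S, mul_le_mul_of_nonneg_right hε1 (sq_nonneg S)]
  have hxil : ∀ v ∈ K, 0 < xi χ x v := by
    intro v hv
    have h1 := (abs_le.1 (hd v hv)).1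
    have h2 : S * a ≤ S * φ v := mul_le_mul_of_nonneg_left (hmin v hv) hS.le
    nlinarith [mul_pos ha0 hS]
  have hxiu : ∀ v ∈ K, xi χ x v ≤ 2 * S := by
    intro v hv
    have h1 := (abs_le.1 (hd v hv)).2
    have h2 : S * φ v ≤ S * 1 := mul_le_mul_of_nonneg_left (Sm1_phi_le_one hφ v) hS.le
    nlinarith [mul_le_mul_of_nonneg_right ha1 hS.le]
  have hz := fun v hv => Sm1_zero_of_pos hmono (hxil v hv)
  -- new values
  have hstep : ∀ v ∈ K, ∀ w c, xi χ (step G x w c) v =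
      xi χ x v + (if G.Adj w v then (if c = χ v then 1 else -1) else 0) :=
    fun v hv w c => Sm1_step (hz v hv).1 (hz v hv).2 w c
  have hSS : ∀ y : Config V s, SS χ φ y = ∑ v ∈ K, φ v * xi χ y v := fun y =>
    (Sm1_sumK h _).symm
  have hNS : S ≤ (total x : ℝ) := by
    rw [hSdef, hSS, Sm1_total]
    calc ∑ v ∈ K, φ v * xi χ x v ≤ ∑ v ∈ K, nn x v := by
          refine Finset.sum_le_sum (fun v hv => ?_)
          have h1 := hxil v hv
          have h2 := Sm1_phi_le_one hφ v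
          have h3 : xi χ x v = nn x v := by rw [Sm1_xi_eq (hz v hv).1, Sm1_nn_eq (hz v hv).1]
          rw [← h3]
          nlinarith
      _ ≤ ∑ v, nn x v := Finset.sum_le_sum_of_subset_of_nonneg (subset_univ K)
          (fun v _ _ => Sm1_nn_nonneg x v)
  have hN : (0 : ℝ) < total x := lt_of_lt_of_le hS hNS
  have hcard : (K.card : ℝ) ≤ n := by
    rw [hn]
    exact_mod_cast Finset.card_le_univ K
  -- one step
  have hone : ∀ w c, 0 < x w c → (fun y => ZZ K χ y / SS χ φ y ^ 2) (step G x w c) ≤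
      (fun y => ZZ K χ y / SS χ φ y ^ 2) x + Sm1_B G K χ φ μ x w := by
    intro w c hwc
    show ZZ K χ (step G x w c) / SS χ φ (step G x w c) ^ 2 ≤ Z / S ^ 2 + Sm1_B G K χ φ μ x w
    unfold Sm1_B
    by_cases hwK : w ∈ K
    · rw [if_pos hwK]
      have hc : c = χ w := by
        by_contra hne
        rw [(hz w hwK).1 c hne] at hwc
        exact lt_irrefl _ hwc
      have hst : ∀ v ∈ K, xi χ (step G x w c) v = xi χ x v + (if G.Adj w v then 1 else 0) := by
        intro v hv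
        rw [hstep v hv]
        by_cases hadj : G.Adj w v
        · rw [if_pos hadj, if_pos hadj, if_pos (by rw [hc]; exact h.same w hwK v hv hadj)]
        · rw [if_neg hadj, if_neg hadj]
      have eS : SS χ φ (step G x w c) = S + μ * φ w := by
        rw [hSS, hSdef, hSS, ← h.eig w hwK]
        have e1 : ∑ u, (if G.Adj w u then φ u else 0) = ∑ u ∈ K, (if G.Adj w u then φ u else 0) := by
          symm
          refine Finset.sum_subset (subset_univ K) (fun v _ hv => ?_)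
          rw [h.φ_out v hv]; simp
        rw [e1, ← Finset.sum_add_distrib]
        refine Finset.sum_congr rfl (fun v hv => ?_)
        rw [hst v hv]
        split_ifs <;> ring
      have eZ : ZZ K χ (step G x w c) =
          Z + ∑ v ∈ K, (if G.Adj w v then 2 * xi χ x v + 1 else 0) := by
        rw [hZdef]
        unfold ZZ
        rw [← Finset.sum_add_distrib]
        refine Finset.sum_congr rfl (fun v hv => ?_)
        rw [hst v hv]
        split_ifs <;> ring
      rw [eS, eZ]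
      have hσ : 0 ≤ μ * φ w := mul_nonneg hμ.le (Sm1_phi_nonneg h w)
      have hσ1 : μ * φ w ≤ μ := by nlinarith [Sm1_phi_le_one hφ w]
      have hδ : 0 ≤ ∑ v ∈ K, (if G.Adj w v then 2 * xi χ x v + 1 else 0) := by
        refine Finset.sum_nonneg (fun v hv => ?_)
        have := hxil v hv
        split_ifs
        · linarith
        · exact le_rfl
      refine (Sm1_num1 hS hσ hδ hZ0 hZ2).trans ?_
      have h6 : 6 * (μ * φ w) ^ 2 ≤ 6 * μ ^ 2 := by nlinarith
      have h7 : ((∑ v ∈ K, if G.Adj w v then 2 * xi χ x v + 1 else 0) -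
          2 * (μ * φ w) * Z / S + 6 * (μ * φ w) ^ 2) / S ^ 2 ≤
          ((∑ v ∈ K, if G.Adj w v then 2 * xi χ x v + 1 else 0) -
          2 * (μ * φ w) * Z / S + 6 * μ ^ 2) / S ^ 2 :=
        div_le_div_of_nonneg_right (by linarith) (by positivity)
      linarith
    · rw [if_neg hwK]
      by_cases hwT : w ∈ touched G K
      · rw [if_pos hwT]
        apply Sm1_num2 hn1 hS2n hZ0 hZ2
        · rw [hSS, hSdef, hSS, ← Finset.sum_sub_distrib]
          calc |∑ v ∈ K, (φ v * xi χ (step G x w c) v - φ v * xi χ x v)|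
              ≤ ∑ v ∈ K, |φ v * xi χ (step G x w c) v - φ v * xi χ x v| :=
                Finset.abs_sum_le_sum_abs _ _
            _ ≤ ∑ v ∈ K, (1 : ℝ) := by
                refine Finset.sum_le_sum (fun v hv => ?_)
                rw [hstep v hv, ← mul_sub, abs_mul, abs_of_nonneg (Sm1_phi_nonneg h v)]
                have h1 := Sm1_phi_le_one hφ v
                have h2 := Sm1_phi_nonneg h v
                have h3 : |xi χ x v + (if G.Adj w v then (if c = χ v then 1 else -1) else 0) -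
                    xi χ x v| ≤ 1 := by
                  rw [add_sub_cancel_left]
                  split_ifs <;> simp
                calc φ v * |xi χ x v + (if G.Adj w v then (if c = χ v then 1 else -1) else 0) -
                    xi χ x v| ≤ 1 * 1 := mul_le_mul h1 h3 (abs_nonneg _) zero_le_one
                  _ = 1 := one_mul 1
            _ = (K.card : ℝ) := by simp
            _ ≤ n := hcard
        · calc ZZ K χ (step G x w c) ≤ ∑ v ∈ K, (xi χ x v ^ 2 + 5 * S) := by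
                unfold ZZ
                refine Finset.sum_le_sum (fun v hv => ?_)
                rw [hstep v hv]
                have h1 := hxil v hv
                have h2 := hxiu v hv
                have h3 : 1 ≤ S := by linarith
                split_ifs <;> nlinarith
            _ = Z + K.card * (5 * S) := by
                rw [Finset.sum_add_distrib, hZdef]
                unfold ZZ
                simp
            _ ≤ Z + 5 * n * S := by nlinarith
      · rw [if_neg hwT, add_zero]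
        have hna : ∀ v ∈ K, ¬ G.Adj w v := by
          intro v hv hadj
          apply hwT
          unfold touched
          rw [mem_filter]
          exact ⟨mem_univ _, hwK, v, hv, hadj⟩
        have hst : ∀ v ∈ K, xi χ (step G x w c) v = xi χ x v := by
          intro v hv
          rw [hstep v hv, if_neg (hna v hv), add_zero]
        have eS : SS χ φ (step G x w c) = S := by
          rw [hSS, hSdef, hSS]
          exact Finset.sum_congr rfl (fun v hv => by rw [hst v hv])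
        have eZ : ZZ K χ (step G x w c) = Z := by
          rw [hZdef]
          unfold ZZ
          exact Finset.sum_congr rfl (fun v hv => by rw [hst v hv])
        rw [eS, eZ]
  refine (Sm1_Pop_bound htot hone).trans ?_
  show Z / S ^ 2 + _ ≤ Z / S ^ 2 + _
  have hq0 : 0 ≤ qq G K x := Finset.sum_nonneg (fun v _ => Sm1_nn_nonneg x v)
  -- splitting the sum
  have hsplit : ∑ w, nn x w * Sm1_B G K χ φ μ x w =
      ∑ w ∈ K, xi χ x w * (((∑ v ∈ K, if G.Adj w v then 2 * xi χ x v + 1 else 0) -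
      2 * (μ * φ w) * Z / S + 6 * μ ^ 2) / S ^ 2) + qq G K x * (44 * n / S) := by
    have e1 : ∑ w, nn x w * Sm1_B G K χ φ μ x w =
        ∑ w ∈ K, nn x w * Sm1_B G K χ φ μ x w + ∑ w ∈ Kᶜ, nn x w * Sm1_B G K χ φ μ x w :=
      (Finset.sum_add_sum_compl K _).symm
    rw [e1]
    congr 1
    · refine Finset.sum_congr rfl (fun w hw => ?_)
      unfold Sm1_B
      rw [if_pos hw, Sm1_nn_eq (hz w hw).1, Sm1_xi_eq (hz w hw).1]
    · have hsub : touched G K ⊆ Kᶜ := by
        intro w hw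
        unfold touched at hw
        rw [mem_filter] at hw
        rw [mem_compl]
        exact hw.2.1
      rw [← Finset.sum_subset hsub]
      · unfold qq
        rw [Finset.sum_mul]
        refine Finset.sum_congr rfl (fun w hw => ?_)
        have hwK : w ∉ K := mem_compl.1 (hsub hw)
        unfold Sm1_B
        rw [if_neg hwK, if_pos hw]
      · intro w hw hw'
        unfold Sm1_B
        rw [if_neg (mem_compl.1 hw), if_neg hw', mul_zero]
  rw [hsplit]
  -- the main part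
  have hxiK : ∑ w ∈ K, xi χ x w ≤ total x := by
    rw [Sm1_total]
    calc ∑ v ∈ K, xi χ x v = ∑ v ∈ K, nn x v :=
          Finset.sum_congr rfl (fun v hv => by rw [Sm1_xi_eq (hz v hv).1, Sm1_nn_eq (hz v hv).1])
      _ ≤ ∑ v, nn x v := Finset.sum_le_sum_of_subset_of_nonneg (subset_univ K)
          (fun v _ _ => Sm1_nn_nonneg x v)
  have hxiK0 : 0 ≤ ∑ w ∈ K, xi χ x w := Finset.sum_nonneg (fun v hv => (hxil v hv).le)
  have hmain : ∑ w ∈ K, xi χ x w * (((∑ v ∈ K, if G.Adj w v then 2 * xi χ x v + 1 else 0) -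
      2 * (μ * φ w) * Z / S + 6 * μ ^ 2) / S ^ 2) ≤ (n + 6 * μ ^ 2) * total x / S ^ 2 := by
    have hq := Sm1_quad h (fun v => xi χ x v)
    have e0 : ∑ w ∈ K, xi χ x w * (((∑ v ∈ K, if G.Adj w v then 2 * xi χ x v + 1 else 0) -
      2 * (μ * φ w) * Z / S + 6 * μ ^ 2) / S ^ 2) =
      (∑ w ∈ K, xi χ x w * ((∑ v ∈ K, if G.Adj w v then 2 * xi χ x v + 1 else 0) -
      2 * (μ * φ w) * Z / S + 6 * μ ^ 2)) / S ^ 2 := by
      rw [Finset.sum_div]
      exact Finset.sum_congr rfl (fun w _ => by ring)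
    rw [e0]
    apply div_le_div_of_nonneg_right _ (by positivity)
    have e1 : ∀ w ∈ K, xi χ x w * ((∑ v ∈ K, if G.Adj w v then 2 * xi χ x v + 1 else 0) -
        2 * (μ * φ w) * Z / S + 6 * μ ^ 2) ≤
        2 * (xi χ x w * ∑ v ∈ K, (if G.Adj w v then xi χ x v else 0)) +
        (n + 6 * μ ^ 2) * xi χ x w - 2 * μ * Z / S * (φ w * xi χ x w) := by
      intro w hw
      have h1 : (∑ v ∈ K, if G.Adj w v then 2 * xi χ x v + 1 else 0) ≤
          2 * ∑ v ∈ K, (if G.Adj w v then xi χ x v else 0) + n := by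
        calc (∑ v ∈ K, if G.Adj w v then 2 * xi χ x v + 1 else 0)
            ≤ ∑ v ∈ K, (2 * (if G.Adj w v then xi χ x v else 0) + 1) := by
              refine Finset.sum_le_sum (fun v _ => ?_)
              split_ifs <;> simp
          _ = 2 * ∑ v ∈ K, (if G.Adj w v then xi χ x v else 0) + K.card := by
              rw [Finset.sum_add_distrib, Finset.mul_sum]
              simp
          _ ≤ _ := by linarith
      have h2 := mul_le_mul_of_nonneg_left h1 (hxil w hw).le
      have e2 : xi χ x w * ((∑ v ∈ K, if G.Adj w v then 2 * xi χ x v + 1 else 0) -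
        2 * (μ * φ w) * Z / S + 6 * μ ^ 2) =
        xi χ x w * (∑ v ∈ K, if G.Adj w v then 2 * xi χ x v + 1 else 0) -
        2 * μ * Z / S * (φ w * xi χ x w) + 6 * μ ^ 2 * xi χ x w := by ring
      rw [e2]
      have e3 : 2 * (xi χ x w * ∑ v ∈ K, (if G.Adj w v then xi χ x v else 0)) +
        (n + 6 * μ ^ 2) * xi χ x w - 2 * μ * Z / S * (φ w * xi χ x w) =
        xi χ x w * (2 * ∑ v ∈ K, (if G.Adj w v then xi χ x v else 0) + n) -
        2 * μ * Z / S * (φ w * xi χ x w) + 6 * μ ^ 2 * xi χ x w := by ring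
      rw [e3]
      linarith
    refine (Finset.sum_le_sum e1).trans ?_
    rw [Finset.sum_sub_distrib, Finset.sum_add_distrib, ← Finset.mul_sum, ← Finset.mul_sum,
      ← Finset.mul_sum, ← hSS x, ← hSdef]
    have e3 : 2 * μ * Z / S * S = 2 * μ * Z := by field_simp
    rw [e3]
    have e4 : μ * ∑ w ∈ K, xi χ x w ^ 2 = μ * Z := rfl
    beta_reduce at hq
    rw [e4] at hq
    have h8 : (n + 6 * μ ^ 2) * ∑ w ∈ K, xi χ x w ≤ (n + 6 * μ ^ 2) * total x :=
      mul_le_mul_of_nonneg_left hxiK (by positivity)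
    linarith
  have hfin : (∑ w ∈ K, xi χ x w * (((∑ v ∈ K, if G.Adj w v then 2 * xi χ x v + 1 else 0) -
      2 * (μ * φ w) * Z / S + 6 * μ ^ 2) / S ^ 2) + qq G K x * (44 * n / S)) / total x ≤
      (45 * n + 6 * μ ^ 2) * (1 + qq G K x) / S ^ 2 := by
    rw [div_le_iff₀ hN]
    have h1 : qq G K x * (44 * n / S) ≤ 44 * n * qq G K x / S ^ 2 * total x := by
      have e1 : qq G K x * (44 * n / S) = 44 * n * qq G K x / S ^ 2 * S := by
        field_simp
      rw [e1]
      exact mul_le_mul_of_nonneg_left hNS (by positivity)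
    have h2 : (n + 6 * μ ^ 2) * total x / S ^ 2 + 44 * n * qq G K x / S ^ 2 * total x ≤
        (45 * n + 6 * μ ^ 2) * (1 + qq G K x) / S ^ 2 * total x := by
      have e2 : (45 * n + 6 * μ ^ 2) * (1 + qq G K x) / S ^ 2 * total x -
          ((n + 6 * μ ^ 2) * total x / S ^ 2 + 44 * n * qq G K x / S ^ 2 * total x) =
          (44 * n + (n + 6 * μ ^ 2) * qq G K x) / S ^ 2 * total x := by ring
      have : 0 ≤ (44 * n + (n + 6 * μ ^ 2) * qq G K x) / S ^ 2 * total x := by positivity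
      linarith
    linarith
  linarith

end Pool.Agent.TH996.Urn
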