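import Pool.Agent.TH996.Urn.SbcDefs

/-!
# Drift of `Y / S ^ 2` near a strictly balanced configuration
-/

open Finset

namespace Pool.Agent.TH996.Urn

variable {V : Type} [Fintype V] {s : ℕ} {G : SimpleGraph V} {K : Finset V} {χ : V → Fin s}
  {φ ψ : V → ℝ} {μ : ℝ}

theorem sm2_exists_pos {ι : Type} (t : Finset ι) (f : ι → ℝ) (hf : ∀ i ∈ t, 0 < f i) :
    ∃ κ : ℝ, 0 < κ ∧ ∀ i ∈ t, κ ≤ f i := by
  classical
  induction t using Finset.induction_on with
  | empty => exact ⟨1, one_pos, fun i hi => absurd hi (Finset.notMem_empty i)⟩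
  | insert a t ha ih =>
    obtain ⟨κ, hκ, h⟩ := ih (fun i hi => hf i (Finset.mem_insert_of_mem hi))
    refine ⟨min κ (f a), lt_min hκ (hf a (Finset.mem_insert_self a t)), fun i hi => ?_⟩
    rcases Finset.mem_insert.1 hi with rfl | hi
    · exact min_le_right _ _
    · exact (min_le_left _ _).trans (h i hi)

theorem sm2_mem_touched {z : V} : z ∈ touched G K ↔ z ∉ K ∧ ∃ u ∈ K, G.Adj z u := by
  unfold touched; simp

theorem sm2_mem_untouched {z : V} : z ∈ untouched G K ↔ z ∉ K ∧ ∀ u ∈ K, ¬ G.Adj z u := by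
  unfold untouched; simp

theorem sm2_sum_split (F : V → ℝ) :
    ∑ v, F v = ∑ v ∈ K, F v + ∑ v ∈ touched G K, F v + ∑ v ∈ untouched G K, F v := by
  classical
  have hd1 : Disjoint K (touched G K) := by
    rw [Finset.disjoint_left]
    intro v hv hv'
    exact (sm2_mem_touched.1 hv').1 hv
  have hd2 : Disjoint (K ∪ touched G K) (untouched G K) := by
    rw [Finset.disjoint_left]
    intro v hv hv'
    obtain ⟨h1, h2⟩ := sm2_mem_untouched.1 hv'
    rcases Finset.mem_union.1 hv with h | h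
    · exact h1 h
    · obtain ⟨_, u, hu, huv⟩ := sm2_mem_touched.1 h
      exact h2 u hu huv
  rw [← Finset.sum_union hd1, ← Finset.sum_union hd2]
  apply Finset.sum_congr _ (fun _ _ => rfl)
  ext v
  simp only [Finset.mem_univ, Finset.mem_union, sm2_mem_touched, sm2_mem_untouched, true_iff]
  by_cases h : v ∈ K
  · exact Or.inl (Or.inl h)
  · by_cases h2 : ∃ u ∈ K, G.Adj v u
    · exact Or.inl (Or.inr ⟨h, h2⟩)
    · push Not at h2
      exact Or.inr ⟨h, h2⟩

omit [Fintype V] in
theorem sm2_nn_nonneg (x : Config V s) (v : V) : 0 ≤ nn x v := by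
  unfold nn; positivity

omit [Fintype V] in
theorem sm2_nn_eq {x : Config V s} {v : V} {e : Fin s} (h : ∀ d, d ≠ e → x v d = 0) :
    nn x v = x v e := by
  unfold nn
  rw [Finset.sum_eq_single e]
  · intro d _ hd
    rw [h d hd]; simp
  · intro h'
    exact absurd (Finset.mem_univ e) h'

theorem sm2_total (x : Config V s) : (total x : ℝ) = ∑ v, nn x v := by
  unfold total nn; push_cast; rfl

omit [Fintype V] in
/-- exact change of the square of the number of balls at a neighbour -/
theorem sm2_nn_step {x : Config V s} (hx : UrnsMono x) {w z : V} (c : Fin s) (h : G.Adj w z) :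
    nn (step G x w c) z ^ 2 = nn x z ^ 2 + (1 + 2 * (2 * (x z c : ℝ) - nn x z)) := by
  classical
  by_cases hex : ∃ e, e ≠ c ∧ 0 < x z e
  · have hex' := hex
    obtain ⟨e, hec, he⟩ := hex
    have h0 : ∀ d, d ≠ e → x z d = 0 := by
      intro d hd
      by_contra hne
      exact hd (hx z d e (Nat.pos_of_ne_zero hne) he)
    have h1 : nn x z = x z e := sm2_nn_eq h0
    have h2 : ∀ d, d ≠ e → step G x w c z d = 0 := by
      intro d hd
      unfold step
      simp only [h, hex', if_true]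
      rw [h0 d hd]; simp
    have h3 : nn (step G x w c) z = step G x w c z e := sm2_nn_eq h2
    have h4 : step G x w c z e = x z e - 1 := by
      unfold step
      simp only [h, hex', if_true]
      rw [if_neg hec]
    have h5 : x z c = 0 := h0 c (Ne.symm hec)
    rw [h3, h1, h4, h5]
    have : ((x z e - 1 : ℕ) : ℝ) = (x z e : ℝ) - 1 := by
      rw [Nat.cast_sub (by omega)]; simp
    rw [this]
    push_cast
    ring
  · have hex' := hex
    push Not at hex
    have h0 : ∀ d, d ≠ c → x z d = 0 := fun d hd => by have := hex d hd; omega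
    have h1 : nn x z = x z c := sm2_nn_eq h0
    have h2 : ∀ d, d ≠ c → step G x w c z d = 0 := by
      intro d hd
      unfold step
      simp only [h, if_true]
      rw [if_neg hex', if_neg hd]
      exact h0 d hd
    have h3 : nn (step G x w c) z = step G x w c z c := sm2_nn_eq h2
    have h4 : step G x w c z c = x z c + 1 := by
      unfold step
      simp only [h, if_true]
      rw [if_neg hex']
    rw [h3, h1, h4]
    push_cast
    ring

theorem sm2_nn_step_of_not_adj {x : Config V s} {w z : V} (c : Fin s) (h : ¬ G.Adj w z) :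
    nn (step G x w c) z = nn x z := by
  unfold nn
  exact Finset.sum_congr rfl (fun d _ => by rw [step_of_not_adj G h])

theorem sm2_xi_step_of_not_adj {x : Config V s} {w z : V} (c : Fin s) (h : ¬ G.Adj w z) :
    xi χ (step G x w c) z = xi χ x z := by
  unfold xi
  rw [sm2_nn_step_of_not_adj c h, step_of_not_adj G h]

omit [Fintype V] in
/-- exact change of `xi` at a neighbour holding only balls of its own colour -/
theorem sm2_xi_step {x : Config V s} (hx : UrnsMono x) {w z : V} (c : Fin s) (h : G.Adj w z)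
    (hz : 0 < x z (χ z)) :
    xi χ (step G x w c) z = xi χ x z + (if c = χ z then 1 else -1) := by
  classical
  have h0 : ∀ d, d ≠ χ z → x z d = 0 := by
    intro d hd
    by_contra hne
    exact hd (hx z d (χ z) (Nat.pos_of_ne_zero hne) hz)
  have h1 : nn x z = x z (χ z) := sm2_nn_eq h0
  by_cases hc : c = χ z
  · have hex' : ¬ ∃ e, e ≠ c ∧ 0 < x z e := by
      rintro ⟨e, he, he'⟩
      rw [hc] at he
      rw [h0 e he] at he'
      exact lt_irrefl _ he'
    have h2 : ∀ d, d ≠ χ z → step G x w c z d = 0 := by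
      intro d hd
      unfold step
      simp only [h, if_true]
      rw [if_neg hex', if_neg (hc ▸ hd)]
      exact h0 d hd
    have h3 : nn (step G x w c) z = step G x w c z (χ z) := sm2_nn_eq h2
    have h4 : step G x w c z (χ z) = x z (χ z) + 1 := by
      unfold step
      simp only [h, if_true]
      rw [if_neg hex', if_pos hc.symm]
    unfold xi
    rw [h3, h1, h4, if_pos hc]
    push_cast
    ring
  · have hex' : ∃ e, e ≠ c ∧ 0 < x z e := ⟨χ z, Ne.symm hc, hz⟩
    have h2 : ∀ d, d ≠ χ z → step G x w c z d = 0 := by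
      intro d hd
      unfold step
      simp only [h, hex', if_true]
      rw [h0 d hd]; simp
    have h3 : nn (step G x w c) z = step G x w c z (χ z) := sm2_nn_eq h2
    have h4 : step G x w c z (χ z) = x z (χ z) - 1 := by
      unfold step
      simp only [h, hex', if_true]
      rw [if_neg (Ne.symm hc)]
    unfold xi
    rw [h3, h1, h4, if_neg hc]
    have : ((x z (χ z) - 1 : ℕ) : ℝ) = (x z (χ z) : ℝ) - 1 := by
      rw [Nat.cast_sub (by omega)]; simp
    rw [this]
    ring

/-- exact change of `YY` -/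
theorem sm2_YY_step {x : Config V s} (hx : UrnsMono x) (w : V) (c : Fin s) :
    YY G K (step G x w c) = YY G K x + ∑ z ∈ touched G K,
      (open Classical in if G.Adj w z then (1 + 2 * (2 * (x z c : ℝ) - nn x z)) else 0) := by
  classical
  unfold YY
  rw [← Finset.sum_add_distrib]
  refine Finset.sum_congr rfl (fun z _ => ?_)
  by_cases h : G.Adj w z
  · rw [if_pos h, sm2_nn_step hx c h]
  · rw [if_neg h, sm2_nn_step_of_not_adj c h, add_zero]

omit [Fintype V] in
theorem sm2_cast_le_nn (x : Config V s) (z : V) (c : Fin s) : (x z c : ℝ) ≤ nn x z := by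
  unfold nn
  exact Finset.single_le_sum (f := fun c => (x z c : ℝ)) (fun _ _ => Nat.cast_nonneg _)
    (Finset.mem_univ c)

/-- upper bound for the change of `YY` -/
theorem sm2_YY_step_le {x : Config V s} (hx : UrnsMono x) (w : V) (c : Fin s) :
    YY G K (step G x w c) ≤ YY G K x + Fintype.card V + 2 * qq G K x := by
  classical
  rw [sm2_YY_step hx, add_assoc]
  have h1 : ∑ z ∈ touched G K,
      (if G.Adj w z then (1 + 2 * (2 * (x z c : ℝ) - nn x z)) else 0) ≤
      ∑ z ∈ touched G K, (1 + 2 * nn x z) := by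
    refine Finset.sum_le_sum (fun z _ => ?_)
    have h2 := sm2_cast_le_nn x z c
    have h3 := sm2_nn_nonneg x z
    split_ifs
    · linarith
    · linarith
  have h4 : ∑ z ∈ touched G K, (1 + 2 * nn x z) = ((touched G K).card : ℝ) + 2 * qq G K x := by
    unfold qq
    rw [Finset.sum_add_distrib, ← Finset.mul_sum]
    simp
  have h5 : ((touched G K).card : ℝ) ≤ Fintype.card V := by
    exact_mod_cast Finset.card_le_univ _
  linarith

theorem sm2_alg {S S' Y Y' q n m ε : ℝ} (hS : 0 < S) (h1 : S - m ≤ S') (h2 : S / 2 ≤ S')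
    (hY' : Y' ≤ Y + n + 2 * q) (hY : Y ≤ ε * S * q) (hq : 0 ≤ q) (hn : 0 ≤ n) (hm : 0 ≤ m)
    (hε : 0 ≤ ε) (hY0 : 0 ≤ Y) :
    Y' / S' ^ 2 ≤ Y / S ^ 2 + (4 * n + 8 * q + 8 * m * ε * q) / S ^ 2 := by
  have hS' : 0 < S' := by linarith
  have h3 : S ^ 2 ≤ 4 * S' ^ 2 := by nlinarith
  have h4 : S ^ 2 - S' ^ 2 ≤ 2 * m * S := by
    by_cases h : S' ≤ S
    · nlinarith
    · push Not at h
      have : S ^ 2 ≤ S' ^ 2 := by nlinarith
      nlinarith [mul_nonneg hm hS.le]
  have h5 : Y * S ^ 2 ≤ (Y + 8 * m * ε * q) * S' ^ 2 := by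
    have h6 : Y * (S ^ 2 - S' ^ 2) ≤ Y * (2 * m * S) := mul_le_mul_of_nonneg_left h4 hY0
    have h7 : Y * (2 * m * S) ≤ (ε * S * q) * (2 * m * S) :=
      mul_le_mul_of_nonneg_right hY (by positivity)
    have h8 : (ε * S * q) * (2 * m * S) = (2 * m * ε * q) * S ^ 2 := by ring
    have h9 : (2 * m * ε * q) * S ^ 2 ≤ (2 * m * ε * q) * (4 * S' ^ 2) :=
      mul_le_mul_of_nonneg_left h3 (by positivity)
    nlinarith
  have h10 : (n + 2 * q) * S ^ 2 ≤ (n + 2 * q) * (4 * S' ^ 2) :=
    mul_le_mul_of_nonneg_left h3 (by positivity)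
  rw [← add_div, div_le_div_iff₀ (by positivity) (by positivity)]
  have h11 : Y' * S ^ 2 ≤ (Y + n + 2 * q) * S ^ 2 := mul_le_mul_of_nonneg_right hY' (by positivity)
  nlinarith

/-- the basic facts on the vertices of `K` in the region -/
theorem sm2_K {δ φm : ℝ} {x : Config V s} (h : IsSBC G K χ φ μ) (hφ : ∑ v, φ v ^ 2 = 1)
    (hδ : 0 < δ) (hφm : ∀ v ∈ K, φm ≤ φ v) (hδφ : δ < φm)
    (hx : InR G K χ φ ψ (δ ^ 2) x) :
    (∀ v ∈ K, |xi χ x v - SS χ φ x * φ v| ≤ δ * SS χ φ x) ∧
    (∀ v ∈ K, 0 < xi χ x v) ∧ (∀ v ∈ K, 0 < x v (χ v)) ∧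
    (∀ v ∈ K, ∀ d, d ≠ χ v → x v d = 0) ∧ (∀ v ∈ K, nn x v = xi χ x v) ∧
    (∀ v ∈ K, (x v (χ v) : ℝ) = xi χ x v) := by
  classical
  have hS := hx.S_pos
  set S := SS χ φ x with hSdef
  have h1 : ∑ v ∈ K, φ v * xi χ x v = S := by
    rw [hSdef]; unfold SS
    exact Finset.sum_subset (Finset.subset_univ K) (fun v _ hv => by rw [h.φ_out v hv]; ring)
  have h2 : ∑ v ∈ K, φ v ^ 2 = 1 := by
    rw [← hφ]
    exact Finset.sum_subset (Finset.subset_univ K) (fun v _ hv => by rw [h.φ_out v hv]; ring)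
  have h3 : ∑ v ∈ K, (xi χ x v - S * φ v) ^ 2 ≤ δ ^ 2 * S ^ 2 := by
    have e : ∑ v ∈ K, (xi χ x v - S * φ v) ^ 2 = ZZ K χ x - 2 * S * (∑ v ∈ K, φ v * xi χ x v)
        + S ^ 2 * ∑ v ∈ K, φ v ^ 2 := by
      unfold ZZ
      rw [Finset.mul_sum, Finset.mul_sum, ← Finset.sum_sub_distrib, ← Finset.sum_add_distrib]
      exact Finset.sum_congr rfl (fun v _ => by ring)
    rw [e, h1, h2]
    have := hx.Z_le
    nlinarith
  have h4 : ∀ v ∈ K, |xi χ x v - S * φ v| ≤ δ * S := by
    intro v hv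
    have h5 : (xi χ x v - S * φ v) ^ 2 ≤ ∑ v ∈ K, (xi χ x v - S * φ v) ^ 2 :=
      Finset.single_le_sum (f := fun v => (xi χ x v - S * φ v) ^ 2) (fun _ _ => sq_nonneg _) hv
    have h6 : (xi χ x v - S * φ v) ^ 2 ≤ (δ * S) ^ 2 := by
      rw [mul_pow]; exact h5.trans h3
    exact abs_le_of_sq_le_sq h6 (by positivity)
  have h5 : ∀ v ∈ K, 0 < xi χ x v := by
    intro v hv
    have h6 := (abs_le.1 (h4 v hv)).1
    have h7 : φm * S ≤ φ v * S := mul_le_mul_of_nonneg_right (hφm v hv) hS.le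
    have h8 : δ * S < φm * S := mul_lt_mul_of_pos_right hδφ hS
    nlinarith
  have h6 : ∀ v ∈ K, 0 < x v (χ v) := by
    intro v hv
    have h7 := h5 v hv
    by_contra h0
    have h8 : x v (χ v) = 0 := by omega
    unfold xi at h7
    rw [h8] at h7
    have := sm2_nn_nonneg x v
    push_cast at h7
    linarith
  have h7 : ∀ v ∈ K, ∀ d, d ≠ χ v → x v d = 0 := by
    intro v hv d hd
    by_contra hne
    exact hd (hx.good.1 v d (χ v) (Nat.pos_of_ne_zero hne) (h6 v hv))
  have h8 : ∀ v ∈ K, nn x v = xi χ x v := by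
    intro v hv
    have := sm2_nn_eq (h7 v hv)
    unfold xi
    linarith
  exact ⟨h4, h5, h6, h7, h8, fun v hv => by rw [← h8 v hv, sm2_nn_eq (h7 v hv)]⟩

/-- the part of the drift coming from the vertices of `K` -/
theorem sm2_Kpart {δ φm κ₀ : ℝ} {x : Config V s} (h : IsSBC G K χ φ μ) (hφ : ∑ v, φ v ^ 2 = 1)
    (hδ : 0 < δ) (hφm : ∀ v ∈ K, φm ≤ φ v) (hδφ : δ < φm)
    (hκ : ∀ z ∈ touched G K, ∀ c, κ₀ ≤ (∑ u, open Classical in if G.Adj z u then φ u else 0) -
      2 * (∑ u, open Classical in if G.Adj z u ∧ χ u = c then φ u else 0))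
    (hδκ : δ * Fintype.card V ≤ κ₀ / 2)
    (hx : InR G K χ φ ψ (δ ^ 2) x) :
    ∑ v ∈ K, ∑ c, (x v c : ℝ) * (∑ z ∈ touched G K,
      (open Classical in if G.Adj v z then (1 + 2 * (2 * (x z c : ℝ) - nn x z)) else 0)) ≤
      Fintype.card V * (∑ v ∈ K, xi χ x v) - κ₀ * SS χ φ x * qq G K x := by
  classical
  obtain ⟨k1, k2, k3, k4, k5, k6⟩ := sm2_K h hφ hδ hφm hδφ hx
  have hS := hx.S_pos
  have e1 : ∀ v ∈ K, ∑ c, (x v c : ℝ) * (∑ z ∈ touched G K,
      (if G.Adj v z then (1 + 2 * (2 * (x z c : ℝ) - nn x z)) else 0)) =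
      ∑ z ∈ touched G K, xi χ x v *
        (if G.Adj v z then (1 + 2 * (2 * (x z (χ v) : ℝ) - nn x z)) else 0) := by
    intro v hv
    rw [Finset.sum_eq_single (χ v)]
    · rw [k6 v hv, Finset.mul_sum]
    · intro d _ hd
      rw [k4 v hv d hd]; simp
    · intro h'
      exact absurd (Finset.mem_univ _) h'
  rw [Finset.sum_congr rfl e1, Finset.sum_comm]
  have key : ∀ z ∈ touched G K, ∑ v ∈ K, xi χ x v *
        (if G.Adj v z then (1 + 2 * (2 * (x z (χ v) : ℝ) - nn x z)) else 0) ≤
        ∑ v ∈ K, xi χ x v - κ₀ * SS χ φ x * nn x z := by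
    intro z hz
    by_cases hemp : ∀ d, x z d = 0
    · have h0 : nn x z = 0 := by
        unfold nn
        exact Finset.sum_eq_zero (fun d _ => by rw [hemp d]; simp)
      rw [h0, mul_zero, sub_zero]
      refine Finset.sum_le_sum (fun v hv => ?_)
      have := k2 v hv
      rw [hemp (χ v)]
      split_ifs
      · simp
      · simp [this.le]
    · push Not at hemp
      obtain ⟨e, he⟩ := hemp
      have h0 : ∀ d, d ≠ e → x z d = 0 := by
        intro d hd
        by_contra hne
        exact hd (hx.good.1 z d e (Nat.pos_of_ne_zero hne) (Nat.pos_of_ne_zero he))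
      have hnn : nn x z = x z e := sm2_nn_eq h0
      have hnn0 := sm2_nn_nonneg x z
      -- rewrite the sum
      have e2 : ∀ v ∈ K, xi χ x v *
          (if G.Adj v z then (1 + 2 * (2 * (x z (χ v) : ℝ) - nn x z)) else 0) ≤
          xi χ x v + 2 * nn x z * (if G.Adj z v then (if χ v = e then 1 else -1) * xi χ x v
            else 0) := by
        intro v hv
        have := k2 v hv
        by_cases ha : G.Adj v z
        · rw [if_pos ha, if_pos ha.symm]
          by_cases hc : χ v = e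
          · rw [if_pos hc, hc, hnn]
            apply le_of_eq; ring
          · rw [if_neg hc, h0 _ hc]
            apply le_of_eq; push_cast; ring
        · have ha' : ¬ G.Adj z v := fun h' => ha h'.symm
          rw [if_neg ha, if_neg ha']
          simp [this.le]
      refine (Finset.sum_le_sum e2).trans ?_
      rw [Finset.sum_add_distrib, ← Finset.mul_sum]
      have e3 : ∑ v ∈ K, (if G.Adj z v then (if χ v = e then 1 else -1) * xi χ x v else 0) ≤
          ∑ v ∈ K, (SS χ φ x * (if G.Adj z v then (if χ v = e then 1 else -1) * φ v else 0) +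
            δ * SS χ φ x) := by
        refine Finset.sum_le_sum (fun v hv => ?_)
        have h9 := abs_le.1 (k1 v hv)
        have h10 : 0 < δ * SS χ φ x := by positivity
        split_ifs
        · linarith [h9.2]
        · linarith [h9.1]
        · linarith
      have e4 : ∑ v ∈ K, (SS χ φ x * (if G.Adj z v then (if χ v = e then 1 else -1) * φ v else 0) +
            δ * SS χ φ x) ≤ - (κ₀ / 2) * SS χ φ x := by
        rw [Finset.sum_add_distrib, ← Finset.mul_sum]
        have e5 : ∑ v ∈ K, (if G.Adj z v then (if χ v = e then 1 else -1) * φ v else 0) =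
            2 * (∑ u, if G.Adj z u ∧ χ u = e then φ u else 0) -
            ∑ u, (if G.Adj z u then φ u else 0) := by
          rw [Finset.mul_sum, ← Finset.sum_sub_distrib]
          rw [Finset.sum_subset (Finset.subset_univ K)]
          · refine Finset.sum_congr rfl (fun u _ => ?_)
            by_cases ha : G.Adj z u
            · by_cases hc : χ u = e
              · simp [ha, hc]; ring
              · simp [ha, hc]
            · simp [ha]
          · intro u _ hu
            rw [h.φ_out u hu]; simp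
        rw [e5]
        have e6 := hκ z hz e
        have e7 : ∑ v ∈ K, δ * SS χ φ x ≤ δ * Fintype.card V * SS χ φ x := by
          rw [Finset.sum_const, nsmul_eq_mul]
          have : ((K.card : ℕ) : ℝ) ≤ Fintype.card V := by
            exact_mod_cast Finset.card_le_univ _
          have h10 : 0 < δ * SS χ φ x := by positivity
          nlinarith
        have e8 : δ * Fintype.card V * SS χ φ x ≤ κ₀ / 2 * SS χ φ x :=
          mul_le_mul_of_nonneg_right hδκ hS.le
        have e9 : SS χ φ x * (2 * (∑ u, if G.Adj z u ∧ χ u = e then φ u else 0) -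
            ∑ u, (if G.Adj z u then φ u else 0)) ≤ SS χ φ x * (-κ₀) :=
          mul_le_mul_of_nonneg_left (by linarith) hS.le
        linarith
      have e10 := mul_le_mul_of_nonneg_left (e3.trans e4) (by positivity : 0 ≤ 2 * nn x z)
      linarith
  refine (Finset.sum_le_sum key).trans ?_
  rw [Finset.sum_sub_distrib, Finset.sum_const, nsmul_eq_mul, ← Finset.mul_sum]
  have h5 : ((touched G K).card : ℝ) ≤ Fintype.card V := by
    exact_mod_cast Finset.card_le_univ _
  have h6 : 0 ≤ ∑ v ∈ K, xi χ x v := Finset.sum_nonneg (fun v hv => (k2 v hv).le)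
  unfold qq
  nlinarith

open Classical in
/-- bound for the numerator of the change in one step -/
noncomputable def sm2B (G : SimpleGraph V) (K : Finset V) (ε : ℝ) (x : Config V s) (w : V)
    (c : Fin s) : ℝ :=
  if w ∈ K then ∑ z ∈ touched G K, (if G.Adj w z then (1 + 2 * (2 * (x z c : ℝ) - nn x z)) else 0)
  else if w ∈ touched G K then
    4 * Fintype.card V + 8 * qq G K x + 8 * Fintype.card V * ε * qq G K x
  else Fintype.card V + 2 * qq G K x

theorem sm2_step {δ φm : ℝ} {x : Config V s} (h : IsSBC G K χ φ μ) (hφ : ∑ v, φ v ^ 2 = 1)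
    (hδ : 0 < δ) (hφm : ∀ v ∈ K, φm ≤ φ v) (hδφ : δ < φm)
    (hδn : δ ^ 2 * (2 * Fintype.card V) ≤ 1)
    (hx : InR G K χ φ ψ (δ ^ 2) x) {w : V} {c : Fin s} (hc : 0 < x w c) :
    YY G K (step G x w c) / SS χ φ (step G x w c) ^ 2 ≤
      YY G K x / SS χ φ x ^ 2 + sm2B G K (δ ^ 2) x w c / SS χ φ x ^ 2 := by
  classical
  obtain ⟨k1, k2, k3, k4, k5, k6⟩ := sm2_K h hφ hδ hφm hδφ hx
  have hS := hx.S_pos
  have hmono := hx.good.1
  have hφ0 : ∀ v, 0 ≤ φ v := by
    intro v
    by_cases hv : v ∈ K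
    · exact (h.φ_pos v hv).le
    · rw [h.φ_out v hv]
  have hφ1 : ∀ v, φ v ≤ 1 := by
    intro v
    have : φ v ^ 2 ≤ 1 := by
      rw [← hφ]
      exact Finset.single_le_sum (f := fun v => φ v ^ 2) (fun _ _ => sq_nonneg _)
        (Finset.mem_univ v)
    nlinarith [hφ0 v]
  have hY0 : 0 ≤ YY G K x := by unfold YY; exact Finset.sum_nonneg (fun _ _ => sq_nonneg _)
  have hY0' : 0 ≤ YY G K (step G x w c) := by
    unfold YY; exact Finset.sum_nonneg (fun _ _ => sq_nonneg _)
  have hq0 : 0 ≤ qq G K x := by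
    unfold qq; exact Finset.sum_nonneg (fun z _ => sm2_nn_nonneg x z)
  by_cases hwK : w ∈ K
  · have hcw : c = χ w := by
      by_contra hne
      have := k4 w hwK c hne
      omega
    have hS' : SS χ φ x ≤ SS χ φ (step G x w c) := by
      unfold SS
      refine Finset.sum_le_sum (fun v _ => ?_)
      by_cases hv : v ∈ K
      · refine mul_le_mul_of_nonneg_left ?_ (hφ0 v)
        by_cases ha : G.Adj w v
        · rw [sm2_xi_step hmono c ha (k3 v hv), if_pos (by rw [hcw, h.same w hwK v hv ha])]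
          linarith
        · rw [sm2_xi_step_of_not_adj c ha]
      · rw [h.φ_out v hv]; simp
    have e : sm2B G K (δ ^ 2) x w c = ∑ z ∈ touched G K,
        (if G.Adj w z then (1 + 2 * (2 * (x z c : ℝ) - nn x z)) else 0) := by
      unfold sm2B; rw [if_pos hwK]
    rw [e, ← add_div, ← sm2_YY_step hmono]
    exact div_le_div_of_nonneg_left hY0' (by positivity) (by gcongr)
  · by_cases hwT : w ∈ touched G K
    · have e : sm2B G K (δ ^ 2) x w c =
          4 * Fintype.card V + 8 * qq G K x + 8 * Fintype.card V * δ ^ 2 * qq G K x := by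
        unfold sm2B; rw [if_neg hwK, if_pos hwT]
      rw [e]
      have hS1 : SS χ φ x - Fintype.card V ≤ SS χ φ (step G x w c) := by
        have e1 : SS χ φ x - Fintype.card V = ∑ v, (φ v * xi χ x v - 1) := by
          unfold SS
          rw [Finset.sum_sub_distrib]; simp
        rw [e1]
        unfold SS
        refine Finset.sum_le_sum (fun v _ => ?_)
        by_cases hv : v ∈ K
        · have h1 := hφ1 v
          have h0 := hφ0 v
          by_cases ha : G.Adj w v
          · rw [sm2_xi_step hmono c ha (k3 v hv)]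
            split_ifs
            · nlinarith
            · nlinarith
          · rw [sm2_xi_step_of_not_adj c ha]
            linarith
        · rw [h.φ_out v hv]; simp
      have hn : 2 * (Fintype.card V : ℝ) ≤ SS χ φ x := by
        have h1 := hx.S_large
        have h2 : 0 ≤ (Fintype.card V : ℝ) := Nat.cast_nonneg _
        have h3 : 2 * (Fintype.card V : ℝ) * 1 ≤ 2 * (Fintype.card V : ℝ) * (δ ^ 2 * SS χ φ x) :=
          mul_le_mul_of_nonneg_left h1 (by positivity)
        have h4 : δ ^ 2 * (2 * Fintype.card V) * SS χ φ x ≤ 1 * SS χ φ x :=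
          mul_le_mul_of_nonneg_right hδn hS.le
        linarith
      have hYle : YY G K x ≤ δ ^ 2 * SS χ φ x * qq G K x := by
        unfold YY qq
        rw [Finset.mul_sum]
        refine Finset.sum_le_sum (fun z hz => ?_)
        have h1 := hx.T_le z hz
        have h2 := sm2_nn_nonneg x z
        nlinarith
      exact sm2_alg hS hS1 (by linarith) (sm2_YY_step_le hmono w c) hYle hq0 (Nat.cast_nonneg _)
        (Nat.cast_nonneg _) (by positivity) hY0
    · have e : sm2B G K (δ ^ 2) x w c = Fintype.card V + 2 * qq G K x := by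
        unfold sm2B; rw [if_neg hwK, if_neg hwT]
      have hadj : ∀ u ∈ K, ¬ G.Adj w u := by
        intro u hu ha
        exact hwT (sm2_mem_touched.2 ⟨hwK, u, hu, ha⟩)
      have hS' : SS χ φ (step G x w c) = SS χ φ x := by
        unfold SS
        refine Finset.sum_congr rfl (fun v _ => ?_)
        by_cases hv : v ∈ K
        · rw [sm2_xi_step_of_not_adj c (hadj v hv)]
        · rw [h.φ_out v hv]; simp
      rw [e, hS', ← add_div]
      have := sm2_YY_step_le (G := G) (K := K) hmono w c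
      gcongr
      linarith

theorem sm2 (h : IsSBC G K χ φ μ) (hφ : ∑ v, φ v ^ 2 = 1) (hψ : ∀ u, u ∉ K → (∀ v ∈ K, ¬ G.Adj u v) → 0 < ψ u ∧
      (∑ w, open Classical in if G.Adj u w ∧ w ∉ K ∧ (∀ v ∈ K, ¬ G.Adj w v) then ψ w else 0) ≤ μ * ψ u) :
    ∃ κ C ε : ℝ, 0 < κ ∧ 0 < C ∧ 0 < ε ∧ ε ≤ 1 ∧ ∀ x : Config V s, InR G K χ φ ψ ε x →
      Pop G (fun y => YY G K y / SS χ φ y ^ 2) x ≤
        YY G K x / SS χ φ x ^ 2 + (C - κ * qq G K x) / SS χ φ x ^ 2 := by
  classical
  obtain ⟨φm, hφm0, hφm⟩ := sm2_exists_pos K φ h.φ_pos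
  obtain ⟨κ₀, hκ0, hκ'⟩ := sm2_exists_pos (touched G K ×ˢ (univ : Finset (Fin s)))
    (fun p => (∑ u, if G.Adj p.1 u then φ u else 0) -
      2 * (∑ u, if G.Adj p.1 u ∧ χ u = p.2 then φ u else 0)) (by
        rintro ⟨z, c⟩ hz
        have hz' := sm2_mem_touched.1 (Finset.mem_product.1 hz).1
        have := h.bal z hz'.1 hz'.2 c
        linarith)
  have hκ : ∀ z ∈ touched G K, ∀ c, κ₀ ≤ (∑ u, if G.Adj z u then φ u else 0) -
      2 * (∑ u, if G.Adj z u ∧ χ u = c then φ u else 0) := fun z hz c =>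
    hκ' (z, c) (Finset.mem_product.2 ⟨hz, Finset.mem_univ c⟩)
  set n : ℝ := (Fintype.card V : ℝ) with hn
  have hn0 : 0 ≤ n := Nat.cast_nonneg _
  set Ψ : ℝ := ∑ u ∈ untouched G K, (ψ u)⁻¹ with hΨ
  have hψ0 : ∀ u ∈ untouched G K, 0 < ψ u := fun u hu =>
    (hψ u (sm2_mem_untouched.1 hu).1 (sm2_mem_untouched.1 hu).2).1
  have hΨ0 : 0 ≤ Ψ := Finset.sum_nonneg (fun u hu => (inv_pos.2 (hψ0 u hu)).le)
  -- the choice of the parameter
  obtain ⟨δ, hδ, hδ1, hδφ, hδκ, hδn, hδe⟩ : ∃ δ : ℝ, 0 < δ ∧ δ ≤ 1 ∧ δ < φm ∧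
      δ * n ≤ κ₀ / 2 ∧ δ * (2 * n) ≤ 1 ∧ δ * (n * (8 + 8 * n) + 2 * Ψ) ≤ κ₀ / 2 := by
    have a1 : 0 < φm / 2 := by positivity
    have a2 : 0 < κ₀ / (2 * (n + 1)) := by positivity
    have a3 : 0 < 1 / (2 * (n + 1)) := by positivity
    have a4 : 0 < κ₀ / (2 * (n * (8 + 8 * n) + 2 * Ψ + 1)) := by positivity
    refine ⟨min 1 (min (φm / 2) (min (κ₀ / (2 * (n + 1))) (min (1 / (2 * (n + 1)))
      (κ₀ / (2 * (n * (8 + 8 * n) + 2 * Ψ + 1)))))), by positivity, min_le_left _ _, ?_, ?_, ?_, ?_⟩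
    · refine lt_of_le_of_lt ((min_le_right _ _).trans (min_le_left _ _)) (by linarith)
    · have b : min 1 (min (φm / 2) (min (κ₀ / (2 * (n + 1))) (min (1 / (2 * (n + 1)))
        (κ₀ / (2 * (n * (8 + 8 * n) + 2 * Ψ + 1)))))) ≤ κ₀ / (2 * (n + 1)) :=
        (min_le_right _ _).trans ((min_le_right _ _).trans (min_le_left _ _))
      refine (mul_le_mul_of_nonneg_right b hn0).trans ?_
      rw [div_mul_eq_mul_div, div_le_div_iff₀ (by positivity) (by positivity)]
      linarith
    · have b : min 1 (min (φm / 2) (min (κ₀ / (2 * (n + 1))) (min (1 / (2 * (n + 1)))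
        (κ₀ / (2 * (n * (8 + 8 * n) + 2 * Ψ + 1)))))) ≤ 1 / (2 * (n + 1)) :=
        (min_le_right _ _).trans ((min_le_right _ _).trans ((min_le_right _ _).trans
          (min_le_left _ _)))
      refine (mul_le_mul_of_nonneg_right b (by positivity)).trans ?_
      rw [div_mul_eq_mul_div, div_le_one (by positivity)]
      linarith
    · have b : min 1 (min (φm / 2) (min (κ₀ / (2 * (n + 1))) (min (1 / (2 * (n + 1)))
        (κ₀ / (2 * (n * (8 + 8 * n) + 2 * Ψ + 1)))))) ≤
          κ₀ / (2 * (n * (8 + 8 * n) + 2 * Ψ + 1)) :=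
        (min_le_right _ _).trans ((min_le_right _ _).trans ((min_le_right _ _).trans
          (min_le_right _ _)))
      refine (mul_le_mul_of_nonneg_right b (by positivity)).trans ?_
      rw [div_mul_eq_mul_div, div_le_div_iff₀ (by positivity) (by positivity)]
      nlinarith [mul_nonneg hn0 hn0]
  have hδsq : δ ^ 2 ≤ δ := by nlinarith
  set CN : ℝ := 3 * n + Ψ + 1 with hCN
  have hCN0 : 0 < CN := by positivity
  refine ⟨κ₀ / (2 * CN), 5 * n + Ψ * n + 1, δ ^ 2, by positivity, by positivity, by positivity,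
    by linarith, fun x hx => ?_⟩
  obtain ⟨k1, k2, k3, k4, k5, k6⟩ := sm2_K h hφ hδ hφm hδφ hx
  have hS := hx.S_pos
  have hstep := fun {w : V} {c : Fin s} (hc : 0 < x w c) =>
    sm2_step h hφ hδ hφm hδφ ((mul_le_mul_of_nonneg_right hδsq (by positivity)).trans hδn) hx hc
  have hKp := sm2_Kpart h hφ hδ hφm hδφ hκ hδκ hx
  set S := SS χ φ x with hSdef
  set q := qq G K x with hq
  have hq0 : 0 ≤ q := by
    rw [hq]; unfold qq; exact Finset.sum_nonneg (fun z _ => sm2_nn_nonneg x z)
  set u := ∑ v ∈ untouched G K, nn x v with hu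
  have hu0 : 0 ≤ u := Finset.sum_nonneg (fun z _ => sm2_nn_nonneg x z)
  have hNtot : (total x : ℝ) = ∑ v ∈ K, xi χ x v + q + u := by
    rw [sm2_total, sm2_sum_split (G := G) (K := K), Finset.sum_congr rfl k5]
    rfl
  set N : ℝ := (total x : ℝ) with hN
  have hN0 : 0 < N := Nat.cast_pos.2 hx.good.2
  have hsK0 : 0 ≤ ∑ v ∈ K, xi χ x v := Finset.sum_nonneg (fun v hv => (k2 v hv).le)
  have hqle : q ≤ n * (δ ^ 2 * S) := by
    rw [hq]; unfold qq
    refine (Finset.sum_le_sum (fun z hz => hx.T_le z hz)).trans ?_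
    rw [Finset.sum_const, nsmul_eq_mul]
    refine mul_le_mul_of_nonneg_right ?_ (by positivity)
    exact Nat.cast_le.2 (Finset.card_le_univ _)
  have hule : u ≤ Ψ * (δ ^ 2 * S) := by
    have h1 : ∀ v ∈ untouched G K, nn x v ≤ Ψ * (ψ v * nn x v) := by
      intro v hv
      have h2 : (ψ v)⁻¹ ≤ Ψ := Finset.single_le_sum (f := fun u => (ψ u)⁻¹)
        (fun u hu => (inv_pos.2 (hψ0 u hu)).le) hv
      have h3 := hψ0 v hv
      have h4 := sm2_nn_nonneg x v
      have h5 : (ψ v)⁻¹ * (ψ v * nn x v) ≤ Ψ * (ψ v * nn x v) :=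
        mul_le_mul_of_nonneg_right h2 (by positivity)
      rwa [inv_mul_cancel_left₀ h3.ne'] at h5
    refine (Finset.sum_le_sum h1).trans ?_
    rw [← Finset.mul_sum]
    exact mul_le_mul_of_nonneg_left hx.L_le hΨ0
  have hφ1 : ∀ v ∈ K, φ v ≤ 1 := by
    intro v hv
    have : φ v ^ 2 ≤ 1 := by
      rw [← hφ]
      exact Finset.single_le_sum (f := fun v => φ v ^ 2) (fun _ _ => sq_nonneg _)
        (Finset.mem_univ v)
    nlinarith [h.φ_pos v hv]
  have hSN : S ≤ N := by
    have h1 : S = ∑ v ∈ K, φ v * xi χ x v := by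
      rw [hSdef]; unfold SS
      exact (Finset.sum_subset (Finset.subset_univ K)
        (fun v _ hv => by rw [h.φ_out v hv]; ring)).symm
    have h2 : ∑ v ∈ K, φ v * xi χ x v ≤ ∑ v ∈ K, xi χ x v := by
      refine Finset.sum_le_sum (fun v hv => ?_)
      have := k2 v hv
      have := hφ1 v hv
      nlinarith
    rw [hNtot, h1]; linarith
  have hNS : N ≤ CN * S := by
    have h1 : ∑ v ∈ K, xi χ x v ≤ n * (2 * S) := by
      have h2 : ∀ v ∈ K, xi χ x v ≤ 2 * S := by
        intro v hv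
        have h3 := (abs_le.1 (k1 v hv)).2
        have h4 := hφ1 v hv
        nlinarith
      refine (Finset.sum_le_sum h2).trans ?_
      rw [Finset.sum_const, nsmul_eq_mul]
      refine mul_le_mul_of_nonneg_right ?_ (by positivity)
      exact Nat.cast_le.2 (Finset.card_le_univ _)
    have h2 : δ ^ 2 * S ≤ S := by nlinarith
    have h3 : n * (δ ^ 2 * S) ≤ n * S := mul_le_mul_of_nonneg_left h2 hn0
    have h4 : Ψ * (δ ^ 2 * S) ≤ Ψ * S := mul_le_mul_of_nonneg_left h2 hΨ0
    rw [hNtot, hCN]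
    linarith
  -- the sum
  have hPop : Pop G (fun y => YY G K y / SS χ φ y ^ 2) x ≤
      YY G K x / S ^ 2 + (∑ v, ∑ c, (x v c : ℝ) * sm2B G K (δ ^ 2) x v c) / (N * S ^ 2) := by
    have e1 : YY G K x / S ^ 2 = ∑ v, ∑ c, (x v c : ℝ) / N * (YY G K x / S ^ 2) := by
      have := Pop_const G (YY G K x / S ^ 2) hx.good.2
      unfold Pop at this
      exact this.symm
    rw [e1, Finset.sum_div, ← Finset.sum_add_distrib]
    unfold Pop
    refine Finset.sum_le_sum (fun v _ => ?_)
    rw [Finset.sum_div, ← Finset.sum_add_distrib]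
    refine Finset.sum_le_sum (fun c _ => ?_)
    rcases Nat.eq_zero_or_pos (x v c) with h0 | h0
    · simp [h0]
    · have h1 := mul_le_mul_of_nonneg_left (hstep h0) (Pop_weight_nonneg x v c)
      refine h1.trans (le_of_eq ?_)
      rw [← hN]
      field_simp
  refine hPop.trans ?_
  have hsum : ∑ v, ∑ c, (x v c : ℝ) * sm2B G K (δ ^ 2) x v c ≤
      (n * (∑ v ∈ K, xi χ x v) - κ₀ * S * q) + q * (4 * n + 8 * q + 8 * n * δ ^ 2 * q) +
        u * (n + 2 * q) := by
    rw [sm2_sum_split (G := G) (K := K)]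
    refine add_le_add (add_le_add ?_ ?_) ?_
    · refine le_trans (le_of_eq ?_) hKp
      refine Finset.sum_congr rfl (fun v hv => Finset.sum_congr rfl (fun c _ => ?_))
      unfold sm2B
      rw [if_pos hv]
    · rw [hq]
      unfold qq
      rw [Finset.sum_mul]
      apply le_of_eq
      refine Finset.sum_congr rfl (fun v hv => ?_)
      unfold nn
      rw [Finset.sum_mul]
      refine Finset.sum_congr rfl (fun c _ => ?_)
      unfold sm2B
      rw [if_neg (sm2_mem_touched.1 hv).1, if_pos hv]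
      rfl
    · rw [hu, Finset.sum_mul]
      apply le_of_eq
      refine Finset.sum_congr rfl (fun v hv => ?_)
      unfold nn
      rw [Finset.sum_mul]
      refine Finset.sum_congr rfl (fun c _ => ?_)
      unfold sm2B
      have h1 := sm2_mem_untouched.1 hv
      rw [if_neg h1.1, if_neg (fun h2 => by
        obtain ⟨_, w, hw, hw'⟩ := sm2_mem_touched.1 h2
        exact h1.2 w hw hw')]
  have hmain : (n * (∑ v ∈ K, xi χ x v) - κ₀ * S * q) + q * (4 * n + 8 * q + 8 * n * δ ^ 2 * q) +
        u * (n + 2 * q) ≤ N * ((5 * n + Ψ * n + 1) - κ₀ / (2 * CN) * q) := by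
    have a1 : N * (κ₀ / (2 * CN) * q) ≤ κ₀ / 2 * (S * q) := by
      have : N * (κ₀ / (2 * CN) * q) ≤ CN * S * (κ₀ / (2 * CN) * q) :=
        mul_le_mul_of_nonneg_right hNS (by positivity)
      refine this.trans (le_of_eq ?_)
      field_simp
    have a2 : n * (∑ v ∈ K, xi χ x v) ≤ n * N :=
      mul_le_mul_of_nonneg_left (by rw [hNtot]; linarith) hn0
    have a3 : q * (4 * n) ≤ N * (4 * n) :=
      mul_le_mul_of_nonneg_right (by rw [hNtot]; linarith) (by positivity)
    have a4 : q * (8 * q + 8 * n * δ ^ 2 * q) ≤ n * (δ ^ 2 * S) * ((8 + 8 * n) * q) := by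
      have b1 : 8 * q + 8 * n * δ ^ 2 * q ≤ (8 + 8 * n) * q := by
        have : 8 * n * q * δ ^ 2 ≤ 8 * n * q * 1 :=
          mul_le_mul_of_nonneg_left (by linarith) (by positivity)
        linarith
      exact mul_le_mul hqle b1 (by positivity) (by positivity)
    have a5 : u * n ≤ Ψ * n * N := by
      have b1 : δ ^ 2 * S ≤ N := by nlinarith
      have b2 : u ≤ Ψ * N := hule.trans (mul_le_mul_of_nonneg_left b1 hΨ0)
      nlinarith
    have a6 : u * (2 * q) ≤ Ψ * (δ ^ 2 * S) * (2 * q) :=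
      mul_le_mul_of_nonneg_right hule (by positivity)
    have a7 : δ ^ 2 * (n * (8 + 8 * n) + 2 * Ψ) * (S * q) ≤ κ₀ / 2 * (S * q) :=
      mul_le_mul_of_nonneg_right
        ((mul_le_mul_of_nonneg_right hδsq (by positivity)).trans hδe) (by positivity)
    linarith
  have hfin : (∑ v, ∑ c, (x v c : ℝ) * sm2B G K (δ ^ 2) x v c) / (N * S ^ 2) ≤
      ((5 * n + Ψ * n + 1) - κ₀ / (2 * CN) * q) / S ^ 2 := by
    rw [div_le_div_iff₀ (by positivity) (by positivity)]
    have := mul_le_mul_of_nonneg_right (hsum.trans hmain) (by positivity : 0 ≤ S ^ 2)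
    linarith
  linarith

end Pool.Agent.TH996.Urn
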