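import Pool.Agent.TH996.Urn.SbcDefs

/-!
# Drift of `L / S` and of `1 / S` near a strictly balanced configuration
-/

open Finset

namespace Pool.Agent.TH996.Urn

variable {V : Type} [Fintype V] {s : ℕ} {G : SimpleGraph V} {K : Finset V} {χ : V → Fin s}
  {φ ψ : V → ℝ} {μ : ℝ}

theorem sm3_nn_nonneg (x : Config V s) (v : V) : 0 ≤ nn x v := by
  unfold nn; positivity

theorem sm3_mem_touched {z : V} : z ∈ touched G K ↔ z ∉ K ∧ ∃ u ∈ K, G.Adj z u := by
  unfold touched; simp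

theorem sm3_mem_untouched {z : V} : z ∈ untouched G K ↔ z ∉ K ∧ ∀ u ∈ K, ¬ G.Adj z u := by
  unfold untouched; simp

/-- splitting a sum over the vertices -/
theorem sm3_split (G : SimpleGraph V) (K : Finset V) (f : V → ℝ) :
    ∑ v, f v = ∑ v ∈ K, f v + ∑ v ∈ touched G K, f v + ∑ v ∈ untouched G K, f v := by
  classical
  have h1 : Disjoint K (touched G K) := by
    rw [Finset.disjoint_left]
    intro v hv hv'
    exact (sm3_mem_touched.1 hv').1 hv
  have h2 : Disjoint (K ∪ touched G K) (untouched G K) := by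
    rw [Finset.disjoint_left]
    intro v hv hv'
    rw [sm3_mem_untouched] at hv'
    rcases Finset.mem_union.1 hv with h | h
    · exact hv'.1 h
    · obtain ⟨-, u, hu, ha⟩ := sm3_mem_touched.1 h
      exact hv'.2 u hu ha
  rw [← Finset.sum_union h1, ← Finset.sum_union h2]
  refine Finset.sum_congr ?_ fun _ _ => rfl
  ext v
  simp only [Finset.mem_univ, Finset.mem_union, sm3_mem_touched, sm3_mem_untouched, true_iff]
  by_cases hv : v ∈ K
  · exact Or.inl (Or.inl hv)
  · by_cases hu : ∃ u ∈ K, G.Adj v u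
    · exact Or.inl (Or.inr ⟨hv, hu⟩)
    · push Not at hu
      exact Or.inr ⟨hv, hu⟩

theorem sm3_total_eq (x : Config V s) : (total x : ℝ) = ∑ v, nn x v := by
  unfold total nn
  push_cast
  rfl

/-- a one step bound gives a bound for the drift -/
theorem sm3_drift {f : Config V s → ℝ} {x : Config V s} (hx : 0 < total x) (B : V → ℝ)
    (hB : ∀ w c, 0 < x w c → f (step G x w c) - f x ≤ B w) :
    Pop G f x ≤ f x + (∑ w, nn x w * B w) / (total x : ℝ) := by
  have hN : (0 : ℝ) < total x := by exact_mod_cast hx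
  have h1 : Pop G f x ≤ Pop G (fun _ => f x) x + (∑ w, nn x w * B w) / (total x : ℝ) := by
    unfold Pop
    rw [Finset.sum_div, ← Finset.sum_add_distrib]
    refine Finset.sum_le_sum fun w _ => ?_
    have e1 : nn x w * B w / (total x : ℝ) = ∑ c, (x w c : ℝ) / (total x : ℝ) * B w := by
      unfold nn
      rw [← Finset.sum_mul, ← Finset.sum_div]
      ring
    rw [e1, ← Finset.sum_add_distrib]
    refine Finset.sum_le_sum fun c _ => ?_
    rcases Nat.eq_zero_or_pos (x w c) with h0 | h0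
    · simp [h0]
    · have h2 := hB w c h0
      have h3 : (0 : ℝ) ≤ (x w c : ℝ) / (total x : ℝ) := by positivity
      nlinarith
  rwa [Pop_const G (f x) hx] at h1

theorem sm3_nn_step_of_not_adj (x : Config V s) {w u : V} (c : Fin s) (h : ¬ G.Adj w u) :
    nn (step G x w c) u = nn x u := by
  unfold nn
  refine Finset.sum_congr rfl fun d _ => ?_
  rw [step_of_not_adj G h]

theorem sm3_xi_step_of_not_adj (x : Config V s) {w u : V} (c : Fin s) (h : ¬ G.Adj w u) :
    xi χ (step G x w c) u = xi χ x u := by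
  unfold xi
  rw [sm3_nn_step_of_not_adj x c h, step_of_not_adj G h]

theorem sm3_nn_step_le (x : Config V s) (w u : V) (c : Fin s) :
    nn (step G x w c) u ≤ nn x u + 1 := by
  classical
  unfold nn
  by_cases ha : G.Adj w u
  · by_cases hex : ∃ e, e ≠ c ∧ 0 < x u e
    · have h1 : ∑ d, ((step G x w c u d : ℕ) : ℝ) ≤ ∑ d, (x u d : ℝ) := by
        refine Finset.sum_le_sum fun d _ => ?_
        unfold step
        simp only [ha, if_true, hex]
        split_ifs
        · exact le_rfl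
        · exact_mod_cast Nat.sub_le _ _
      linarith
    · have h1 : ∑ d, ((step G x w c u d : ℕ) : ℝ) = ∑ d, ((x u d : ℝ) + if d = c then 1 else 0) := by
        refine Finset.sum_congr rfl fun d _ => ?_
        unfold step
        simp only [ha, if_true, hex, if_false]
        split_ifs
        · push_cast; ring
        · push_cast; ring
      rw [h1, Finset.sum_add_distrib, Finset.sum_ite_eq' Finset.univ c]
      simp
  · have h1 : ∑ d, ((step G x w c u d : ℕ) : ℝ) = ∑ d, (x u d : ℝ) := by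
      refine Finset.sum_congr rfl fun d _ => ?_
      rw [step_of_not_adj G ha]
    linarith

/-- the facts on the vertices of `K`: positive, all balls of the right colour -/
structure Sm3K (K : Finset V) (χ : V → Fin s) (x : Config V s) : Prop where
  pos : ∀ v ∈ K, 0 < x v (χ v)
  zero : ∀ v ∈ K, ∀ c, c ≠ χ v → x v c = 0

theorem Sm3K.nn_eq {x : Config V s} (h : Sm3K K χ x) {v : V} (hv : v ∈ K) :
    nn x v = x v (χ v) := by
  unfold nn
  rw [Finset.sum_eq_single (χ v)]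
  · intro c _ hc
    rw [h.zero v hv c hc]
    simp
  · intro hn
    exact absurd (Finset.mem_univ _) hn

theorem Sm3K.xi_eq {x : Config V s} (h : Sm3K K χ x) {v : V} (hv : v ∈ K) :
    xi χ x v = x v (χ v) := by
  unfold xi
  rw [h.nn_eq hv]
  ring

theorem Sm3K.step_same {x : Config V s} (h : Sm3K K χ x) {w u : V} (hu : u ∈ K) (ha : G.Adj w u) :
    xi χ (step G x w (χ u)) u = xi χ x u + 1 := by
  classical
  have hex : ¬ ∃ e, e ≠ χ u ∧ 0 < x u e := by
    rintro ⟨e, he, he'⟩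
    rw [h.zero u hu e he] at he'
    exact absurd he' (lt_irrefl _)
  have hst : ∀ d, step G x w (χ u) u d = if d = χ u then x u d + 1 else x u d := by
    intro d
    unfold step
    simp only [ha, if_true, hex, if_false]
  have hnn : nn (step G x w (χ u)) u = nn x u + 1 := by
    unfold nn
    have h1 : ∑ d, ((step G x w (χ u) u d : ℕ) : ℝ) = ∑ d, ((x u d : ℝ) + if d = χ u then 1 else 0) := by
      refine Finset.sum_congr rfl fun d _ => ?_
      rw [hst]
      split_ifs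
      · push_cast; ring
      · push_cast; ring
    rw [h1, Finset.sum_add_distrib, Finset.sum_ite_eq' Finset.univ (χ u)]
    simp
  unfold xi
  rw [hnn, hst, if_pos rfl]
  push_cast
  ring

theorem Sm3K.step_other {x : Config V s} (h : Sm3K K χ x) {w u : V} {c : Fin s} (hu : u ∈ K)
    (ha : G.Adj w u) (hc : c ≠ χ u) : xi χ (step G x w c) u = xi χ x u - 1 := by
  classical
  have hpos := h.pos u hu
  have hex : ∃ e, e ≠ c ∧ 0 < x u e := ⟨χ u, hc.symm, hpos⟩
  have hst : ∀ d, step G x w c u d = if d = c then x u d else x u d - 1 := by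
    intro d
    unfold step
    simp only [ha, if_true, hex]
  have hnn : nn (step G x w c) u = (x u (χ u) : ℝ) - 1 := by
    unfold nn
    rw [Finset.sum_eq_single (χ u)]
    · rw [hst, if_neg hc.symm, Nat.cast_sub (by omega)]
      simp
    · intro d _ hd
      rw [hst, h.zero u hu d hd]
      simp
    · intro hn
      exact absurd (Finset.mem_univ _) hn
  have hx1 : xi χ x u = x u (χ u) := h.xi_eq hu
  rw [hx1]
  unfold xi
  rw [hnn, hst, if_neg hc.symm, Nat.cast_sub (by omega)]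
  push_cast
  ring

theorem Sm3K.step_abs {x : Config V s} (h : Sm3K K χ x) {w u : V} {c : Fin s} (hu : u ∈ K) :
    |xi χ (step G x w c) u - xi χ x u| ≤ 1 := by
  by_cases ha : G.Adj w u
  · by_cases hc : c = χ u
    · subst hc
      rw [h.step_same hu ha]
      simp
    · rw [h.step_other hu ha hc]
      simp
  · rw [sm3_xi_step_of_not_adj x c ha]
    simp

/-! one step -/

theorem sm3_S_K (h : IsSBC G K χ φ μ) {x : Config V s} (hx : Sm3K K χ x) {w : V} (hw : w ∈ K) {c : Fin s}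
    (hc : 0 < x w c) : SS χ φ (step G x w c) = SS χ φ x + μ * φ w := by
  classical
  have hcw : c = χ w := by
    by_contra hne
    rw [hx.zero w hw c hne] at hc
    exact absurd hc (lt_irrefl _)
  subst hcw
  unfold SS
  rw [← h.eig w hw, ← Finset.sum_add_distrib]
  refine Finset.sum_congr rfl fun u _ => ?_
  by_cases hu : u ∈ K
  · by_cases ha : G.Adj w u
    · have hχ := h.same w hw u hu ha
      rw [if_pos ha, hχ, hx.step_same hu ha]
      ring
    · rw [if_neg ha, sm3_xi_step_of_not_adj x _ ha]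
      ring
  · rw [h.φ_out u hu]
    simp

theorem sm3_S_T (h : IsSBC G K χ φ μ) {x : Config V s} (hx : Sm3K K χ x) (w : V) (c : Fin s) :
    |SS χ φ (step G x w c) - SS χ φ x| ≤ ∑ v, φ v := by
  unfold SS
  rw [← Finset.sum_sub_distrib]
  refine (Finset.abs_sum_le_sum_abs _ _).trans (Finset.sum_le_sum fun u _ => ?_)
  by_cases hu : u ∈ K
  · have h1 := hx.step_abs (G := G) (w := w) (c := c) hu
    have h2 := h.φ_pos u hu
    rw [← mul_sub, abs_mul, abs_of_pos h2]
    nlinarith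
  · rw [h.φ_out u hu]
    simp

theorem sm3_S_U (h : IsSBC G K χ φ μ) (x : Config V s) {w : V} (hw : w ∈ untouched G K) (c : Fin s) :
    SS χ φ (step G x w c) = SS χ φ x := by
  unfold SS
  refine Finset.sum_congr rfl fun u _ => ?_
  by_cases hu : u ∈ K
  · rw [sm3_xi_step_of_not_adj x _ ((sm3_mem_untouched.1 hw).2 u hu)]
  · rw [h.φ_out u hu]
    simp

theorem sm3_L_K (x : Config V s) {w : V} (hw : w ∈ K) (c : Fin s) :
    LL G K ψ (step G x w c) = LL G K ψ x := by
  unfold LL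
  refine Finset.sum_congr rfl fun u hu => ?_
  have ha : ¬ G.Adj w u := fun ha => (sm3_mem_untouched.1 hu).2 w hw ha.symm
  rw [sm3_nn_step_of_not_adj x c ha]

theorem sm3_L_T (hψ : ∀ u ∈ untouched G K, 0 < ψ u) (x : Config V s) (w : V) (c : Fin s) :
    LL G K ψ (step G x w c) ≤ LL G K ψ x + ∑ u ∈ untouched G K, ψ u := by
  unfold LL
  rw [← Finset.sum_add_distrib]
  refine Finset.sum_le_sum fun u hu => ?_
  have h1 := sm3_nn_step_le (G := G) x w u c
  have h2 := hψ u hu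
  nlinarith

theorem sm3_L_U (hψ : ∀ u, u ∉ K → (∀ v ∈ K, ¬ G.Adj u v) → 0 < ψ u ∧
      (∑ w, open Classical in if G.Adj u w ∧ w ∉ K ∧ (∀ v ∈ K, ¬ G.Adj w v) then ψ w else 0) ≤ μ * ψ u)
    (x : Config V s) {w : V} (hw : w ∈ untouched G K) (c : Fin s) :
    LL G K ψ (step G x w c) ≤ LL G K ψ x + μ * ψ w := by
  classical
  rw [sm3_mem_untouched] at hw
  refine le_trans ?_ (add_le_add_right (hψ w hw.1 hw.2).2 _)
  have e1 : (∑ u, open Classical in if G.Adj w u ∧ u ∉ K ∧ (∀ v ∈ K, ¬ G.Adj u v) then ψ u else 0) =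
      ∑ u ∈ untouched G K, if G.Adj w u then ψ u else 0 := by
    unfold untouched
    rw [Finset.sum_filter]
    refine Finset.sum_congr rfl fun u _ => ?_
    by_cases ha : G.Adj w u
    · by_cases hu : u ∉ K ∧ ∀ v ∈ K, ¬ G.Adj u v
      · rw [if_pos ⟨ha, hu⟩, if_pos hu, if_pos ha]
      · rw [if_neg (fun h => hu h.2), if_neg hu]
    · rw [if_neg (fun h => ha h.1), if_neg ha]
      split_ifs <;> rfl
  rw [e1]
  unfold LL
  rw [← Finset.sum_add_distrib]
  refine Finset.sum_le_sum fun u hu => ?_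
  rw [sm3_mem_untouched] at hu
  have h2 := (hψ u hu.1 hu.2).1
  by_cases ha : G.Adj w u
  · rw [if_pos ha]
    have h1 := sm3_nn_step_le (G := G) x w u c
    nlinarith
  · rw [if_neg ha, sm3_nn_step_of_not_adj x c ha]
    simp

/-! the region -/

theorem sm3_qq_nonneg (x : Config V s) : 0 ≤ qq G K x := by
  unfold qq
  exact Finset.sum_nonneg fun v _ => sm3_nn_nonneg x v

theorem sm3_LL_nonneg (hψ : ∀ u ∈ untouched G K, 0 < ψ u) (x : Config V s) : 0 ≤ LL G K ψ x := by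
  unfold LL
  exact Finset.sum_nonneg fun v hv => mul_nonneg (hψ v hv).le (sm3_nn_nonneg x v)

theorem sm3_Φ_nonneg (h : IsSBC G K χ φ μ) : 0 ≤ ∑ v, φ v := by
  refine Finset.sum_nonneg fun v _ => ?_
  by_cases hv : v ∈ K
  · exact (h.φ_pos v hv).le
  · rw [h.φ_out v hv]

theorem sm3_φ_le (hφ : ∑ v, φ v ^ 2 = 1) (v : V) : φ v ≤ 1 := by
  have h1 : φ v ^ 2 ≤ ∑ v, φ v ^ 2 :=
    Finset.single_le_sum (f := fun v => φ v ^ 2) (fun _ _ => sq_nonneg _) (Finset.mem_univ v)
  rw [hφ] at h1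
  nlinarith

theorem sm3_sum_K (h : IsSBC G K χ φ μ) (f : V → ℝ) : ∑ v ∈ K, φ v * f v = ∑ v, φ v * f v := by
  refine Finset.sum_subset (Finset.subset_univ _) fun v _ hv => ?_
  rw [h.φ_out v hv, zero_mul]

theorem sm3_region (h : IsSBC G K χ φ μ) (hφ : ∑ v, φ v ^ 2 = 1) (hψ : ∀ u ∈ untouched G K, 0 < ψ u) :
    ∃ ε C : ℝ, 0 < ε ∧ ε ≤ 1 ∧ 0 < C ∧ ∀ x : Config V s, InR G K χ φ ψ ε x →
      Sm3K K χ x ∧ SS χ φ x ≤ total x ∧ (total x : ℝ) ≤ C * SS χ φ x ∧ 2 * ∑ v, φ v ≤ SS χ φ x ∧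
      LL G K ψ x ≤ SS χ φ x := by
  classical
  have hΦ := sm3_Φ_nonneg h
  obtain ⟨u0, hu0, -⟩ := h.two
  obtain ⟨v0, hv0, hmin⟩ := Finset.exists_min_image K φ ⟨u0, hu0⟩
  have ha := h.φ_pos v0 hv0
  have ha1 := sm3_φ_le hφ v0
  set a := φ v0 with hadef
  obtain ⟨b, hb, hbψ⟩ : ∃ b : ℝ, 0 < b ∧ ∀ u ∈ untouched G K, b ≤ ψ u := by
    rcases (untouched G K).eq_empty_or_nonempty with he | hne
    · exact ⟨1, one_pos, fun u hu => by rw [he] at hu; simp at hu⟩
    · obtain ⟨w0, hw0, hm⟩ := Finset.exists_min_image (untouched G K) ψ hne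
      exact ⟨ψ w0, hψ w0 hw0, hm⟩
  set ε : ℝ := min (min (a ^ 2 / 4) (1 / (2 * ∑ v, φ v + 1))) 1 with hε
  have hεpos : 0 < ε := by
    refine lt_min (lt_min (by positivity) ?_) one_pos
    positivity
  have hε1 : ε ≤ 1 := min_le_right _ _
  have hεa : ε ≤ a ^ 2 / 4 := (min_le_left _ _).trans (min_le_left _ _)
  have hεΦ : ε ≤ 1 / (2 * ∑ v, φ v + 1) := (min_le_left _ _).trans (min_le_right _ _)
  refine ⟨ε, 2 * K.card + (touched G K).card + 1 / b, hεpos, hε1, by positivity, ?_⟩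
  intro x hx
  have hS := hx.S_pos
  set S := SS χ φ x with hSdef
  have hφK : ∑ v ∈ K, φ v * φ v = 1 := by
    rw [sm3_sum_K h φ, ← hφ]
    exact Finset.sum_congr rfl fun v _ => by ring
  have hSK : ∑ v ∈ K, φ v * xi χ x v = S := by
    rw [sm3_sum_K h]
    rfl
  have hsq : ∑ v ∈ K, (xi χ x v - S * φ v) ^ 2 = ZZ K χ x - S ^ 2 := by
    have e : ∀ v ∈ K, (xi χ x v - S * φ v) ^ 2 =
        xi χ x v ^ 2 - 2 * S * (φ v * xi χ x v) + S ^ 2 * (φ v * φ v) := fun v _ => by ring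
    rw [Finset.sum_congr rfl e, Finset.sum_add_distrib, Finset.sum_sub_distrib, ← Finset.mul_sum,
      ← Finset.mul_sum, hSK, hφK]
    unfold ZZ
    ring
  have hdev : ∀ v ∈ K, |xi χ x v - S * φ v| ≤ a * S / 2 := by
    intro v hv
    have h1 : (xi χ x v - S * φ v) ^ 2 ≤ ∑ v ∈ K, (xi χ x v - S * φ v) ^ 2 :=
      Finset.single_le_sum (f := fun v => (xi χ x v - S * φ v) ^ 2) (fun _ _ => sq_nonneg _) hv
    have h2 : (xi χ x v - S * φ v) ^ 2 ≤ (a * S / 2) ^ 2 := by
      have h3 := hx.Z_le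
      have h4 : ε * S ^ 2 ≤ a ^ 2 / 4 * S ^ 2 := mul_le_mul_of_nonneg_right hεa (sq_nonneg _)
      rw [← hSdef] at h3
      nlinarith
    exact abs_le_of_sq_le_sq h2 (by positivity)
  have hxi_lo : ∀ v ∈ K, 0 < xi χ x v := by
    intro v hv
    have h1 := (abs_le.1 (hdev v hv)).1
    have h2 := hmin v hv
    have h3 : S * a ≤ S * φ v := mul_le_mul_of_nonneg_left h2 hS.le
    nlinarith [mul_pos ha hS]
  have hxi_hi : ∀ v ∈ K, xi χ x v ≤ 2 * S := by
    intro v hv
    have h1 := (abs_le.1 (hdev v hv)).2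
    have h2 : S * φ v ≤ S * 1 := mul_le_mul_of_nonneg_left (sm3_φ_le hφ v) hS.le
    have h3 : a * S ≤ 1 * S := mul_le_mul_of_nonneg_right ha1 hS.le
    linarith
  have hK : Sm3K K χ x := by
    have hpos : ∀ v ∈ K, 0 < x v (χ v) := by
      intro v hv
      have h1 := hxi_lo v hv
      unfold xi at h1
      by_contra h0
      have h2 : x v (χ v) = 0 := by omega
      rw [h2] at h1
      have h3 := sm3_nn_nonneg x v
      push_cast at h1
      linarith
    refine ⟨hpos, fun v hv c hc => ?_⟩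
    by_contra h0
    exact hc (hx.good.1 v c (χ v) (Nat.pos_of_ne_zero h0) (hpos v hv))
  have hsplit := sm3_split G K (fun v => nn x v)
  rw [← sm3_total_eq] at hsplit
  have hT0 : 0 ≤ ∑ v ∈ touched G K, nn x v := Finset.sum_nonneg fun v _ => sm3_nn_nonneg x v
  have hU0 : 0 ≤ ∑ v ∈ untouched G K, nn x v := Finset.sum_nonneg fun v _ => sm3_nn_nonneg x v
  have hnnK : ∀ v ∈ K, nn x v = xi χ x v := fun v hv => by rw [hK.nn_eq hv, hK.xi_eq hv]
  refine ⟨hK, ?_, ?_, ?_, ?_⟩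
  · have h1 : S ≤ ∑ v ∈ K, nn x v := by
      rw [← hSK]
      refine Finset.sum_le_sum fun v hv => ?_
      rw [hnnK v hv]
      have h2 := sm3_φ_le hφ v
      have h3 := hxi_lo v hv
      nlinarith
    linarith
  · have h1 : ∑ v ∈ K, nn x v ≤ K.card * (2 * S) := by
      rw [← nsmul_eq_mul]
      exact Finset.sum_le_card_nsmul _ _ _ fun v hv => by rw [hnnK v hv]; exact hxi_hi v hv
    have h2 : ∑ v ∈ touched G K, nn x v ≤ (touched G K).card * S := by
      rw [← nsmul_eq_mul]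
      refine Finset.sum_le_card_nsmul _ _ _ fun v hv => ?_
      have h3 := hx.T_le v hv
      have h4 : ε * S ≤ 1 * S := mul_le_mul_of_nonneg_right hε1 hS.le
      rw [← hSdef] at h3
      linarith
    have h3 : b * ∑ v ∈ untouched G K, nn x v ≤ S := by
      have h4 : b * ∑ v ∈ untouched G K, nn x v ≤ LL G K ψ x := by
        unfold LL
        rw [Finset.mul_sum]
        exact Finset.sum_le_sum fun v hv => mul_le_mul_of_nonneg_right (hbψ v hv) (sm3_nn_nonneg x v)
      have h5 := hx.L_le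
      have h6 : ε * S ≤ 1 * S := mul_le_mul_of_nonneg_right hε1 hS.le
      rw [← hSdef] at h5
      linarith
    have h4 : ∑ v ∈ untouched G K, nn x v ≤ 1 / b * S := by
      rw [one_div, inv_mul_eq_div, le_div_iff₀ hb]
      linarith
    rw [hsplit]
    have h5 : (2 * (K.card : ℝ) + (touched G K).card + 1 / b) * S =
        K.card * (2 * S) + (touched G K).card * S + 1 / b * S := by ring
    rw [h5]
    linarith
  · have h1 := hx.S_large
    rw [← hSdef] at h1
    have h2 : ε * S ≤ 1 / (2 * ∑ v, φ v + 1) * S := mul_le_mul_of_nonneg_right hεΦ hS.le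
    have h3 : 1 ≤ S / (2 * ∑ v, φ v + 1) := by
      rw [div_eq_mul_one_div, mul_comm]
      linarith
    rw [le_div_iff₀ (by positivity)] at h3
    linarith
  · have h5 := hx.L_le
    have h6 : ε * S ≤ 1 * S := mul_le_mul_of_nonneg_right hε1 hS.le
    rw [← hSdef] at h5
    linarith

/-! the drifts -/

theorem sm3_inv {S δ : ℝ} (hS : 0 < S) (hδ : 0 ≤ δ) :
    1 / (S + δ) - 1 / S ≤ -δ / S ^ 2 + δ ^ 2 / S ^ 3 := by
  have h1 : -δ / S ^ 2 + δ ^ 2 / S ^ 3 - (1 / (S + δ) - 1 / S) = δ ^ 3 / (S ^ 3 * (S + δ)) := by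
    field_simp
    ring
  have h2 : 0 ≤ δ ^ 3 / (S ^ 3 * (S + δ)) := by positivity
  linarith

/-- the contribution of the vertices of `K` -/
theorem sm3_K_sum (h : IsSBC G K χ φ μ) (hφ : ∑ v, φ v ^ 2 = 1) {x : Config V s} (hK : Sm3K K χ x) :
    ∑ w ∈ K, nn x w * φ w = SS χ φ x ∧ ∑ w ∈ K, nn x w * φ w ^ 2 ≤ SS χ φ x := by
  have h1 : ∑ w ∈ K, nn x w * φ w = SS χ φ x := by
    have e : ∀ w ∈ K, nn x w * φ w = φ w * xi χ x w := fun w hw => by
      rw [hK.nn_eq hw, hK.xi_eq hw]; ring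
    rw [Finset.sum_congr rfl e, sm3_sum_K h]
    rfl
  refine ⟨h1, ?_⟩
  rw [← h1]
  refine Finset.sum_le_sum fun w hw => mul_le_mul_of_nonneg_left ?_ (sm3_nn_nonneg x w)
  have h2 := sm3_φ_le hφ w
  have h3 := h.φ_pos w hw
  nlinarith

theorem sm3 (h : IsSBC G K χ φ μ) (hφ : ∑ v, φ v ^ 2 = 1) (hψ : ∀ u, u ∉ K → (∀ v ∈ K, ¬ G.Adj u v) → 0 < ψ u ∧
      (∑ w, open Classical in if G.Adj u w ∧ w ∉ K ∧ (∀ v ∈ K, ¬ G.Adj w v) then ψ w else 0) ≤ μ * ψ u) :
    ∃ C ε : ℝ, 0 < C ∧ 0 < ε ∧ ε ≤ 1 ∧ ∀ x : Config V s, InR G K χ φ ψ ε x →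
      Pop G (fun y => LL G K ψ y / SS χ φ y) x ≤
        LL G K ψ x / SS χ φ x + C * (1 + qq G K x) / SS χ φ x ^ 2 := by
  classical
  have hψ0 : ∀ u ∈ untouched G K, 0 < ψ u := fun u hu => by
    rw [sm3_mem_untouched] at hu
    exact (hψ u hu.1 hu.2).1
  have hΨ : 0 ≤ ∑ u ∈ untouched G K, ψ u := Finset.sum_nonneg fun u hu => (hψ0 u hu).le
  have hΦ := sm3_Φ_nonneg h
  have hμ := h.μ_pos
  obtain ⟨ε, CN, hε, hε1, hCN, hreg⟩ := sm3_region h hφ hψ0
  refine ⟨μ ^ 2 + 2 * ∑ u ∈ untouched G K, ψ u + 2 * ∑ v, φ v, ε, by positivity, hε, hε1, ?_⟩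
  intro x hx
  obtain ⟨hK, hN1, hN2, hS2, hLS⟩ := hreg x hx
  have hS := hx.S_pos
  have hq := sm3_qq_nonneg (G := G) (K := K) x
  have hL := sm3_LL_nonneg hψ0 x
  have hNpos : (0 : ℝ) < total x := by exact_mod_cast hx.good.2
  obtain ⟨hk1, hk2⟩ := sm3_K_sum h hφ hK
  set S := SS χ φ x with hSdef
  set L := LL G K ψ x with hLdef
  set N : ℝ := (total x : ℝ) with hNdef
  set Φ := ∑ v, φ v with hΦdef
  set Ψ := ∑ u ∈ untouched G K, ψ u with hΨdef
  set B : V → ℝ := fun w => if w ∈ K then L * (-(μ * φ w) / S ^ 2 + (μ * φ w) ^ 2 / S ^ 3) else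
    if w ∈ touched G K then (2 * Ψ + 2 * Φ) / S else μ * ψ w / S with hB
  have hdr := sm3_drift (G := G) (f := fun y => LL G K ψ y / SS χ φ y) hx.good.2 B (by
    intro w c hc
    rw [hB]
    simp only
    by_cases hwK : w ∈ K
    · rw [if_pos hwK, sm3_L_K x hwK, sm3_S_K h hK hwK hc, ← hSdef, ← hLdef]
      have h1 := sm3_inv hS (mul_pos hμ (h.φ_pos w hwK)).le
      have h2 : L / (S + μ * φ w) - L / S = L * (1 / (S + μ * φ w) - 1 / S) := by ring
      rw [h2]
      exact mul_le_mul_of_nonneg_left h1 hL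
    · rw [if_neg hwK]
      by_cases hwT : w ∈ touched G K
      · rw [if_pos hwT, ← hSdef, ← hLdef]
        have h1 := sm3_S_T h hK (G := G) w c
        have h2 := sm3_L_T hψ0 x w c
        rw [← hSdef, ← hΦdef] at h1
        rw [← hLdef, ← hΨdef] at h2
        set S' := SS χ φ (step G x w c) with hS'
        set L' := LL G K ψ (step G x w c) with hL'
        have h3 := (abs_le.1 h1).1
        have h4 := (abs_le.1 h1).2
        have hS'pos : S / 2 ≤ S' := by linarith
        have hS'0 : 0 < S' := by linarith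
        have h5 : L' / S' ≤ (L + Ψ) / S' := div_le_div_of_nonneg_right h2 hS'0.le
        have h6 : (L + Ψ) / S' - L / S = Ψ / S' + L * (S - S') / (S * S') := by
          field_simp
          ring
        have h7 : Ψ / S' ≤ 2 * Ψ / S := by
          rw [div_le_div_iff₀ hS'0 hS]
          nlinarith
        have h8 : L * (S - S') / (S * S') ≤ 2 * Φ / S := by
          rw [div_le_div_iff₀ (by positivity) hS]
          have h9 : L * (S - S') ≤ L * Φ := mul_le_mul_of_nonneg_left (by linarith) hL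
          have h10 : L * Φ ≤ S * Φ := mul_le_mul_of_nonneg_right hLS hΦ
          have h11 : Φ * S ≤ Φ * (2 * S') := mul_le_mul_of_nonneg_left (by linarith) hΦ
          calc L * (S - S') * S ≤ S * Φ * S := mul_le_mul_of_nonneg_right (h9.trans h10) hS.le
            _ = S * (Φ * S) := by ring
            _ ≤ S * (Φ * (2 * S')) := mul_le_mul_of_nonneg_left h11 hS.le
            _ = 2 * Φ * (S * S') := by ring
        have h9 : (2 * Ψ + 2 * Φ) / S = 2 * Ψ / S + 2 * Φ / S := by ring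
        rw [h9]
        linarith
      · rw [if_neg hwT]
        have hwU : w ∈ untouched G K := by
          rw [sm3_mem_untouched]
          refine ⟨hwK, fun u hu ha => hwT ?_⟩
          rw [sm3_mem_touched]
          exact ⟨hwK, u, hu, ha⟩
        rw [sm3_S_U h x hwU c, ← hSdef, ← hLdef]
        have h1 := sm3_L_U hψ x hwU c
        rw [← hLdef] at h1
        rw [← sub_div]
        exact div_le_div_of_nonneg_right (by linarith) hS.le)
  refine hdr.trans (add_le_add le_rfl ?_)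
  -- the sum of the bounds
  have hsum : ∑ w, nn x w * B w = L * (-(μ / S ^ 2) * ∑ w ∈ K, nn x w * φ w +
      μ ^ 2 / S ^ 3 * ∑ w ∈ K, nn x w * φ w ^ 2) + qq G K x * ((2 * Ψ + 2 * Φ) / S) + μ / S * L := by
    rw [sm3_split G K]
    congr 1
    · congr 1
      · rw [mul_add, ← mul_assoc, ← mul_assoc, Finset.mul_sum, Finset.mul_sum, ← Finset.sum_add_distrib]
        refine Finset.sum_congr rfl fun w hw => ?_
        rw [hB]
        simp only
        rw [if_pos hw]
        ring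
      · unfold qq
        rw [Finset.sum_mul]
        refine Finset.sum_congr rfl fun w hw => ?_
        rw [hB]
        simp only
        rw [if_neg (sm3_mem_touched.1 hw).1, if_pos hw]
    · rw [hLdef]
      unfold LL
      rw [Finset.mul_sum]
      refine Finset.sum_congr rfl fun w hw => ?_
      rw [hB]
      simp only
      have hw' := sm3_mem_untouched.1 hw
      rw [if_neg hw'.1, if_neg (fun hT => by
        obtain ⟨-, u, hu, ha⟩ := sm3_mem_touched.1 hT
        exact hw'.2 u hu ha)]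
      ring
  rw [hsum, hk1, div_le_div_iff₀ hNpos (by positivity)]
  have hb1 : L * (-(μ / S ^ 2) * S + μ ^ 2 / S ^ 3 * ∑ w ∈ K, nn x w * φ w ^ 2) +
      qq G K x * ((2 * Ψ + 2 * Φ) / S) + μ / S * L ≤ (μ ^ 2 + 2 * Ψ + 2 * Φ) * (1 + qq G K x) / S := by
    have e1 : L * (-(μ / S ^ 2) * S + μ ^ 2 / S ^ 3 * ∑ w ∈ K, nn x w * φ w ^ 2) +
        qq G K x * ((2 * Ψ + 2 * Φ) / S) + μ / S * L =
        (L / S) * (μ ^ 2 / S ^ 2 * ∑ w ∈ K, nn x w * φ w ^ 2) + qq G K x * ((2 * Ψ + 2 * Φ) / S) := by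
      field_simp
      ring
    rw [e1]
    have h1 : L / S ≤ 1 := by
      rw [div_le_one hS]
      exact hLS
    have h2 : μ ^ 2 / S ^ 2 * ∑ w ∈ K, nn x w * φ w ^ 2 ≤ μ ^ 2 / S := by
      calc μ ^ 2 / S ^ 2 * ∑ w ∈ K, nn x w * φ w ^ 2 ≤ μ ^ 2 / S ^ 2 * S :=
            mul_le_mul_of_nonneg_left hk2 (by positivity)
        _ = μ ^ 2 / S := by field_simp
    have h3 : (0 : ℝ) ≤ μ ^ 2 / S ^ 2 * ∑ w ∈ K, nn x w * φ w ^ 2 := by
      refine mul_nonneg (by positivity) (Finset.sum_nonneg fun w _ => ?_)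
      exact mul_nonneg (sm3_nn_nonneg x w) (sq_nonneg _)
    have h4 : (L / S) * (μ ^ 2 / S ^ 2 * ∑ w ∈ K, nn x w * φ w ^ 2) ≤ μ ^ 2 / S :=
      (mul_le_of_le_one_left h3 h1).trans h2
    have h5 : (μ ^ 2 + 2 * Ψ + 2 * Φ) * (1 + qq G K x) / S = μ ^ 2 / S + qq G K x * ((2 * Ψ + 2 * Φ) / S) +
        (μ ^ 2 * qq G K x + (2 * Ψ + 2 * Φ)) / S := by
      ring
    have h6 : 0 ≤ (μ ^ 2 * qq G K x + (2 * Ψ + 2 * Φ)) / S := by positivity
    rw [h5]
    linarith
  have hnum : 0 ≤ (μ ^ 2 + 2 * Ψ + 2 * Φ) * (1 + qq G K x) := by positivity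
  calc _ ≤ (μ ^ 2 + 2 * Ψ + 2 * Φ) * (1 + qq G K x) / S * S ^ 2 :=
        mul_le_mul_of_nonneg_right hb1 (by positivity)
    _ = (μ ^ 2 + 2 * Ψ + 2 * Φ) * (1 + qq G K x) * S := by
        field_simp
    _ ≤ (μ ^ 2 + 2 * Ψ + 2 * Φ) * (1 + qq G K x) * N := mul_le_mul_of_nonneg_left hN1 hnum

theorem sm4 (h : IsSBC G K χ φ μ) (hφ : ∑ v, φ v ^ 2 = 1) (hψ : ∀ u, u ∉ K → (∀ v ∈ K, ¬ G.Adj u v) → 0 < ψ u ∧
      (∑ w, open Classical in if G.Adj u w ∧ w ∉ K ∧ (∀ v ∈ K, ¬ G.Adj w v) then ψ w else 0) ≤ μ * ψ u) :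
    ∃ c C ε : ℝ, 0 < c ∧ 0 < C ∧ 0 < ε ∧ ε ≤ 1 ∧ ∀ x : Config V s, InR G K χ φ ψ ε x →
      Pop G (fun y => 1 / SS χ φ y) x ≤
        1 / SS χ φ x - c / SS χ φ x ^ 2 + C * (1 + qq G K x) / SS χ φ x ^ 3 := by
  classical
  have hψ0 : ∀ u ∈ untouched G K, 0 < ψ u := fun u hu => by
    rw [sm3_mem_untouched] at hu
    exact (hψ u hu.1 hu.2).1
  have hΦ := sm3_Φ_nonneg h
  have hμ := h.μ_pos
  obtain ⟨ε, CN, hε, hε1, hCN, hreg⟩ := sm3_region h hφ hψ0
  refine ⟨μ / CN, μ ^ 2 + 2 * ∑ v, φ v, ε, by positivity, by positivity, hε, hε1, ?_⟩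
  intro x hx
  obtain ⟨hK, hN1, hN2, hS2, hLS⟩ := hreg x hx
  have hS := hx.S_pos
  have hq := sm3_qq_nonneg (G := G) (K := K) x
  have hNpos : (0 : ℝ) < total x := by exact_mod_cast hx.good.2
  obtain ⟨hk1, hk2⟩ := sm3_K_sum h hφ hK
  set S := SS χ φ x with hSdef
  set N : ℝ := (total x : ℝ) with hNdef
  set Φ := ∑ v, φ v with hΦdef
  set B : V → ℝ := fun w => if w ∈ K then -(μ * φ w) / S ^ 2 + (μ * φ w) ^ 2 / S ^ 3 else
    if w ∈ touched G K then 2 * Φ / S ^ 2 else 0 with hB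
  have hdr := sm3_drift (G := G) (f := fun y => 1 / SS χ φ y) hx.good.2 B (by
    intro w c hc
    rw [hB]
    simp only
    by_cases hwK : w ∈ K
    · rw [if_pos hwK, sm3_S_K h hK hwK hc, ← hSdef]
      exact sm3_inv hS (mul_pos hμ (h.φ_pos w hwK)).le
    · rw [if_neg hwK]
      by_cases hwT : w ∈ touched G K
      · rw [if_pos hwT, ← hSdef]
        have h1 := sm3_S_T h hK (G := G) w c
        rw [← hSdef, ← hΦdef] at h1
        set S' := SS χ φ (step G x w c) with hS'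
        have h3 := (abs_le.1 h1).1
        have h4 := (abs_le.1 h1).2
        have hS'pos : S / 2 ≤ S' := by linarith
        have hS'0 : 0 < S' := by linarith
        have h6 : 1 / S' - 1 / S = (S - S') / (S * S') := by
          field_simp
        rw [h6, div_le_div_iff₀ (by positivity) (by positivity)]
        have h9 : (S - S') * S ^ 2 ≤ Φ * S ^ 2 := mul_le_mul_of_nonneg_right (by linarith) (by positivity)
        have h10 : Φ * S * S ≤ Φ * S * (2 * S') := mul_le_mul_of_nonneg_left (by linarith) (by positivity)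
        nlinarith
      · rw [if_neg hwT]
        have hwU : w ∈ untouched G K := by
          rw [sm3_mem_untouched]
          refine ⟨hwK, fun u hu ha => hwT ?_⟩
          rw [sm3_mem_touched]
          exact ⟨hwK, u, hu, ha⟩
        rw [sm3_S_U h x hwU c, ← hSdef, sub_self])
  have hsum : ∑ w, nn x w * B w = -(μ / S ^ 2) * ∑ w ∈ K, nn x w * φ w +
      μ ^ 2 / S ^ 3 * ∑ w ∈ K, nn x w * φ w ^ 2 + qq G K x * (2 * Φ / S ^ 2) + 0 := by
    rw [sm3_split G K]
    congr 1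
    · congr 1
      · rw [Finset.mul_sum, Finset.mul_sum, ← Finset.sum_add_distrib]
        refine Finset.sum_congr rfl fun w hw => ?_
        rw [hB]
        simp only
        rw [if_pos hw]
        ring
      · unfold qq
        rw [Finset.sum_mul]
        refine Finset.sum_congr rfl fun w hw => ?_
        rw [hB]
        simp only
        rw [if_neg (sm3_mem_touched.1 hw).1, if_pos hw]
    · refine Finset.sum_eq_zero fun w hw => ?_
      rw [hB]
      simp only
      have hw' := sm3_mem_untouched.1 hw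
      rw [if_neg hw'.1, if_neg (fun hT => by
        obtain ⟨-, u, hu, ha⟩ := sm3_mem_touched.1 hT
        exact hw'.2 u hu ha)]
      ring
  have h1 : μ ^ 2 / S ^ 3 * ∑ w ∈ K, nn x w * φ w ^ 2 ≤ μ ^ 2 / S ^ 2 := by
    calc μ ^ 2 / S ^ 3 * ∑ w ∈ K, nn x w * φ w ^ 2 ≤ μ ^ 2 / S ^ 3 * S :=
          mul_le_mul_of_nonneg_left hk2 (by positivity)
      _ = μ ^ 2 / S ^ 2 := by field_simp
  have h2 : ∑ w, nn x w * B w ≤ -(μ / S) + (μ ^ 2 + 2 * Φ) * (1 + qq G K x) / S ^ 2 := by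
    rw [hsum, hk1]
    have e1 : -(μ / S ^ 2) * S = -(μ / S) := by
      field_simp
    have e2 : (μ ^ 2 + 2 * Φ) * (1 + qq G K x) / S ^ 2 = μ ^ 2 / S ^ 2 + qq G K x * (2 * Φ / S ^ 2) +
        (μ ^ 2 * qq G K x + 2 * Φ) / S ^ 2 := by
      ring
    have e3 : 0 ≤ (μ ^ 2 * qq G K x + 2 * Φ) / S ^ 2 := by positivity
    rw [e1, e2]
    linarith
  have h3 : (∑ w, nn x w * B w) / N ≤
      (-(μ / S) + (μ ^ 2 + 2 * Φ) * (1 + qq G K x) / S ^ 2) / N := div_le_div_of_nonneg_right h2 hNpos.le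
  have h4 : (-(μ / S) + (μ ^ 2 + 2 * Φ) * (1 + qq G K x) / S ^ 2) / N =
      -(μ / (S * N)) + (μ ^ 2 + 2 * Φ) * (1 + qq G K x) / (S ^ 2 * N) := by
    field_simp
  have h5 : μ / CN / S ^ 2 ≤ μ / (S * N) := by
    rw [div_div, div_le_div_iff₀ (by positivity) (by positivity)]
    have : S * N ≤ S * (CN * S) := mul_le_mul_of_nonneg_left hN2 hS.le
    have h6 : μ * (S * N) ≤ μ * (S * (CN * S)) := mul_le_mul_of_nonneg_left this hμ.le
    calc μ * (S * N) ≤ μ * (S * (CN * S)) := h6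
      _ = μ * (CN * S ^ 2) := by ring
  have h6 : (μ ^ 2 + 2 * Φ) * (1 + qq G K x) / (S ^ 2 * N) ≤ (μ ^ 2 + 2 * Φ) * (1 + qq G K x) / S ^ 3 := by
    apply div_le_div_of_nonneg_left (by positivity) (by positivity)
    have : S ^ 2 * S ≤ S ^ 2 * N := mul_le_mul_of_nonneg_left hN1 (by positivity)
    linarith [this, show S ^ 3 = S ^ 2 * S by ring]
  linarith

end Pool.Agent.TH996.Urn
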