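import Pool.Agent.TH996.Urn.SbcMain0
import Pool.Agent.TH996.Urn.Sm1
import Pool.Agent.TH996.Urn.Sm2
import Pool.Agent.TH996.Urn.Sm3

/-!
# A strictly balanced configuration gives coexistence
(job J996-SMW, written by helper496)
-/

open Finset

namespace Pool.Agent.TH996.Urn

variable {V : Type} [Fintype V] {s : ℕ} {G : SimpleGraph V} {K : Finset V} {χ : V → Fin s}
  {φ ψ : V → ℝ} {μ : ℝ}

/-- **A strictly balanced configuration gives coexistence.** -/
theorem sbc_not_inClass (h : IsSBC G K χ φ μ) : ¬ InClass G s := by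
  obtain ⟨φ', h', hφ'⟩ := SbcMain.normal h
  obtain ⟨ψ, hψ⟩ := h'.out
  exact SbcMain.core h' hφ' (fun u hu hu' => (hψ u hu hu').1) (sm1 h' hφ' hψ) (sm2 h' hφ' hψ)
    (sm3 h' hφ' hψ) (sm4 h' hφ' hψ)

end Pool.Agent.TH996.Urn
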