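import Pool.Agent.TH996.Urn.SbcDefs
import Pool.Agent.TH996.Urn.Exist

/-!
# From the four drift inequalities to coexistence: the core
(job J996-SMW, written by helper496)
-/

set_option linter.unusedSectionVars false
set_option linter.unusedVariables false

open Finset

namespace Pool.Agent.TH996.Urn

namespace SbcMain

variable {V : Type} [Fintype V] {s : ℕ} {G : SimpleGraph V} {K : Finset V} {χ : V → Fin s}
  {φ ψ : V → ℝ} {μ : ℝ}

open MeasureTheory

lemma nn_nonneg (x : Config V s) (v : V) : 0 ≤ nn x v :=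
  Finset.sum_nonneg fun _ _ => Nat.cast_nonneg _

/-- one step changes the signed number of balls by at most one -/
lemma xi_step {x : Config V s} (hx : Good x) (v : V) (c : Fin s) (u : V) :
    xi χ x u - 1 ≤ xi χ (step G x v c) u := by
  classical
  unfold xi nn
  have hmono := hx.1 u
  by_cases ha : G.Adj v u
  · by_cases hex : ∃ e, e ≠ c ∧ 0 < x u e
    · obtain ⟨e, hec, he⟩ := hex
      have hz : ∀ d, d ≠ e → x u d = 0 := by
        intro d hd
        by_contra hne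
        exact hd (hmono d e (Nat.pos_of_ne_zero hne) he)
      have hst : ∀ d, step G x v c u d = if d = e then x u e - 1 else 0 := by
        intro d
        unfold step
        rw [if_pos ha, if_pos ⟨e, hec, he⟩]
        by_cases hde : d = e
        · subst hde
          rw [if_neg hec, if_pos rfl]
        · rw [if_neg hde, hz d hde]
          split_ifs <;> rfl
      have hx' : ∀ d, x u d = if d = e then x u e else 0 := by
        intro d
        by_cases hde : d = e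
        · subst hde; rw [if_pos rfl]
        · rw [if_neg hde, hz d hde]
      have e1 : (∑ d, (step G x v c u d : ℝ)) = (x u e : ℝ) - 1 := by
        have h1 : ∀ d, (step G x v c u d : ℝ) = if d = e then ((x u e : ℝ) - 1) else 0 := by
          intro d
          rw [hst d]
          split_ifs
          · rw [Nat.cast_sub he, Nat.cast_one]
          · exact Nat.cast_zero
        rw [Finset.sum_congr rfl (fun d _ => h1 d), Finset.sum_ite_eq' univ e, if_pos (mem_univ e)]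
      have e2 : (∑ d, (x u d : ℝ)) = (x u e : ℝ) := by
        have h1 : ∀ d, (x u d : ℝ) = if d = e then (x u e : ℝ) else 0 := by
          intro d
          rw [hx' d]
          split_ifs with h2
          · rfl
          · exact Nat.cast_zero
        rw [Finset.sum_congr rfl (fun d _ => h1 d), Finset.sum_ite_eq' univ e, if_pos (mem_univ e)]
      rw [e1, e2, hst, hx' (χ u)]
      split_ifs with h2
      · rw [Nat.cast_sub he, Nat.cast_one]
        linarith
      · rw [Nat.cast_zero]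
        linarith
    · have hz : ∀ d, d ≠ c → x u d = 0 := by
        intro d hd
        by_contra hne
        exact hex ⟨d, hd, Nat.pos_of_ne_zero hne⟩
      have hst : ∀ d, step G x v c u d = if d = c then x u c + 1 else 0 := by
        intro d
        unfold step
        rw [if_pos ha, if_neg hex]
        by_cases hde : d = c
        · subst hde
          rw [if_pos rfl, if_pos rfl]
        · rw [if_neg hde, if_neg hde, hz d hde]
      have hx' : ∀ d, x u d = if d = c then x u c else 0 := by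
        intro d
        by_cases hde : d = c
        · subst hde; rw [if_pos rfl]
        · rw [if_neg hde, hz d hde]
      have e1 : (∑ d, (step G x v c u d : ℝ)) = (x u c : ℝ) + 1 := by
        have h1 : ∀ d, (step G x v c u d : ℝ) = if d = c then ((x u c : ℝ) + 1) else 0 := by
          intro d
          rw [hst d]
          split_ifs
          · push_cast; rfl
          · exact Nat.cast_zero
        rw [Finset.sum_congr rfl (fun d _ => h1 d), Finset.sum_ite_eq' univ c, if_pos (mem_univ c)]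
      have e2 : (∑ d, (x u d : ℝ)) = (x u c : ℝ) := by
        have h1 : ∀ d, (x u d : ℝ) = if d = c then (x u c : ℝ) else 0 := by
          intro d
          rw [hx' d]
          split_ifs with h2
          · rfl
          · exact Nat.cast_zero
        rw [Finset.sum_congr rfl (fun d _ => h1 d), Finset.sum_ite_eq' univ c, if_pos (mem_univ c)]
      rw [e1, e2, hst, hx' (χ u)]
      split_ifs with h2
      · push_cast
        linarith
      · rw [Nat.cast_zero]
        linarith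
  · have h1 : ∀ d, step G x v c u d = x u d := fun d => step_of_not_adj G ha
    simp only [h1]
    linarith

lemma SS_step (hφ0 : ∀ v, 0 ≤ φ v) {x : Config V s} (hx : Good x) (v : V) (c : Fin s) :
    SS χ φ x - ∑ u, φ u ≤ SS χ φ (step G x v c) := by
  unfold SS
  rw [← Finset.sum_sub_distrib]
  refine Finset.sum_le_sum fun u _ => ?_
  have h1 := xi_step (G := G) (χ := χ) hx v c u
  have h2 := mul_le_mul_of_nonneg_left h1 (hφ0 u)
  linarith

lemma φ_nonneg (h : IsSBC G K χ φ μ) (v : V) : 0 ≤ φ v := by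
  by_cases hv : v ∈ K
  · exact (h.φ_pos v hv).le
  · rw [h.φ_out v hv]

lemma SS_K (h : IsSBC G K χ φ μ) (x : Config V s) : SS χ φ x = ∑ v ∈ K, φ v * xi χ x v := by
  unfold SS
  symm
  apply Finset.sum_subset (Finset.subset_univ K)
  intro v _ hv
  rw [h.φ_out v hv, zero_mul]

lemma sq_K (h : IsSBC G K χ φ μ) (hφ : ∑ v, φ v ^ 2 = 1) : ∑ v ∈ K, φ v ^ 2 = 1 := by
  rw [← hφ]
  apply Finset.sum_subset (Finset.subset_univ K)
  intro v _ hv
  rw [h.φ_out v hv]
  norm_num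

/-- the identity behind the Cauchy-Schwarz inequality -/
lemma dev (h : IsSBC G K χ φ μ) (hφ : ∑ v, φ v ^ 2 = 1) (x : Config V s) :
    ∑ v ∈ K, (xi χ x v - SS χ φ x * φ v) ^ 2 = ZZ K χ x - SS χ φ x ^ 2 := by
  have h1 : ∀ v ∈ K, (xi χ x v - SS χ φ x * φ v) ^ 2 =
      xi χ x v ^ 2 - 2 * SS χ φ x * (φ v * xi χ x v) + SS χ φ x ^ 2 * φ v ^ 2 := by
    intro v _
    ring
  rw [Finset.sum_congr rfl h1, Finset.sum_add_distrib, Finset.sum_sub_distrib, ← Finset.mul_sum,
    ← Finset.mul_sum, ← SS_K h, sq_K h hφ]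
  unfold ZZ
  ring

lemma Z_ge (h : IsSBC G K χ φ μ) (hφ : ∑ v, φ v ^ 2 = 1) (x : Config V s) :
    SS χ φ x ^ 2 ≤ ZZ K χ x := by
  have h1 := dev h hφ x
  have h2 : 0 ≤ ∑ v ∈ K, (xi χ x v - SS χ φ x * φ v) ^ 2 :=
    Finset.sum_nonneg fun _ _ => sq_nonneg _
  linarith

/-- in the region the colour `χ v` is present at `v` -/
lemma present (h : IsSBC G K χ φ μ) (hφ : ∑ v, φ v ^ 2 = 1) {x : Config V s}
    (hS : 0 < SS χ φ x) {e : ℝ} (hZ : ZZ K χ x ≤ (1 + e) * SS χ φ x ^ 2) {v : V} (hv : v ∈ K)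
    (he : e < φ v ^ 2) : 0 < x v (χ v) := by
  have h1 := dev h hφ x
  have h2 : (xi χ x v - SS χ φ x * φ v) ^ 2 ≤ ∑ v ∈ K, (xi χ x v - SS χ φ x * φ v) ^ 2 :=
    Finset.single_le_sum (f := fun v => (xi χ x v - SS χ φ x * φ v) ^ 2)
      (fun _ _ => sq_nonneg _) hv
  have h3 : (xi χ x v - SS χ φ x * φ v) ^ 2 ≤ e * SS χ φ x ^ 2 := by linarith
  have h4 : e * SS χ φ x ^ 2 < (SS χ φ x * φ v) ^ 2 := by
    have : 0 < SS χ φ x ^ 2 := by positivity
    nlinarith
  have hpos := h.φ_pos v hv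
  have h5 : 0 < SS χ φ x * φ v := by positivity
  have h6 : 0 < xi χ x v := by
    by_contra hcon
    have h7 : xi χ x v ≤ 0 := not_lt.1 hcon
    nlinarith
  unfold xi at h6
  have h7 := nn_nonneg x v
  have h8 : (0 : ℝ) < (x v (χ v) : ℝ) := by linarith
  exact_mod_cast h8

lemma Pop_add (f g : Config V s → ℝ) (x : Config V s) :
    Pop G (fun y => f y + g y) x = Pop G f x + Pop G g x := by
  unfold Pop
  rw [← Finset.sum_add_distrib]
  refine Finset.sum_congr rfl fun v _ => ?_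
  rw [← Finset.sum_add_distrib]
  exact Finset.sum_congr rfl fun c _ => by ring

/-- the Lyapunov function -/
noncomputable def Psi (G : SimpleGraph V) (K : Finset V) (χ : V → Fin s) (φ ψ : V → ℝ) (γ B : ℝ)
    (x : Config V s) : ℝ :=
  ZZ K χ x / SS χ φ x ^ 2 + (-1) + γ * (YY G K x / SS χ φ x ^ 2) + LL G K ψ x / SS χ φ x +
    B * (1 / SS χ φ x)

lemma Pop_Psi (γ B : ℝ) {x : Config V s} (hx : Good x) :
    Pop G (Psi G K χ φ ψ γ B) x = Pop G (fun y => ZZ K χ y / SS χ φ y ^ 2) x + (-1) +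
      γ * Pop G (fun y => YY G K y / SS χ φ y ^ 2) x + Pop G (fun y => LL G K ψ y / SS χ φ y) x +
      B * Pop G (fun y => 1 / SS χ φ y) x := by
  have h1 : Psi G K χ φ ψ γ B = fun y => (((ZZ K χ y / SS χ φ y ^ 2 + (-1)) +
      γ * (YY G K y / SS χ φ y ^ 2)) + LL G K ψ y / SS χ φ y) + B * (1 / SS χ φ y) := by
    funext y
    rfl
  rw [h1, Pop_add, Pop_add, Pop_add, Pop_add, Pop_mul, Pop_mul, Pop_const G (-1) hx.2]

lemma mem_touched {z : V} : z ∈ touched G K ↔ z ∉ K ∧ ∃ u ∈ K, G.Adj z u := by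
  simp only [touched, Finset.mem_filter, Finset.mem_univ, true_and]

lemma mem_untouched {z : V} : z ∈ untouched G K ↔ z ∉ K ∧ ∀ u ∈ K, ¬ G.Adj z u := by
  simp only [untouched, Finset.mem_filter, Finset.mem_univ, true_and]

lemma qq_nonneg (x : Config V s) : 0 ≤ qq G K x := Finset.sum_nonneg fun _ _ => nn_nonneg x _

lemma YY_nonneg (x : Config V s) : 0 ≤ YY G K x := Finset.sum_nonneg fun _ _ => sq_nonneg _

lemma LL_nonneg (hψ : ∀ u, u ∉ K → (∀ v ∈ K, ¬ G.Adj u v) → 0 < ψ u) (x : Config V s) :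
    0 ≤ LL G K ψ x := by
  unfold LL
  refine Finset.sum_nonneg fun u hu => ?_
  rw [mem_untouched] at hu
  exact mul_nonneg (hψ u hu.1 hu.2).le (nn_nonneg x u)

lemma InR_mono {e e' : ℝ} (hee : e ≤ e') {x : Config V s} (hx : InR G K χ φ ψ e x) :
    InR G K χ φ ψ e' x := by
  have hS := hx.S_pos
  refine ⟨hx.good, hS, ?_, ?_, ?_, ?_⟩
  · exact hx.S_large.trans (mul_le_mul_of_nonneg_right hee hS.le)
  · exact hx.Z_le.trans (mul_le_mul_of_nonneg_right (by linarith) (by positivity))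
  · intro z hz
    exact (hx.T_le z hz).trans (mul_le_mul_of_nonneg_right hee hS.le)
  · exact hx.L_le.trans (mul_le_mul_of_nonneg_right hee hS.le)

/-- the initial configuration -/
noncomputable def ini (K : Finset V) (χ : V → Fin s) (φ : V → ℝ) (M : ℝ) : Config V s := by
  classical
  exact fun v d => if v ∈ K ∧ d = χ v then ⌊M * φ v⌋₊ else 0

lemma ini_in (M : ℝ) {v : V} (hv : v ∈ K) : ini K χ φ M v (χ v) = ⌊M * φ v⌋₊ := by
  classical
  unfold ini
  rw [if_pos ⟨hv, rfl⟩]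

lemma ini_out (M : ℝ) {v : V} (hv : v ∉ K) (d : Fin s) : ini K χ φ M v d = 0 := by
  classical
  unfold ini
  rw [if_neg (fun h => hv h.1)]

lemma ini_col (M : ℝ) {v : V} {d : Fin s} (hd : d ≠ χ v) : ini K χ φ M v d = 0 := by
  classical
  unfold ini
  rw [if_neg (fun h => hd h.2)]

lemma ini_nn (M : ℝ) {v : V} (hv : v ∈ K) : nn (ini K χ φ M) v = (⌊M * φ v⌋₊ : ℝ) := by
  classical
  unfold nn
  rw [Finset.sum_eq_single (χ v)]
  · rw [ini_in M hv]
  · intro d _ hd
    rw [ini_col M hd, Nat.cast_zero]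
  · intro h
    exact absurd (mem_univ _) h

lemma ini_nn0 (M : ℝ) {v : V} (hv : v ∉ K) : nn (ini K χ φ M) v = 0 := by
  unfold nn
  exact Finset.sum_eq_zero fun d _ => by rw [ini_out M hv, Nat.cast_zero]

lemma ini_xi (M : ℝ) {v : V} (hv : v ∈ K) : xi χ (ini K χ φ M) v = (⌊M * φ v⌋₊ : ℝ) := by
  unfold xi
  rw [ini_nn M hv, ini_in M hv]
  ring

lemma ini_mono (M : ℝ) : UrnsMono (ini K χ φ M) := by
  intro v c d hc hd
  have h1 : c = χ v := by
    by_contra hne
    rw [ini_col M hne] at hc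
    exact absurd hc (lt_irrefl 0)
  have h2 : d = χ v := by
    by_contra hne
    rw [ini_col M hne] at hd
    exact absurd hd (lt_irrefl 0)
  rw [h1, h2]

lemma ini_S (h : IsSBC G K χ φ μ) (hφ : ∑ v, φ v ^ 2 = 1) {M : ℝ} (hM : 0 ≤ M) :
    M - ∑ v ∈ K, φ v ≤ SS χ φ (ini K χ φ M) := by
  rw [SS_K h]
  have h1 : M - ∑ v ∈ K, φ v = ∑ v ∈ K, (M * φ v ^ 2 - φ v) := by
    rw [Finset.sum_sub_distrib, ← Finset.mul_sum, sq_K h hφ, mul_one]
  rw [h1]
  refine Finset.sum_le_sum fun v hv => ?_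
  rw [ini_xi M hv]
  have h2 := h.φ_pos v hv
  have h3 := Nat.lt_floor_add_one (M * φ v)
  nlinarith

lemma ini_Z (h : IsSBC G K χ φ μ) (hφ : ∑ v, φ v ^ 2 = 1) {M : ℝ} (hM : 0 ≤ M) :
    ZZ K χ (ini K χ φ M) ≤ M ^ 2 := by
  unfold ZZ
  have h1 : M ^ 2 = ∑ v ∈ K, M ^ 2 * φ v ^ 2 := by
    rw [← Finset.mul_sum, sq_K h hφ, mul_one]
  rw [h1]
  refine Finset.sum_le_sum fun v hv => ?_
  rw [ini_xi M hv, ← mul_pow]
  have h2 := h.φ_pos v hv
  exact pow_le_pow_left₀ (Nat.cast_nonneg _) (Nat.floor_le (by positivity)) 2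

lemma ini_Y (M : ℝ) : YY G K (ini K χ φ M) = 0 := by
  unfold YY
  refine Finset.sum_eq_zero fun z hz => ?_
  rw [mem_touched] at hz
  rw [ini_nn0 M hz.1]
  norm_num

lemma ini_L (M : ℝ) : LL G K ψ (ini K χ φ M) = 0 := by
  unfold LL
  refine Finset.sum_eq_zero fun z hz => ?_
  rw [mem_untouched] at hz
  rw [ini_nn0 M hz.1, mul_zero]

/-- the Lyapunov function is small at the initial configuration -/
lemma ini_small (h : IsSBC G K χ φ μ) (hφ : ∑ v, φ v ^ 2 = 1) (γ : ℝ) {B e : ℝ} (hB : 0 ≤ B)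
    (he : 0 < e) : ∃ M : ℝ, 0 ≤ M ∧ 0 < SS χ φ (ini K χ φ M) ∧
      Psi G K χ φ ψ γ B (ini K χ φ M) < e := by
  obtain ⟨F, hF⟩ : ∃ F : ℝ, F = ∑ v ∈ K, φ v := ⟨_, rfl⟩
  have hF0 : 0 ≤ F := by
    rw [hF]
    exact Finset.sum_nonneg fun v _ => φ_nonneg h v
  -- choose `T = M - F` with `(1 + F / T) ^ 2 - 1 + B / T < e`
  obtain ⟨T, hT⟩ : ∃ T : ℝ, T = (2 * F + F ^ 2 + B) / e + 1 := ⟨_, rfl⟩
  have hT1 : 1 ≤ T := by
    rw [hT]
    have : 0 ≤ (2 * F + F ^ 2 + B) / e := by positivity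
    linarith
  have hT2 : 2 * F + F ^ 2 + B < e * T := by
    rw [hT, mul_add, mul_div_cancel₀ _ he.ne', mul_one]
    linarith
  have hT0 : 0 < T := by linarith
  have hM0 : 0 ≤ T + F := by linarith
  have hS := ini_S h hφ hM0
  rw [← hF, add_sub_cancel_right] at hS
  have hZ := ini_Z h hφ hM0
  obtain ⟨S, hSd⟩ : ∃ S : ℝ, S = SS χ φ (ini K χ φ (T + F)) := ⟨_, rfl⟩
  rw [← hSd] at hS
  have hS0 : 0 < S := by linarith
  refine ⟨T + F, hM0, by rw [← hSd]; exact hS0, ?_⟩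
  unfold Psi
  rw [ini_Y, ini_L, ← hSd, zero_div, zero_div, mul_zero, add_zero, add_zero]
  have h1 : ZZ K χ (ini K χ φ (T + F)) / S ^ 2 ≤ (T + F) ^ 2 / T ^ 2 := by
    apply div_le_div₀ (by positivity) hZ (by positivity)
    exact pow_le_pow_left₀ hT0.le hS 2
  have h2 : B * (1 / S) ≤ B * (1 / T) := by
    apply mul_le_mul_of_nonneg_left _ hB
    exact one_div_le_one_div_of_le hT0 hS
  have h3 : (T + F) ^ 2 / T ^ 2 + (-1) + B * (1 / T) < e := by
    have e1 : (T + F) ^ 2 / T ^ 2 + (-1) + B * (1 / T) = (2 * F * T + F ^ 2 + B * T) / T ^ 2 := by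
      field_simp
      ring
    rw [e1, div_lt_iff₀ (by positivity)]
    have h4 : F ^ 2 ≤ F ^ 2 * T := by nlinarith [sq_nonneg F]
    have h5 : (2 * F + F ^ 2 + B) * T < (e * T) * T := mul_lt_mul_of_pos_right hT2 hT0
    nlinarith
  linarith

/-- The core: a Lyapunov function gives coexistence. -/
theorem core (h : IsSBC G K χ φ μ) (hφ : ∑ v, φ v ^ 2 = 1)
    (hψ : ∀ u, u ∉ K → (∀ v ∈ K, ¬ G.Adj u v) → 0 < ψ u)
    (H1 : ∃ C ε : ℝ, 0 < C ∧ 0 < ε ∧ ε ≤ 1 ∧ ∀ x : Config V s, InR G K χ φ ψ ε x →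
      Pop G (fun y => ZZ K χ y / SS χ φ y ^ 2) x ≤
        ZZ K χ x / SS χ φ x ^ 2 + C * (1 + qq G K x) / SS χ φ x ^ 2)
    (H2 : ∃ κ C ε : ℝ, 0 < κ ∧ 0 < C ∧ 0 < ε ∧ ε ≤ 1 ∧ ∀ x : Config V s, InR G K χ φ ψ ε x →
      Pop G (fun y => YY G K y / SS χ φ y ^ 2) x ≤
        YY G K x / SS χ φ x ^ 2 + (C - κ * qq G K x) / SS χ φ x ^ 2)
    (H3 : ∃ C ε : ℝ, 0 < C ∧ 0 < ε ∧ ε ≤ 1 ∧ ∀ x : Config V s, InR G K χ φ ψ ε x →
      Pop G (fun y => LL G K ψ y / SS χ φ y) x ≤
        LL G K ψ x / SS χ φ x + C * (1 + qq G K x) / SS χ φ x ^ 2)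
    (H4 : ∃ c C ε : ℝ, 0 < c ∧ 0 < C ∧ 0 < ε ∧ ε ≤ 1 ∧ ∀ x : Config V s, InR G K χ φ ψ ε x →
      Pop G (fun y => 1 / SS χ φ y) x ≤
        1 / SS χ φ x - c / SS χ φ x ^ 2 + C * (1 + qq G K x) / SS χ φ x ^ 3) :
    ¬ InClass G s := by
  classical
  obtain ⟨C1, ε1, hC1, hε1, hε1', H1⟩ := H1
  obtain ⟨κ, C2, ε2, hκ, hC2, hε2, hε2', H2⟩ := H2
  obtain ⟨C3, ε3, hC3, hε3, hε3', H3⟩ := H3
  obtain ⟨c, C4, ε4, hc, hC4, hε4, hε4', H4⟩ := H4
  obtain ⟨u₁, hu₁, u₂, hu₂, hu⟩ := h.two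
  have hp1 := h.φ_pos u₁ hu₁
  have hp2 := h.φ_pos u₂ hu₂
  -- constants
  obtain ⟨γ, hγ⟩ : ∃ γ : ℝ, γ = (C1 + C3 + 1) / κ + 1 := ⟨_, rfl⟩
  have hγ1 : 1 ≤ γ := by
    rw [hγ]
    have : 0 ≤ (C1 + C3 + 1) / κ := by positivity
    linarith
  have hγκ : C1 + C3 + 1 ≤ γ * κ := by
    rw [hγ, add_mul, div_mul_cancel₀ _ hκ.ne']
    linarith
  obtain ⟨B, hB⟩ : ∃ B : ℝ, B = (C1 + C3 + γ * C2 + 1) / c + 1 := ⟨_, rfl⟩
  have hB1 : 1 ≤ B := by
    rw [hB]
    have : 0 ≤ (C1 + C3 + γ * C2 + 1) / c := by positivity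
    linarith
  have hBc : C1 + C3 + γ * C2 + 1 ≤ B * c := by
    rw [hB, add_mul, div_mul_cancel₀ _ hc.ne']
    linarith
  obtain ⟨ε0, hε0d⟩ : ∃ ε0 : ℝ, ε0 = min (min ε1 ε2) (min ε3 ε4) := ⟨_, rfl⟩
  have hε0 : 0 < ε0 := by
    rw [hε0d]
    exact lt_min (lt_min hε1 hε2) (lt_min hε3 hε4)
  have h01 : ε0 ≤ ε1 := by rw [hε0d]; exact (min_le_left _ _).trans (min_le_left _ _)
  have h02 : ε0 ≤ ε2 := by rw [hε0d]; exact (min_le_left _ _).trans (min_le_right _ _)
  have h03 : ε0 ≤ ε3 := by rw [hε0d]; exact (min_le_right _ _).trans (min_le_left _ _)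
  have h04 : ε0 ≤ ε4 := by rw [hε0d]; exact (min_le_right _ _).trans (min_le_right _ _)
  have h0le : ε0 ≤ 1 := h01.trans hε1'
  obtain ⟨F, hF⟩ : ∃ F : ℝ, F = ∑ v, φ v := ⟨_, rfl⟩
  have hF0 : 0 ≤ F := by
    rw [hF]
    exact Finset.sum_nonneg fun v _ => φ_nonneg h v
  obtain ⟨e, hed⟩ : ∃ e : ℝ, e = min (min (ε0 ^ 2) (1 / C4)) (min (1 / (F + 1))
    (min (φ u₁ ^ 2 / 2) (φ u₂ ^ 2 / 2))) := ⟨_, rfl⟩
  have he : 0 < e := by
    rw [hed]
    refine lt_min (lt_min (by positivity) (by positivity)) (lt_min (by positivity)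
      (lt_min (by positivity) (by positivity)))
  have he1 : e ≤ ε0 ^ 2 := by rw [hed]; exact (min_le_left _ _).trans (min_le_left _ _)
  have he2 : e ≤ 1 / C4 := by rw [hed]; exact (min_le_left _ _).trans (min_le_right _ _)
  have he3 : e ≤ 1 / (F + 1) := by rw [hed]; exact (min_le_right _ _).trans (min_le_left _ _)
  have he4 : e ≤ φ u₁ ^ 2 / 2 := by
    rw [hed]
    exact (min_le_right _ _).trans ((min_le_right _ _).trans (min_le_left _ _))
  have he5 : e ≤ φ u₂ ^ 2 / 2 := by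
    rw [hed]
    exact (min_le_right _ _).trans ((min_le_right _ _).trans (min_le_right _ _))
  have he0 : e ≤ ε0 := by nlinarith
  -- the region
  obtain ⟨R, hR⟩ : ∃ R : Set (Config V s), R = {x | Good x ∧ 0 < SS χ φ x ∧
    Psi G K χ φ ψ γ B x < e} := ⟨_, rfl⟩
  have hRm : ∀ x, x ∈ R ↔ Good x ∧ 0 < SS χ φ x ∧ Psi G K χ φ ψ γ B x < e := by
    intro x
    rw [hR]
    rfl
  have hparts : ∀ x : Config V s, 0 < SS χ φ x →
      0 ≤ ZZ K χ x / SS χ φ x ^ 2 + (-1) ∧ 0 ≤ γ * (YY G K x / SS χ φ x ^ 2) ∧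
      0 ≤ LL G K ψ x / SS χ φ x ∧ 0 ≤ B * (1 / SS χ φ x) := by
    intro x hS
    refine ⟨?_, ?_, ?_, ?_⟩
    · have h1 := Z_ge h hφ x
      have h2 : 1 ≤ ZZ K χ x / SS χ φ x ^ 2 := by
        rw [one_le_div (by positivity)]
        exact h1
      linarith
    · have := YY_nonneg (G := G) (K := K) x
      positivity
    · exact div_nonneg (LL_nonneg hψ x) hS.le
    · positivity
  have hPsi0 : ∀ x : Config V s, 0 < SS χ φ x → 0 ≤ Psi G K χ φ ψ γ B x := by
    intro x hS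
    obtain ⟨a1, a2, a3, a4⟩ := hparts x hS
    unfold Psi
    linarith
  have hbounds : ∀ x ∈ R, 1 ≤ e * SS χ φ x ∧ B * (1 / SS χ φ x) ≤ e ∧ InR G K χ φ ψ ε0 x ∧
      ZZ K χ x ≤ (1 + e) * SS χ φ x ^ 2 := by
    intro x hx
    rw [hRm] at hx
    obtain ⟨hg, hS, hΨ⟩ := hx
    obtain ⟨a1, a2, a3, a4⟩ := hparts x hS
    unfold Psi at hΨ
    have b1 : ZZ K χ x / SS χ φ x ^ 2 ≤ 1 + e := by linarith
    have b2 : γ * (YY G K x / SS χ φ x ^ 2) ≤ e := by linarith
    have b3 : LL G K ψ x / SS χ φ x ≤ e := by linarith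
    have b4 : B * (1 / SS χ φ x) ≤ e := by linarith
    have c1 : ZZ K χ x ≤ (1 + e) * SS χ φ x ^ 2 := by
      rwa [div_le_iff₀ (by positivity)] at b1
    have c3 : LL G K ψ x ≤ e * SS χ φ x := by rwa [div_le_iff₀ hS] at b3
    have c4 : 1 ≤ e * SS χ φ x := by
      rw [mul_one_div, div_le_iff₀ hS] at b4
      linarith
    have hSq : 0 < SS χ φ x ^ 2 := by positivity
    have c2 : YY G K x ≤ ε0 ^ 2 * SS χ φ x ^ 2 := by
      have h1 : YY G K x / SS χ φ x ^ 2 ≤ e := by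
        have h2 : 0 ≤ YY G K x / SS χ φ x ^ 2 := div_nonneg (YY_nonneg x) hSq.le
        nlinarith
      rw [div_le_iff₀ hSq] at h1
      exact h1.trans (mul_le_mul_of_nonneg_right he1 hSq.le)
    refine ⟨c4, b4, ⟨hg, hS, ?_, ?_, ?_, ?_⟩, c1⟩
    · exact c4.trans (mul_le_mul_of_nonneg_right he0 hS.le)
    · exact c1.trans (mul_le_mul_of_nonneg_right (by linarith) hSq.le)
    · intro z hz
      have h1 : nn x z ^ 2 ≤ YY G K x :=
        Finset.single_le_sum (f := fun z => nn x z ^ 2) (fun _ _ => sq_nonneg _) hz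
      have h2 : nn x z ^ 2 ≤ (ε0 * SS χ φ x) ^ 2 := by
        rw [mul_pow]
        exact h1.trans c2
      exact le_of_sq_le_sq h2 (by positivity)
    · exact c3.trans (mul_le_mul_of_nonneg_right he0 hS.le)
  -- the drift
  have hdrift : ∀ x ∈ R, Pop G (Psi G K χ φ ψ γ B) x ≤ Psi G K χ φ ψ γ B x := by
    intro x hx
    obtain ⟨d1, d2, d3, -⟩ := hbounds x hx
    have hg := d3.good
    have hS := d3.S_pos
    rw [Pop_Psi γ B hg]
    have i1 := H1 x (InR_mono h01 d3)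
    have i2 := H2 x (InR_mono h02 d3)
    have i3 := H3 x (InR_mono h03 d3)
    have i4 := H4 x (InR_mono h04 d3)
    unfold Psi
    set S := SS χ φ x with hSd
    set Q := qq G K x with hQd
    have hQ : 0 ≤ Q := qq_nonneg x
    have j2 := mul_le_mul_of_nonneg_left i2 (by linarith : (0:ℝ) ≤ γ)
    have j4 := mul_le_mul_of_nonneg_left i4 (by linarith : (0:ℝ) ≤ B)
    have hS2 : 0 < S ^ 2 := by positivity
    -- the error term
    have k1 : B * (C4 * (1 + Q) / S ^ 3) ≤ (1 + Q) / S ^ 2 := by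
      have k2 : B * (C4 * (1 + Q) / S ^ 3) = (B * (1 / S)) * C4 * ((1 + Q) / S ^ 2) := by
        field_simp
      rw [k2]
      have k3 : B * (1 / S) * C4 ≤ 1 := by
        have k4 : B * (1 / S) * C4 ≤ (1 / C4) * C4 :=
          mul_le_mul_of_nonneg_right (d2.trans he2) hC4.le
        rwa [one_div_mul_cancel hC4.ne'] at k4
      have k5 : 0 ≤ (1 + Q) / S ^ 2 := by positivity
      calc B * (1 / S) * C4 * ((1 + Q) / S ^ 2) ≤ 1 * ((1 + Q) / S ^ 2) :=
            mul_le_mul_of_nonneg_right k3 k5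
        _ = (1 + Q) / S ^ 2 := one_mul _
    have k6 : C1 * (1 + Q) / S ^ 2 + γ * ((C2 - κ * Q) / S ^ 2) + C3 * (1 + Q) / S ^ 2 +
        B * (- (c / S ^ 2)) + (1 + Q) / S ^ 2 ≤ 0 := by
      have k7 : C1 * (1 + Q) / S ^ 2 + γ * ((C2 - κ * Q) / S ^ 2) + C3 * (1 + Q) / S ^ 2 +
        B * (- (c / S ^ 2)) + (1 + Q) / S ^ 2 =
        -(((B * c - (C1 + C3 + γ * C2 + 1)) + Q * (γ * κ - (C1 + C3 + 1))) / S ^ 2) := by
        ring
      rw [k7, neg_nonpos]
      apply div_nonneg _ hS2.le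
      have := mul_nonneg hQ (by linarith : 0 ≤ γ * κ - (C1 + C3 + 1))
      linarith
    linarith
  -- positivity of `S` after one step
  have hstepS : ∀ x ∈ R, ∀ v c, 0 < SS χ φ (step G x v c) := by
    intro x hx v c
    obtain ⟨d1, -, d3, -⟩ := hbounds x hx
    have h1 := SS_step (G := G) (χ := χ) (φ_nonneg h) d3.good v c
    rw [← hF] at h1
    have h2 : F + 1 ≤ SS χ φ x := by
      have h3 : e * SS χ φ x ≤ 1 / (F + 1) * SS χ φ x :=
        mul_le_mul_of_nonneg_right he3 d3.S_pos.le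
      have h4 : 1 ≤ 1 / (F + 1) * SS χ φ x := d1.trans h3
      rw [one_div, inv_mul_eq_div, le_div_iff₀ (by linarith)] at h4
      linarith
    linarith
  -- the iteration
  obtain ⟨a, ha0, haS⟩ : ∃ a : ℕ → Config V s → ℝ, (a 0 = fun x => if x ∈ R then 1 else 0) ∧
      ∀ t, a (t + 1) = fun x => if x ∈ R then Pop G (a t) x else 0 :=
    ⟨fun t => Nat.rec (fun x => if x ∈ R then 1 else 0)
      (fun _ f x => if x ∈ R then Pop G f x else 0) t, rfl, fun t => rfl⟩
  have hlow : ∀ t, ∀ x, Good x → 0 < SS χ φ x → 1 - (1 / e) * Psi G K χ φ ψ γ B x ≤ a t x := by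
    intro t
    induction t with
    | zero =>
      intro x hg hS
      rw [ha0]
      have h0 := hPsi0 x hS
      by_cases hx : x ∈ R
      · simp only [if_pos hx]
        have : 0 ≤ (1 / e) * Psi G K χ φ ψ γ B x := by positivity
        linarith
      · simp only [if_neg hx]
        have h1 : e ≤ Psi G K χ φ ψ γ B x := by
          by_contra hcon
          exact hx ((hRm x).2 ⟨hg, hS, not_le.1 hcon⟩)
        have h2 : 1 ≤ (1 / e) * Psi G K χ φ ψ γ B x := by
          rw [one_div, inv_mul_eq_div, one_le_div he]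
          exact h1
        linarith
    | succ t ih =>
      intro x hg hS
      rw [haS t]
      by_cases hx : x ∈ R
      · simp only [if_pos hx]
        have h1 : Pop G (fun y => 1 + (-(1 / e)) * Psi G K χ φ ψ γ B y) x ≤ Pop G (a t) x := by
          apply Pop_le
          intro v c hv
          have := ih (step G x v c) (step_good G hg hv) (hstepS x hx v c)
          linarith
        have h2 : Pop G (fun y => 1 + (-(1 / e)) * Psi G K χ φ ψ γ B y) x =
            1 + (-(1 / e)) * Pop G (Psi G K χ φ ψ γ B) x := by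
          rw [Pop_add (G := G) (fun _ => (1 : ℝ)) (fun y => (-(1 / e)) * Psi G K χ φ ψ γ B y) x,
            Pop_const G 1 hg.2, Pop_mul]
        rw [h2] at h1
        have h3 := hdrift x hx
        have h4 : (1 / e) * Pop G (Psi G K χ φ ψ γ B) x ≤ (1 / e) * Psi G K χ φ ψ γ B x :=
          mul_le_mul_of_nonneg_left h3 (by positivity)
        linarith
      · simp only [if_neg hx]
        have h1 : e ≤ Psi G K χ φ ψ γ B x := by
          by_contra hcon
          exact hx ((hRm x).2 ⟨hg, hS, not_le.1 hcon⟩)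
        have h2 : 1 ≤ (1 / e) * Psi G K χ φ ψ γ B x := by
          rw [one_div, inv_mul_eq_div, one_le_div he]
          exact h1
        linarith
  -- the initial configuration
  obtain ⟨M, hM0, hSM, hΨM⟩ := ini_small (G := G) (K := K) (χ := χ) (ψ := ψ) h hφ γ
    (B := B) (e := e / 2) (by linarith) (by linarith)
  obtain ⟨x₀, hx₀⟩ : ∃ x₀ : Config V s, x₀ = ini K χ φ M := ⟨_, rfl⟩
  rw [← hx₀] at hSM hΨM
  have hgood : Good x₀ := by
    refine ⟨by rw [hx₀]; exact ini_mono M, ?_⟩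
    by_contra hcon
    have h1 : ∀ v c, x₀ v c = 0 := by
      intro v c
      by_contra hne
      exact hcon ((total_pos_iff x₀).2 ⟨v, c, Nat.pos_of_ne_zero hne⟩)
    have h2 : SS χ φ x₀ = 0 := by
      unfold SS xi nn
      simp only [h1, Nat.cast_zero, Finset.sum_const_zero, mul_zero, sub_zero]
    linarith
  have hx₀R : ∀ t, 1 / 2 ≤ a t x₀ := by
    intro t
    have h1 := hlow t x₀ hgood hSM
    have h2 : (1 / e) * Psi G K χ φ ψ γ B x₀ ≤ (1 / e) * (e / 2) :=
      mul_le_mul_of_nonneg_left hΨM.le (by positivity)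
    have h3 : (1 / e) * (e / 2) = 1 / 2 := by field_simp
    linarith
  -- the process
  intro hcl
  obtain ⟨Ω, mΩ, P, X, hP, hX⟩ := exists_process G x₀ hgood
  have hae := hcl x₀ hgood.1 hgood.2 Ω P X hX
  have hint := fun t => integral_iter G P hgood hX R a
    (fun x hx => by rw [ha0]; simp only [if_pos hx])
    (fun x hx => by rw [ha0]; simp only [if_neg hx])
    (fun t x hx => by rw [haS t]; simp only [if_pos hx])
    (fun t x hx => by rw [haS t]; simp only [if_neg hx]) t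
  have hcount : Countable (Config V s) := inferInstance
  have hmeasR : ∀ i, MeasurableSet {ω | X i ω ∈ R} := by
    intro i
    have : {ω | X i ω ∈ R} = ⋃ y ∈ R, {ω | X i ω = y} := by
      ext ω
      simp only [Set.mem_ofPred_eq, Set.mem_iUnion, exists_prop, exists_eq_right']
    rw [this]
    exact MeasurableSet.biUnion (Set.to_countable R) fun y _ => hX.meas i y
  have hmeas : ∀ t, MeasurableSet {ω | ∀ i, i ≤ t → X i ω ∈ R} := by
    intro t
    have : {ω | ∀ i, i ≤ t → X i ω ∈ R} = ⋂ i, ⋂ (_ : i ≤ t), {ω | X i ω ∈ R} := by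
      ext ω
      simp only [Set.mem_ofPred_eq, Set.mem_iInter]
    rw [this]
    exact MeasurableSet.iInter fun i => MeasurableSet.iInter fun _ => hmeasR i
  -- the event that the process never leaves the region
  have hall : ENNReal.ofReal (1 / 2) ≤ P (⋂ t, {ω | ∀ i, i ≤ t → X i ω ∈ R}) := by
    have h1 : Filter.Tendsto (fun t => P {ω | ∀ i, i ≤ t → X i ω ∈ R}) Filter.atTop
        (nhds (P (⋂ t, {ω | ∀ i, i ≤ t → X i ω ∈ R}))) := by
      apply tendsto_measure_iInter_atTop (fun t => (hmeas t).nullMeasurableSet)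
      · intro t t' htt ω hω i hi
        exact hω i (hi.trans htt)
      · exact ⟨0, measure_ne_top _ _⟩
    refine ge_of_tendsto' h1 fun t => ?_
    have h2 := hint t
    have h3 : P {ω | ∀ i, i ≤ t → X i ω ∈ R} =
        ENNReal.ofReal (P.real {ω | ∀ i, i ≤ t → X i ω ∈ R}) := by
      rw [Measure.real, ENNReal.ofReal_toReal (measure_ne_top _ _)]
    rw [h3, h2]
    exact ENNReal.ofReal_le_ofReal (hx₀R t)
  have hpos : 0 < P (⋂ t, {ω | ∀ i, i ≤ t → X i ω ∈ R}) :=
    lt_of_lt_of_le (ENNReal.ofReal_pos.2 (by norm_num)) hall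
  -- on this event two colours survive
  have hbad : (⋂ t, {ω | ∀ i, i ≤ t → X i ω ∈ R}) ⊆ {ω | ¬ ∃! c, Survives X ω c} := by
    intro ω hω hex
    rw [Set.mem_iInter] at hω
    have hin : ∀ i, X i ω ∈ R := fun i => hω i i le_rfl
    have hs : ∀ v ∈ K, e < φ v ^ 2 → Survives X ω (χ v) := by
      intro v hv hev n
      refine ⟨n, le_rfl, v, ?_⟩
      obtain ⟨-, -, d3, d4⟩ := hbounds _ (hin n)
      exact present h hφ d3.S_pos d4 hv hev
    have s1 := hs u₁ hu₁ (by nlinarith)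
    have s2 := hs u₂ hu₂ (by nlinarith)
    exact hu (hex.unique s1 s2)
  have hzero : P {ω | ¬ ∃! c, Survives X ω c} = 0 := hae
  have := measure_mono (μ := P) hbad
  rw [hzero] at this
  exact absurd (lt_of_lt_of_le hpos this) (lt_irrefl 0)

/-- scaling the eigenvector -/
theorem scale (h : IsSBC G K χ φ μ) {r : ℝ} (hr : 0 < r) :
    IsSBC G K χ (fun v => r * φ v) μ := by
  classical
  have key : ∀ (p : V → Prop) [DecidablePred p], (∑ u, if p u then r * φ u else 0) =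
      r * ∑ u, if p u then φ u else 0 := by
    intro p _
    rw [Finset.mul_sum]
    refine Finset.sum_congr rfl fun u _ => ?_
    split_ifs <;> simp
  refine ⟨h.μ_pos, fun v hv => mul_pos hr (h.φ_pos v hv), fun v hv => by
    simp only [h.φ_out v hv, mul_zero], ?_, h.same, h.two, ?_, h.out⟩
  · intro v hv
    have h1 := h.eig v hv
    rw [key, h1]
    ring
  · intro z hz hex c
    have h1 := h.bal z hz hex c
    rw [key, key]
    have h2 := mul_lt_mul_of_pos_left h1 hr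
    linarith

theorem normal (h : IsSBC G K χ φ μ) : ∃ φ' : V → ℝ, IsSBC G K χ φ' μ ∧ ∑ v, φ' v ^ 2 = 1 := by
  obtain ⟨u₁, hu₁, -⟩ := h.two
  have hp := h.φ_pos u₁ hu₁
  have hs : 0 < ∑ v, φ v ^ 2 := by
    have : φ u₁ ^ 2 ≤ ∑ v, φ v ^ 2 :=
      Finset.single_le_sum (f := fun v => φ v ^ 2) (fun _ _ => sq_nonneg _) (mem_univ u₁)
    have h2 : 0 < φ u₁ ^ 2 := by positivity
    linarith
  have hsq : 0 < √(∑ v, φ v ^ 2) := Real.sqrt_pos.2 hs
  refine ⟨fun v => (√(∑ v, φ v ^ 2))⁻¹ * φ v, scale h (inv_pos.2 hsq), ?_⟩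
  simp only [mul_pow]
  rw [← Finset.mul_sum, inv_pow, Real.sq_sqrt hs.le, inv_mul_cancel₀ hs.ne']

end SbcMain

end Pool.Agent.TH996.Urn
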